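import Pool.Agent.P.MP_746f10_nt.UC.Defs
import Pool.Agent.P.MP_0ad054_nt.Chen.BV2

/-! The large conductor part of the Bombieri-Vinogradov theorem. -/

namespace Pool.Agent.P.MP_746f10_nt.UC

open Finset Complex DirichletCharacter
open Pool.Agent.P.MP_0ad054_nt
open scoped ArithmeticFunction.vonMangoldt ArithmeticFunction.Moebius

namespace Big0P

open An.BVP (tw prim half_le_log natLog_le)
open Chen.BV2P (ca change_apply norm_ca_le ca_ne)

open Classical in
/-- the contribution of the characters of large conductor -/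
noncomputable def GG (X R : ℕ) (g : ℕ → ℝ) (e : ℕ) : ℝ :=
  1 / (e.totient : ℝ) * ∑ χ ∈ univ.filter (fun χ : DirichletCharacter ℂ e => R < χ.conductor),
    ‖tw X (fun n => g n) χ‖

theorem GG_nonneg (X R : ℕ) (g : ℕ → ℝ) (e : ℕ) : 0 ≤ GG X R g e := by
  unfold GG
  positivity

theorem tw_ch {r d : ℕ} (h : r ∣ d) (χ : DirichletCharacter ℂ r) (X : ℕ) (g : ℕ → ℝ) :
    tw X (fun n => g n) (changeLevel h χ) = tw X (ca g (d / r)) χ := by
  refine sum_congr rfl fun n _ => ?_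
  rw [change_apply, ca]
  split_ifs <;> simp

theorem orth_ap {k : ℕ} (hk : k ≠ 0) {r r' : ℕ} (h : r * r' ≡ 1 [MOD k]) (X : ℕ) (a : ℕ → ℂ) :
    (k.totient : ℂ) * ∑ m ∈ (Icc 1 X).filter (fun m => m ≡ r [MOD k]), a m =
      ∑ χ : DirichletCharacter ℂ k, χ r' * tw X a χ := by
  have : NeZero k := ⟨hk⟩
  have h1 : (r : ZMod k) * r' = 1 := by
    have := (ZMod.natCast_eq_natCast_iff _ _ _).2 h
    simpa using this
  have hu : IsUnit (r : ZMod k) := IsUnit.of_mul_eq_one _ h1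
  rw [← ZMod.inv_eq_of_mul_eq_one k _ _ h1]
  simp only [tw, mul_sum, sum_filter]
  rw [sum_comm]
  refine sum_congr rfl fun n _ => ?_
  simp only [mul_left_comm _ (a n), ← mul_sum, sum_char_inv_mul_char_eq ℂ hu,
    ZMod.natCast_eq_natCast_iff]
  by_cases h2 : n ≡ r [MOD k]
  · rw [if_pos h2, if_pos h2.symm, mul_comm]
  · rw [if_neg h2, if_neg fun h3 => h2 h3.symm, mul_zero, mul_zero]

theorem cond_gt {s d R : ℕ} (hs : s * d ≠ 0) (hp : ∀ p, p.Prime → p ∣ d → R < p)
    (χ : DirichletCharacter ℂ (s * d))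
    (h : ∀ ψ : DirichletCharacter ℂ s, changeLevel (Nat.dvd_mul_right s d) ψ ≠ χ) :
    R < χ.conductor := by
  have : NeZero (s * d) := ⟨hs⟩
  by_contra h1
  have h2 : χ.conductor.Coprime d := by
    refine Nat.coprime_of_dvd fun p hp1 hp2 hp3 => ?_
    have := Nat.le_of_dvd (Nat.pos_of_ne_zero (conductor_ne_zero χ)) hp2
    have := hp p hp1 hp3
    omega
  have h3 : χ.conductor ∣ s := h2.dvd_of_dvd_mul_right (conductor_dvd_level χ)
  refine h (changeLevel h3 χ.primitiveCharacter) ?_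
  rw [← changeLevel_trans, changeLevel_primitiveCharacter]

theorem ptw {X R s d r : ℕ} (g : ℕ → ℝ) (hs : 1 ≤ s) (hd : 1 ≤ d) (hsd : s.Coprime d)
    (hp : ∀ p, p.Prime → p ∣ d → R < p) (hr : r.Coprime (s * d)) :
    |∑ m ∈ (Icc 1 X).filter (fun m => m ≡ r [MOD s * d]), g m - 1 / (d.totient : ℝ) *
      ∑ m ∈ (Icc 1 X).filter (fun m => m ≡ r [MOD s] ∧ m.Coprime d), g m| ≤ GG X R g (s * d) := by
  classical
  have h0 : s * d ≠ 0 := by positivity
  have : NeZero (s * d) := ⟨h0⟩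
  obtain ⟨r', -, hr'⟩ : ∃ r' < s * d, r * r' ≡ 1 [MOD s * d] :=
    Nat.exists_mul_mod_eq_of_coprime 1 hr h0
  have c1 : r'.Coprime d := by
    have h1 : (r * r').Coprime (s * d) := by
      rw [Nat.Coprime, hr'.gcd_eq]
      simp
    exact (Nat.Coprime.coprime_mul_left h1).coprime_mul_left_right
  have hφs : (0 : ℝ) < s.totient := by exact_mod_cast Nat.totient_pos.2 hs
  have hφd : (0 : ℝ) < d.totient := by exact_mod_cast Nat.totient_pos.2 hd
  have hφ : (((s * d).totient : ℕ) : ℝ) = s.totient * d.totient := by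
    rw [Nat.totient_mul hsd, Nat.cast_mul]
  have hdiv : s * d / s = d := Nat.mul_div_cancel_left d hs
  have h1 := orth_ap h0 hr' X fun n => g n
  have h2 := orth_ap (by omega : s ≠ 0) (hr'.of_mul_right d) X (ca g d)
  have h3 : ∑ m ∈ (Icc 1 X).filter (fun m => m ≡ r [MOD s]), ca g d m =
      ((∑ m ∈ (Icc 1 X).filter (fun m => m ≡ r [MOD s] ∧ m.Coprime d), g m : ℝ) : ℂ) := by
    rw [← filter_filter, sum_filter (fun m : ℕ => m.Coprime d), ofReal_sum]
    refine sum_congr rfl fun m _ => ?_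
    rw [ca]
    split_ifs <;> simp
  have h4 : ∑ ψ : DirichletCharacter ℂ s, ψ r' * tw X (ca g d) ψ =
      ∑ χ ∈ univ.image (changeLevel (R := ℂ) (Nat.dvd_mul_right s d)),
        χ r' * tw X (fun n => g n) χ := by
    rw [sum_image fun a _ b _ h => changeLevel_injective _ h]
    refine sum_congr rfl fun ψ _ => ?_
    rw [tw_ch, change_apply, hdiv, if_pos c1]
  rw [h3, h4] at h2
  rw [← ofReal_sum, ← sum_sdiff (subset_univ (univ.image
    (changeLevel (R := ℂ) (Nat.dvd_mul_right s d)))), ← h2] at h1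
  have h5 : ‖∑ χ ∈ univ \ univ.image (changeLevel (R := ℂ) (Nat.dvd_mul_right s d)),
      χ r' * tw X (fun n => g n) χ‖ ≤
      ∑ χ ∈ univ.filter (fun χ : DirichletCharacter ℂ (s * d) => R < χ.conductor),
        ‖tw X (fun n => g n) χ‖ := by
    refine (norm_sum_le _ _).trans ((sum_le_sum fun χ _ => (norm_mul_le _ _).trans
      (mul_le_of_le_one_left (norm_nonneg _) (χ.norm_le_one _))).trans
      (sum_le_sum_of_subset_of_nonneg (fun χ hχ => ?_) fun _ _ _ => norm_nonneg _))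
    refine mem_filter.2 ⟨mem_univ _, cond_gt h0 hp χ fun ψ h => (mem_sdiff.1 hχ).2 ?_⟩
    exact mem_image.2 ⟨ψ, mem_univ _, h⟩
  rw [← sub_eq_iff_eq_add.2 h1, ← ofReal_natCast, ← ofReal_natCast, ← ofReal_mul, ← ofReal_mul,
    ← ofReal_sub, Complex.norm_real, Real.norm_eq_abs, hφ] at h5
  unfold GG
  rw [hφ, one_div (_ * _), le_inv_mul_iff₀ (by positivity), ← abs_of_pos (mul_pos hφs hφd),
    ← abs_mul]
  refine le_trans (le_of_eq ?_) h5
  congr 1
  field_simp

/-- sums over primitive characters -/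
noncomputable def PR (X R : ℕ) (g : ℕ → ℝ) (m r : ℕ) : ℝ :=
  if R < r then ∑ χ ∈ prim r, ‖tw X (ca g m) χ‖ else 0

theorem PR_nonneg (X R : ℕ) (g : ℕ → ℝ) (m r : ℕ) : 0 ≤ PR X R g m r := by
  unfold PR
  split_ifs <;> positivity

theorem GG_le (X R : ℕ) (g : ℕ → ℝ) {e : ℕ} (he : e ≠ 0) :
    GG X R g e ≤ 1 / (e.totient : ℝ) * ∑ r ∈ e.divisors, PR X R g (e / r) r := by
  classical
  have : NeZero e := ⟨he⟩
  unfold GG
  refine mul_le_mul_of_nonneg_left ?_ (by positivity)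
  rw [← sum_fiberwise_of_maps_to (t := e.divisors) (g := conductor) fun χ _ =>
    Nat.mem_divisors.2 ⟨conductor_dvd_level χ, he⟩]
  refine sum_le_sum fun r hr => ?_
  have h := Nat.dvd_of_mem_divisors hr
  unfold PR
  split_ifs with h2
  · have h3 : (univ.filter (fun χ : DirichletCharacter ℂ e => R < χ.conductor)).filter
        (fun χ => conductor χ = r) ⊆ (prim r).image (changeLevel h) := fun χ hχ => by
      obtain rfl := (mem_filter.1 hχ).2
      exact mem_image.2 ⟨χ.primitiveCharacter, mem_filter.2 ⟨mem_univ _,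
        χ.primitiveCharacter_isPrimitive⟩, χ.changeLevel_primitiveCharacter⟩
    exact (sum_le_sum_of_subset_of_nonneg h3 fun _ _ _ => norm_nonneg _).trans
      ((sum_image_le_of_nonneg fun _ _ => norm_nonneg _).trans (sum_le_sum fun χ _ =>
        (congrArg norm (tw_ch h χ X g)).le))
  · refine le_of_eq (sum_eq_zero fun χ hχ => ?_)
    rw [mem_filter, mem_filter] at hχ
    omega

theorem sum_PR (X R K m : ℕ) (g : ℕ → ℝ) :
    ∑ r ∈ Icc 1 K, 1 / (r.totient : ℝ) * PR X R g m r =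
      ∑ r ∈ Ioc R K, 1 / (r.totient : ℝ) * ∑ χ ∈ prim r, ‖tw X (ca g m) χ‖ := by
  have e1 : Ioc R K = (Icc 1 K).filter fun r => R < r := by
    ext r
    simp only [mem_Ioc, mem_filter, mem_Icc]
    omega
  rw [e1, sum_filter]
  refine sum_congr rfl fun r _ => ?_
  unfold PR
  split_ifs <;> simp

theorem tw_cv {r : ℕ} (χ : DirichletCharacter ℂ r) (X m : ℕ) (c b : ℕ → ℝ) :
    tw X (ca (cv c b) m) χ =
      ∑ k ∈ Icc 1 X, ca c m k * ∑ l ∈ Icc 1 (X / k), ca b m l * χ (k * l : ℕ) := by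
  have h1 := An.VaughanP.sum_anti X fun k l => ca c m k * (ca b m l * χ (k * l : ℕ))
  simp only [← mul_sum] at h1
  rw [← h1]
  refine sum_congr rfl fun n _ => ?_
  rw [Nat.sum_divisorsAntidiagonal fun k l => ca c m k * (ca b m l * χ (k * l : ℕ))]
  by_cases hn : n.Coprime m
  · rw [ca, if_pos hn, cv, ofReal_sum, sum_mul]
    refine sum_congr rfl fun k hk => ?_
    have hk' := Nat.dvd_of_mem_divisors hk
    rw [Nat.mul_div_cancel' hk', ca, ca, if_pos (hn.coprime_dvd_left hk'),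
      if_pos (hn.coprime_dvd_left (Nat.div_dvd_of_dvd hk')), ofReal_mul, mul_assoc]
  · rw [ca, if_neg hn, zero_mul]
    refine (sum_eq_zero fun k hk => ?_).symm
    have hk' := Nat.dvd_of_mem_divisors hk
    by_cases h3 : k.Coprime m
    · rw [ca, ca, if_neg (c := (n / k).Coprime m) fun h4 => hn (by
        rw [← Nat.mul_div_cancel' hk']
        exact Nat.Coprime.mul_left h3 h4), zero_mul, mul_zero]
    · rw [ca, if_neg h3, zero_mul]

theorem tw_lam {r m X : ℕ} (χ : DirichletCharacter ℂ r) (hX : 2 ≤ X) (hm : m ≠ 0) (hmX : m ≤ X) :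
    ‖tw X (ca (fun n => Λ n) m) χ‖ ≤ 3 * Real.log X ^ 2 + ‖tw X (fun n => Λ n) χ‖ := by
  refine (norm_le_norm_sub_add _ (tw X (fun n => Λ n) χ)).trans (add_le_add_left ?_ _)
  refine le_trans ?_ ((An.BVP.err hm X).trans ?_)
  · rw [tw, tw, ← sum_sub_distrib, sum_filter]
    refine (norm_sum_le _ _).trans (sum_le_sum fun n _ => ?_)
    unfold ca
    by_cases hn : n.Coprime m
    · rw [if_pos hn, if_neg (not_not.2 hn), sub_self, norm_zero]
    · rw [if_neg hn, if_pos hn, zero_mul, zero_sub, norm_neg, norm_mul, Complex.norm_real,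
        Real.norm_of_nonneg ArithmeticFunction.vonMangoldt_nonneg]
      exact mul_le_of_le_one_right ArithmeticFunction.vonMangoldt_nonneg (χ.norm_le_one _)
  · have h3 := natLog_le hX
    have hl := half_le_log hX
    push_cast at h3
    calc _ ≤ (3 * Real.log X) * Real.log X :=
          mul_le_mul (by linarith) (An.BVP.log_mono hmX) (Real.log_natCast_nonneg m) (by linarith)
      _ = _ := by ring

end Big0P

open Big0P An.BVP Chen.BV2P in
theorem big0 : S_Big0 := by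
  obtain ⟨CL, CL0, hL⟩ := An.ls
  refine ⟨18 * (88 + 9216 * CL), 7, by positivity, fun X R g hX hR hg =>
    ⟨GG X R g, GG_nonneg X R g, ?_, fun s d r hs hd hsd hp hr => ptw g hs hd hsd hp hr⟩⟩
  have hl := half_le_log hX
  have X1 : (1 : ℝ) < X := by exact_mod_cast one_lt_two.trans_le hX
  have X0 : (0 : ℝ) < X := by linarith
  have R1 : (1 : ℝ) ≤ R := by exact_mod_cast hR
  set l := Real.log X with hl'
  have l0 : 0 < l := by linarith
  have l1 : 1 ≤ 2 * l := by linarith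
  have l3 : l ≤ 16 * l ^ 5 := by nlinarith [one_le_pow₀ (n := 4) l1]
  have l4 : l ^ 2 ≤ 8 * l ^ 5 := by nlinarith [one_le_pow₀ (n := 3) l1, pow_pos l0 2]
  set K := ⌊(X : ℝ) ^ (999 / 2000 : ℝ)⌋₊ with hK
  have K0 : 1 ≤ K := Nat.le_floor (by simpa using Real.one_le_rpow X1.le (by norm_num))
  have K1 : (1 : ℝ) ≤ K := by exact_mod_cast K0
  set w : ℝ := (X : ℝ) ^ (1 / 10000 : ℝ) with hw
  have w1 : 1 ≤ w := Real.one_le_rpow X1.le (by norm_num)
  have w0 : 0 < w := by linarith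
  have w2 : (K : ℝ) ^ 2 * w ^ 10 ≤ X := by
    calc _ ≤ ((X : ℝ) ^ (999 / 2000 : ℝ)) ^ 2 * w ^ 10 := by
          gcongr
          exact Nat.floor_le (by positivity)
      _ = _ := by
        rw [hw, ← Real.rpow_mul_natCast X0.le, ← Real.rpow_mul_natCast X0.le, ← Real.rpow_add X0]
        norm_num
  set D : ℝ := X / R + 2 * X / w with hD
  have D0 : 0 < D := by positivity
  have D1 : 2 * X ≤ D * w := by
    have : 2 * X / w * w = 2 * X := div_mul_cancel₀ _ w0.ne'
    have h2 : 0 ≤ X / R * w := by positivity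
    rw [hD, add_mul]
    linarith
  have D2 : 4 * (X : ℝ) ^ 2 ≤ D ^ 2 * w ^ 2 := by
    linarith [pow_le_pow_left₀ (by positivity) D1 2]
  have F2 : (X : ℝ) ≤ R * D := by
    have : R * (X / R) = (X : ℝ) := mul_div_cancel₀ _ (by positivity)
    have h2 : 0 ≤ R * (2 * X / w) := by positivity
    rw [hD, mul_add]
    linarith
  have K2 : 1 ≤ (K : ℝ) ^ 2 := one_le_pow₀ K1
  have w4 : 1 ≤ w ^ 2 := one_le_pow₀ w1
  have D4 : (K : ℝ) ^ 2 * X ≤ D ^ 2 := by
    refine le_of_mul_le_mul_right (le_trans ?_ D2) (one_pos.trans_le w4)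
    calc _ = (K : ℝ) ^ 2 * w ^ 2 * X := by ring
      _ ≤ K ^ 2 * w ^ 10 * X := by gcongr; norm_num
      _ ≤ X * X := by gcongr
      _ ≤ _ := by linarith [sq_nonneg (X : ℝ)]
  have KX : K ≤ X := by
    have : (K : ℝ) ≤ X := (le_self_pow₀ K1 two_ne_zero).trans
      ((le_mul_of_one_le_right (by positivity) (one_le_pow₀ w1)).trans w2)
    exact_mod_cast this
  have h1 : ∀ m ∈ Icc 1 K, ∑ r ∈ Icc 1 K, 1 / (r.totient : ℝ) * PR X R g m r ≤
      (88 + 9216 * CL) * l ^ 5 * D := fun m hm => by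
    rw [mem_Icc] at hm
    rw [sum_PR]
    rcases hg with rfl | ⟨c, b, rfl, hc, hb, hs⟩
    · set U := ⌊w ^ 2⌋₊ with hU
      have U1 : 1 ≤ U := Nat.le_floor (by simpa using w4)
      have U1' : (1 : ℝ) ≤ U := by exact_mod_cast U1
      have U2 : (U : ℝ) ≤ w ^ 2 := Nat.floor_le (by positivity)
      have U3 : w ^ 2 ≤ 2 * U := by linarith [Nat.lt_floor_add_one (w ^ 2)]
      have D3 : (K : ℝ) ^ 2 * U ^ 2 ≤ D := by
        refine le_of_mul_le_mul_right (le_trans ?_ D1) w0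
        calc _ ≤ (K : ℝ) ^ 2 * (w ^ 2) ^ 2 * w := by gcongr
          _ = K ^ 2 * w ^ 5 := by ring
          _ ≤ K ^ 2 * w ^ 10 := by gcongr; norm_num
          _ ≤ _ := by linarith
      have D5 : (X : ℝ) ^ 2 ≤ U * D ^ 2 := by
        linarith [mul_le_mul_of_nonneg_left U3 (sq_nonneg D), sq_nonneg (X : ℝ)]
      have UX : U * U ≤ X := by
        have : (U : ℝ) * U ≤ X := by
          calc _ ≤ w ^ 2 * w ^ 2 := by gcongr
            _ = 1 * w ^ 4 := by ring
            _ ≤ K ^ 2 * w ^ 10 := by gcongr; norm_num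
            _ ≤ _ := w2
        exact_mod_cast this
      have h6 : (K : ℝ) ≤ D := (le_self_pow₀ K1 two_ne_zero).trans
        ((le_mul_of_one_le_right (by positivity) (one_le_pow₀ U1')).trans D3)
      obtain ⟨b, hb, hI⟩ := typeI An.vaughan U1
      have hII := typeII CL0.le hL hb hX U1 hR KX D0.le F2 D5 D4
      have p1 : (0 : ℝ) ≤ 3 * l ^ 2 + 4 * U ^ 2 * K * l := by positivity
      have h2 : ∀ r ∈ Ioc R K, 1 / (r.totient : ℝ) * ∑ χ ∈ prim r,
          ‖tw X (ca (fun n => Λ n) m) χ‖ ≤ (3 * l ^ 2 + 4 * U ^ 2 * K * l) +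
            1 / (r.totient : ℝ) * ∑ χ ∈ prim r,
            ‖∑ k ∈ Ioc U X, (μ k : ℂ) * ∑ l ∈ Ioc U (X / k), (b l : ℂ) * χ (k * l : ℕ)‖ :=
        fun r hr => by
        rw [mem_Ioc] at hr
        have r0 : r ≠ 0 := by omega
        refine le_trans (mul_le_mul_of_nonneg_left (sum_le_sum fun χ hχ =>
          (tw_lam χ hX (by omega) (hm.2.trans KX)).trans ((add_le_add_right
            (hI X r χ r0 (prim_ne_one (by omega) hχ) UX) _).trans_eq (add_assoc _ _ _).symm))
          (by positivity)) ?_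
        rw [sum_add_distrib, mul_add]
        refine add_le_add (avg_le r0 p1 fun _ _ => ?_) le_rfl
        gcongr
        exact hr.2
      refine (sum_le_sum h2).trans ?_
      rw [sum_add_distrib, sum_const, Nat.card_Ioc, nsmul_eq_mul]
      have h3 : ((K - R : ℕ) : ℝ) ≤ K := by exact_mod_cast Nat.sub_le K R
      calc _ ≤ K * (3 * l ^ 2 + 4 * U ^ 2 * K * l) + 9216 * CL * l ^ 5 * D :=
            add_le_add (mul_le_mul_of_nonneg_right h3 p1) hII
        _ = 3 * l ^ 2 * K + 4 * l * (K ^ 2 * U ^ 2) + 9216 * CL * l ^ 5 * D := by ring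
        _ ≤ 3 * (8 * l ^ 5) * D + 4 * (16 * l ^ 5) * D + 9216 * CL * l ^ 5 * D := by gcongr
        _ = _ := by ring
    · set y : ℝ := (X : ℝ) ^ (1 / 20 : ℝ) with hy
      have y1 : 1 < y := Real.one_lt_rpow X1 (by norm_num)
      have w3 : w ^ 2 ≤ y := by
        rw [hw, ← Real.rpow_mul_natCast X0.le]
        exact Real.rpow_le_rpow_of_exponent_le X1.le (by norm_num)
      have hy2 : ∀ k, c k ≠ 0 → y ≤ k ∧ k * y ≤ X := fun k hk => by
        refine ⟨(hs k hk).1, ?_⟩
        calc _ ≤ (X : ℝ) ^ (19 / 20 : ℝ) * y := by gcongr; exact (hs k hk).2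
          _ = _ := by rw [hy, ← Real.rpow_add X0]; norm_num
      have D5 : 2 * (X : ℝ) ^ 2 ≤ y * D ^ 2 := by
        linarith [mul_le_mul_of_nonneg_left w3 (sq_nonneg D), sq_nonneg (X : ℝ)]
      have hII := typeII2 CL0.le hL (a := ca c m) (b := ca b m)
        (fun k => (norm_ca_le c m k).trans (hc k)) (fun n => (norm_ca_le _ m n).trans (hb n)) y1
        (fun k hk => hy2 k (ca_ne hk)) hX hR KX D0.le F2 D5 D4
      simp only [tw_cv]
      refine hII.trans ?_
      gcongr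
      linarith
  have h2 : (1 + Real.log K) ^ 2 ≤ 9 * l ^ 2 := by
    have := An.BVP.log_mono KX
    calc _ ≤ (3 * l) ^ 2 := by gcongr; linarith
      _ = _ := by ring
  have h3 : D ≤ 2 * X * (1 / R + (X : ℝ) ^ (-(1 / 10000) : ℝ)) := by
    rw [Real.rpow_neg X0.le, ← hw, hD]
    have : 0 ≤ X / (R : ℝ) := by positivity
    calc _ ≤ 2 * (X / R) + 2 * X / w := by linarith
      _ = _ := by ring
  calc _ ≤ ∑ k ∈ Icc 1 K, 1 / (k.totient : ℝ) * ∑ r ∈ k.divisors, PR X R g (k / r) r :=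
        sum_le_sum fun k hk => GG_le X R g (by have := (mem_Icc.1 hk).1; omega)
    _ ≤ 9 * l ^ 2 * ((88 + 9216 * CL) * l ^ 5 * D) :=
        (sum_div_le2 K _ (PR_nonneg X R g) (by positivity) h1).trans
          (mul_le_mul_of_nonneg_right h2 (by positivity))
    _ ≤ 9 * l ^ 2 * ((88 + 9216 * CL) * l ^ 5 *
        (2 * X * (1 / R + (X : ℝ) ^ (-(1 / 10000) : ℝ)))) := by gcongr
    _ = _ := by ring

end Pool.Agent.P.MP_746f10_nt.UC
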