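import Pool.Agent.P.MP_746f10_nt.UC.Defs

/-! Smooth bumps and their Mellin representation. -/

namespace Pool.Agent.P.MP_746f10_nt.UC

open Finset MeasureTheory
open scoped FourierTransform SchwartzMap ContDiff

namespace BumpP

theorem exists_h (ψ : ℝ → ℂ) (h1 : HasCompactSupport ψ) (h2 : ContDiff ℝ ∞ ψ) :
    ∃ h : ℝ → ℂ, Continuous h ∧ Integrable (fun t => (1 + |t|) ^ 4 * ‖h t‖) ∧
      ∀ v : ℝ, ψ v = ∫ t : ℝ, h t * Complex.exp (-(Complex.I * t * v)) := by
  have hp : (2 * Real.pi) ≠ 0 := by positivity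
  have h3 : HasCompactSupport fun w : ℝ => ψ (2 * Real.pi * w) :=
    h1.comp_homeomorph (Homeomorph.mulLeft₀ _ hp)
  have h4 : ContDiff ℝ ∞ fun w : ℝ => ψ (2 * Real.pi * w) := h2.comp (by fun_prop)
  let Ψ : 𝓢(ℝ, ℂ) := h3.toSchwartzMap h4
  let g : 𝓢(ℝ, ℂ) := 𝓕⁻ Ψ
  refine ⟨g, g.continuous, ?_, fun v => ?_⟩
  · have e : ∀ t : ℝ, (1 + |t|) ^ 4 * ‖g t‖ = ‖t‖ ^ 0 * ‖g t‖ + (4 * (‖t‖ ^ 1 * ‖g t‖) +
        (6 * (‖t‖ ^ 2 * ‖g t‖) + (4 * (‖t‖ ^ 3 * ‖g t‖) + ‖t‖ ^ 4 * ‖g t‖))) := fun t => by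
      rw [Real.norm_eq_abs]; ring
    simp_rw [e]
    exact (g.integrable_pow_mul _ 0).add (((g.integrable_pow_mul _ 1).const_mul 4).add
      (((g.integrable_pow_mul _ 2).const_mul 6).add
      (((g.integrable_pow_mul _ 3).const_mul 4).add (g.integrable_pow_mul _ 4))))
  · have e1 : 𝓕 g = Ψ := FourierTransform.fourier_fourierInv_eq Ψ
    have e2 : Ψ (v / (2 * Real.pi)) = ψ v := by
      show ψ (2 * Real.pi * (v / (2 * Real.pi))) = ψ v
      rw [mul_div_cancel₀ _ hp]
    rw [← e2, ← e1, SchwartzMap.fourier_coe, Real.fourier_real_eq_integral_exp_smul]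
    refine integral_congr_ae (Filter.Eventually.of_forall fun t => ?_)
    have : (-2 * Real.pi * t * (v / (2 * Real.pi)) : ℝ) = -(t * v) := by field_simp
    simp only [this, smul_eq_mul]
    rw [mul_comm]
    congr 2
    push_cast
    ring

theorem wt_eq {φ : ℝ → ℝ} {h : ℝ → ℂ}
    (hv : ∀ v : ℝ, ((φ v * Real.exp v : ℝ) : ℂ) =
      ∫ t : ℝ, h t * Complex.exp (-(Complex.I * t * v)))
    (L : ℝ) (a : ℕ → ℂ) (m : ℕ) :
    a m * (wt φ L m : ℝ) = ∫ t : ℝ, h t * LSeries.term a (pt L t) m := by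
  rcases Nat.eq_zero_or_pos m with rfl | hm
  · simp [wt]
  have hm0 : (0 : ℝ) < m := by exact_mod_cast hm
  have hm1 : (m : ℂ) ≠ 0 := by exact_mod_cast hm.ne'
  have e : ∀ t : ℝ, h t * LSeries.term a (pt L t) m =
      a m / m * Complex.exp (-(Real.log m / L : ℝ)) *
        (h t * Complex.exp (-(Complex.I * t * (Real.log m / L : ℝ)))) := by
    intro t
    rw [LSeries.term_of_ne_zero hm.ne', Complex.cpow_def_of_ne_zero hm1, ← Complex.natCast_log, pt,
      show ((Real.log m : ℝ) : ℂ) * (1 + (1 / L : ℝ) + Complex.I * (t / L : ℝ)) =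
        (Real.log m : ℝ) + ((Real.log m / L : ℝ) + Complex.I * t * (Real.log m / L : ℝ)) by
        push_cast; ring,
      Complex.exp_add, Complex.exp_add, Complex.exp_neg, Complex.exp_neg, ← Complex.ofReal_exp,
      Real.exp_log hm0]
    push_cast
    field_simp
  simp_rw [e]
  rw [integral_const_mul, ← hv, wt, Complex.exp_neg]
  push_cast
  field_simp

theorem norm_term (a : ℕ → ℂ) (L t : ℝ) (m : ℕ) :
    ‖LSeries.term a (pt L t) m‖ = ‖LSeries.term a (pt L 0) m‖ := by
  rw [LSeries.norm_term_eq, LSeries.norm_term_eq]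
  simp [pt]

theorem cont_term (a : ℕ → ℂ) (L : ℝ) (m : ℕ) :
    Continuous fun t : ℝ => LSeries.term a (pt L t) m := by
  rcases Nat.eq_zero_or_pos m with rfl | hm
  · simp [continuous_const]
  have hm1 : (m : ℂ) ≠ 0 := by exact_mod_cast hm.ne'
  simp_rw [LSeries.term_of_ne_zero hm.ne', Complex.cpow_def_of_ne_zero hm1, pt]
  exact continuous_const.div (by fun_prop) fun t => Complex.exp_ne_zero _

end BumpP

open BumpP

theorem bump : S_Bump := by
  intro α β δ hδ hαβ
  let f : ContDiffBump ((α + β) / 2) := ⟨(β - α) / 2 - δ, (β - α) / 2 - δ / 2, by linarith, by linarith⟩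
  have hs : HasCompactSupport f := f.hasCompactSupport
  have hc : ContDiff ℝ ∞ f := f.contDiff
  obtain ⟨C, hC⟩ := ContDiff.lipschitzWith_of_hasCompactSupport hs hc (by simp)
  obtain ⟨h, h1, h2, h3⟩ := exists_h (fun v => ((f v * Real.exp v : ℝ) : ℂ))
    ((hs.mul_right (f' := Real.exp)).comp_left (g := fun x : ℝ => (x : ℂ)) rfl)
    (Complex.ofRealCLM.contDiff.comp (hc.mul Real.contDiff_exp))
  refine ⟨f, max 1 (max C (∫ t, (1 + |t|) ^ 4 * ‖h t‖)), fun v => f.nonneg, fun v => f.le_one,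
    fun v hv => ?_, fun v h4 h5 => ?_, le_max_left _ _, fun u v => ?_, h, h1, h2,
    (le_max_right _ _).trans (le_max_right _ _), h3⟩
  · have : v ∈ Function.support f := hv
    rw [f.support_eq, Metric.mem_ball, Real.dist_eq, abs_lt] at this
    dsimp only [f] at this
    constructor <;> linarith [this.1, this.2]
  · refine f.one_of_mem_closedBall ?_
    rw [Metric.mem_closedBall, Real.dist_eq, abs_le]
    dsimp only [f]
    constructor <;> linarith
  · have := hC.dist_le_mul u v
    rw [Real.dist_eq, Real.dist_eq] at this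
    exact this.trans (mul_le_mul_of_nonneg_right
      ((le_max_left _ _).trans (le_max_right _ _)) (abs_nonneg _))

theorem mel : S_Mel := by
  intro φ α β δ H hB ι S a L G N hL hN hs hG
  obtain ⟨h, h1, h2, h3, h4⟩ := hB.mel
  have hp : ∀ t : ℝ, (1 : ℝ) ≤ (1 + |t|) ^ 4 := fun t =>
    one_le_pow₀ (by linarith [abs_nonneg t])
  have hn : Integrable fun t => ‖h t‖ :=
    h2.mono' h1.norm.aestronglyMeasurable (Filter.Eventually.of_forall fun t => by
      rw [norm_norm]; exact le_mul_of_one_le_left (norm_nonneg _) (hp t))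
  have hG0 : 0 ≤ G := by
    have := (sum_nonneg fun i _ => norm_nonneg _).trans (hG 0)
    simpa using this
  have hi : ∀ (b : ℕ → ℂ) (m : ℕ), Integrable fun t => h t * LSeries.term b (pt L t) m := fun b m =>
    (hn.mul_const ‖LSeries.term b (pt L 0) m‖).mono'
      (h1.mul (cont_term b L m)).aestronglyMeasurable
      (Filter.Eventually.of_forall fun t => by rw [norm_mul, norm_term])
  have hz : ∀ m, m ∉ range N → wt φ L m = 0 := by
    intro m hm
    have hm1 : (N : ℝ) ≤ m := by exact_mod_cast not_lt.1 fun h => hm (mem_range.2 h)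
    have hm2 : β * L ≤ Real.log m :=
      (Real.le_log_iff_exp_le ((Real.exp_pos _).trans_le (hN.trans hm1))).2 (hN.trans hm1)
    have : φ (Real.log m / L) = 0 := by
      by_contra h0
      have := (hB.supp _ h0).2
      rw [div_lt_iff₀ hL] at this
      linarith
    simp [wt, this]
  have key : ∀ i ∈ S, ∑ m ∈ range N, a i m * (wt φ L m : ℝ) =
      ∫ t, h t * LSeries (a i) (pt L t) := by
    intro i hiS
    have s1 := hasSum_integral_of_summable_integral_norm (μ := volume) (hi (a i)) (by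
      simp_rw [norm_mul, norm_term (a i) L, integral_mul_const]
      exact (summable_norm_iff.2 (hs i hiS)).mul_left _)
    simp_rw [← wt_eq h4, tsum_mul_left] at s1
    exact (hasSum_sum_of_ne_finset_zero fun m hm => by simp [hz m hm]).unique s1
  have hc : ∀ i ∈ S, Continuous fun t : ℝ => LSeries (a i) (pt L t) := fun i hiS =>
    continuous_tsum (cont_term (a i) L) (summable_norm_iff.2 (hs i hiS))
      fun m t => (norm_term _ _ _ _).le
  have hI : ∀ i ∈ S, Integrable fun t => ‖h t * LSeries (a i) (pt L t)‖ := fun i hiS =>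
    (h2.const_mul G).mono' (h1.mul (hc i hiS)).norm.aestronglyMeasurable
      (Filter.Eventually.of_forall fun t => by
        have := (single_le_sum (f := fun i => ‖LSeries (a i) (pt L t)‖)
          (fun i _ => norm_nonneg _) hiS).trans (hG t)
        rw [norm_norm, norm_mul, ← mul_assoc, mul_comm]
        exact mul_le_mul_of_nonneg_right this (norm_nonneg _))
  calc ∑ i ∈ S, ‖∑ m ∈ range N, a i m * (wt φ L m : ℝ)‖
      ≤ ∑ i ∈ S, ∫ t, ‖h t * LSeries (a i) (pt L t)‖ :=
        sum_le_sum fun i hiS => by rw [key i hiS]; exact norm_integral_le_integral_norm _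
    _ = ∫ t, ∑ i ∈ S, ‖h t * LSeries (a i) (pt L t)‖ := (integral_finsetSum S hI).symm
    _ ≤ ∫ t, G * ((1 + |t|) ^ 4 * ‖h t‖) := by
        refine integral_mono (integrable_finsetSum S hI) (h2.const_mul G) fun t => ?_
        simp only [norm_mul]
        rw [← mul_sum, ← mul_assoc, mul_comm]
        exact mul_le_mul_of_nonneg_right (hG t) (norm_nonneg _)
    _ ≤ G * H := by rw [integral_const_mul]; exact mul_le_mul_of_nonneg_left h3 hG0

end Pool.Agent.P.MP_746f10_nt.UC
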