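import Pool.Agent.P.MP_746f10_nt.UC.Defs
import Pool.Agent.P.MP_0ad054_nt.Chen.Chen
import Pool.Agent.P.MP_0ad054_nt.Chen.Lin
import Pool.Agent.P.MP_0ad054_nt.Chen.FL
import Pool.Agent.P.MP_0ad054_nt.Chen.Dim
import Pool.Agent.P.MP_0ad054_nt.Chen.Num

/-! Chen's weights with some room to spare. -/

namespace Pool.Agent.P.MP_0ad054_nt.Chen

open Finset Pool.Agent.P.MP_0ad054_nt.Sun ChenP

namespace Chen2P

theorem Sf_nonneg {P : Finset ℕ} {lam : Finset ℕ → ℝ} {g : ℕ → ℝ}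
    (hg : ∀ l ∈ P, 0 ≤ g l ∧ g l ≤ 1)
    (h : ∀ w : ℕ → ℝ, (∀ l, w l = 0 ∨ w l = 1) → 0 ≤ Sf P lam w) : 0 ≤ Sf P lam g := by
  have e : ∀ T ∈ P.powerset, ∏ l ∈ T, g l = ∑ W ∈ P.powerset,
      ((∏ l ∈ W, g l) * ∏ l ∈ P \ W, (1 - g l)) * ∏ l ∈ T, (if l ∈ W then (1 : ℝ) else 0) := by
    intro T hT
    have hT' := mem_powerset.1 hT
    have h1 := prod_add (fun l => g l) (fun l => (1 - g l) * if l ∈ T then 0 else 1) P
    rw [prod_congr rfl (g := fun l => if l ∈ T then g l else 1) fun l _ => by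
      split_ifs <;> ring, prod_ite_mem, inter_eq_right.2 hT'] at h1
    rw [h1]
    refine sum_congr rfl fun W hW => ?_
    rw [prod_mul_distrib, ← mul_assoc]
    congr 1
    by_cases h2 : T ⊆ W
    · rw [prod_eq_one fun l hl => if_neg fun h3 => (mem_sdiff.1 hl).2 (h2 h3),
        prod_eq_one fun l hl => if_pos (h2 hl)]
    · obtain ⟨l, h3, h4⟩ := not_subset.1 h2
      exact (prod_eq_zero (mem_sdiff.2 ⟨hT' h3, h4⟩) (by rw [if_pos h3])).trans
        (prod_eq_zero h3 (by rw [if_neg h4])).symm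
  unfold Sf
  rw [sum_congr rfl fun T hT => by rw [e T hT, mul_sum], sum_comm]
  refine sum_nonneg fun W hW => ?_
  have h1 := h (fun l => if l ∈ W then 1 else 0) fun l => by split_ifs <;> simp
  unfold Sf at h1
  have h2 : 0 ≤ (∏ l ∈ W, g l) * ∏ l ∈ P \ W, (1 - g l) :=
    mul_nonneg (prod_nonneg fun l hl => (hg l (mem_powerset.1 hW hl)).1)
      (prod_nonneg fun l hl => by linarith [(hg l (mem_sdiff.1 hl).1).2])
  refine le_trans (mul_nonneg h2 h1) (le_of_eq ?_)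
  rw [mul_sum]
  exact sum_congr rfl fun T _ => by ring

end Chen2P

open Chen2P in
theorem chen2' (hL : S_Lin) (hD : S_Dim) (hN : S_Num) : Pool.Agent.P.MP_746f10_nt.UC.S_Chen2 := by
  classical
  obtain ⟨A, hA, hL⟩ := hL
  obtain ⟨η0, hη0, z0, hL⟩ := hL (A / 10000) (by positivity)
  have hη : 0 < min η0 (1 / 1000) := lt_min hη0 (by norm_num)
  set η := min η0 (1 / 1000) with hηdef
  have hη1 : η ≤ 1 / 1000 := min_le_right _ _
  obtain ⟨y0, hy0, hD⟩ := hD η hη
  obtain ⟨N1, hN⟩ := hN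
  obtain ⟨N2, h2, hN2⟩ := ev_Nl
  obtain ⟨N3, -, hN3⟩ := ev_pow (a := 1 / 3) (b := 499 / 1000) (by norm_num) (2 * max z0 2 ^ 3)
  refine ⟨A / 40000, 1 / 100000, ⌈y0⌉₊ + 1, max N1 (max N2 N3), by positivity, by norm_num,
    fun N y hNN hy hyz => ?_⟩
  set Ex : Finset ℕ := ∅ with hEx0
  have hEx : ∀ l ∈ Ex, (l : ℝ) ≤ zz N := fun l hl => absurd hl (notMem_empty l)
  have hN := hN N ((le_max_left _ _).trans hNN)
  have hck := ck_nonneg (hN2 N ((le_max_left _ _).trans ((le_max_right _ _).trans hNN)))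
  have hN3 := hN3 N ((le_max_right _ _).trans ((le_max_right _ _).trans hNN))
  have hN1 : (1 : ℝ) ≤ N := by
    exact_mod_cast h2.trans ((le_max_left _ _).trans ((le_max_right _ _).trans hNN))
  have hy' : y0 ≤ y := (Nat.le_ceil y0).trans (by exact_mod_cast (by omega))
  have hz3 : 3 ≤ zz N := by linarith
  have hDl : 0 < Dl N := by unfold Dl; positivity
  have hDN : Dl N ≤ N := by
    simpa [Dl] using Real.rpow_le_rpow_of_exponent_le hN1 (show (499 / 1000 : ℝ) ≤ 1 by norm_num)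
  have hz4 := zz_four N
  have hdim : ∀ P : Finset ℕ, (∀ l ∈ P, l.Prime ∧ (y : ℝ) < l) → Dim η P gg := fun P hP =>
    dim_of hη.le hy0 (fun w z h1 h2 => (hD w z h1 h2).1) fun l hl =>
      ⟨(hP l hl).1, hy'.trans_lt (hP l hl).2⟩
  let PP : ℝ → Finset ℕ := fun t => (prs y t).filter (fun l => l ∉ Ex)
  have mP : ∀ t l, l ∈ PP t ↔ (l.Prime ∧ (y : ℝ) < l ∧ (l : ℝ) ≤ t) ∧ l ∉ Ex := fun t l => by
    simp only [PP, mem_filter, mem_prs (Nat.cast_nonneg y)]
  have pP : ∀ t, ∀ l ∈ PP t, l.Prime := fun t l hl => ((mP t l).1 hl).1.1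
  have dP : ∀ t, Dim η (PP t) gg := fun t => hdim _ fun l hl =>
    ⟨((mP t l).1 hl).1.1, ((mP t l).1 hl).1.2.1⟩
  have hLP := fun t (ht : z0 ≤ t) => hL (PP t) gg t ht (Dim.mono (dP t) (min_le_left _ _))
    fun l hl => ((mP t l).1 hl).1.2.2
  have vpos : ∀ t, ∀ l ∈ PP t, 0 < 1 - gg l := fun t l hl => by
    linarith [((dP t).1 l hl).2.2.2]
  -- sizes
  let zq : ℕ → ℝ := fun q => (Dl N / q) ^ (1 / 3 : ℝ)
  have mQ : ∀ q ∈ Qs N, q.Prime ∧ zz N < q ∧ (q : ℝ) ≤ yy N := fun q hq =>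
    (mem_prs (zz_nonneg N)).1 hq
  have hzq : ∀ q : ℕ, 1 ≤ q → (q : ℝ) ≤ yy N → max z0 2 ≤ zq q := by
    intro q h1 h2
    have h3 : (0 : ℝ) < q := by exact_mod_cast h1
    refine le_of_pow_le_pow_left₀ (n := 3) (by norm_num) (by positivity) ?_
    rw [cube_root (by positivity), le_div_iff₀ h3]
    have h4 := yy_le N
    have h5 : 0 ≤ max z0 2 ^ 3 := by positivity
    unfold Dl
    nlinarith
  have hyy : 1 ≤ yy N := Real.one_le_rpow (by linarith) (by norm_num)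
  have hq1 : ∀ q ∈ Qs N, max z0 2 ≤ zq q := fun q hq => hzq q (mQ q hq).1.one_le (mQ q hq).2.2
  have hq2 : ∀ q ∈ Qs N, zq q ≤ zz N := by
    intro q hq
    have h3 := (mQ q hq).2.1
    refine le_of_pow_le_pow_left₀ (n := 3) (by norm_num) (by positivity) ?_
    rw [cube_root (by positivity), div_le_iff₀ (by linarith), ← hz4, pow_succ]
    gcongr
  have h1z : zz N ≤ zq 1 := by
    refine le_of_pow_le_pow_left₀ (n := 3) (by norm_num) (by positivity) ?_
    rw [cube_root (by positivity), Nat.cast_one, div_one, ← hz4]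
    exact pow_le_pow_right₀ (by linarith) (by norm_num)
  have h1D : zq 1 ≤ Dl N := by
    have h4 := (le_max_right _ _).trans (hzq 1 le_rfl (by simpa using hyy))
    have h5 : zq 1 ^ 3 = Dl N := by rw [cube_root (by positivity)]; simp
    rw [← h5]; exact le_self_pow₀ (by linarith) (by norm_num)
  have hz0 : z0 ≤ zz N := by
    have h4 : max z0 2 ^ 3 ≤ (N : ℝ) ^ (499 / 1000 - 1 / 3 : ℝ) := by
      rw [Real.rpow_sub (by linarith), le_div_iff₀ (by positivity)]
      have : 0 ≤ max z0 2 ^ 3 * (N : ℝ) ^ (1 / 3 : ℝ) := by positivity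
      linarith
    refine (le_max_left _ 2).trans (le_of_pow_le_pow_left₀ (n := 3) (by norm_num) (by positivity)
      (h4.trans ?_))
    unfold zz
    rw [← Real.rpow_natCast, ← Real.rpow_mul (by linarith)]
    exact Real.rpow_le_rpow_of_exponent_le hN1 (by norm_num)
  obtain ⟨⟨lamU, wU, sU⟩, lam1, w1, s1⟩ := hLP (zz N) hz0
  replace wU : IsW 1 (PP (zz N)) lamU (Dl N) := ⟨wU.1, fun T hT h => (wU.2.1 T hT h).trans
    (hz4 ▸ pow_le_pow_right₀ (by linarith) (by norm_num)), wU.2.2⟩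
  obtain ⟨⟨lam3, w3, s3⟩, -⟩ := hLP (zq 1) (hz0.trans h1z)
  choose! lam2 w2' s2 using fun q (hq : q ∈ Qs N) =>
    (hLP (zq q) ((le_max_left _ _).trans (hq1 q hq))).1
  rw [hz4] at w1
  rw [cube_root (by positivity), Nat.cast_one, div_one] at w3
  have cop : ∀ q ∈ Qs N, ∀ l ∈ PP (zq q), q.Coprime l := fun q hq l hl =>
    (Nat.coprime_primes (mQ q hq).1 (pP _ l hl)).2 fun e => by
      have h4 := ((mP _ l).1 hl).1.2.2
      rw [← e] at h4
      linarith [hq2 q hq, (mQ q hq).2.1]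
  have lev2 : ∀ q ∈ Qs N, ∀ T ⊆ PP (zq q), lam2 q T ≠ 0 → ((q * ∏ l ∈ T, l : ℕ) : ℝ) ≤ Dl N := by
    intro q hq T hT h
    have h4 := (w2' q hq).2.1 T hT h
    have h5 : (0 : ℝ) < q := by exact_mod_cast (mQ q hq).1.pos
    rw [cube_root (by positivity), le_div_iff₀ h5] at h4
    rw [Nat.cast_mul]; linarith
  have dvdT : ∀ t, ∀ T ⊆ PP t, ∀ p : ℕ, p.Prime → p ∣ ∏ l ∈ T, l → p ∈ PP t := by
    intro t T hT p hp h
    obtain ⟨l, hl, h1⟩ := (Prime.dvd_finsetProd_iff hp.prime _).1 h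
    rw [(Nat.prime_dvd_prime_iff_eq hp (pP t l (hT hl))).1 h1]
    exact hT hl
  have lev1 : ∀ t lam, IsW 1 (PP t) lam (Dl N) ∨ IsW (-1) (PP t) lam (Dl N) → ∀ d,
      push (PP t) lam 1 d ≠ 0 → (d : ℝ) ≤ Dl N ∧ ∀ p : ℕ, p.Prime → p ∣ d → p ∈ PP t := by
    intro t lam h d hd
    obtain ⟨T, hT, rfl, h1⟩ := push_ne hd
    rw [one_mul]
    exact ⟨h.elim (fun h => h.2.1 T hT h1) (fun h => h.2.1 T hT h1), dvdT t T hT⟩
  let μ1 : ℕ → ℝ := fun d =>
    push (PP (zz N)) lam1 1 d - 1 / 2 * ∑ q ∈ Qs N, push (PP (zq q)) (lam2 q) q d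
  have hW1 : ∀ a, a ≠ 0 → Wm μ1 a = Sf (PP (zz N)) lam1 (w2 a) -
      1 / 2 * ∑ q ∈ Qs N, if q ∣ a then Sf (PP (zq q)) (lam2 q) (w2 a) else 0 := by
    intro a ha
    have e1 := Wm_push (lam := lam1) (q := 1) (pP (zz N)) (fun l _ => Nat.coprime_one_left l) ha
    rw [if_pos (one_dvd a)] at e1
    rw [← e1, ← sum_congr rfl fun q hq => Wm_push (lam := lam2 q) (pP _) (cop q hq) ha]
    simp only [Wm, μ1, sum_sub_distrib, ← mul_sum]
    rw [sum_comm]
  have hW3 : ∀ a, a ≠ 0 → Wm (push (PP (zq 1)) lam3 1) a = Sf (PP (zq 1)) lam3 (w2 a) :=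
    fun a ha => by
      rw [Wm_push (pP _) (fun l _ => Nat.coprime_one_left l) ha, if_pos (one_dvd a)]
  have up : ∀ {t lam D} (_ : IsW 1 (PP t) lam D) (a : ℕ),
      ∏ l ∈ PP t, (1 - w2 a l) ≤ Sf (PP t) lam (w2 a) := fun h a => by
    linarith [h.2.2 _ (w2_01 a)]
  have hWU : ∀ a, a ≠ 0 → Wm (push (PP (zz N)) lamU 1) a = Sf (PP (zz N)) lamU (w2 a) :=
    fun a ha => by
      rw [Wm_push (pP _) (fun l _ => Nat.coprime_one_left l) ha, if_pos (one_dvd a)]
  refine ⟨μ1, push (PP (zz N)) lamU 1, push (PP (zq 1)) lam3 1, ⟨fun d => ?_, fun d =>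
    ⟨push_abs (pP _) one_ne_zero w3.1 d,
    fun h => ⟨(lev1 _ _ (Or.inl w3) d h).1, fun p hp hd =>
      ((mP _ _).1 ((lev1 _ _ (Or.inl w3) d h).2 p hp hd)).1.2.1⟩⟩, fun a l ha hl hd h1 h2 h3 => ?_,
    fun a ha h => ?_, fun m => ?_, fun m hm h => ?_⟩, fun d => ⟨push_abs (pP _) one_ne_zero wU.1 d,
    fun h => ⟨(lev1 _ _ (Or.inl wU) d h).1, fun p hp hd =>
      ((mP _ _).1 ((lev1 _ _ (Or.inl wU) d h).2 p hp hd)).1.2.1⟩⟩, fun a ha => ?_, ?_⟩
  · by_cases hq : ∃ q ∈ Qs N, push (PP (zq q)) (lam2 q) q d ≠ 0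
    · obtain ⟨q, hq, h⟩ := hq
      obtain ⟨T, hT, e, h1⟩ := push_ne h
      obtain ⟨q1, q2, q3⟩ := mQ q hq
      have e1 : push (PP (zz N)) lam1 1 d = 0 := by
        by_contra h2
        have := ((mP _ _).1 ((lev1 _ _ (Or.inr w1) d h2).2 q q1 (e ▸ dvd_mul_right _ _))).1.2.2
        linarith
      have e2 : ∑ q ∈ Qs N, push (PP (zq q)) (lam2 q) q d = push (PP (zq q)) (lam2 q) q d := by
        refine sum_eq_single_of_mem q hq fun q' hq' hne => ?_
        by_contra h2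
        obtain ⟨T', hT', e', -⟩ := push_ne h2
        rcases (Nat.Prime.dvd_mul q1).1 (e' ▸ e ▸ dvd_mul_right _ _ : q ∣ q' * ∏ l ∈ T', l) with
          h3 | h3
        · exact hne ((Nat.prime_dvd_prime_iff_eq q1 (mQ q' hq').1).1 h3).symm
        · have := ((mP _ _).1 (dvdT _ T' hT' q q1 h3)).1.2.2
          linarith [hq2 q' hq']
      have e3 := push_abs (lam := lam2 q) (pP (zq q)) q1.ne_zero (w2' q hq).1 d
      refine ⟨?_, fun _ => ⟨e ▸ lev2 q hq T hT h1, fun p hp hd => ?_⟩⟩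
      · simp only [μ1, e1, e2]
        rw [abs_le] at e3 ⊢
        constructor <;> linarith
      · rcases (Nat.Prime.dvd_mul hp).1 (e ▸ hd : p ∣ q * ∏ l ∈ T, l) with h3 | h3
        · rw [(Nat.prime_dvd_prime_iff_eq hp q1).1 h3]; linarith
        · exact ((mP _ _).1 (dvdT _ T hT p hp h3)).1.2.1
    · push Not at hq
      have e : μ1 d = push (PP (zz N)) lam1 1 d := by
        simp only [μ1, sum_eq_zero hq, mul_zero, sub_zero]
      rw [e]
      exact ⟨push_abs (pP _) one_ne_zero w1.1 d, fun h => ⟨(lev1 _ _ (Or.inr w1) d h).1,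
        fun p hp hd => ((mP _ _).1 ((lev1 _ _ (Or.inr w1) d h).2 p hp hd)).1.2.1⟩⟩
  · rw [hW1 a (by omega)]
    have e1 := w1.2.2 _ (w2_01 a)
    rw [prod_eq_zero ((mP _ l).2 ⟨⟨hl, by exact_mod_cast h1, h2⟩, h3⟩)
      (by unfold w2; rw [if_pos hd]; norm_num)] at e1
    have e2 : 0 ≤ ∑ q ∈ Qs N, if q ∣ a then Sf (PP (zq q)) (lam2 q) (w2 a) else 0 :=
      sum_nonneg fun q hq => by
        split_ifs
        · exact (prod_01_nonneg (w2_01 a) _).trans (up (w2' q hq) a)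
        · exact le_rfl
    linarith
  · rw [hW1 a (by omega), card_filter]
    have e1 := w1.2.2 _ (w2_01 a)
    have e2 := prod_01_le (w2_01 a) (PP (zz N))
    have e3 : ∑ q ∈ Qs N, (if q ∣ a then (1 : ℝ) else 0) ≤
        ∑ q ∈ Qs N, if q ∣ a then Sf (PP (zq q)) (lam2 q) (w2 a) else 0 :=
      sum_le_sum fun q hq => by
        split_ifs
        · refine le_trans (le_of_eq (prod_eq_one fun l hl => ?_).symm) (up (w2' q hq) a)
          unfold w2
          rw [if_neg, sub_zero]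
          intro h1
          linarith [h l (pP _ l hl) h1, ((mP _ _).1 hl).1.2.2, hq2 q hq]
        · exact le_rfl
    push_cast
    linarith
  · rcases Nat.eq_zero_or_pos m with rfl | hm
    · simp [Wm]
    · rw [hW3 m hm.ne']
      exact (prod_01_nonneg (w2_01 m) _).trans (up w3 m)
  · rw [hW3 m hm.ne_zero]
    refine le_trans (le_of_eq (prod_eq_one fun l hl => ?_).symm) (up w3 m)
    unfold w2
    rw [if_neg, sub_zero]
    intro h1
    have := ((mP _ _).1 hl).1.2.2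
    rw [(Nat.prime_dvd_prime_iff_eq (pP _ l hl) hm).1 h1] at this
    linarith
  · rw [hW1 a (by omega), hWU a (by omega)]
    have e1 := w1.2.2 _ (w2_01 a)
    have e2 : 0 ≤ ∑ q ∈ Qs N, if q ∣ a then Sf (PP (zq q)) (lam2 q) (w2 a) else 0 :=
      sum_nonneg fun q hq => by
        split_ifs
        · exact (prod_01_nonneg (w2_01 a) _).trans (up (w2' q hq) a)
        · exact le_rfl
    have e3 := up wU a
    refine ⟨by linarith, (prod_01_nonneg (w2_01 a) _).trans e3, fun h => le_trans (le_of_eq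
      (prod_eq_one fun l hl => ?_).symm) e3⟩
    unfold w2
    rw [if_neg, sub_zero]
    intro h1
    linarith [h l (pP _ l hl) h1, ((mP _ _).1 hl).1.2.2]
  -- the mean value
  have toN : ∀ {d : ℕ}, (d : ℝ) ≤ Dl N → d ≤ N := fun h => by exact_mod_cast h.trans hDN
  have M1 : Mm N μ1 = Sf (PP (zz N)) lam1 gg -
      1 / 2 * ∑ q ∈ Qs N, gg q * Sf (PP (zq q)) (lam2 q) gg := by
    have e1 := Mm_push (N := N) (lam := lam1) (q := 1) (pP (zz N))
      (fun l _ => Nat.coprime_one_left l) one_ne_zero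
      (fun T hT h => toN (by rw [one_mul]; exact w1.2.1 T hT h))
    have e2 : ∀ q ∈ Qs N, gg q * Sf (PP (zq q)) (lam2 q) gg =
        Mm N (push (PP (zq q)) (lam2 q) q) := fun q hq => by
      rw [Mm_push (pP _) (cop q hq) (mQ q hq).1.ne_zero fun T hT h => toN (lev2 q hq T hT h),
        Nat.totient_prime (mQ q hq).1, gg, Nat.cast_sub (mQ q hq).1.one_le, Nat.cast_one]
    simp only [Nat.totient_one, Nat.cast_one, div_one, one_mul] at e1
    rw [← e1, sum_congr rfl e2]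
    simp only [Mm, μ1, sub_div, sum_sub_distrib, mul_div_assoc, ← mul_sum, sum_div]
    rw [sum_comm]
  have M3 : Mm N (push (PP (zq 1)) lam3 1) = Sf (PP (zq 1)) lam3 gg := by
    rw [Mm_push (pP _) (fun l _ => Nat.coprime_one_left l) one_ne_zero
      (fun T hT h => toN (by rw [one_mul]; exact w3.2.1 T hT h))]
    simp
  set V := ∏ l ∈ PP (zz N), (1 - gg l) with hV
  have V0 : 0 < V := prod_pos (vpos _)
  have lz : 0 < Real.log (zz N) := Real.log_pos (by linarith)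
  have lD : Real.log (Dl N) = 4 * Real.log (zz N) := by rw [← hz4, Real.log_pow]; norm_num
  have lq : ∀ q : ℕ, 1 ≤ q → Real.log (Dl N / q) = 3 * Real.log (zq q) := fun q hq => by
    have : (0 : ℝ) < q := by exact_mod_cast hq
    rw [Real.log_rpow (by positivity)]; ring
  have Vq : ∀ q ∈ Qs N, ∏ l ∈ PP (zq q), (1 - gg l) ≤
      V * ((1 + η) * (3 / 4) * (Real.log (Dl N) / Real.log (Dl N / q))) := by
    intro q hq
    have h4 := (le_max_right _ _).trans (hq1 q hq)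
    have h5 := (dP (zz N)).2 (zq q) (zz N) (by linarith) (hq2 q hq)
    have h6 := Real.log_pos (show 1 < zq q by linarith)
    have h7 := prod_filter_mul_prod_filter_not (PP (zz N))
      (fun l : ℕ => zq q < l ∧ (l : ℝ) ≤ zz N) (fun l => 1 - gg l)
    have h8 : (PP (zz N)).filter (fun l : ℕ => ¬ (zq q < l ∧ (l : ℝ) ≤ zz N)) = PP (zq q) := by
      ext l
      simp only [mem_filter, mP, not_and, not_le]
      constructor
      · rintro ⟨⟨⟨a1, a2, a3⟩, a4⟩, a5⟩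
        exact ⟨⟨a1, a2, not_lt.1 fun h => (a5 h).not_ge a3⟩, a4⟩
      · rintro ⟨⟨a1, a2, a3⟩, a4⟩
        exact ⟨⟨⟨a1, a2, a3.trans (hq2 q hq)⟩, a4⟩, fun h => absurd a3 h.not_ge⟩
    have h9 : 0 < ∏ l ∈ (PP (zz N)).filter (fun l : ℕ => zq q < l ∧ (l : ℝ) ≤ zz N), (1 - gg l) :=
      prod_pos fun l hl => vpos _ l (mem_filter.1 hl).1
    rw [h8, ← hV] at h7
    rw [prod_inv_distrib] at h5
    rw [lD, lq q (mQ q hq).1.one_le, (eq_inv_mul_iff_mul_eq₀ h9.ne').2 h7, mul_comm]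
    refine mul_le_mul_of_nonneg_left (h5.trans (le_of_eq ?_)) V0.le
    field_simp
  have V3 : ∏ l ∈ PP (zq 1), (1 - gg l) ≤ V * ((1 + η) * (3 / 4)) := by
    have h5 := (hD (zz N) (zq 1) (by linarith) h1z).2
    have h6 := Real.log_pos (show 1 < zq 1 by linarith)
    have h7 : PP (zq 1) = PP (zz N) ∪ prs (zz N) (zq 1) := by
      ext l
      simp only [mem_union, mP, mem_prs (zz_nonneg N)]
      constructor
      · rintro ⟨⟨a1, a2, a3⟩, a4⟩
        by_cases h : (l : ℝ) ≤ zz N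
        · exact Or.inl ⟨⟨a1, a2, h⟩, a4⟩
        · exact Or.inr ⟨a1, not_le.1 h, a3⟩
      · rintro (⟨⟨a1, a2, a3⟩, a4⟩ | ⟨a1, a2, a3⟩)
        · exact ⟨⟨a1, a2, a3.trans h1z⟩, a4⟩
        · exact ⟨⟨a1, hyz.trans_lt a2, a3⟩, fun h => (hEx l h).not_gt a2⟩
    have h8 := lq 1 le_rfl
    rw [Nat.cast_one, div_one, lD] at h8
    rw [h7, prod_union (disjoint_left.2 fun l h1 h2 =>
      ((mP _ _).1 h1).1.2.2.not_gt ((mem_prs (zz_nonneg N)).1 h2).2.1)]
    refine mul_le_mul_of_nonneg_left (h5.trans (le_of_eq ?_)) V0.le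
    field_simp
    linarith
  have hHc : 0 ≤ Real.log (7 * N) * Hc N (ck N) :=
    mul_nonneg (Real.log_nonneg (by linarith))
      (sum_nonneg fun k _ => div_nonneg (hck k) (Nat.cast_nonneg k))
  have g0 : ∀ q ∈ Qs N, 0 ≤ gg q := fun q hq => (gg_bd (by linarith [(mQ q hq).2.1])).1
  have hS0 : 0 ≤ ∑ q ∈ Qs N, gg q * (Real.log (Dl N) / Real.log (Dl N / q)) :=
    sum_nonneg fun q hq => mul_nonneg (g0 q hq) (by
      have h4 := (le_max_right _ _).trans (hq1 q hq)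
      have h6 := Real.log_pos (show 1 < zq q by linarith)
      rw [lD, lq q (mQ q hq).1.one_le]; positivity)
  have B2' : ∑ q ∈ Qs N, gg q * Sf (PP (zq q)) (lam2 q) gg ≤ V * ((A / 3 + A / 10000) *
      ((1 + η) * (3 / 4))) * ∑ q ∈ Qs N, gg q * (Real.log (Dl N) / Real.log (Dl N / q)) := by
    rw [mul_sum]
    refine sum_le_sum fun q hq => ?_
    have := mul_le_mul_of_nonneg_left ((s2 q hq).trans (mul_le_mul_of_nonneg_left (Vq q hq)
      (by positivity))) (g0 q hq)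
    linarith
  have B3 := mul_le_mul_of_nonneg_left (s3.trans (mul_le_mul_of_nonneg_left V3 (by positivity))) hHc
  have B4 := mul_le_mul_of_nonneg_left (numeric hA hη1 (add_nonneg hS0 hHc) hN) V0.le
  have B5 : 1 / LL N ≤ 2 * V := by
    have h5 := (dP (zz N)).2 y (zz N) (by linarith) hyz
    rw [filter_true_of_mem (fun l hl => ((mP _ _).1 hl).1.2), prod_inv_distrib, ← hV] at h5
    have h6 : 1 ≤ Real.log y := by
      linarith [Real.log_le_log (by norm_num) (hy0.trans hy'), Real.log_three_gt_d9]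
    have h7 : Real.log (zz N) ≤ Real.log N := Real.log_le_log (by linarith) (by
      simpa [zz] using Real.rpow_le_rpow_of_exponent_le hN1 (show (499 / 4000 : ℝ) ≤ 1 by norm_num))
    have h8 : V⁻¹ ≤ 2 * LL N := by
      refine h5.trans ((div_le_self (by positivity) h6).trans ?_)
      unfold LL; nlinarith
    have h9 : 0 < LL N := by unfold LL; linarith
    rw [inv_le_iff_one_le_mul₀ V0] at h8
    rw [div_le_iff₀ h9]; linarith
  have M2 : Mm N (push (PP (zz N)) lamU 1) = Sf (PP (zz N)) lamU gg := by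
    rw [Mm_push (pP _) (fun l _ => Nat.coprime_one_left l) one_ne_zero
      (fun T hT h => toN (by rw [one_mul]; exact wU.2.1 T hT h))]
    simp
  have pos : ∀ {t lam D} (_ : IsW 1 (PP t) lam D), 0 ≤ Sf (PP t) lam gg := fun {t _ _} h =>
    Sf_nonneg (fun l hl => ⟨((dP t).1 l hl).2.1, by linarith [vpos t l hl]⟩) fun w hw => by
      linarith [h.2.2 w hw, prod_01_nonneg hw (PP t)]
  have p2 := pos wU
  have p3 := pos w3
  have hAV : 0 < A * V := mul_pos hA V0
  have u1 : (A / 3 + A / 10000) * (V * ((1 + η) * (3 / 4))) ≤ A * V / 3 := by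
    have := mul_le_mul_of_nonneg_left hη1 hAV.le
    linarith
  have u3 := s3.trans ((mul_le_mul_of_nonneg_left V3 (by positivity)).trans u1)
  have u4 : Real.log (7 * N) * Hc N (ck N) * Sf (PP (zq 1)) lam3 gg ≤ A * V := by
    have := mul_le_mul (show Real.log (7 * N) * Hc N (ck N) ≤ 3 by linarith) u3 p3 (by norm_num)
    linarith
  have u5 := mul_nonneg hHc p3
  have B6 : A / 40000 / Real.log N ≤ A * V / 10000 := by
    have h6 : Real.log (zz N) ≤ Real.log N := Real.log_le_log (by linarith) (by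
      simpa [zz] using Real.rpow_le_rpow_of_exponent_le hN1 (show (499 / 4000 : ℝ) ≤ 1 by norm_num))
    have h7 : 1 ≤ Real.log (zz N) := by
      linarith [Real.log_le_log (by norm_num) hz3, Real.log_three_gt_d9]
    have h8 : 1 / (2 * Real.log N) ≤ 1 / LL N :=
      one_div_le_one_div_of_le (by unfold LL; linarith) (by unfold LL; linarith)
    calc _ = A / 20000 * (1 / (2 * Real.log N)) := by field_simp; norm_num
      _ ≤ A / 20000 * (2 * V) := by gcongr; exact h8.trans B5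
      _ = _ := by ring
  rw [M1, M2, M3]
  refine ⟨by linarith, p2, p3, by linarith⟩

end Pool.Agent.P.MP_0ad054_nt.Chen

namespace Pool.Agent.P.MP_746f10_nt.UC

open Pool.Agent.P.MP_0ad054_nt.Chen in
theorem chen2 : S_Chen2 := chen2' (lin fl) dim num

end Pool.Agent.P.MP_746f10_nt.UC
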