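import Pool.Agent.P.MP_746f10_nt.UC.Defs

/-! Lower bounds for L-series to the right of one and the resulting first moment bounds. -/

namespace Pool.Agent.P.MP_746f10_nt.UC

open Finset
open Pool.Agent.P.MP_0ad054_nt.Chen (Lev bet)
open scoped ArithmeticFunction.vonMangoldt

namespace ChiP

variable {M : ℕ} [NeZero M]

lemma pt_re (L t : ℝ) : (pt L t).re = 1 + 1 / L := by
  simp only [pt, Complex.add_re, Complex.one_re, Complex.ofReal_re, Complex.mul_re, Complex.I_re,
    Complex.I_im, Complex.ofReal_im]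
  ring

lemma norm_le_Z {y : ℕ} (hM : ∀ n, n.Coprime M ↔ rough y n) (κ : DirichletCharacter ℂ M) {h : ℝ}
    (hh : 0 < h) {s : ℂ} (hs : s.re = 1 + h) :
    ‖LSeries (fun n => κ n) s‖ ≤ Lr y (fun _ => 1) (fun n => pw h n / n) := by
  refine tsum_of_norm_bounded
    (summable_Lr (y := y) (ψ := fun _ => 1) (by simp) (summable_pw hh)).hasSum fun n => ?_
  rw [LSeries.norm_term_eq, mul_one]
  split_ifs with hn
  · simp [hn]
  · have h0 : (0 : ℝ) < n := by exact_mod_cast Nat.pos_of_ne_zero hn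
    have e : pw h n / n = 1 / (n : ℝ) ^ s.re := by
      rw [hs, Real.rpow_add h0, Real.rpow_one, Real.rpow_def_of_pos h0, pw, Real.exp_neg,
        mul_comm h]
      field_simp
    rw [e, div_mul_eq_mul_div, one_mul]
    refine div_le_div_of_nonneg_right ?_ (by positivity)
    unfold ri
    split_ifs with h2
    · exact κ.norm_le_one _
    · rw [char_zero κ fun h3 => h2 ((hM n).1 h3), norm_zero]

omit [NeZero M] in
lemma cond_sq_le (κ : DirichletCharacter ℂ M) : (κ ^ 2).conductor ≤ κ.conductor := by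
  obtain ⟨hd, χ, h⟩ := κ.factorsThrough_conductor
  have : (κ ^ 2).FactorsThrough κ.conductor := ⟨hd, χ ^ 2, by rw [map_pow, ← h]⟩
  exact Nat.sInf_le this

omit [NeZero M] in
lemma sum_log (κ : DirichletCharacter ℂ M) {s : ℂ} (hs : 1 < s.re) :
    LSeriesSummable (fun n => κ n * (Real.log n : ℝ)) s ∧
    LSeries (fun n => κ n * (Real.log n : ℝ)) s =
      LSeries (fun n => κ n * (Λ n : ℝ)) s * LSeries (fun n => κ n) s := by
  have h1 := LSeries_convolution' (κ.LSeriesSummable_twist_vonMangoldt hs)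
    (κ.LSeriesSummable_of_one_lt_re hs)
  have h2 := (κ.LSeriesSummable_twist_vonMangoldt hs).convolution
    (κ.LSeriesSummable_of_one_lt_re hs)
  rw [κ.convolution_twist_vonMangoldt] at h1 h2
  have e : (fun n : ℕ => κ n * (Real.log n : ℝ)) =
      (fun n : ℕ => κ n) * fun n : ℕ => Complex.log n := by
    ext n; simp only [Pi.mul_apply, Complex.natCast_log]
  rw [e]
  exact ⟨h2, h1⟩

omit [NeZero M] in
lemma diff_eq (κ : DirichletCharacter ℂ M) {s : ℂ} (hs : 1 < s.re) :
    LSeries (fun n => κ n * (Real.log n - Λ n : ℝ)) s =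
      LSeries (fun n => κ n * (Λ n : ℝ)) s * (LSeries (fun n => κ n) s - 1) := by
  have h1 := LSeries_sub (sum_log κ hs).1 (κ.LSeriesSummable_twist_vonMangoldt hs)
  rw [(sum_log κ hs).2] at h1
  rw [mul_sub, mul_one]
  refine Eq.trans ?_ h1
  congr 1
  ext n
  simp only [Pi.sub_apply, Pi.mul_apply]
  push_cast
  ring

omit [NeZero M] in
lemma bet_eq (κ : DirichletCharacter ℂ M) {s : ℂ} (hs : 1 < s.re) {B : ℝ} {cc : ℕ → ℝ}
    (hc : ∀ k, 0 ≤ cc k ∧ cc k ≤ B) :
    LSeries (fun n => κ n * (bet cc n : ℝ)) s =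
      LSeries (fun n => κ n * (cc n : ℝ)) s * LSeries (fun n => κ n * (Λ n : ℝ)) s := by
  have h0 : LSeriesSummable ((fun n : ℕ => κ n) * fun n : ℕ => (cc n : ℂ)) s :=
    LSeriesSummable_of_bounded_of_one_lt_re (m := B) (fun n _ => by
      rw [Pi.mul_apply, norm_mul, Complex.norm_real, Real.norm_of_nonneg (hc n).1]
      exact (mul_le_of_le_one_left (hc n).1 (κ.norm_le_one _)).trans (hc n).2) hs
  have h1 := LSeries_convolution' h0 (κ.LSeriesSummable_twist_vonMangoldt hs)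
  rw [κ.mul_convolution_distrib] at h1
  refine Eq.trans ?_ h1
  congr 1
  ext n
  rw [Pi.mul_apply, LSeries.convolution_def, bet]
  congr 1
  push_cast
  exact (Nat.sum_divisorsAntidiagonal (fun a b => (cc a : ℂ) * (Λ b : ℝ))).symm

lemma mem_Fam {Q : ℕ} {κ : DirichletCharacter ℂ M} :
    κ ∈ Fam M Q ↔ κ ≠ 1 ∧ κ.conductor ≤ Q := by
  simp [Fam]

lemma cs {ι : Type*} {S T : Finset ι} (hST : S ⊆ T) {f g : ι → ℝ} {A B : ℝ} (hA : 0 ≤ A)
    (hB : 0 ≤ B) (hf : ∑ i ∈ T, f i ^ 2 ≤ A ^ 2) (hg : ∑ i ∈ T, g i ^ 2 ≤ B ^ 2) :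
    ∑ i ∈ S, f i * g i ≤ A * B := by
  have h1 := sum_mul_sq_le_sq_mul_sq S f g
  have h2 := (sum_le_sum_of_subset_of_nonneg hST fun i _ _ => sq_nonneg (f i)).trans hf
  have h3 := (sum_le_sum_of_subset_of_nonneg hST fun i _ _ => sq_nonneg (g i)).trans hg
  refine le_of_sq_le_sq ?_ (mul_nonneg hA hB)
  rw [mul_pow]
  exact h1.trans (mul_le_mul h2 h3 (sum_nonneg fun i _ => sq_nonneg _) (sq_nonneg _))

end ChiP

open ChiP in
theorem chi (h1 : S_L2) (h2 : S_Ck) : S_Chi := by
  classical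
  intro c C hc hC hL ε η hε hη
  obtain ⟨C', hC', H1⟩ := h1 c C hc hC hL
  obtain ⟨Ck, U1, hCk, H2⟩ := h2
  obtain ⟨K, hK⟩ : ∃ K, K = C' * (C' + Ck) / ε := ⟨_, rfl⟩
  have hK0 : 0 < K := by rw [hK]; positivity
  obtain ⟨U2, hU2⟩ := exists_nat_ge (1 + C + 24 * C' * K ^ 4 + (K + C + 2 * C' * K) / η)
  refine ⟨max U1 U2, ?_⟩
  intro Q y M U N _ t χ0 hQ hy hM hU hN hG
  have hUr : 1 + C + 24 * C' * K ^ 4 + (K + C + 2 * C' * K) / η ≤ U :=
    hU2.trans (by exact_mod_cast (le_max_right _ _).trans hU)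
  have u0 : 0 ≤ 24 * C' * K ^ 4 := by positivity
  have u1 : 0 ≤ (K + C + 2 * C' * K) / η := by positivity
  have hU0 : (0 : ℝ) < U := by linarith
  have hU1 : (1 : ℝ) ≤ U := by linarith
  have hz : 4 ≤ Q ^ 2 := by nlinarith
  have hQz : Q ≤ Q ^ 2 := Nat.le_self_pow two_ne_zero Q
  have hzy : Q ^ 2 ≤ y := hy ▸ Nat.le_self_pow (by omega) _
  have hy4 : 4 ≤ y := hz.trans hzy
  have hl : 0 < Real.log y := Real.log_pos (by exact_mod_cast (by omega : 1 < y))
  have hlN : Real.log N = U * Real.log y := by rw [hN]; push_cast; rw [Real.log_pow]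
  obtain ⟨h, hh⟩ : ∃ h, h = 1 / (U * Real.log y) := ⟨_, rfl⟩
  have hh0 : 0 < h := by rw [hh]; positivity
  have hre : ∀ t, (pt (U * Real.log y) t).re = 1 + h := fun t => by rw [pt_re, hh]
  have hre1 : ∀ t, 1 < (pt (U * Real.log y) t).re := fun t => by rw [hre]; linarith
  have hZ : Lr y (fun _ => 1) (fun n => pw h n / n) ≤ 2 * U := by
    have a1 := hL.zeta_le (show 2 ≤ Q ^ 2 by omega) hy (by omega) hh0
    have a2 : VV y / h ≤ U := by
      rw [hh, div_div_eq_mul_div, div_one]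
      calc _ = U * (VV y * Real.log y) := by ring
        _ ≤ _ := mul_le_of_le_one_right hU0.le (VV_mul_log_le' y)
    linarith
  have hZ' : ∀ (κ : DirichletCharacter ℂ M) t,
      ‖LSeries (fun n => κ n) (pt (U * Real.log y) t)‖ ≤ 2 * U := fun κ t =>
    (norm_le_Z hM κ hh0 (hre t)).trans hZ
  obtain ⟨τ, hτ⟩ : ∃ τ, τ = 1 + |t| := ⟨_, rfl⟩
  have hτ1 : 1 ≤ τ := by rw [hτ]; linarith [abs_nonneg t]
  obtain ⟨m0, m1, m2⟩ := H1 Q y M U t hQ hy hM hU1
  have hsub : Fam' M Q y χ0 ⊆ Fam M Q := filter_subset _ _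
  have tfo : ∀ κ : DirichletCharacter ℂ M, 1 ≤ (2 * U) ^ 3 *
      ‖LSeries (fun n => κ n) (pt (U * Real.log y) t)‖ ^ 4 *
      ‖LSeries (fun n => (κ ^ 2) n) (pt (U * Real.log y) (2 * t))‖ := by
    intro κ
    have a1 := κ.norm_LSeries_product_ge_one (x := 1 / (U * Real.log y)) (by positivity)
      (t / (U * Real.log y))
    have e0 : (1 : ℂ) + (1 / (U * Real.log y) : ℝ) = pt (U * Real.log y) 0 := by simp [pt]
    have e2 : (1 : ℂ) + (1 / (U * Real.log y) : ℝ) + 2 * Complex.I * (t / (U * Real.log y) : ℝ) =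
        pt (U * Real.log y) (2 * t) := by
      simp only [pt]; push_cast; ring
    rw [e2] at a1
    have e1 : (1 : ℂ) + (1 / (U * Real.log y) : ℝ) + Complex.I * (t / (U * Real.log y) : ℝ) =
        pt (U * Real.log y) t := rfl
    rw [e1, e0, norm_mul, norm_mul, norm_pow, norm_pow] at a1
    refine le_trans a1 ?_
    gcongr
    exact hZ' 1 0
  have low : ∀ κ ∈ Fam' M Q y χ0,
      K ≤ ‖LSeries (fun n => κ n) (pt (U * Real.log y) t)‖ * (U * τ ^ 2) := by
    intro κ hκ
    have hκ1 := mem_Fam.1 (hsub hκ)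
    have hκ2 := (mem_filter.1 hκ).2
    have a1 := tfo κ
    have hm2 := m2 κ (hsub hκ)
    set x := ‖LSeries (fun n => κ n) (pt (U * Real.log y) t)‖ with hx
    have hx0 : 0 ≤ x := norm_nonneg _
    by_cases hsq : κ ^ 2 = 1
    · by_cases hτK : 2 * K ≤ τ ^ 2
      · have a2 : 1 ≤ (2 * U * x) ^ 4 := by
          refine a1.trans ?_
          calc _ ≤ (2 * U) ^ 3 * x ^ 4 * (2 * U) := by gcongr; exact hZ' _ _
            _ = _ := by ring
        have a3 : 1 ≤ 2 * U * x := by
          by_contra a4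
          exact absurd a2 (not_le.2 (pow_lt_one₀ (by positivity) (not_le.1 a4) (by norm_num)))
        nlinarith [mul_le_mul a3 hτK (by positivity) (by positivity)]
      · obtain ⟨χ, r1, r2⟩ := exists_RC hκ1.1 hsq
        have r3 : ∀ n, rough y n → κ n = χ.χ n := fun n hn => by
          rw [← r2, pc_eq κ ((hM n).2 hn)]
        have r4 : χ.r ≤ Q := r1 ▸ hκ1.2
        have h3 : η ≤ χ.ell y := (hG χ r4).resolve_right fun h3 =>
          hκ2 fun n hn => by rw [r3 n hn, h3 n hn]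
        have b1 := (abs_le.1 (hL.ell (by linarith) (show 2 ≤ Q ^ 2 by omega) hy (by omega) hh0 χ
          (r4.trans hQz))).1
        have b2 : C * (h * Real.log y) = C / U := by rw [hh]; field_simp
        have b3 : LSeries (fun n => κ n) (pt (U * Real.log y) 0) =
            (Lr y χ.χ (fun n => pw h n / n) : ℝ) := by
          have := LSeries_eq hM κ (fun _ => 1) h
          simp only [Complex.ofReal_one, mul_one] at this
          rw [show pt (U * Real.log y) 0 = 1 + (h : ℝ) by simp [pt, hh], this, ← Ls_ofReal]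
          exact Ls_congr r3 _
        have b4 : η - C / U ≤ ‖LSeries (fun n => κ n) (pt (U * Real.log y) 0)‖ := by
          rw [b3, Complex.norm_real]
          exact le_trans (by linarith) (le_abs_self _)
        have b5 := norm_sub_norm_le (LSeries (fun n => κ n) (pt (U * Real.log y) 0))
          (LSeries (fun n => κ n) (pt (U * Real.log y) t))
        rw [norm_sub_rev] at b5
        have b6 : |t| ≤ 2 * K := by nlinarith [abs_nonneg t]
        have b7 : C' * |t| / U ≤ C' * (2 * K) / U := by gcongr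
        have b8 : η - C / U - C' * (2 * K) / U ≤ x := by linarith
        have b9 : K + C + 2 * C' * K ≤ η * U := by
          rw [← div_le_iff₀' hη]; linarith
        have b10 : K ≤ x * U := by
          have := mul_le_mul_of_nonneg_right b8 hU0.le
          rw [sub_mul, sub_mul, div_mul_cancel₀ _ hU0.ne', div_mul_cancel₀ _ hU0.ne'] at this
          linarith
        calc K ≤ x * U * 1 := by rwa [mul_one]
          _ ≤ x * U * τ ^ 2 := by gcongr; exact one_le_pow₀ hτ1
          _ = _ := by ring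
    · have b1 : κ ^ 2 ∈ Fam M Q :=
        mem_Fam.2 ⟨hsq, (cond_sq_le κ).trans hκ1.2⟩
      have b2 := (single_le_sum (f := fun κ : DirichletCharacter ℂ M =>
        ‖LSeries (fun n => κ n) (pt (U * Real.log y) (2 * t)) - 1‖ ^ 2)
        (fun _ _ => sq_nonneg _) b1).trans (H1 Q y M U (2 * t) hQ hy hM hU1).1
      have b3 := (pow_le_pow_iff_left₀ (norm_nonneg _) (by positivity) two_ne_zero).1 b2
      have b4 := norm_sub_norm_le (LSeries (fun n => (κ ^ 2) n) (pt (U * Real.log y) (2 * t))) 1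
      rw [norm_one] at b4
      rw [abs_mul, abs_two] at b3
      have b5 : ‖LSeries (fun n => (κ ^ 2) n) (pt (U * Real.log y) (2 * t))‖ ≤ 3 * C' * τ := by
        rw [hτ]; nlinarith [abs_nonneg t]
      have b6 : 1 ≤ (2 * U) ^ 3 * x ^ 4 * (3 * C' * τ) := a1.trans (by gcongr)
      by_contra b7
      have b8 : (x * (U * τ ^ 2)) ^ 4 < K ^ 4 :=
        pow_lt_pow_left₀ (not_le.1 b7) (by positivity) (by norm_num)
      have b9 : (U : ℝ) * 1 * 1 ≤ U * τ ^ 7 * ((2 * U) ^ 3 * x ^ 4 * (3 * C' * τ)) := by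
        gcongr; exact one_le_pow₀ hτ1
      have b10 : U * τ ^ 7 * ((2 * U) ^ 3 * x ^ 4 * (3 * C' * τ)) =
          24 * C' * (x * (U * τ ^ 2)) ^ 4 := by ring
      have b11 : 24 * C' * (x * (U * τ ^ 2)) ^ 4 ≤ 24 * C' * K ^ 4 := by gcongr
      linarith
  have hP : ∀ κ ∈ Fam' M Q y χ0,
      ‖LSeries (fun n => κ n * (Λ n : ℝ)) (pt (U * Real.log y) t)‖ ≤ U * τ ^ 2 / K *
        ‖LSeries (fun n => κ n * (Real.log n : ℝ)) (pt (U * Real.log y) t)‖ := by
    intro κ hκ
    rw [(sum_log κ (hre1 t)).2, norm_mul, div_mul_eq_mul_div, le_div_iff₀ hK0]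
    calc _ ≤ ‖LSeries (fun n => κ n * (Λ n : ℝ)) (pt (U * Real.log y) t)‖ *
          (‖LSeries (fun n => κ n) (pt (U * Real.log y) t)‖ * (U * τ ^ 2)) :=
          mul_le_mul_of_nonneg_left (low κ hκ) (norm_nonneg _)
      _ = _ := by ring
  rw [← hτ] at m0 m1 ⊢
  rw [hlN]
  have hKε : C' * (C' + Ck) = ε * K := by rw [hK]; field_simp
  refine ⟨?_, fun B cc hcc => ?_⟩
  · calc _ ≤ ∑ κ ∈ Fam' M Q y χ0, U * τ ^ 2 / K *
          (‖LSeries (fun n => κ n * (Real.log n : ℝ)) (pt (U * Real.log y) t)‖ *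
            ‖LSeries (fun n => κ n) (pt (U * Real.log y) t) - 1‖) := by
          refine sum_le_sum fun κ hκ => ?_
          rw [diff_eq κ (hre1 t), norm_mul, ← mul_assoc]
          exact mul_le_mul_of_nonneg_right (hP κ hκ) (norm_nonneg _)
      _ ≤ U * τ ^ 2 / K * (C' * Real.log y * τ * (C' * τ)) := by
          rw [← mul_sum]
          exact mul_le_mul_of_nonneg_left (cs hsub (by positivity) (by positivity) m1 m0)
            (by positivity)
      _ = C' * C' / K * (U * Real.log y) * τ ^ 4 := by ring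
      _ ≤ _ := by
          gcongr
          rw [div_le_iff₀ hK0, ← hKε]
          nlinarith
  · have hB : 0 ≤ B := (hcc.1 0).1.trans (hcc.1 0).2
    have m3 := H2 Q y M U N t B cc hQ hzy hM ((le_max_left _ _).trans hU) hN hcc
    rw [hlN] at m3
    calc _ ≤ ∑ κ ∈ Fam' M Q y χ0, U * τ ^ 2 / K *
          (‖LSeries (fun n => κ n * (Real.log n : ℝ)) (pt (U * Real.log y) t)‖ *
            ‖LSeries (fun n => κ n * (cc n : ℝ)) (pt (U * Real.log y) t)‖) := by
          refine sum_le_sum fun κ hκ => ?_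
          rw [bet_eq κ (hre1 t) hcc.1, norm_mul, ← mul_assoc, mul_comm]
          exact mul_le_mul_of_nonneg_right (hP κ hκ) (norm_nonneg _)
      _ ≤ U * τ ^ 2 / K * (C' * Real.log y * τ * (Ck * B)) := by
          rw [← mul_sum]
          exact mul_le_mul_of_nonneg_left (cs hsub (by positivity) (by positivity) m1 m3)
            (by positivity)
      _ = C' * Ck / K * B * (U * Real.log y) * τ ^ 3 := by ring
      _ ≤ _ := by
          gcongr
          · rw [div_le_iff₀ hK0, ← hKε]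
            nlinarith
          · norm_num

end Pool.Agent.P.MP_746f10_nt.UC
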