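import Pool.Agent.P.MP_746f10_nt.UC.L2

/-! A mean square bound for the Dirichlet polynomial of the switched coefficients. -/

namespace Pool.Agent.P.MP_746f10_nt.UC

open Finset

namespace CkP

/-- the function `n ^ (-i τ)` -/
noncomputable def tw (τ : ℝ) (n : ℕ) : ℂ := Complex.exp ((-(τ * Real.log n) : ℝ) * Complex.I)

lemma norm_tw (τ : ℝ) (n : ℕ) : ‖tw τ n‖ = 1 := Complex.norm_exp_ofReal_mul_I _

lemma tw_conj (τ : ℝ) (n : ℕ) : tw τ n * (starRingEnd ℂ) (tw τ n) = 1 := by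
  rw [Complex.mul_conj, Complex.normSq_eq_norm_sq, norm_tw]; simp

lemma term_eq (a : ℕ → ℂ) (h τ : ℝ) {n : ℕ} (hn : n ≠ 0) :
    LSeries.term a (1 + h + Complex.I * τ) n = (pw h n / n : ℝ) * a n * tw τ n := by
  have hn' : (n : ℂ) ≠ 0 := by exact_mod_cast hn
  rw [LSeries.term_of_ne_zero hn, Complex.cpow_add _ _ hn', Complex.cpow_add _ _ hn',
    Complex.cpow_one, Complex.cpow_def_of_ne_zero hn', Complex.cpow_def_of_ne_zero hn',
    ← Complex.natCast_log]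
  unfold pw tw; push_cast
  rw [Complex.exp_neg, mul_comm (h : ℂ), neg_mul, Complex.exp_neg,
    show Complex.log n * (Complex.I * τ) = τ * Complex.log n * Complex.I by ring]
  field_simp

end CkP

open L2P CkP in
theorem ckl2 : S_Ck := by
  obtain ⟨k0, hk0⟩ := exists_sieve 1 zero_le_one
  obtain ⟨s0, hs0⟩ : ∃ s0, s0 = 4 * (k0 + 0) + 6 := ⟨_, rfl⟩
  refine ⟨6 + 80 * s0, 20 * s0, by linarith [(Nat.cast_nonneg s0 : (0 : ℝ) ≤ s0)], ?_⟩
  intro Q y M U N _ t B c hQ hQy hM hU hN hc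
  have hy : 2 ≤ y := by nlinarith
  have hy' : (1 : ℝ) ≤ y := by exact_mod_cast (by omega : 1 ≤ y)
  have hB : 0 ≤ B := (hc.1 0).1.trans (hc.1 0).2
  rcases hB.eq_or_lt with rfl | hB
  · have : ∀ n, c n = 0 := fun n => le_antisymm (hc.1 n).2 (hc.1 n).1
    simp [this, LSeries, LSeries.term]
  obtain ⟨m, hm⟩ : ∃ m, m = U / (20 * s0) := ⟨_, rfl⟩
  have hm1 : 1 ≤ m := hm ▸ (Nat.le_div_iff_mul_le (by omega)).2 (by omega)
  have hm2 : 20 * (s0 * m) ≤ U := by rw [hm, ← mul_assoc]; exact Nat.mul_div_le _ _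
  have hm3 : U + 1 ≤ 40 * s0 * m := by
    have := Nat.lt_mul_div_succ U (show 0 < 20 * s0 by omega)
    rw [← hm] at this
    nlinarith only [this, hm1]
  have hm4 : m ≤ s0 * m := Nat.le_mul_of_pos_left _ (by omega)
  have hz : 2 ≤ y ^ m := hy.trans (Nat.le_self_pow (by omega) y)
  obtain ⟨s⟩ := hk0 0 (y ^ m) (PP 0 (y ^ m)) hz fun p hp => ⟨PP_prime hp, (mem_PP.1 hp).2.1⟩
  rw [← hs0] at s
  have hA : 1 ≤ y ^ (U / 10) := Nat.one_le_pow _ _ (by omega)
  have hN1 : (1 : ℝ) ≤ N := by rw [hN]; exact_mod_cast Nat.one_le_pow _ _ (by omega)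
  have hAN : ((y ^ (U / 10) : ℕ) : ℝ) ≤ (N : ℝ) ^ (1 / 10 : ℝ) := by
    rw [one_div, Real.le_rpow_inv_iff_of_pos (by positivity) (by positivity) (by norm_num),
      show (10 : ℝ) = (10 : ℕ) by norm_num, Real.rpow_natCast, hN]
    exact_mod_cast (pow_mul y _ 10).symm.le.trans (Nat.pow_le_pow_right (by omega) (by omega))
  have hr : ∀ n, c n ≠ 0 → rough (y ^ (U / 10)) n := fun n hn p hp hd => by
    exact_mod_cast hAN.trans_lt (((hc.2.1 n).2 hn).2 p hp hd)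
  have hr' : ∀ j, j ≤ U / 10 → ∀ n, c n ≠ 0 → rough (y ^ j) n := fun j hj n hn p hp hd =>
    (Nat.pow_le_pow_right (by omega) hj).trans_lt (hr n hn p hp hd)
  have hsupp : ∀ n, n ≠ 0 → c n ≠ 0 → n ∈ Ico (y ^ (U / 10)) (y ^ (U + 1)) := fun n h0 hn => by
    have h1 : n ≠ 1 := fun h => hn (h ▸ hc.2.2)
    have h2 := hr n hn _ (Nat.minFac_prime h1) (Nat.minFac_dvd n)
    have h3 := Nat.minFac_le (Nat.pos_of_ne_zero h0)
    have h4 : (n : ℝ) ≤ N := ((hc.2.1 n).2 hn).1.trans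
      (Real.rpow_le_self_of_one_le hN1 (by norm_num))
    have h5 : n ≤ N := by exact_mod_cast h4
    have h6 : y ^ U < y ^ (U + 1) := Nat.pow_lt_pow_right (by omega) (by omega)
    exact mem_Ico.2 ⟨by omega, by omega⟩
  unfold pt
  set h := 1 / Real.log N with hh'
  set τ := t / Real.log N with hτ
  have hh : 0 ≤ h := by have := Real.log_natCast_nonneg N; positivity
  have hδ : ∀ n, 0 ≤ c n / B * pw h n ∧
      c n / B * pw h n ≤ th2 (PP 0 (y ^ m)) s.up (dv n) := fun n => by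
    have h1 := (hc.1 n).1
    have h2 := pw_pos h n
    refine ⟨by positivity, le_trans ?_ ((prod_one_sub_dv (y ^ m) n).symm.le.trans
      (s.le_up _ fun p _ => dv_bd n p))⟩
    rcases eq_or_ne (c n) 0 with h3 | h3
    · rw [h3]; simpa using (ri_bd _ n).1
    · rw [ri, if_pos (hr' m (by omega) n h3)]
      exact mul_le_one₀ ((div_le_one hB).2 (hc.1 n).2) h2.le (pw_le_one hh n)
  have hρ : th2 (PP 0 (y ^ m)) s.up (fun p => 1 / p) ≤ 2 * VV (y ^ m) :=
    (s.up_le _ inv_prime_bd).trans (le_of_eq (by rw [VV]; norm_num))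
  have hV := VV_pos (y ^ m)
  have key := blk_dual (fun p hp => PP_prime hp) s.abs_up s.supp_up hA
    (Nat.pow_le_pow_right (by omega) (by omega : U / 10 ≤ U + 1)) Wt.one zero_le_one
    (fun _ _ => le_rfl) (Fam M Q) (fun κ n => pc κ n * tw τ n) (card_Fam Q)
    (fun κ _ n => by rw [norm_mul, norm_tw, mul_one]; exact pc_le κ n)
    (fun κ h1 κ' h2 h3 => by
      convert osc_Fam2 κ h1 κ' h2 h3 using 2 with n
      rw [map_mul]
      linear_combination pc κ n * (starRingEnd ℂ) (pc κ' n) * tw_conj τ n)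
    hδ hρ (by linarith) (sum_Ico_inv_le hA _)
    (by exact_mod_cast Nat.one_le_pow _ _ (by omega))
  have e1 : ∀ κ : DirichletCharacter ℂ M,
      LSeries (fun n => κ n * (c n : ℝ)) (1 + h + Complex.I * τ) = (B : ℝ) *
      ∑ n ∈ Ico (y ^ (U / 10)) (y ^ (U + 1)), ((1 * 1 / n * (c n / B * pw h n) : ℝ) : ℂ) *
        (pc κ n * tw τ n) := fun κ => by
    rw [LSeries, tsum_eq_sum (s := Ico (y ^ (U / 10)) (y ^ (U + 1))), mul_sum]
    · refine sum_congr rfl fun n hn => ?_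
      rw [term_eq _ _ _ (by have := (mem_Ico.1 hn).1; omega)]
      rcases eq_or_ne (c n) 0 with h3 | h3
      · simp [h3]
      · rw [pc_eq κ ((hM n).2 (by simpa using hr' 1 (by omega) n h3))]
        have : (B : ℂ) ≠ 0 := by exact_mod_cast hB.ne'
        push_cast; field_simp
    · intro n hn
      rcases eq_or_ne n 0 with rfl | h0
      · simp
      · rw [term_eq _ _ _ h0, of_not_not fun h3 => hn (hsupp n h0 h3)]; simp
  simp only [e1, norm_mul, mul_pow, Complex.norm_real, Real.norm_of_nonneg hB.le]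
  rw [← mul_sum, mul_comm]
  refine mul_le_mul_of_nonneg_right (key.trans (pow_le_pow_left₀ ?_ ?_ 2)) (sq_nonneg B)
  · have := Real.log_natCast_nonneg (y ^ (U + 1)); positivity
  have b1 : Real.log (y ^ (U + 1) : ℕ) ≤ 40 * s0 * Real.log (y ^ m : ℕ) := by
    rw [Nat.cast_pow, Nat.cast_pow, Real.log_pow, Real.log_pow, ← mul_assoc]
    exact mul_le_mul_of_nonneg_right (by exact_mod_cast hm3) (Real.log_natCast_nonneg y)
  have b2 : 2 * VV (y ^ m) * (1 + Real.log (y ^ (U + 1) : ℕ)) ≤ 2 + 80 * s0 := by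
    calc _ ≤ 2 * VV (y ^ m) * (1 + 40 * s0 * Real.log (y ^ m : ℕ)) := by gcongr
      _ = 2 * VV (y ^ m) + 80 * s0 * (VV (y ^ m) * Real.log (y ^ m : ℕ)) := by ring
      _ ≤ 2 * 1 + 80 * s0 * 1 := by gcongr; exacts [VV_le_one _, VV_mul_log_le' _]
      _ = _ := by ring
  have b3 : 4 * (((y ^ m) ^ s0 : ℕ) : ℝ) * ((Q ^ 2 : ℕ) : ℝ) ^ 2 / (y ^ (U / 10) : ℕ) ≤ 4 := by
    rw [div_le_iff₀ (by positivity), mul_assoc]
    have : (y ^ m) ^ s0 * (Q ^ 2) ^ 2 ≤ y ^ (U / 10) := by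
      calc _ ≤ (y ^ m) ^ s0 * y ^ 2 := by gcongr
        _ = y ^ (s0 * m + 2) := by ring
        _ ≤ _ := Nat.pow_le_pow_right (by omega) (by omega)
    exact mul_le_mul_of_nonneg_left (by exact_mod_cast this) (by norm_num)
  linarith

end Pool.Agent.P.MP_746f10_nt.UC
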