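import Pool.Agent.P.MP_746f10_nt.UC.Defs

/-! Character expansion of functions with small conductors. -/

set_option linter.unusedSectionVars false

namespace Pool.Agent.P.MP_746f10_nt.UC

open Finset
open Pool.Agent.P.MP_0ad054_nt.Chen (Lev bet)
open scoped ArithmeticFunction.vonMangoldt

namespace CoreP

variable {Q y M : ℕ} [NeZero M] {F : ℕ → ℝ} {c0 : ℝ}

lemma c0_nn (hF : FG Q y M F c0) : 0 ≤ c0 :=
  hF.mean ▸ div_nonneg (sum_nonneg fun m _ => mul_nonneg (hF.nn m) (ri_bd y m).1) (Nat.cast_nonneg _)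

lemma gh_eq (hF : FG Q y M F c0) (κ : DirichletCharacter ℂ M) (s : ℝ)
    (h1 : ∀ n, rough y n → F n ≠ 0 → κ n = s) : Gh F κ = (s * c0 : ℝ) := by
  rw [Gh, hF.mean]; push_cast
  rw [← mul_div_assoc, mul_sum]
  congr 1
  refine sum_congr rfl fun m _ => ?_
  unfold ri
  split_ifs with h2
  · by_cases h3 : F m = 0
    · simp [h3]
    · rw [h1 m h2 h3]; simp [mul_comm]
  · rw [char_zero κ fun h3 => h2 ((hF.unit m).1 h3)]; simp

lemma gh_le (hF : FG Q y M F c0) (κ : DirichletCharacter ℂ M) : ‖Gh F κ‖ ≤ c0 := by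
  rw [Gh, norm_div, Complex.norm_natCast, hF.mean]
  refine div_le_div_of_nonneg_right ((norm_sum_le _ _).trans (sum_le_sum fun m _ => ?_))
    (Nat.cast_nonneg _)
  rw [norm_mul, Complex.norm_real, Real.norm_of_nonneg (hF.nn m), Complex.norm_conj]
  refine mul_le_mul_of_nonneg_left ?_ (hF.nn m)
  unfold ri
  split_ifs with h2
  · exact κ.norm_le_one _
  · rw [char_zero κ fun h3 => h2 ((hF.unit m).1 h3), norm_zero]

/-- twisted sum -/
noncomputable def DD (N : ℕ) (g w : ℕ → ℝ) (κ : DirichletCharacter ℂ M) : ℂ :=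
  ∑ m ∈ range N, κ m * (g m : ℝ) * (w m : ℝ)

open Classical in
/-- the characters that agree with `χ0` -/
noncomputable def Ex (M Q y : ℕ) (χ0 : ℕ → ℝ) : Finset (DirichletCharacter ℂ M) :=
  (Fam M Q).filter (fun κ => ∀ n : ℕ, rough y n → κ n = χ0 n)

lemma card_Ex (hM : ∀ n, n.Coprime M ↔ rough y n) (χ0 : ℕ → ℝ) : ((Ex M Q y χ0).card : ℝ) ≤ 1 := by
  classical
  exact_mod_cast card_le_one.2 fun κ hκ κ' hκ' => by
    by_contra h0
    obtain ⟨u, a1, a2⟩ := exists_ne h0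
    exact a2 (by rw [(mem_filter.1 hκ).2 u ((hM u).1 a1), (mem_filter.1 hκ').2 u ((hM u).1 a1)])

lemma Ex_empty {χ0 : ℕ → ℝ} (h : ∀ n, χ0 n = 0) : Ex M Q y χ0 = ∅ := by
  classical
  refine filter_eq_empty_iff.2 fun κ _ h1 => ?_
  have := h1 1 (fun p hp h2 => absurd (Nat.dvd_one.1 h2) hp.ne_one)
  simp [h] at this

lemma mem_Fam {κ : DirichletCharacter ℂ M} : κ ∈ Fam M Q ↔ κ ≠ 1 ∧ κ.conductor ≤ Q := by
  simp [Fam]

lemma split (hF : FG Q y M F c0) (N : ℕ) (g w χ0 : ℕ → ℝ) :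
    ((∑ m ∈ range N, g m * ri y m * w m * F m : ℝ) : ℂ) =
      c0 * DD N g w (1 : DirichletCharacter ℂ M) + ∑ κ ∈ Ex M Q y χ0, Gh F κ * DD N g w κ +
        ∑ κ ∈ Fam' M Q y χ0, Gh F κ * DD N g w κ := by
  classical
  have e1 : ((∑ m ∈ range N, g m * ri y m * w m * F m : ℝ) : ℂ) =
      ∑ κ : DirichletCharacter ℂ M, Gh F κ * DD N g w κ := by
    unfold DD
    simp_rw [mul_sum]
    rw [sum_comm, Complex.ofReal_sum]
    refine sum_congr rfl fun m _ => ?_
    unfold ri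
    split_ifs with h1
    · rw [Complex.ofReal_mul _ (F m), expand hF.per ((hF.unit m).2 h1), mul_sum]
      exact sum_congr rfl fun κ _ => by push_cast; ring
    · rw [sum_eq_zero fun κ _ => by rw [char_zero κ fun h3 => h1 ((hF.unit m).1 h3)]; simp]; simp
  have e2 : Gh F (1 : DirichletCharacter ℂ M) = c0 := by
    rw [gh_eq hF 1 1 fun n hn _ => one_char ((hF.unit n).2 hn), one_mul]
  have e3 : ∑ κ ∈ univ.erase (1 : DirichletCharacter ℂ M), Gh F κ * DD N g w κ =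
      ∑ κ ∈ Fam M Q, Gh F κ * DD N g w κ := by
    symm
    refine sum_subset (fun κ hκ => mem_erase.2 ⟨(mem_Fam.1 hκ).1, mem_univ _⟩) fun κ h1 h2 => ?_
    rw [Gh, hF.van κ (lt_of_not_ge fun h3 => h2 (mem_Fam.2 ⟨ne_of_mem_erase h1, h3⟩))]; simp
  rw [e1, ← add_sum_erase _ _ (mem_univ 1), e2, e3, add_assoc]
  congr 1
  exact (sum_filter_add_sum_filter_not _ _ _).symm

lemma tail_le (hF : FG Q y M F c0) (S : Finset (DirichletCharacter ℂ M))
    (D : DirichletCharacter ℂ M → ℂ) {T : ℝ} (h : ∑ κ ∈ S, ‖D κ‖ ≤ T) :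
    ‖∑ κ ∈ S, Gh F κ * D κ‖ ≤ c0 * T := by
  refine (norm_sum_le _ _).trans (le_trans (sum_le_sum fun κ _ => ?_)
    ((mul_sum S _ c0).symm.le.trans (mul_le_mul_of_nonneg_left h (c0_nn hF))))
  rw [norm_mul]; exact mul_le_mul_of_nonneg_right (gh_le hF κ) (norm_nonneg _)

lemma DD_le {N : ℕ} {g w : ℕ → ℝ} (hg : ∀ m, 0 ≤ g m) (hw : ∀ m, 0 ≤ w m)
    (κ : DirichletCharacter ℂ M) : ‖DD N g w κ‖ ≤ ∑ m ∈ range N, g m * w m := by
  refine (norm_sum_le _ _).trans (sum_le_sum fun m _ => ?_)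
  rw [norm_mul, norm_mul, Complex.norm_real, Complex.norm_real, Real.norm_of_nonneg (hg m),
    Real.norm_of_nonneg (hw m)]
  exact mul_le_mul_of_nonneg_right (mul_le_of_le_one_left (hg m) (κ.norm_le_one _)) (hw m)

lemma summable_tw (κ : DirichletCharacter ℂ M) {g : ℕ → ℝ} (hg : ∀ n, |g n| ≤ Real.log n) {L : ℝ}
    (hL : 0 < L) : LSeriesSummable (fun n => κ n * (g n : ℝ)) (pt L 0) := by
  refine LSeriesSummable_of_le_const_mul_rpow (x := 1 + 1 / L / 2) ?_ ⟨2 * L, fun n _ => ?_⟩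
  · have : 0 < 1 / L := by positivity
    simp only [pt, Complex.add_re, Complex.one_re, Complex.ofReal_re, Complex.mul_re, Complex.I_re,
      Complex.I_im, Complex.ofReal_im]
    linarith
  · rw [norm_mul, Complex.norm_real, add_sub_cancel_left]
    refine (mul_le_of_le_one_left (norm_nonneg _) (κ.norm_le_one _)).trans ((hg n).trans ?_)
    refine (Real.log_le_rpow_div (Nat.cast_nonneg n) (show 0 < 1 / L / 2 by positivity)).trans
      (le_of_eq ?_)
    field_simp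

lemma bet_nn {c : ℕ → ℝ} (hc : ∀ k, 0 ≤ c k) (n : ℕ) : 0 ≤ bet c n :=
  sum_nonneg fun k _ => mul_nonneg (hc k) ArithmeticFunction.vonMangoldt_nonneg

lemma bet_le {c : ℕ → ℝ} (hc : ∀ k, |c k| ≤ 1) (n : ℕ) : bet c n ≤ Real.log n := by
  rw [← ArithmeticFunction.vonMangoldt_sum, ← Nat.sum_div_divisors n (fun d => Λ d)]
  exact sum_le_sum fun k _ =>
    mul_le_of_le_one_left ArithmeticFunction.vonMangoldt_nonneg ((le_abs_self _).trans (hc k))

lemma sum_ri (hM : ∀ n, n.Coprime M ↔ rough y n) : ∑ m ∈ range M, ri y m = M.totient := by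
  classical
  unfold ri
  rw [sum_boole, Nat.totient_eq_card_coprime]
  congr 2
  exact filter_congr fun m _ => by rw [Nat.coprime_comm, hM]

lemma fg_one (hM : ∀ n, n.Coprime M ↔ rough y n) {χ0 : ℕ → ℝ} {q : ℕ} (hq : q ∣ M) (hqQ : q ≤ Q)
    (h1 : ∀ m, χ0 m ≤ 1) (h2 : ∀ m m', m ≡ m' [MOD q] → χ0 m = χ0 m')
    (h3 : ∑ m ∈ range M, χ0 m * ri y m = 0) : FG Q y M (fun m => 1 - χ0 m) 1 := by
  refine ⟨hM, fun m => sub_nonneg.2 (h1 m), fun m m' h => by rw [h2 m m' (h.of_dvd hq)],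
    fun κ hκ => vanish (Φ := fun m => 1 - χ0 m) hq (hqQ.trans_lt hκ) fun m m' h => by rw [h2 m m' h],
    ?_⟩
  have : (0 : ℝ) < M.totient := by exact_mod_cast Nat.totient_pos.2 (NeZero.pos M)
  simp_rw [sub_mul, one_mul]
  rw [sum_sub_distrib, h3, sum_ri hM, sub_zero, div_self this.ne']

lemma sum_chi_ri (hM : ∀ n, n.Coprime M ↔ rough y n) (χ : RC) (hr : χ.r ∣ M) {u : ℕ}
    (hu : rough y u) (h1 : χ.χ u = -1) : ∑ m ∈ range M, χ.χ m * ri y m = 0 := by
  have hc := (hM u).2 hu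
  have h0 := NeZero.pos M
  have hm : ∀ n ∈ range M, (u * n) % M ∈ range M := fun n _ => mem_range.2 (Nat.mod_lt _ h0)
  have hi : Set.InjOn (fun n => (u * n) % M) (range M : Set ℕ) := fun n hn n' hn' h =>
    Nat.ModEq.eq_of_lt_of_lt (Nat.ModEq.cancel_left_of_coprime (c := u) hc.symm h)
      (by simpa using hn) (by simpa using hn')
  have := sum_nbij (s := range M) (t := range M) (f := fun n => -(χ.χ n * ri y n))
    (g := fun n => χ.χ n * ri y n)
    (fun n => (u * n) % M) hm hi (surjOn_of_injOn_of_card_le _ hm hi le_rfl)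
    (fun n _ => by
      have e : rough y (u * n % M) ↔ rough y n := by
        rw [← hM, ← hM, ZMod.coprime_mod_iff_coprime, Nat.coprime_mul_iff_left, and_iff_right hc]
      have e' : ri y (u * n % M) = ri y n := by unfold ri; rw [propext e]
      rw [χ.of_modEq ((Nat.mod_modEq _ _).of_dvd hr), χ.mul, h1, e']; ring)
  rw [sum_neg_distrib] at this
  linarith

lemma diff_le {F' : ℕ → ℝ} (hF : FG Q y M F c0) (hF' : FG Q y M F' 1) {N : ℕ}
    {g w χ0 : ℕ → ℝ} (h1 : ∀ κ ∈ Ex M Q y χ0, Gh F κ = (-1 * c0 : ℝ) ∧ Gh F' κ = (-1 * 1 : ℝ))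
    {T : ℝ} (h : ∑ κ ∈ Fam' M Q y χ0, ‖DD N g w κ‖ ≤ T) :
    |∑ m ∈ range N, g m * ri y m * w m * F m - c0 * ∑ m ∈ range N, g m * ri y m * w m * F' m| ≤
      2 * (c0 * T) := by
  have a1 := tail_le hF _ _ h
  have a2 := tail_le hF' _ _ h
  have e1 : ∑ κ ∈ Ex M Q y χ0, Gh F κ * DD N g w κ = c0 * ∑ κ ∈ Ex M Q y χ0, Gh F' κ * DD N g w κ := by
    rw [mul_sum]
    exact sum_congr rfl fun κ hκ => by rw [(h1 κ hκ).1, (h1 κ hκ).2]; push_cast; ring
  rw [← Real.norm_eq_abs, ← Complex.norm_real, Complex.ofReal_sub, Complex.ofReal_mul,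
    split hF N g w χ0, split hF' N g w χ0, e1]
  generalize ∑ κ ∈ Fam' M Q y χ0, Gh F κ * DD N g w κ = A at a1
  generalize ∑ κ ∈ Fam' M Q y χ0, Gh F' κ * DD N g w κ = B at a2
  rw [show ∀ D E : ℂ, c0 * D + c0 * E + A - c0 * ((1 : ℝ) * D + E + B) = A - c0 * B from
    fun D E => by push_cast; ring]
  refine (norm_sub_le _ _).trans ?_
  rw [norm_mul, Complex.norm_real, Real.norm_of_nonneg (c0_nn hF)]
  linarith [mul_le_mul_of_nonneg_left a2 (c0_nn hF)]

lemma upper (hF : FG Q y M F c0) {N : ℕ} {g w χ0 : ℕ → ℝ} (hg : ∀ m, 0 ≤ g m)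
    (hw : ∀ m, 0 ≤ w m) {e T : ℝ} (he : ((Ex M Q y χ0).card : ℝ) ≤ e)
    (h : ∑ κ ∈ Fam' M Q y χ0, ‖DD N g w κ‖ ≤ T) :
    ∑ m ∈ range N, g m * ri y m * w m * F m ≤ c0 * ((1 + e) * ∑ m ∈ range N, g m * w m + T) := by
  have a1 := tail_le hF _ _ h
  have a0 : 0 ≤ ∑ m ∈ range N, g m * w m := sum_nonneg fun m _ => mul_nonneg (hg m) (hw m)
  have a2 := tail_le hF (Ex M Q y χ0) (DD N g w) (T := e * ∑ m ∈ range N, g m * w m)
    ((sum_le_card_nsmul _ _ _ fun κ _ => DD_le hg hw κ).trans (by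
      rw [nsmul_eq_mul]; exact mul_le_mul_of_nonneg_right he a0))
  have a3 := mul_le_mul_of_nonneg_left (DD_le (N := N) hg hw (1 : DirichletCharacter ℂ M)) (c0_nn hF)
  refine (le_abs_self _).trans ?_
  rw [← Real.norm_eq_abs, ← Complex.norm_real, split hF N g w χ0]
  refine (norm_add₃_le ..).trans ?_
  rw [norm_mul, Complex.norm_real, Real.norm_of_nonneg (c0_nn hF)]
  linarith

end CoreP

open CoreP in
theorem core (h1 : S_Chi) (h2 : S_Mel) (h3 : S_Lin) : S_Core := by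
  intro c C hc hC hL ε η H hε hη
  by_cases hH : 1 ≤ H
  swap
  · exact ⟨0, fun φ α β δ hB => absurd hB.one_le hH⟩
  obtain ⟨U1, hU1⟩ := h1 c C hc hC hL (ε / (4 * H)) η (by positivity) hη
  obtain ⟨U2, hU2⟩ := h3 (ε / 4) H (by positivity)
  refine ⟨U1 + U2 + 1, ?_⟩
  intro φ α β δ hB hα hβ Q y M U N _ F c0 χ0 hQ hy hU hN hF hG
  have hQy : Q ^ 2 ≤ y := hy ▸ Nat.le_self_pow (by omega) _
  have hy2 : 2 ≤ y := (hQ.trans (Nat.le_self_pow two_ne_zero Q)).trans hQy
  have hN2 : 2 ≤ N := hy2.trans (hN ▸ Nat.le_self_pow (by omega) _)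
  have hl : 0 < Real.log N := Real.log_pos (by exact_mod_cast hN2)
  have hex : Real.exp (β * Real.log N) ≤ N := by
    calc _ ≤ Real.exp (Real.log N) := Real.exp_le_exp.2 (mul_le_of_le_one_left hl.le hβ)
      _ = _ := Real.exp_log (by positivity)
  have hw : ∀ m, 0 ≤ wt φ (Real.log N) m := fun m => div_nonneg (hB.nn _) (Nat.cast_nonneg _)
  have hX := fun t => hU1 Q y M U N t χ0 hQ hy hF.unit (by omega) hN hG
  have hc0 := c0_nn hF
  refine ⟨fun hχ => ?_, fun e B cc he hcc => ?_⟩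
  · have m1 := h2 φ α β δ H hB (Fam' M Q y χ0) (fun κ n => κ n * (Real.log n - Λ n : ℝ))
      (Real.log N) (ε / (4 * H) * Real.log N) N hl hex (fun κ _ => summable_tw κ (fun n => by
        rw [abs_of_nonneg (sub_nonneg.2 ArithmeticFunction.vonMangoldt_le_log)]
        exact sub_le_self _ ArithmeticFunction.vonMangoldt_nonneg) hl) fun t => (hX t).1
    have key : ∀ _ : FG Q y M (fun m => 1 - χ0 m) 1,
        (∀ κ ∈ Ex M Q y χ0, Gh F κ = (-1 * c0 : ℝ) ∧ Gh (fun m => 1 - χ0 m) κ = (-1 * 1 : ℝ)) →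
        |∑ m ∈ range N, Λ m * ri y m * wt φ (Real.log N) m * F m -
          c0 * ∑ m ∈ range N, Λ m * ri y m * wt φ (Real.log N) m * (1 - χ0 m)| ≤
          ε * c0 * Real.log N := by
      intro hF' hE
      have b1 := abs_le.1 (diff_le (g := fun n => Real.log n - Λ n) hF hF' hE m1)
      have b2 := abs_le.1 (hU2 φ α β δ hB hα hβ Q y M U N F c0 hQ hQy (by omega) hN hF)
      have b3 := abs_le.1 (hU2 φ α β δ hB hα hβ Q y M U N _ 1 hQ hQy (by omega) hN hF')
      have e1 : ∀ G : ℕ → ℝ, ∑ m ∈ range N, Λ m * ri y m * wt φ (Real.log N) m * G m =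
          ∑ m ∈ range N, Real.log m * ri y m * wt φ (Real.log N) m * G m -
          ∑ m ∈ range N, (Real.log m - Λ m) * ri y m * wt φ (Real.log N) m * G m := fun G => by
        rw [← sum_sub_distrib]; exact sum_congr rfl fun m _ => by ring
      have e2 : ε / (4 * H) * Real.log N * H = ε / 4 * Real.log N := by field_simp
      rw [e2] at b1
      rw [e1 F, e1 fun m => 1 - χ0 m, abs_le]
      have b4 := mul_le_mul_of_nonneg_left b3.1 hc0
      have b5 := mul_le_mul_of_nonneg_left b3.2 hc0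
      constructor <;> linarith [b1.1, b1.2, b2.1, b2.2]
    rcases hχ with h0 | ⟨χ, rfl, r1, r2, r3⟩
    · refine key (fg_one hF.unit (one_dvd M) (by omega) (fun m => by rw [h0]; exact zero_le_one)
        (fun m m' _ => by rw [h0, h0]) (by simp [h0])) ?_
      rw [Ex_empty h0]; simp
    · by_cases hu : ∃ u, rough y u ∧ F u ≠ 0
      · obtain ⟨u, u1, u2⟩ := hu
        have hF' := fg_one (Q := Q) hF.unit r1 r2 χ.le_one (fun m m' => χ.of_modEq)
          (sum_chi_ri hF.unit χ r1 u1 (r3 u u2))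
        classical
        refine key hF' fun κ hκ => ⟨gh_eq hF κ (-1) fun n a1 a2 => by
          rw [(mem_filter.1 hκ).2 n a1, r3 n a2], gh_eq hF' κ (-1) fun n a1 a2 => ?_⟩
        rw [(mem_filter.1 hκ).2 n a1]
        rcases χ.val n with a3 | a3 | a3
        · exact absurd a3 (χ.ne n (((hF.unit n).2 a1).coprime_dvd_right r1))
        · exact absurd (by rw [a3, sub_self]) a2
        · rw [a3]
      · have z : ∀ m, F m * ri y m = 0 := fun m => by
          unfold ri; split_ifs with a1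
          · by_contra a2
            exact hu ⟨m, a1, left_ne_zero_of_mul a2⟩
          · exact mul_zero _
        have z0 : c0 = 0 := by rw [hF.mean]; simp [z]
        rw [z0, sum_eq_zero fun m _ => by linear_combination Λ m * wt φ (Real.log N) m * z m]
        simp
  · have m1 := h2 φ α β δ H hB (Fam' M Q y χ0) (fun κ n => κ n * (bet cc n : ℝ))
      (Real.log N) (ε / (4 * H) * B * Real.log N) N hl hex (fun κ _ => summable_tw κ (fun n => by
        rw [abs_of_nonneg (bet_nn (fun k => (hcc.1 k).1) n)]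
        exact bet_le (fun k => (hcc.2.1 k).1) n) hl) fun t => (hX t).2 B cc hcc
    have hB0 : 0 ≤ B := (hcc.1 0).1.trans (hcc.1 0).2
    refine (upper (e := e) hF (bet_nn fun k => (hcc.1 k).1) hw ?_ m1).trans
      (mul_le_mul_of_nonneg_left (add_le_add le_rfl ?_) hc0)
    · rcases he with rfl | ⟨rfl, h0⟩
      · exact card_Ex hF.unit χ0
      · rw [Ex_empty h0]; simp
    · rw [show ε / (4 * H) * B * Real.log N * H = ε * B * Real.log N / 4 by field_simp]
      have : 0 ≤ ε * B * Real.log N := by positivity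
      linarith

end Pool.Agent.P.MP_746f10_nt.UC
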