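import Pool.Agent.P.MP_746f10_nt.UC.Defs

/-! Detection of numbers with at most two prime factors. -/

namespace Pool.Agent.P.MP_746f10_nt.UC

open Finset
open scoped ArithmeticFunction.Moebius

namespace DetP

lemma Th_mono (z : ℕ) {Y Y' : ℕ} (h : Y ≤ Y') : Th z Y ≤ Th z Y' := by
  unfold Th
  refine prod_le_prod_of_subset_of_one_le (fun p hp => ?_) (fun p hp => ?_) (fun p hp _ => ?_)
  · obtain ⟨h1, h2, h3⟩ := mem_PP.1 hp
    exact mem_PP.2 ⟨h1, h2.trans h, h3⟩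
  · exact (inv_pos.2 (one_sub_inv_pos (PP_two hp))).le
  · rw [one_le_inv₀ (one_sub_inv_pos (PP_two hp))]
    have : (0 : ℝ) ≤ 1 / p := by positivity
    linarith

lemma abs_mu (d : ℕ) : |(μ d : ℝ)| ≤ 1 := by
  exact_mod_cast ArithmeticFunction.abs_moebius_le_one

lemma sq_log_le {Y l : ℝ} {d : ℕ} (hY : 1 ≤ Y) (hl : Real.log Y ≤ l) (hd : 1 ≤ d) :
    max 0 (Real.log (Y / d)) ^ 2 ≤ l ^ 2 := by
  have hd' : (1 : ℝ) ≤ d := by exact_mod_cast hd
  have h0 := Real.log_nonneg hY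
  refine pow_le_pow_left₀ (le_max_left _ _) (max_le (h0.trans hl) (le_trans ?_ hl)) 2
  exact Real.log_le_log (by positivity) (div_le_self (by linarith) hd')

lemma NW_abs {Y l : ℝ} (m : ℕ) (hY : 1 ≤ Y) (hl : Real.log Y ≤ l) :
    |NW Y m| ≤ m.divisors.card * l ^ 2 := by
  unfold NW
  refine (abs_sum_le_sum_abs _ _).trans ?_
  rw [← nsmul_eq_mul]
  refine sum_le_card_nsmul _ _ _ fun d hd => ?_
  rw [abs_mul, abs_sq]
  exact (mul_le_of_le_one_left (sq_nonneg _) (abs_mu d)).trans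
    (sq_log_le hY hl (Nat.pos_of_mem_divisors hd))

lemma NW_eq {z m : ℕ} {Y : ℝ} (hm : m ≠ 0) (hr : rough z m) (hY : 0 < Y) :
    NW Y m = ∑ d ∈ Icc 1 ⌊Y⌋₊,
      ri z d * (μ d : ℝ) * Real.log (Y / d) ^ 2 * (if d ∣ m then 1 else 0) := by
  unfold NW
  simp only [mul_ite, mul_one, mul_zero]
  rw [← sum_filter]
  symm
  refine sum_subset_zero_on_sdiff (fun d hd => ?_) (fun d hd => ?_) (fun d hd => ?_)
  · exact Nat.mem_divisors.2 ⟨(mem_filter.1 hd).2, hm⟩
  · obtain ⟨h1, h2⟩ := mem_sdiff.1 hd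
    have h3 := Nat.pos_of_mem_divisors h1
    have h4 : Y < d := by
      by_contra h4
      exact h2 (mem_filter.2 ⟨mem_Icc.2 ⟨h3, Nat.le_floor (not_lt.1 h4)⟩,
        Nat.dvd_of_mem_divisors h1⟩)
    have h5 : (0 : ℝ) < d := by exact_mod_cast h3
    rw [max_eq_left (Real.log_nonpos (by positivity) ((div_le_one h5).2 h4.le))]
    simp
  · obtain ⟨h1, h2⟩ := mem_filter.1 hd
    obtain ⟨h3, h4⟩ := mem_Icc.1 h1
    have h5 : (0 : ℝ) < d := by exact_mod_cast h3
    have h6 : (d : ℝ) ≤ Y := (Nat.le_floor_iff hY.le).1 h4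
    rw [max_eq_right (Real.log_nonneg ((one_le_div h5).2 h6)), ri,
      if_pos (show rough z d from fun p hp hd => hr p hp (hd.trans h2)), one_mul]

variable {z X B : ℕ} {A : Finset ℕ} {ν : ℕ → ℝ} {m : ℕ → ℕ} {M0 : ℝ}

lemma rp_le (hX : 1 ≤ X) {θ : ℝ} (h : θ ≤ 1) : (X : ℝ) ^ θ ≤ X := by
  have : (1 : ℝ) ≤ X := by exact_mod_cast hX
  simpa using Real.rpow_le_rpow_of_exponent_le this h

lemma eqd1 (H : Eqd z X B A ν m M0) (hX : 1 ≤ X) {d : ℕ} (hs : Squarefree d) (hr : rough z d)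
    (hd : (d : ℝ) ≤ (X : ℝ) ^ (14 / 25 : ℝ)) :
    |∑ n ∈ A, ν n * (if d ∣ m n then 1 else 0) - M0 / d| ≤ M0 / d / (B : ℝ) ^ 8 := by
  have e := Nat.prod_primeFactors_of_squarefree hs
  have hdX : d ≤ X := by exact_mod_cast hd.trans (rp_le hX (by norm_num))
  have := H d.primeFactors (fun p hp => by
    have h1 := Nat.prime_of_mem_primeFactors hp
    have h2 := Nat.dvd_of_mem_primeFactors hp
    exact mem_PP.2 ⟨hr p h1 h2, (Nat.le_of_dvd (Nat.pos_of_ne_zero hs.ne_zero) h2).trans hdX, h1⟩)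
    (by rw [e]; exact hd)
  rwa [e] at this

lemma eqd_le (H : Eqd z X B A ν m M0) (hX : 1 ≤ X) (hB : 1 ≤ B) (hM : 0 ≤ M0) {d : ℕ}
    (hs : Squarefree d) (hr : rough z d) (hd : (d : ℝ) ≤ (X : ℝ) ^ (14 / 25 : ℝ)) :
    ∑ n ∈ A, ν n * (if d ∣ m n then 1 else 0) ≤ 2 * (M0 / d) := by
  have h1 := (abs_le.1 (eqd1 H hX hs hr hd)).2
  have h2 : (1 : ℝ) ≤ (B : ℝ) ^ 8 := one_le_pow₀ (by exact_mod_cast hB)
  have h3 : M0 / d / (B : ℝ) ^ 8 ≤ M0 / d := div_le_self (by positivity) h2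
  linarith

lemma sum_ri_le (z N : ℕ) : ∑ d ∈ Icc 1 N, ri z d / d ≤ Th z N := by
  classical
  have h := sum_inv_factored (U := PP z N) (fun p hp => PP_prime hp)
    ((Icc 1 N).filter (rough z)) (fun n hn => by
      obtain ⟨h1, h2⟩ := mem_filter.1 hn
      obtain ⟨h3, h4⟩ := mem_Icc.1 h1
      refine Nat.mem_factoredNumbers_of_primeFactors_subset (by omega) fun p hp => ?_
      have h5 := Nat.prime_of_mem_primeFactors hp
      have h6 := Nat.dvd_of_mem_primeFactors hp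
      exact mem_PP.2 ⟨h2 p h5 h6, (Nat.le_of_dvd h3 h6).trans h4, h5⟩)
  rw [sum_filter] at h
  refine le_trans (le_of_eq (sum_congr rfl fun d _ => ?_)) (h.trans (le_of_eq ?_))
  · unfold ri; split_ifs <;> simp
  · simp [Th]

/-- the mean of the truncated weight -/
lemma mean_NW (H : Eqd z X B A ν m M0) (hX : 1 ≤ X) (hM : 0 ≤ M0)
    (hA : ∀ n ∈ A, ν n ≠ 0 → m n ≠ 0 ∧ rough z (m n)) {Y l : ℝ} (hY : 1 ≤ Y)
    (hYX : Y ≤ (X : ℝ) ^ (14 / 25 : ℝ)) (hl : Real.log Y ≤ l) :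
    |∑ n ∈ A, ν n * NW Y (m n) -
      M0 * ∑ d ∈ Icc 1 ⌊Y⌋₊, ri z d * (μ d : ℝ) / d * Real.log (Y / d) ^ 2| ≤
      M0 * (l ^ 2 * Th z ⌊Y⌋₊ / (B : ℝ) ^ 8) := by
  have e1 : ∑ n ∈ A, ν n * NW Y (m n) = ∑ d ∈ Icc 1 ⌊Y⌋₊, ri z d * (μ d : ℝ) *
      Real.log (Y / d) ^ 2 * ∑ n ∈ A, ν n * (if d ∣ m n then 1 else 0) := by
    simp only [mul_sum]
    rw [sum_comm]
    refine sum_congr rfl fun n hn => ?_
    by_cases h0 : ν n = 0
    · simp [h0]
    · rw [NW_eq (hA n hn h0).1 (hA n hn h0).2 (by linarith), mul_sum]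
      exact sum_congr rfl fun d _ => by ring
  rw [e1, mul_sum, ← sum_sub_distrib]
  refine (abs_sum_le_sum_abs _ _).trans ?_
  calc _ ≤ ∑ d ∈ Icc 1 ⌊Y⌋₊, M0 * l ^ 2 / (B : ℝ) ^ 8 * (ri z d / d) := by
        refine sum_le_sum fun d hd => ?_
        obtain ⟨h3, h4⟩ := mem_Icc.1 hd
        have h5 : (0 : ℝ) < d := by exact_mod_cast h3
        have h6 : (d : ℝ) ≤ Y := (Nat.le_floor_iff (by linarith)).1 h4
        have e : ri z d * (μ d : ℝ) * Real.log (Y / d) ^ 2 *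
            ∑ n ∈ A, ν n * (if d ∣ m n then 1 else 0) -
            M0 * (ri z d * (μ d : ℝ) / d * Real.log (Y / d) ^ 2) =
            ri z d * (μ d : ℝ) * Real.log (Y / d) ^ 2 *
              (∑ n ∈ A, ν n * (if d ∣ m n then 1 else 0) - M0 / d) := by ring
        rw [e]
        by_cases hr : rough z d
        swap
        · simp [ri, hr]
        by_cases hs : Squarefree d
        swap
        · have := (ri_bd z d).1
          rw [ArithmeticFunction.moebius_eq_zero_of_not_squarefree hs]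
          simp only [Int.cast_zero, mul_zero, zero_mul, abs_zero]
          positivity
        have h7 := sq_log_le hY hl h3
        rw [max_eq_right (Real.log_nonneg ((one_le_div h5).2 h6))] at h7
        rw [ri, if_pos hr, one_mul, abs_mul, abs_mul, abs_sq]
        calc _ ≤ 1 * l ^ 2 * (M0 / d / (B : ℝ) ^ 8) := by
              gcongr
              exacts [abs_mu d, eqd1 H hX hs hr (h6.trans hYX)]
          _ = _ := by ring
    _ ≤ M0 * l ^ 2 / (B : ℝ) ^ 8 * Th z ⌊Y⌋₊ := by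
        rw [← mul_sum]
        gcongr
        exact sum_ri_le _ _
    _ = _ := by ring

lemma mu_eq_chi (χ : RC) {k : ℕ} (hs : Squarefree k)
    (h : ∀ p, p.Prime → p ∣ k → χ.χ p = -1) : (μ k : ℝ) = χ.χ k := by
  have e := Nat.prod_primeFactors_of_squarefree hs
  have h1 : χ.χ k = ∏ _p ∈ k.primeFactors, (-1 : ℝ) := by
    conv_lhs => rw [← e, χ.chi_prod]
    exact prod_congr rfl fun p hp =>
      h p (Nat.prime_of_mem_primeFactors hp) (Nat.dvd_of_mem_primeFactors hp)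
  rw [h1, prod_const, ArithmeticFunction.moebius_apply_of_squarefree hs,
    ← (ArithmeticFunction.cardDistinctFactors_eq_cardFactors_iff_squarefree hs.ne_zero).2 hs,
    ArithmeticFunction.cardDistinctFactors_apply, ← List.card_toFinset]
  push_cast
  rfl

open Classical in
/-- the switched indicator -/
noncomputable def II (X : ℕ) (p : ℕ × ℕ) (k : ℕ) : ℝ :=
  if p.1 * p.2 ∣ k ∧ (k / (p.1 * p.2)).Prime ∧
    (X : ℝ) ^ (14 / 25 : ℝ) < (k / (p.1 * p.2) : ℕ) then 1 else 0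

lemma II_nonneg (X : ℕ) (p : ℕ × ℕ) (k : ℕ) : 0 ≤ II X p k := by
  unfold II; split_ifs <;> norm_num

/-- Selberg's bound for one pair -/
lemma pair (h4 : S_Sel) (H : Eqd z X B A ν m M0) (hz : 400 ≤ z) (hM : 0 < M0)
    (hν : ∀ n ∈ A, 0 ≤ ν n) (hA : ∀ n ∈ A, ν n ≠ 0 → rough z (m n)) (hX : 1 ≤ X)
    (hl : 100 ≤ Real.log X) (hV : 40 ≤ VV z * Real.log X)
    (hT : Th z X ^ 5 / (B : ℝ) ^ 8 ≤ 1 / 200) {p : ℕ × ℕ} (hp : p ∈ PS X) :
    ∑ n ∈ A, ν n * II X p (m n) ≤ 51 / 25 * (M0 / VV z) /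
      ((p.1 * p.2 : ℕ) * Real.log ((X : ℝ) ^ (14 / 25 : ℝ) / (p.1 * p.2 : ℕ))) := by
  classical
  obtain ⟨b, b'⟩ := p
  simp only [PS, mem_filter, mem_product, mem_PP] at hp
  obtain ⟨⟨⟨-, hbX, hb⟩, -, hbX', hb'⟩, hlt, hle⟩ := hp
  dsimp only
  have hX' : (1 : ℝ) ≤ X := by exact_mod_cast hX
  have hd1 : (1 : ℝ) ≤ (b * b' : ℕ) := by exact_mod_cast Nat.mul_pos hb.pos hb'.pos
  have hV0 := VV_pos z
  set R : ℝ := (X : ℝ) ^ (14 / 25 : ℝ) / (b * b' : ℕ) with hR
  have hR0 : 0 < R := by positivity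
  have hlog : Real.log X / 10 ≤ Real.log R := by
    have h1 := Real.log_le_log (by linarith) hle
    rw [Real.log_mul (by norm_num) (by positivity), Real.log_rpow (by linarith)] at h1
    rw [hR, Real.log_div (by positivity) (by positivity), Real.log_rpow (by linarith)]
    have h3 : Real.log 3 ≤ 3 - 1 := Real.log_le_sub_one_of_pos (by norm_num)
    linarith
  have hL : 0 < Real.log R := by linarith
  have hR1 : 1 ≤ R := (Real.log_nonneg_iff hR0).1 hL.le
  by_cases hzb : z < b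
  swap
  · rw [sum_eq_zero fun n hn => ?_]
    · positivity
    by_cases h0 : ν n = 0
    · rw [h0, zero_mul]
    rw [II, if_neg, mul_zero]
    exact fun h => hzb (hA n hn h0 b hb ((dvd_mul_right _ _).trans h.1))
  have hz' : (400 : ℝ) ≤ z := by exact_mod_cast hz
  have hz2 : 2 / (z : ℝ) ≤ 1 / 200 := by
    rw [div_le_div_iff₀ (by linarith) (by norm_num)]; linarith
  set ξ := ⌊Real.sqrt R⌋₊ with hξ
  have hξ1 : (ξ : ℝ) ≤ Real.sqrt R := Nat.floor_le (Real.sqrt_nonneg _)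
  have hξ2 : (ξ : ℝ) ^ 2 ≤ R := by
    calc (ξ : ℝ) ^ 2 ≤ Real.sqrt R ^ 2 := by gcongr
      _ = R := Real.sq_sqrt hR0.le
  have hξ3 : (ξ : ℝ) ≤ (X : ℝ) ^ (14 / 25 : ℝ) := by
    refine hξ1.trans (le_trans ?_ (div_le_self (by positivity) hd1))
    rw [Real.sqrt_le_left hR0.le]
    nlinarith
  have hξX : ξ ≤ X := by exact_mod_cast hξ3.trans (rp_le hX (by norm_num))
  have hξ4 : Real.log R / 2 ≤ Real.log (ξ + 1) := by
    rw [← Real.log_sqrt hR0.le]
    exact Real.log_le_log (Real.sqrt_pos.2 hR0) (Nat.lt_floor_add_one _).le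
  set G := 199 / 200 * (VV z * (Real.log R / 2)) with hG
  have hG1 : 1 ≤ G := by
    have : VV z * (Real.log X / 10) ≤ VV z * Real.log R := by gcongr
    rw [hG]; linarith
  have key := h4 z ξ {b, b'} A (fun n => ν n * (if b * b' ∣ m n then 1 else 0)) m
    (M0 / (b * b' : ℕ)) (1 / (B : ℝ) ^ 8) G (by omega) card_le_two
    (fun n hn => mul_nonneg (hν n hn) (by split_ifs <;> norm_num)) (by positivity) (by positivity)
    (by linarith) (by
      rw [hG]
      gcongr <;> linarith) (fun T hT hTξ => by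
      have hT1 : ∀ q ∈ T, q ∈ PP z ξ ∧ q ≠ b ∧ q ≠ b' := fun q hq => by
        have := mem_sdiff.1 (hT hq)
        simp only [mem_insert, mem_singleton, not_or] at this
        exact this
      have n1 : b' ∉ T := fun h => (hT1 _ h).2.2 rfl
      have n2 : b ∉ insert b' T := fun h => by
        rcases mem_insert.1 h with h | h
        exacts [hlt.ne h, (hT1 _ h).2.1 rfl]
      have e : ∏ q ∈ insert b (insert b' T), q = b * b' * ∏ q ∈ T, q := by
        rw [prod_insert n2, prod_insert n1, mul_assoc]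
      have hc : (b * b').Coprime (∏ q ∈ T, q) := by
        refine Nat.Coprime.prod_right fun q hq => Nat.Coprime.mul_left ?_ ?_
        · exact (Nat.coprime_primes hb (PP_prime (hT1 q hq).1)).2 (hT1 q hq).2.1.symm
        · exact (Nat.coprime_primes hb' (PP_prime (hT1 q hq).1)).2 (hT1 q hq).2.2.symm
      have := H (insert b (insert b' T)) (fun q hq => by
        rcases mem_insert.1 hq with rfl | hq
        · exact mem_PP.2 ⟨hzb, hbX, hb⟩
        rcases mem_insert.1 hq with rfl | hq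
        · exact mem_PP.2 ⟨hzb.trans hlt, hbX', hb'⟩
        · obtain ⟨a1, a2, a3⟩ := mem_PP.1 (hT1 q hq).1
          exact mem_PP.2 ⟨a1, a2.trans hξX, a3⟩) (by
        rw [e, Nat.cast_mul (b * b'), ← le_div_iff₀' (by linarith)]
        refine le_trans ?_ hξ2
        exact_mod_cast hTξ)
      rw [e] at this
      have e3 : M0 / (b * b' : ℕ) / (∏ q ∈ T, q : ℕ) = M0 / (b * b' * ∏ q ∈ T, q : ℕ) := by
        rw [Nat.cast_mul (b * b'), div_div]
      rw [e3, mul_one_div]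
      convert this using 3
      · refine sum_congr rfl fun n _ => ?_
        have : b * b' * ∏ q ∈ T, q ∣ m n ↔ b * b' ∣ m n ∧ ∏ q ∈ T, q ∣ m n :=
          ⟨fun h => ⟨(dvd_mul_right _ _).trans h, (dvd_mul_left _ _).trans h⟩,
            fun h => hc.mul_dvd_of_dvd_of_dvd h.1 h.2⟩
        simp only [this]
        by_cases c1 : b * b' ∣ m n <;> by_cases c2 : ∏ q ∈ T, q ∣ m n <;> simp [c1, c2])
  rw [sum_filter] at key
  refine le_trans (sum_le_sum fun n hn => ?_) (key.trans ?_)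
  · have := hν n hn
    unfold II
    split_ifs with c1 c2 c3 c4 c5
    · exact le_rfl
    · exact absurd c1.1 c3
    · refine absurd (fun q hq hd => ?_) c2
      obtain ⟨⟨k, hk⟩, c2, c3⟩ := c1
      dsimp only at hk c2 c3
      rw [hk, Nat.mul_div_cancel_left _ (Nat.mul_pos hb.pos hb'.pos)] at c2 c3
      have a1 := mem_sdiff.1 hq
      simp only [mem_insert, mem_singleton, not_or] at a1
      obtain ⟨a2, a3, a4⟩ := a1
      obtain ⟨-, a5, a6⟩ := mem_PP.1 a2
      rw [hk, a6.dvd_mul, a6.dvd_mul, Nat.prime_dvd_prime_iff_eq a6 hb,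
        Nat.prime_dvd_prime_iff_eq a6 hb', Nat.prime_dvd_prime_iff_eq a6 c2] at hd
      rcases hd with (hd | hd) | hd
      exacts [a3 hd, a4 hd, by
        have : (ξ : ℝ) < k := hξ3.trans_lt c3
        have : ξ < k := by exact_mod_cast this
        omega]
    · simpa using this
    · simp
    · simp
  · have hT' : 1 / (B : ℝ) ^ 8 * Th z ξ ^ 5 ≤ 1 / 200 := by
      refine le_trans ?_ hT
      rw [one_div_mul_eq_div]
      have := one_le_Th z ξ
      gcongr
      exact Th_mono z hξX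
    have h5 : 1 / (B : ℝ) ^ 8 * Th z ξ ^ 5 / G ^ 2 ≤ 1 / 200 / G := by
      gcongr
      exact le_self_pow₀ hG1 (by norm_num)
    calc _ ≤ M0 / (b * b' : ℕ) * (1 / G + 1 / 200 / G) := by gcongr
      _ = 402 / 199 * (M0 / VV z) / ((b * b' : ℕ) * Real.log R) := by
        rw [hG]; field_simp; norm_num
      _ ≤ _ := by gcongr ?_ * _ / _; norm_num

/-- the lower bound side -/
lemma mean_close {C : ℝ} (hC : 0 < C) (h1 : ∀ (z : ℕ) (Y : ℝ), 2 ≤ z → 2 ≤ Y →
    |∑ d ∈ Icc 1 ⌊Y⌋₊, ri z d * (μ d : ℝ) / d * Real.log (Y / d) ^ 2 - 2 * Real.log Y / VV z| ≤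
      C * (Real.log z / VV z + Real.log Y * Th z ⌊Y⌋₊))
    (H : Eqd z X B A ν m M0) (hz : 2 ≤ z) (hX : 1 ≤ X) (hM : 0 ≤ M0)
    (hA : ∀ n ∈ A, ν n ≠ 0 → m n ≠ 0 ∧ rough z (m n)) (hl : 100 ≤ Real.log X)
    (ea : 400 * C * Real.log z ≤ Real.log X) (eb : 400 * C * Th z X ≤ (VV z)⁻¹)
    (ec : 400 * Real.log X * Th z X / (B : ℝ) ^ 8 ≤ (VV z)⁻¹)
    {θ : ℝ} (h2 : 1 / 4 ≤ θ) (h3 : θ ≤ 14 / 25) :
    |∑ n ∈ A, ν n * NW ((X : ℝ) ^ θ) (m n) - 2 * θ * (M0 * (Real.log X * (VV z)⁻¹))| ≤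
      3 / 400 * (M0 * (Real.log X * (VV z)⁻¹)) := by
  have hX' : (1 : ℝ) ≤ X := by exact_mod_cast hX
  have hlY : Real.log ((X : ℝ) ^ θ) = θ * Real.log X := Real.log_rpow (by linarith) θ
  have hlY1 : Real.log ((X : ℝ) ^ θ) ≤ Real.log X :=
    Real.log_le_log (by positivity) (rp_le hX (by linarith))
  have hY2 : 2 ≤ (X : ℝ) ^ θ := by
    have := Real.log_le_sub_one_of_pos (show 0 < (X : ℝ) ^ θ by positivity)
    have : 1 / 4 * 100 ≤ θ * Real.log X := by gcongr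
    linarith
  have hT : Th z ⌊(X : ℝ) ^ θ⌋₊ ≤ Th z X :=
    Th_mono z (Nat.floor_le_of_le (rp_le hX (by linarith)))
  have a1 := mean_NW H hX hM hA (by linarith) (Real.rpow_le_rpow_of_exponent_le hX' h3) hlY1
  have a2 := h1 z _ hz hY2
  have hT0 := one_le_Th z ⌊(X : ℝ) ^ θ⌋₊
  have hW := inv_pos.2 (VV_pos z)
  rw [div_eq_mul_inv (Real.log z), div_eq_mul_inv _ (VV z)] at a2
  set l := Real.log X
  set W := (VV z)⁻¹
  set S := ∑ d ∈ Icc 1 ⌊(X : ℝ) ^ θ⌋₊, ri z d * (μ d : ℝ) / d * Real.log ((X : ℝ) ^ θ / d) ^ 2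
  have b1 : l ^ 2 * Th z ⌊(X : ℝ) ^ θ⌋₊ / (B : ℝ) ^ 8 ≤ 1 / 400 * (l * W) := by
    calc _ ≤ l ^ 2 * Th z X / (B : ℝ) ^ 8 := by gcongr
      _ = 1 / 400 * (l * (400 * l * Th z X / (B : ℝ) ^ 8)) := by ring
      _ ≤ _ := by gcongr
  have b2 : C * (Real.log z * W + Real.log ((X : ℝ) ^ θ) * Th z ⌊(X : ℝ) ^ θ⌋₊) ≤
      2 / 400 * (l * W) := by
    calc _ ≤ C * (Real.log z * W + l * Th z X) := by gcongr
      _ = 1 / 400 * ((400 * C * Real.log z) * W + l * (400 * C * Th z X)) := by ring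
      _ ≤ 1 / 400 * (l * W + l * W) := by gcongr
      _ = _ := by ring
  have a3 : |M0 * S - 2 * θ * (M0 * (l * W))| ≤ M0 * (2 / 400 * (l * W)) := by
    rw [show M0 * S - 2 * θ * (M0 * (l * W)) = M0 * (S - 2 * (θ * l) * W) by ring, abs_mul,
      abs_of_nonneg hM, ← hlY]
    exact mul_le_mul_of_nonneg_left (a2.trans b2) hM
  have a4 := a1.trans (mul_le_mul_of_nonneg_left b1 hM)
  refine (abs_sub_le _ (M0 * S) _).trans ?_
  linarith

end DetP

open DetP in
theorem det (h1 : S_Mean) (h2 : S_Pt) (h3 : S_Num2) (h4 : S_Sel) : S_Det := by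
  classical
  obtain ⟨C, hC, h1⟩ := h1
  obtain ⟨C', X0, hC', h2⟩ := h2
  obtain ⟨X1, h3⟩ := h3
  have hCM := one_le_CM
  refine ⟨⌈400 * C + 6400 * CM ^ 5⌉₊, fun B hB => ?_⟩
  have hB' : 400 * C + 6400 * CM ^ 5 ≤ B := Nat.ceil_le.1 hB
  have hC5 : CM ≤ CM ^ 5 := le_self_pow₀ hCM (by norm_num)
  have hB1 : (6400 : ℝ) ≤ B := by linarith
  have hB2 : 1 ≤ B := by exact_mod_cast (show (1 : ℝ) ≤ B by linarith)
  obtain ⟨τ, hτ⟩ : ∃ τ : ℝ, τ = 2 ^ (B + 1) := ⟨_, rfl⟩
  have hτ0 : 0 < τ := by rw [hτ]; positivity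
  refine ⟨1 / (1200 * τ * (B + 1)), max (max 400 (max X0 X1))
    ⌈Real.exp (400 * C * (CM * (B + 1)) + 400 * C' * τ)⌉₊, by positivity, ?_⟩
  intro z X A ν m M0 σ χ Bad hz hX1 hX2 hM hσ hν hA H hsig hbad
  by_contra hcon
  push Not at hcon
  simp only [max_le_iff] at hz
  obtain ⟨⟨hz1, hz2, hz3⟩, hz4⟩ := hz
  have hz' : (400 : ℝ) ≤ z := by exact_mod_cast hz1
  have hzX : z ≤ X := (Nat.le_self_pow (by omega) z).trans hX1
  have hX : 1 ≤ X := by omega
  have hX' : (1 : ℝ) ≤ X := by exact_mod_cast hX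
  have hL : 400 * C * (CM * (B + 1)) + 400 * C' * τ ≤ Real.log z :=
    (Real.le_log_iff_exp_le (by linarith)).2 (Nat.ceil_le.1 hz4)
  have hL1 : 1 ≤ Real.log z := by
    rw [Real.le_log_iff_exp_le (by linarith)]
    linarith [Real.exp_one_lt_d9]
  have hl1 : B * Real.log z ≤ Real.log X := by
    rw [← Real.log_pow]
    exact Real.log_le_log (by positivity) (by exact_mod_cast hX1)
  have hl2 : Real.log X ≤ (B + 1) * Real.log z := by
    have := Real.log_le_log (by linarith) (show (X : ℝ) ≤ (z : ℝ) ^ (B + 1) by exact_mod_cast hX2)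
    rw [Real.log_pow] at this
    exact_mod_cast this
  have hV := VV_pos z
  have hW1 : Real.log z ≤ (VV z)⁻¹ := by
    rw [← one_div, le_div_iff₀' hV]; exact VV_mul_log_le' z
  have hW2 := inv_VV_le z (by omega)
  have hT : Th z X ≤ CM * (B + 1) := by
    have := (Th_mono z hX2).trans (Th_le_pow (w := z) (e := B + 1) (by omega) (by omega))
    exact_mod_cast this
  have hT1 := one_le_Th z X
  have hl : 100 ≤ Real.log X := by
    have : (B : ℝ) * 1 ≤ B * Real.log z := by gcongr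
    linarith
  have hlW : Real.log X ≤ (B + 1) * (VV z)⁻¹ := hl2.trans (by gcongr)
  have hVl : 40 ≤ VV z * Real.log X := by
    rw [← inv_mul_le_iff₀ hV]
    calc (VV z)⁻¹ * 40 ≤ CM * Real.log z * 40 := by gcongr
      _ = 40 * CM * Real.log z := by ring
      _ ≤ B * Real.log z := by gcongr; linarith
      _ ≤ _ := hl1
  have hB3 : (B : ℝ) + 1 ≤ 2 * B := by linarith
  have hT5 : Th z X ^ 5 / (B : ℝ) ^ 8 ≤ 1 / 200 := by
    rw [div_le_iff₀ (by positivity)]
    calc Th z X ^ 5 ≤ (CM * (2 * B)) ^ 5 := by gcongr; exact hT.trans (by gcongr)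
      _ = 1 / 200 * ((6400 * CM ^ 5) * B ^ 5) := by ring
      _ ≤ 1 / 200 * (B * B ^ 5) := by gcongr; linarith
      _ ≤ _ := by
        rw [← pow_succ']
        gcongr
        · linarith
        · norm_num
  have hA' : ∀ n ∈ A, ν n ≠ 0 → m n ≠ 0 ∧ rough z (m n) := fun n hn h0 =>
    ⟨by have := (hA n hn h0).1; omega, (hA n hn h0).2.2.1⟩
  have hmean := fun (θ : ℝ) => mean_close (θ := θ) hC h1 H (by omega) hX hM.le hA' hl
    (le_trans (by gcongr; linarith [pow_pos (show 0 < CM by linarith) 5]) hl1)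
    (by
      have : 400 * C * Th z X ≤ 400 * C * (CM * (B + 1)) := by gcongr
      have : 0 ≤ 400 * C' * τ := by positivity
      linarith)
    (by
      rw [div_le_iff₀ (by positivity)]
      calc 400 * Real.log X * Th z X ≤ 400 * ((2 * B) * (VV z)⁻¹) * (CM * (2 * B)) := by
            gcongr
            exacts [hlW.trans (by gcongr), hT.trans (by gcongr)]
        _ = (VV z)⁻¹ * ((1600 * CM) * B ^ 2) := by ring
        _ ≤ (VV z)⁻¹ * (B * B ^ 2) := by gcongr; linarith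
        _ ≤ _ := by
          rw [← pow_succ']
          gcongr
          · linarith
          · norm_num)
  have m0 := abs_le.1 (hmean (51 / 100) (by norm_num) (by norm_num))
  have m1 := abs_le.1 (hmean (49 / 100) (by norm_num) (by norm_num))
  set Q := (χ.Pp z X).filter (fun p : ℕ => (p : ℝ) ≤ (X : ℝ) ^ (14 / 25 : ℝ)) with hQ
  have hσ1 : 0 ≤ 1 + σ := by rcases hσ with rfl | rfl <;> norm_num
  have hlp : ∀ p : ℕ × ℕ, 0 ≤ Real.log p.1 * Real.log p.2 := fun p =>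
    mul_nonneg (Real.log_natCast_nonneg _) (Real.log_natCast_nonneg _)
  have hpt : ∀ n ∈ A, ν n * WW X σ (m n) ≤ ν n * (2 * τ * Real.log X ^ 2 *
      ((if Bad n ∨ ¬ Squarefree (m n) then 1 else 0) + ∑ p ∈ Q, if p ∣ m n then 1 else 0) +
      C' * τ * Real.log X + 2 * (1 + σ) * ∑ p ∈ PS X, Real.log p.1 * Real.log p.2 * II X p (m n)) := by
    intro n hn
    by_cases h0 : ν n = 0
    · simp [h0]
    refine mul_le_mul_of_nonneg_left ?_ (hν n hn)
    obtain ⟨a1, a2, a3, a4⟩ := hA n hn h0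
    have hm0 : m n ≠ 0 := by omega
    have ht : ((m n).divisors.card : ℝ) ≤ τ := by
      rw [hτ]
      exact_mod_cast card_divisors_le_of_rough (B + 1) (m n) hm0 a3 (by
        rw [pow_succ']
        exact a2.trans (Nat.mul_le_mul (by omega) hX2))
    have s1 : 0 ≤ ∑ p ∈ Q, if p ∣ m n then (1 : ℝ) else 0 :=
      sum_nonneg fun _ _ => by split_ifs <;> norm_num
    have s2 : 0 ≤ 2 * (1 + σ) * ∑ p ∈ PS X, Real.log p.1 * Real.log p.2 * II X p (m n) :=
      mul_nonneg (by linarith) (sum_nonneg fun p _ => mul_nonneg (hlp p) (II_nonneg _ _ _))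
    have s3 : 0 ≤ C' * τ * Real.log X := by positivity
    have s4 : (0 : ℝ) ≤ if Bad n ∨ ¬ Squarefree (m n) then 1 else 0 := by split_ifs <;> norm_num
    have s5 : 0 ≤ 2 * τ * Real.log X ^ 2 := by positivity
    have hb : WW X σ (m n) ≤ 2 * τ * Real.log X ^ 2 := by
      have hN : ∀ θ : ℝ, 0 ≤ θ → θ ≤ 1 → |NW ((X : ℝ) ^ θ) (m n)| ≤ τ * Real.log X ^ 2 :=
        fun θ t0 t1 => (NW_abs (m n) (Real.one_le_rpow hX' t0)
          (Real.log_le_log (by positivity) (rp_le hX t1))).trans (by gcongr)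
      have b0 := abs_le.1 (hN (51 / 100) (by norm_num) (by norm_num))
      have b1 := abs_le.1 (hN (49 / 100) (by norm_num) (by norm_num))
      unfold WW
      rcases hσ with rfl | rfl <;> linarith [b0.2, b1.1, b1.2]
    by_cases c1 : Bad n ∨ ¬ Squarefree (m n)
    · rw [if_pos c1]
      have := mul_nonneg s5 s1
      linarith
    by_cases c2 : ∃ p ∈ Q, p ∣ m n
    · obtain ⟨p, hp, hd⟩ := c2
      have := single_le_sum (f := fun p => if p ∣ m n then (1 : ℝ) else 0)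
        (fun _ _ => by split_ifs <;> norm_num) hp
      rw [if_pos hd] at this
      have := mul_le_mul_of_nonneg_left this s5
      have := mul_nonneg s5 s4
      linarith
    push Not at c1 c2
    have := h2 X (m n) σ (hz2.trans hzX) a1 a2 c1.2 (hcon n hn h0 c1.1) hσ (by
      by_cases c3 : ∃ p : ℕ, p.Prime ∧ p ∣ m n ∧ (X : ℝ) ^ (14 / 25 : ℝ) < p
      · exact Or.inl c3
      push Not at c3
      right
      rw [← a4]
      refine mu_eq_chi χ c1.2 fun p hp hd => ?_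
      rcases χ.val p with h | h | h
      · obtain ⟨k, hk⟩ := hd
        rw [hk, χ.mul, h, zero_mul] at a4
        rcases hσ with rfl | rfl <;> norm_num at a4
      · have b1 := c3 p hp hd
        have b2 : p ≤ X := by exact_mod_cast b1.trans (rp_le hX (by norm_num))
        exact absurd hd (c2 p (mem_filter.2 ⟨RC.mem_Pp.2 ⟨⟨a3 p hp hd, b2, hp⟩, h⟩, b1⟩))
      · exact h)
    have e : ∀ p : ℕ × ℕ, Real.log p.1 * Real.log p.2 * II X p (m n) =
        if p.1 * p.2 ∣ m n ∧ (m n / (p.1 * p.2)).Prime ∧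
          (X : ℝ) ^ (14 / 25 : ℝ) < (m n / (p.1 * p.2) : ℕ) then Real.log p.1 * Real.log p.2
        else 0 := fun p => by unfold II; split_ifs <;> simp
    simp only [e]
    have b3 : C' * (m n).divisors.card * Real.log X ≤ C' * τ * Real.log X := by gcongr
    have := mul_nonneg s5 (add_nonneg s4 s1)
    linarith
  have up := sum_le_sum hpt
  have e1 : ∑ n ∈ A, ν n * WW X σ (m n) = ∑ n ∈ A, ν n * NW ((X : ℝ) ^ (51 / 100 : ℝ)) (m n) +
      σ * ∑ n ∈ A, ν n * NW ((X : ℝ) ^ (49 / 100 : ℝ)) (m n) := by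
    rw [mul_sum, ← sum_add_distrib]
    exact sum_congr rfl fun n _ => by rw [WW]; ring
  have e2 : ∑ n ∈ A, ν n * (2 * τ * Real.log X ^ 2 *
      ((if Bad n ∨ ¬ Squarefree (m n) then 1 else 0) + ∑ p ∈ Q, if p ∣ m n then 1 else 0) +
      C' * τ * Real.log X + 2 * (1 + σ) * ∑ p ∈ PS X, Real.log p.1 * Real.log p.2 * II X p (m n)) =
      2 * τ * Real.log X ^ 2 * (∑ n ∈ A.filter (fun n => Bad n ∨ ¬ Squarefree (m n)), ν n +
        ∑ p ∈ Q, ∑ n ∈ A, ν n * if p ∣ m n then 1 else 0) +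
      C' * τ * Real.log X * (∑ n ∈ A, ν n * if 1 ∣ m n then 1 else 0) + 2 * (1 + σ) *
        ∑ p ∈ PS X, Real.log p.1 * Real.log p.2 * ∑ n ∈ A, ν n * II X p (m n) := by
    simp only [mul_sum (s := A)]
    rw [sum_comm (s := Q), sum_comm (s := PS X), sum_filter, ← sum_add_distrib, mul_sum, mul_sum,
      ← sum_add_distrib, ← sum_add_distrib]
    refine sum_congr rfl fun n _ => ?_
    have : ∑ p ∈ PS X, Real.log p.1 * Real.log p.2 * (ν n * II X p (m n)) =
        ν n * ∑ p ∈ PS X, Real.log p.1 * Real.log p.2 * II X p (m n) := by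
      rw [mul_sum]; exact sum_congr rfl fun _ _ => by ring
    rw [this, ← mul_sum, if_pos (one_dvd _)]
    split_ifs <;> ring
  rw [e1, e2] at up
  have u1 : ∑ p ∈ Q, ∑ n ∈ A, ν n * (if p ∣ m n then 1 else 0) ≤
      2 * (1 / (1200 * τ * (B + 1)) * M0) := by
    calc _ ≤ ∑ p ∈ Q, 2 * M0 * (1 / (p : ℝ)) := by
          refine sum_le_sum fun p hp => ?_
          obtain ⟨b1, b2⟩ := mem_filter.1 hp
          obtain ⟨⟨b3, -, b4⟩, -⟩ := RC.mem_Pp.1 b1
          refine (eqd_le H hX hB2 hM.le b4.prime.squarefree (fun q hq hd => ?_) b2).trans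
            (le_of_eq (by ring))
          rwa [(Nat.prime_dvd_prime_iff_eq hq b4).1 hd]
      _ ≤ 2 * M0 * χ.sig z X := by
          rw [← mul_sum]
          gcongr
          exact sum_le_sum_of_subset_of_nonneg (filter_subset _ _) fun _ _ _ => by positivity
      _ ≤ 2 * M0 * (1 / (1200 * τ * (B + 1))) := by gcongr
      _ = _ := by ring
  have u2 := eqd_le H hX hB2 hM.le squarefree_one (rough_one z)
    (by rw [Nat.cast_one]; exact Real.one_le_rpow hX' (by norm_num))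
  have u3 : ∑ p ∈ PS X, Real.log p.1 * Real.log p.2 * ∑ n ∈ A, ν n * II X p (m n) ≤
      51 / 25 * (6 / 25) * (M0 * (Real.log X * (VV z)⁻¹)) := by
    calc _ ≤ ∑ p ∈ PS X, 51 / 25 * (M0 / VV z) * (Real.log p.1 * Real.log p.2 / ((p.1 * p.2 : ℕ) *
          Real.log ((X : ℝ) ^ (14 / 25 : ℝ) / (p.1 * p.2 : ℕ)))) := by
          refine sum_le_sum fun p hp => ?_
          refine (mul_le_mul_of_nonneg_left (pair h4 H hz1 hM hν (fun n hn h0 => (hA' n hn h0).2)
            hX hl hVl hT5 hp) (hlp p)).trans (le_of_eq (by ring))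
      _ ≤ 51 / 25 * (M0 / VV z) * (6 / 25 * Real.log X) := by
          rw [← mul_sum]
          gcongr
          exact h3 X (hz3.trans hzX)
      _ = _ := by ring
  have v1 : 2 * τ * Real.log X ^ 2 * (∑ n ∈ A.filter (fun n => Bad n ∨ ¬ Squarefree (m n)), ν n +
      ∑ p ∈ Q, ∑ n ∈ A, ν n * if p ∣ m n then 1 else 0) ≤
      1 / 200 * (M0 * (Real.log X * (VV z)⁻¹)) := by
    calc _ ≤ 2 * τ * Real.log X ^ 2 * (3 * (1 / (1200 * τ * (B + 1)) * M0)) := by
          gcongr; linarith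
      _ = 1 / 200 * (M0 * (Real.log X * (Real.log X / (B + 1)))) := by field_simp; norm_num
      _ ≤ _ := by
          gcongr
          rwa [div_le_iff₀' (by positivity)]
  have v2 : C' * τ * Real.log X * (∑ n ∈ A, ν n * if 1 ∣ m n then 1 else 0) ≤
      1 / 200 * (M0 * (Real.log X * (VV z)⁻¹)) := by
    calc _ ≤ C' * τ * Real.log X * (2 * (M0 / (1 : ℕ))) := by gcongr
      _ = 1 / 200 * (M0 * (Real.log X * (400 * C' * τ))) := by push_cast; ring
      _ ≤ _ := by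
          gcongr
          have : 0 ≤ 400 * C * (CM * (B + 1)) := by positivity
          linarith
  have v3 := mul_le_mul_of_nonneg_left u3 (show 0 ≤ 2 * (1 + σ) by linarith)
  have hP : 0 < M0 * (Real.log X * (VV z)⁻¹) := by positivity
  rcases hσ with rfl | rfl <;> linarith [m0.1, m1.1, m1.2]

end Pool.Agent.P.MP_746f10_nt.UC
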