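import Pool.Agent.P.MP_746f10_nt.UC.Defs

/-! Local structure of a normalised system of forms. -/

set_option linter.unusedSectionVars false

namespace Pool.Agent.P.MP_746f10_nt.UC

open Finset

namespace FourP

variable {ι : Type} [Fintype ι] [DecidableEq ι] {a b : ι → ℕ} {K v : ℕ}

lemma cop (hN : Nrm a b K v) (i : ι) {y : ℕ} (hy : v ≤ y) (n : ℕ) :
    n.Coprime (a i * ∏ p ∈ PP 0 y, p) ↔ rough y n := by
  constructor
  · intro h1 p hp hd
    by_contra h2
    exact hp.one_lt.ne' (Nat.eq_one_of_dvd_coprimes h1 hd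
      ((dvd_prod_of_mem (fun p => p) (mem_PP.2 ⟨hp.pos, by omega, hp⟩)).mul_left _))
  · intro h1
    refine Nat.coprime_of_dvd fun p hp h2 h3 => ?_
    have h4 := h1 p hp h2
    rcases hp.dvd_mul.1 h3 with h5 | h5
    · have := Nat.le_of_dvd (hN.pos i) h5; have := hN.le i; omega
    · obtain ⟨q, hq, h6⟩ := (hp.prime.dvd_finsetProd_iff _).1 h5
      have := (Nat.prime_dvd_prime_iff_eq hp (PP_prime hq)).1 h6
      have := (mem_PP.1 hq).2.1
      omega

lemma GP_sub (a : ι → ℕ) {y0 y : ℕ} (h : y0 ≤ y) : GP a y0 ⊆ PP 0 y := fun p hp => by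
  have := mem_GP.1 hp
  exact mem_PP.2 ⟨this.2.1.pos, this.1.trans h, this.2.1⟩

lemma tot (hN : Nrm a b K v) (i : ι) {y : ℕ} (hy : v ≤ y) :
    ((a i * ∏ p ∈ PP 0 y, p).totient : ℝ) = a i * ∏ p ∈ PP 0 y, ((p : ℝ) - 1) := by
  have hP0 : 0 < ∏ p ∈ PP 0 y, p := prod_pos fun p hp => (PP_prime hp).pos
  have ha := hN.pos i
  have e1 : (a i * ∏ p ∈ PP 0 y, p).primeFactors = PP 0 y := by
    ext p
    rw [Nat.mem_primeFactors, mem_PP]
    refine ⟨fun h2 => ⟨h2.1.pos, not_lt.1 fun h3 => ?_, h2.1⟩, fun h2 => ⟨h2.2.2,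
      (dvd_prod_of_mem (fun p => p) (mem_PP.2 h2)).mul_left _, by positivity⟩⟩
    exact (Nat.Prime.coprime_iff_not_dvd h2.1).1 ((cop hN i hy p).2 fun q hq hd => by
      rwa [(Nat.prime_dvd_prime_iff_eq hq h2.1).1 hd]) h2.2.1
  rw [totient_real, e1]
  push_cast
  rw [mul_assoc, ← prod_mul_distrib]
  congr 1
  refine prod_congr rfl fun p hp => ?_
  have := PP_two hp
  field_simp

lemma FL_eq (i : ι) (P : Finset ℕ) (lam : Finset ℕ → ℝ) (m : ℕ) :
    FL a b i P lam m = ∑ T ∈ P.powerset, lam T * FT a b i T m := by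
  unfold FL FT lft
  split_ifs
  · rfl
  · simp

lemma FT_per (hN : Nrm a b K v) (i : ι) (T : Finset ℕ) (m m' : ℕ)
    (h : m ≡ m' [MOD a i * ∏ p ∈ T, p]) : FT a b i T m = FT a b i T m' := by
  unfold FT
  refine lft_modEq (hN.pos i) (fun n n' h1 => ?_) m m' h
  exact prod_congr rfl fun p hp => ev_of_modEq _ (h1.of_dvd (dvd_prod_of_mem (fun p => p) hp))

lemma FT_nonneg (i : ι) (T : Finset ℕ) (m : ℕ) : 0 ≤ FT a b i T m := by
  unfold FT lft
  split_ifs
  · exact prod_nonneg fun _ _ => ev_nonneg _ _ _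
  · exact le_rfl

lemma ri_eq (i : ι) (y n : ℕ) :
    ri y (a i * n + b i) = ∏ p ∈ PP 0 y, (1 - ev a b {i} p n) := by
  rw [← prod_one_sub_dv]
  exact prod_congr rfl fun p _ => by simp [ev, dv]

lemma ev_mul_single (i : ι) (p n : ℕ) : ev a b univ p n * ev a b {i} p n = ev a b {i} p n := by
  rcases ev_01 (a := a) (b := b) {i} p n with h | h
  · rw [h, mul_zero]
  · obtain ⟨l, -, h1⟩ := ev_eq_one.1 h
    rw [ev_eq_one.2 ⟨l, mem_univ _, h1⟩, one_mul]

lemma sum_FT (hN : Nrm a b K v) (i : ι) {y0 y : ℕ} (h0 : v ≤ y0) (hy : y0 ≤ y) {T : Finset ℕ}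
    (hT : T ⊆ GP a y0) :
    (∑ m ∈ range (a i * ∏ p ∈ PP 0 y, p), FT a b i T m * ri y m) /
      (a i * ∏ p ∈ PP 0 y, p).totient =
      (∏ p ∈ T, ((Fintype.card ι : ℝ) - 1) / (p - 1)) / (a i).totient := by
  have hv := h0.trans hy
  have hT1 : T ⊆ GP a y := hT.trans (GP_mono a hy)
  have hT2 : T ⊆ PP 0 y := hT.trans (GP_sub a hy)
  have e1 : ∀ n, (∏ p ∈ T, ev a b univ p n) * ri y (a i * n + b i) =
      ∏ p ∈ PP 0 y, (if p ∈ T then ev a b univ p n else 1) * (1 - ev a b {i} p n) := fun n => by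
    rw [ri_eq, prod_mul_distrib, prod_ite_mem, inter_eq_right.2 hT2]
  have e2 : ∀ p ∈ (a i).primeFactors,
      ∑ c ∈ range p, (if p ∈ T then ev a b univ p c else 1) * (1 - ev a b {i} p c) = p := by
    intro p hp
    have h1 := Nat.dvd_of_mem_primeFactors hp
    have h2 : p ∉ T := fun h => (mem_GP.1 (hT h)).2.2 i h1
    have h3 : ∀ c, ev a b {i} p c = 0 := fun c =>
      ev_eq_zero.2 fun l _ => hN.not_dvd (Nat.prime_of_mem_primeFactors hp) h1 c
    simp [h2, h3]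
  have e3 : ∀ p ∈ GP a y,
      ∑ c ∈ range p, (if p ∈ T then ev a b univ p c else 1) * (1 - ev a b {i} p c) =
        (if p ∈ T then ((Fintype.card ι : ℝ) - 1) / (p - 1) else 1) * (p - 1) := by
    intro p hp
    have h1 := hN.good hp
    have h2 : (2 : ℝ) ≤ p := by exact_mod_cast h1.prime.two_le
    have h3 : (p : ℝ) - 1 ≠ 0 := by linarith
    split_ifs with h
    · simp only [mul_sub, mul_one, ev_mul_single, sum_sub_distrib, h1.sum_ev, card_univ,
        card_singleton, Nat.cast_one]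
      field_simp
    · simp [sum_sub_distrib, h1.sum_ev]
  unfold FT
  rw [sum_lft (hN.lt i), sum_congr rfl fun n _ => e1 n,
    sum_range_prod (fun p hp => PP_prime hp)
      (fun p n => (if p ∈ T then ev a b univ p n else 1) * (1 - ev a b {i} p n))
      (fun p c => by simp only [ev_mod]), ← hN.prod_split i hv, prod_congr rfl e2,
    prod_congr rfl e3, tot hN i hv, ← hN.prod_split i hv, prod_mul_distrib, prod_ite_mem,
    inter_eq_right.2 hT1, totient_real]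
  have p1 : 0 < ∏ p ∈ GP a y, ((p : ℝ) - 1) := prod_pos fun p hp => by
    have : (2 : ℝ) ≤ p := by exact_mod_cast (mem_GP.1 hp).2.1.two_le
    linarith
  have p2 : ∀ p ∈ (a i).primeFactors, (2 : ℝ) ≤ p := fun p hp => by
    exact_mod_cast (Nat.prime_of_mem_primeFactors hp).two_le
  have p3 : 0 < ∏ p ∈ (a i).primeFactors, (1 - 1 / (p : ℝ)) :=
    prod_pos fun p hp => one_sub_inv_pos (p2 p hp)
  have p4 : 0 < ∏ p ∈ (a i).primeFactors, (p : ℝ) := prod_pos fun p hp => by linarith [p2 p hp]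
  have p5 : (0 : ℝ) < a i := by exact_mod_cast hN.pos i
  have e4 : ∏ p ∈ (a i).primeFactors, ((p : ℝ) - 1) =
      (∏ p ∈ (a i).primeFactors, (p : ℝ)) * ∏ p ∈ (a i).primeFactors, (1 - 1 / (p : ℝ)) := by
    rw [← prod_mul_distrib]
    refine prod_congr rfl fun p hp => ?_
    have := p2 p hp
    field_simp
  rw [e4]
  field_simp

lemma one (hN : Nrm a b K v) (i : ι) {y0 y Y Q : ℕ} {lam : Finset ℕ → ℝ} (h0 : v ≤ y0)
    (hy : y0 ≤ y) (hQ : v * Y ≤ Q) (hl : ∀ T ⊆ GP a y0, lam T ≠ 0 → ∏ p ∈ T, p ≤ Y)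
    (hn : ∀ n, 0 ≤ th2 (GP a y0) lam (fun p => ev a b univ p n)) :
    FG Q y (a i * ∏ p ∈ PP 0 y, p) (FL a b i (GP a y0) lam)
      (th2 (GP a y0) lam (fun p => ((Fintype.card ι : ℝ) - 1) / (p - 1)) / (a i).totient) := by
  have hd : ∀ T ∈ (GP a y0).powerset, a i * ∏ p ∈ T, p ∣ a i * ∏ p ∈ PP 0 y, p := fun T hT =>
    Nat.mul_dvd_mul_left _ (prod_dvd_prod_of_subset _ _ _ ((mem_powerset.1 hT).trans (GP_sub a hy)))
  have hM : NeZero (a i * ∏ p ∈ PP 0 y, p) :=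
    ⟨(Nat.mul_pos (hN.pos i) (prod_pos fun p hp => (PP_prime hp).pos)).ne'⟩
  refine ⟨cop hN i (h0.trans hy), fun m => ?_, fun m m' h => ?_, fun κ hκ => ?_, ?_⟩
  · unfold FL lft
    split_ifs
    · exact hn _
    · exact le_rfl
  · rw [FL_eq, FL_eq]
    exact sum_congr rfl fun T hT => by rw [FT_per hN i T m m' (h.of_dvd (hd T hT))]
  · simp only [FL_eq, Complex.ofReal_sum, sum_mul]
    rw [sum_comm]
    refine sum_eq_zero fun T hT => ?_
    simp only [Complex.ofReal_mul, mul_assoc, ← mul_sum]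
    by_cases h1 : lam T = 0
    · simp [h1]
    exact mul_eq_zero_of_right _ (vanish (hd T hT) (lt_of_le_of_lt
      ((Nat.mul_le_mul (hN.le i) (hl T (mem_powerset.1 hT) h1)).trans hQ) hκ) (FT_per hN i T))
  · simp only [FL_eq, sum_mul]
    rw [sum_comm, th2, sum_div, sum_div]
    refine sum_congr rfl fun T hT => ?_
    simp only [mul_assoc, ← mul_sum]
    rw [mul_div_assoc, mul_div_assoc, sum_FT hN i h0 hy (mem_powerset.1 hT)]

lemma two (hN : Nrm a b K v) (i : ι) {y0 : ℕ} {T : Finset ℕ} (hT : T ⊆ GP a y0) :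
    ∑ m ∈ range (a i * ∏ p ∈ T, p), (if m.Coprime (a i * ∏ p ∈ T, p) then |FT a b i T m| else 0) ≤
      (Fintype.card ι : ℝ) ^ T.card := by
  calc _ ≤ ∑ m ∈ range (a i * ∏ p ∈ T, p), FT a b i T m * 1 := by
        refine sum_le_sum fun m _ => ?_
        have := FT_nonneg (a := a) (b := b) i T m
        rw [abs_of_nonneg this, mul_one]
        split_ifs
        exacts [le_rfl, this]
    _ = _ := by
        unfold FT
        rw [sum_lft (hN.lt i) _ _ (fun _ => 1)]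
        simp only [mul_one]
        rw [sum_range_prod (fun p hp => (hN.good (hT hp)).prime) (fun p n => ev a b univ p n)
          (fun p c => ev_mod _ _ _), prod_congr rfl fun p hp => (hN.good (hT hp)).sum_ev univ,
          prod_const, card_univ]

lemma cop_of_rough (hN : Nrm a b K v) (l : ι) {d : ℕ} (hd : rough v d) : (a l).Coprime d :=
  Nat.coprime_of_dvd fun p hp h1 h2 => by
    have := hd p hp h2
    have := Nat.le_of_dvd (hN.pos l) h1
    have := hN.le l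
    omega

lemma exists_root {A B d : ℕ} (hd : 1 ≤ d) (h : A.Coprime d) : ∃ n, d ∣ A * n + B := by
  obtain ⟨n, -, hn⟩ := Nat.exists_mul_mod_eq_of_coprime ((d - 1) * B) h (by omega)
  refine ⟨n, (Nat.modEq_zero_iff_dvd.1 ?_)⟩
  have h1 : A * n ≡ (d - 1) * B [MOD d] := hn
  refine (h1.add_right B).trans (Nat.modEq_zero_iff_dvd.2 ⟨B, ?_⟩)
  obtain ⟨e, rfl⟩ := Nat.exists_eq_add_of_le hd
  simp only [Nat.add_sub_cancel_left]
  ring

lemma three (hN : Nrm a b K v) {i j : ι} (hij : i ≠ j) {d : ℕ} (hd : 1 ≤ d) (hr : rough v d) :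
    ∃ r : ℕ, r.Coprime d ∧ ∀ n, d ∣ a j * n + b j ↔ a i * n + b i ≡ r [MOD d] := by
  obtain ⟨n0, h0⟩ := exists_root (B := b j) hd (cop_of_rough hN j hr)
  refine ⟨a i * n0 + b i, Nat.coprime_of_dvd fun p hp h1 h2 =>
    hij (hN.sep p n0 i j hp h1 (h2.trans h0)), fun n => ⟨fun h => ?_, fun h => ?_⟩⟩
  · have h1 : a j * n + b j ≡ a j * n0 + b j [MOD d] :=
      (Nat.modEq_zero_iff_dvd.2 h).trans (Nat.modEq_zero_iff_dvd.2 h0).symm
    have h2 : n ≡ n0 [MOD d] :=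
      Nat.ModEq.cancel_left_of_coprime (cop_of_rough hN j hr).symm (h1.add_right_cancel' _)
    exact (h2.mul_left _).add_right _
  · have h2 : n ≡ n0 [MOD d] :=
      Nat.ModEq.cancel_left_of_coprime (cop_of_rough hN i hr).symm (h.add_right_cancel' _)
    exact (((h2.mul_left _).add_right _).dvd_iff dvd_rfl).2 h0

end FourP

theorem four : S_Four := by
  intro ι _ _ a b K v i hN
  refine ⟨fun y0 y Y Q lam h0 hy hQ hl hn => FourP.one hN i h0 hy hQ hl hn,
    fun y0 T hT => ⟨FourP.FT_per hN i T, FourP.two hN i hT⟩, fun j hij => ?_⟩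
  have h : ∀ d, ∃ r : ℕ, 1 ≤ d → rough v d → r.Coprime d ∧
      ∀ n, d ∣ a j * n + b j ↔ a i * n + b i ≡ r [MOD d] := fun d => by
    by_cases h1 : 1 ≤ d ∧ rough v d
    · obtain ⟨r, hr⟩ := FourP.three hN hij h1.1 h1.2
      exact ⟨r, fun _ _ => hr⟩
    · exact ⟨0, fun h2 h3 => absurd ⟨h2, h3⟩ h1⟩
  exact ⟨fun d => (h d).choose, fun d => (h d).choose_spec⟩

end Pool.Agent.P.MP_746f10_nt.UC
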