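import Pool.Agent.P.MP_746f10_nt.UC.Defs
import Pool.Agent.P.MP_746f10_nt.Single

/-! The divisor sum of a real character in arithmetic progressions, with dyadic strips. -/

namespace Pool.Agent.P.MP_746f10_nt.UC

open Finset

namespace GamP

lemma sum_Ico_dyadic {M : Type*} [AddCommMonoid M] (f : ℕ → M) (A n : ℕ) :
    ∑ d ∈ Ico (A + 1) (A * 2 ^ n + 1), f d =
      ∑ i ∈ range n, ∑ d ∈ Ico (A * 2 ^ i + 1) (A * 2 ^ i + 1 + A * 2 ^ i), f d := by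
  induction n with
  | zero => simp
  | succ n ih =>
    have h : A ≤ A * 2 ^ n := Nat.le_mul_of_pos_right _ (by positivity)
    rw [sum_range_succ, ← ih, sum_Ico_consecutive _ (by omega) (by omega)]
    congr 2; ring

lemma dsum (c : RC) {Q b D : ℕ} {X1 X2 : ℝ} (hrQ : c.r ∣ Q) (hχb : c.χ b = 1)
    (hX2 : X2 ≤ ((D ^ 2 : ℕ) : ℝ)) :
    ∑ m ∈ Ico ⌈X1⌉₊ ⌈X2⌉₊, (if m ≡ b [MOD Q] then c.gam m else 0) =
      ∑ θ ∈ range 2, ∑ d ∈ Ico 1 (D + 1),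
        c.χ d * NN Q b d (max ⌈X1 / d⌉₊ (d + θ)) ⌈X2 / d⌉₊ := by
  have e1 : ∀ m ∈ Ico ⌈X1⌉₊ ⌈X2⌉₊, (if m ≡ b [MOD Q] then c.gam m else 0) =
      ∑ θ ∈ range 2, ∑ d ∈ Ico 1 (D + 1),
        if m ≡ b [MOD Q] ∧ d ∣ m ∧ d * (d + θ) ≤ m then c.χ d else 0 := by
    intro m hm
    by_cases h : m ≡ b [MOD Q]
    · rw [if_pos h, c.gam_hyp (D := D) ((c.of_modEq (h.of_dvd hrQ)).trans hχb)]
      · simp only [h, true_and]
        rw [Ico_add_one_right_eq_Icc]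
      · have h3 : (m : ℝ) < X2 := Nat.lt_ceil.1 (mem_Ico.1 hm).2
        exact_mod_cast h3.le.trans hX2
    · simp [h]
  rw [sum_congr rfl e1, sum_comm]
  refine sum_congr rfl fun θ _ => ?_
  rw [sum_comm]
  refine sum_congr rfl fun d hd => ?_
  have hd0 : 0 < d := (mem_Ico.1 hd).1
  have hd0' : (0 : ℝ) < d := by exact_mod_cast hd0
  rw [NN, ← sum_filter, sum_const, sum_boole, nsmul_eq_mul, mul_comm]
  congr 2
  symm
  refine card_nbij (fun e => d * e) ?_ (fun e _ e' _ h => Nat.eq_of_mul_eq_mul_left hd0 h) ?_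
  · intro e he
    simp only [coe_filter, mem_Ico, max_le_iff, Nat.ceil_le, Nat.lt_ceil, Set.mem_ofPred_eq,
      div_le_iff₀ hd0', lt_div_iff₀ hd0'] at he ⊢
    push_cast
    exact ⟨⟨by linarith [he.1.1.1], by linarith [he.1.2]⟩, he.2, dvd_mul_right _ _,
      Nat.mul_le_mul_left _ he.1.1.2⟩
  · intro m hm
    simp only [coe_filter, mem_Ico, Nat.ceil_le, Nat.lt_ceil, Set.mem_ofPred_eq] at hm
    obtain ⟨⟨h3, h4⟩, h5, ⟨e, rfl⟩, h6⟩ := hm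
    refine ⟨e, ?_, rfl⟩
    simp only [coe_filter, mem_Ico, max_le_iff, Nat.ceil_le, Nat.lt_ceil, Set.mem_ofPred_eq,
      div_le_iff₀ hd0', lt_div_iff₀ hd0']
    push_cast at h3 h4
    exact ⟨⟨⟨by linarith, le_of_mul_le_mul_left h6 hd0⟩, by linarith⟩, h5⟩

lemma small (c : RC) {Q b D1 θ : ℕ} {X1 X2 : ℝ} (hQ : 0 < Q) (hb : b.Coprime Q) (hX1 : 0 ≤ X1)
    (hX12 : X1 ≤ X2) (hD11 : 1 ≤ D1) (hθ : θ ≤ 1) :
    |∑ d ∈ Icc 1 D1, c.χ d * NN Q b d (max ⌈X1 / d⌉₊ (d + θ)) ⌈X2 / d⌉₊ -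
      (X2 - X1) / Q * ∑ d ∈ Icc 1 D1, (if d.Coprime Q then c.χ d / d else 0)| ≤
      D1 * (2 + 3 * D1 / Q) := by
  have hQ0 : (0 : ℝ) < Q := by exact_mod_cast hQ
  have hX20 : 0 ≤ X2 := hX1.trans hX12
  rw [mul_sum, ← sum_sub_distrib]
  refine (abs_sum_le_sum_abs _ _).trans
    ((sum_le_card_nsmul _ _ (2 + 3 * D1 / Q : ℝ) fun d hd => ?_).trans
      (by rw [Nat.card_Icc, nsmul_eq_mul]; simp))
  have hd' := mem_Icc.1 hd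
  have hd0' : (0 : ℝ) < d := by exact_mod_cast hd'.1
  have hdD : (d : ℝ) ≤ D1 := by exact_mod_cast hd'.2
  have hD1' : (1 : ℝ) ≤ D1 := by exact_mod_cast hD11
  by_cases hc : d.Coprime Q
  · rw [if_pos hc, show (X2 - X1) / Q * (c.χ d / d) = c.χ d * ((X2 / d - X1 / d) / Q) by ring,
      ← mul_sub, abs_mul]
    refine (mul_le_of_le_one_left (abs_nonneg _) (c.abs_le d)).trans ?_
    have hAB : ⌈X1 / d⌉₊ ≤ ⌈X2 / d⌉₊ := Nat.ceil_mono (by gcongr)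
    have a1 := abs_le.1 (NN_approx (b := b) hQ hc hAB)
    have a2 := abs_le.1 (NN_approx (b := b) hQ hc (Nat.zero_le (d + θ)))
    have a3 : NN Q b d (max ⌈X1 / d⌉₊ (d + θ)) ⌈X2 / d⌉₊ ≤ NN Q b d ⌈X1 / d⌉₊ ⌈X2 / d⌉₊ :=
      sum_le_sum_of_subset_of_nonneg (Ico_subset_Ico_left (le_max_left _ _))
        fun _ _ _ => by split_ifs <;> norm_num
    have a4 : NN Q b d ⌈X1 / d⌉₊ ⌈X2 / d⌉₊ ≤ NN Q b d (max ⌈X1 / d⌉₊ (d + θ)) ⌈X2 / d⌉₊ +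
        NN Q b d 0 (d + θ) := NN_le_of_subset fun e he => by
      simp only [mem_union, mem_Ico, max_le_iff] at he ⊢; omega
    have a5 := Nat.le_ceil (X1 / d)
    have a6 := Nat.le_ceil (X2 / d)
    have a7 := Nat.ceil_lt_add_one (show 0 ≤ X1 / d by positivity)
    have a8 := Nat.ceil_lt_add_one (show 0 ≤ X2 / d by positivity)
    have hθ' : (θ : ℝ) ≤ 1 := by exact_mod_cast hθ
    have b1 : ((⌈X2 / d⌉₊ : ℝ) - ⌈X1 / d⌉₊) / Q ≤ (X2 / d - X1 / d) / Q + D1 / Q := by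
      rw [← add_div]; gcongr; linarith
    have b2 : (X2 / d - X1 / d) / Q ≤ ((⌈X2 / d⌉₊ : ℝ) - ⌈X1 / d⌉₊) / Q + D1 / Q := by
      rw [← add_div]; gcongr; linarith
    have b3 : (((d + θ : ℕ) : ℝ) - (0 : ℕ)) / Q ≤ 2 * (D1 / Q) := by
      rw [← mul_div_assoc]; gcongr; push_cast; linarith
    have b4 : (0 : ℝ) ≤ D1 / Q := by positivity
    rw [abs_le, mul_div_assoc]; constructor <;> linarith [a1.1, a1.2, a2.1, a2.2]
  · rw [if_neg hc, NN_eq_zero hb hc]; simp; positivity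

lemma mainT (c : RC) {Q D1 : ℕ} (hQ : 0 < Q) (hD11 : 1 ≤ D1) :
    |∑ d ∈ Icc 1 D1, (if d.Coprime Q then c.χ d / d else 0) -
      c.LL * ∏ p ∈ Q.primeFactors, (1 - c.χ p / p)| ≤ c.r / √D1 * Q.divisors.card := by
  have := c.lemM (P := Q.primeFactors) (fun p hp => Nat.prime_of_mem_primeFactors hp)
    (fun _ => -1) hD11
  simp_rw [ind_coprime hQ.ne']
  refine le_trans (le_of_eq ?_) (this.trans ?_)
  · congr 3; exact prod_congr rfl fun p _ => by ring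
  · refine mul_le_mul_of_nonneg_left (prod_le_tau hQ.ne' fun p hp => ⟨by positivity, ?_⟩)
      (by positivity)
    have : (1 : ℝ) ≤ √p := Real.one_le_sqrt.2
      (by exact_mod_cast (Nat.prime_of_mem_primeFactors hp).one_le)
    have : |(-1 : ℝ)| / √p ≤ 1 := by rw [abs_neg, abs_one, div_le_one (by linarith)]; exact this
    linarith

lemma strip (c : RC) {Q b D T θ : ℕ} {X1 X2 K : ℝ} (hrQ : c.r ∣ Q) (hQ : 0 < Q)
    (hb : b.Coprime Q) (hX1 : 0 ≤ X1) (hX12 : X1 ≤ X2) (hθ : θ ≤ 1) (hD0 : 0 < D) (hK0 : 0 ≤ K)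
    (hK4 : 2 * (Q : ℝ) ^ 3 * (Q.divisors.card : ℝ) ^ 3 ≤ K ^ 4) :
    |∑ d ∈ Ico D (D + T), c.χ d * NN Q b d (max ⌈X1 / d⌉₊ (d + θ)) ⌈X2 / d⌉₊| ≤
      (X2 / D + 1) / Q * (2 * (Q.divisors.card * c.r)) +
      (2 * (X2 * T / D ^ 2 + 1) + T) / Q * T +
      3 * ((T / Q + Q.divisors.card * (1 + Real.log Q)) *
        (Q.divisors.card * (1 + Real.log Q)) * K) := by
  have hX20 : 0 ≤ X2 := hX1.trans hX12
  have hχp : ∀ n, c.χ (n % Q) = c.χ n := fun n => c.of_modEq ((Nat.mod_modEq n Q).of_dvd hrQ)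
  have hχ1 : ∀ n, n.Coprime Q → |c.χ n| = 1 := fun n hn => by
    have := c.ne n (hn.coprime_dvd_right hrQ)
    rcases c.val n with h | h | h <;> simp_all
  have hD0' : (0 : ℝ) < D := by exact_mod_cast hD0
  have hcard : |∑ d ∈ Ico D (D + T), (if d.Coprime Q then (1 : ℝ) else 0)| ≤ T := by
    refine (abs_sum_le_sum_abs _ _).trans
      ((sum_le_card_nsmul _ _ 1 fun d _ => ?_).trans (by simp))
    split_ifs <;> simp
  have B0 := box2 hQ c.mul hχp hχ1 hK0 hK4 hb D T (max ⌈X1 / D⌉₊ (D + T)) ⌈X2 / D⌉₊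
    (len := X2 / D + 1) (by
      have h3 : ((⌈X2 / D⌉₊ - max ⌈X1 / D⌉₊ (D + T) : ℕ) : ℝ) ≤ ⌈X2 / D⌉₊ := by
        exact_mod_cast Nat.sub_le _ _
      have h4 := Nat.ceil_lt_add_one (show 0 ≤ X2 / D by positivity)
      linarith)
    (c.abs_sum_coprime_le hQ.ne' hD0 (Nat.le_add_right _ _))
  have B1 := box2 hQ (Φ := fun _ => 1) (by simp) (by simp) (by simp) hK0 hK4 hb D T
    (max ⌈X1 / (D + T : ℕ)⌉₊ D) (max ⌈X1 / D⌉₊ (D + T)) (len := X2 * T / D ^ 2 + 1 + T) (by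
      have h3 : max ⌈X1 / D⌉₊ (D + T) - max ⌈X1 / (D + T : ℕ)⌉₊ D ≤
          (⌈X1 / D⌉₊ - ⌈X1 / (D + T : ℕ)⌉₊) + T := by omega
      have h4 : ((max ⌈X1 / D⌉₊ (D + T) - max ⌈X1 / (D + T : ℕ)⌉₊ D : ℕ) : ℝ) ≤
          ((⌈X1 / D⌉₊ - ⌈X1 / (D + T : ℕ)⌉₊ : ℕ) : ℝ) + T := by exact_mod_cast h3
      have h5 := ceil_div_sub_le hX1 (T := T) hD0
      have h6 : X1 * T / D ^ 2 ≤ X2 * T / D ^ 2 := by gcongr
      linarith) hcard
  have B2 := box2 hQ (Φ := fun _ => 1) (by simp) (by simp) (by simp) hK0 hK4 hb D T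
    ⌈X2 / (D + T : ℕ)⌉₊ ⌈X2 / D⌉₊ (len := X2 * T / D ^ 2 + 1) (ceil_div_sub_le hX20 hD0) hcard
  simp only [one_mul] at B1 B2
  have hdiff : |∑ d ∈ Ico D (D + T), c.χ d * NN Q b d (max ⌈X1 / d⌉₊ (d + θ)) ⌈X2 / d⌉₊ -
      ∑ d ∈ Ico D (D + T), c.χ d * NN Q b d (max ⌈X1 / D⌉₊ (D + T)) ⌈X2 / D⌉₊| ≤
      ∑ d ∈ Ico D (D + T), NN Q b d (max ⌈X1 / (D + T : ℕ)⌉₊ D) (max ⌈X1 / D⌉₊ (D + T)) +
      ∑ d ∈ Ico D (D + T), NN Q b d ⌈X2 / (D + T : ℕ)⌉₊ ⌈X2 / D⌉₊ := by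
    rw [← sum_sub_distrib, ← sum_add_distrib]
    refine (abs_sum_le_sum_abs _ _).trans (sum_le_sum fun d hd => ?_)
    rw [← mul_sub, abs_mul]
    refine (mul_le_of_le_one_left (abs_nonneg _) (c.abs_le d)).trans ?_
    have hd' := mem_Ico.1 hd
    have hd1 : (D : ℝ) ≤ d := by exact_mod_cast hd'.1
    have hd2 : (d : ℝ) ≤ (D + T : ℕ) := by exact_mod_cast hd'.2.le
    have hd0' : (0 : ℝ) < d := by linarith
    have m1 : ⌈X1 / (D + T : ℕ)⌉₊ ≤ ⌈X1 / d⌉₊ := Nat.ceil_mono (by gcongr)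
    have m2 : ⌈X2 / (D + T : ℕ)⌉₊ ≤ ⌈X2 / d⌉₊ := Nat.ceil_mono (by gcongr)
    have m3 : ⌈X1 / d⌉₊ ≤ ⌈X1 / D⌉₊ := Nat.ceil_mono (by gcongr)
    have m4 : ⌈X2 / d⌉₊ ≤ ⌈X2 / D⌉₊ := Nat.ceil_mono (by gcongr)
    have n1 : NN Q b d (max ⌈X1 / d⌉₊ (d + θ)) ⌈X2 / d⌉₊ ≤
        NN Q b d (max ⌈X1 / D⌉₊ (D + T)) ⌈X2 / D⌉₊ +
        NN Q b d (max ⌈X1 / (D + T : ℕ)⌉₊ D) (max ⌈X1 / D⌉₊ (D + T)) :=
      NN_le_of_subset fun e he => by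
        simp only [mem_union, mem_Ico] at he ⊢; omega
    have n2 : NN Q b d (max ⌈X1 / D⌉₊ (D + T)) ⌈X2 / D⌉₊ ≤
        NN Q b d (max ⌈X1 / d⌉₊ (d + θ)) ⌈X2 / d⌉₊ + NN Q b d ⌈X2 / (D + T : ℕ)⌉₊ ⌈X2 / D⌉₊ :=
      NN_le_of_subset fun e he => by
        simp only [mem_union, mem_Ico] at he ⊢; omega
    have n3 := NN_nonneg Q b d (max ⌈X1 / (D + T : ℕ)⌉₊ D) (max ⌈X1 / D⌉₊ (D + T))
    have n4 := NN_nonneg Q b d ⌈X2 / (D + T : ℕ)⌉₊ ⌈X2 / D⌉₊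
    rw [abs_le]; constructor <;> linarith
  have := abs_sub_abs_le_abs_sub
    (∑ d ∈ Ico D (D + T), c.χ d * NN Q b d (max ⌈X1 / d⌉₊ (d + θ)) ⌈X2 / d⌉₊)
    (∑ d ∈ Ico D (D + T), c.χ d * NN Q b d (max ⌈X1 / D⌉₊ (D + T)) ⌈X2 / D⌉₊)
  have e : (2 * (X2 * T / D ^ 2 + 1) + T) / Q * T =
      (X2 * T / D ^ 2 + 1 + T) / Q * T + (X2 * T / D ^ 2 + 1) / Q * (T : ℝ) := by ring
  linarith [le_abs_self (∑ d ∈ Ico D (D + T),
    NN Q b d (max ⌈X1 / (D + T : ℕ)⌉₊ D) (max ⌈X1 / D⌉₊ (D + T))),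
    le_abs_self (∑ d ∈ Ico D (D + T), NN Q b d ⌈X2 / (D + T : ℕ)⌉₊ ⌈X2 / D⌉₊)]

/-- numerical bound for one strip -/
lemma strip_num {g Q X D T W τ r C K : ℝ} (hG : 1 ≤ g) (hQ1 : 1 ≤ Q) (hQg : Q ≤ g ^ 226)
    (hX : X ≤ g ^ 400) (hD : g ^ 100 ≤ D) (hT0 : 0 ≤ T) (hTD : T * g ^ 2 ≤ D)
    (hT : T ≤ g ^ 198) (hW : 1 ≤ W) (hτ0 : 0 ≤ τ) (hτ : τ ≤ W) (hr0 : 0 ≤ r) (hr : r ≤ g)
    (hC : 1 ≤ C) (hK : K = 2 * C * g ^ 170) :
    (X / D + 1) / Q * (2 * (τ * r)) + (2 * (X * T / D ^ 2 + 1) + T) / Q * T +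
      3 * ((T / Q + W) * W * K) ≤ 21 * C * W ^ 2 * (g ^ 396 / Q) := by
  have hG0 : 0 < g := by linarith
  have hQ0 : 0 < Q := by linarith
  have hgp : ∀ {i j : ℕ}, i ≤ j → g ^ i ≤ g ^ j := fun h => pow_le_pow_right₀ hG h
  have hD0 : 0 < D := lt_of_lt_of_le (by positivity) hD
  have hW2 : W ≤ W ^ 2 := le_self_pow₀ hW (by norm_num)
  have hCW : 1 ≤ C * W ^ 2 := one_le_mul_of_one_le_of_one_le hC (hW.trans hW2)
  have e1 : (X / D + 1) / Q * (2 * (τ * r)) ≤ 4 * (C * W ^ 2) * (g ^ 396 / Q) := by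
    have h1 : X / D ≤ g ^ 300 := by
      calc X / D ≤ g ^ 400 / g ^ 100 := by gcongr
        _ = g ^ 300 := by field_simp
    have h2 : (1 : ℝ) ≤ g ^ 300 := one_le_pow₀ hG
    have h3 : W ≤ C * W ^ 2 := hW2.trans (le_mul_of_one_le_left (by positivity) hC)
    calc _ ≤ (2 * g ^ 300) / Q * (2 * (W * g)) := by gcongr; linarith
      _ = 4 * W * (g ^ 301 / Q) := by ring
      _ ≤ _ := by gcongr; norm_num
  have e2 : (2 * (X * T / D ^ 2 + 1) + T) / Q * T ≤ 5 * (C * W ^ 2) * (g ^ 396 / Q) := by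
    have h1 : X * T / D ^ 2 * T ≤ g ^ 396 := by
      have h2 : T ^ 2 * g ^ 4 ≤ D ^ 2 := by
        calc T ^ 2 * g ^ 4 = (T * g ^ 2) ^ 2 := by ring
          _ ≤ D ^ 2 := by gcongr
      rw [div_mul_eq_mul_div, div_le_iff₀ (by positivity)]
      calc X * T * T ≤ g ^ 400 * T * T := by gcongr
        _ = g ^ 396 * (T ^ 2 * g ^ 4) := by ring
        _ ≤ _ := by gcongr
    have h2 : T ≤ g ^ 396 := hT.trans (hgp (by norm_num))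
    have h3 : T * T ≤ g ^ 396 := by
      calc T * T ≤ g ^ 198 * g ^ 198 := by gcongr
        _ = _ := by ring
    calc _ = (2 * (X * T / D ^ 2 * T) + 2 * T + T * T) / Q := by ring
      _ ≤ (5 * g ^ 396) / Q := by gcongr; linarith
      _ = 5 * 1 * (g ^ 396 / Q) := by ring
      _ ≤ _ := by gcongr
  have e3 : (T / Q + W) * W * K ≤ 4 * (C * W ^ 2) * (g ^ 396 / Q) := by
    have h1 : g ^ 170 ≤ g ^ 396 / Q := by
      rw [le_div_iff₀ hQ0]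
      calc g ^ 170 * Q ≤ g ^ 170 * g ^ 226 := by gcongr
        _ = _ := by ring
    have h2 : T * g ^ 170 / Q ≤ g ^ 396 / Q := by
      gcongr
      calc T * g ^ 170 ≤ g ^ 198 * g ^ 170 := by gcongr
        _ = g ^ 368 := by ring
        _ ≤ _ := hgp (by norm_num)
    calc _ = 2 * C * (W * (T * g ^ 170 / Q) + W ^ 2 * g ^ 170) := by rw [hK]; ring
      _ ≤ 2 * C * (W ^ 2 * (g ^ 396 / Q) + W ^ 2 * (g ^ 396 / Q)) := by gcongr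
      _ = _ := by ring
  linarith

theorem single2 : ∃ C : ℝ, 1 ≤ C ∧ ∀ (c : RC) (g Q b : ℕ) (X1 X2 : ℝ), c.r ≤ g → c.r ∣ Q →
    0 < Q → Q ≤ g ^ 226 → b.Coprime Q → c.χ b = 1 → 0 ≤ X1 → X1 ≤ X2 → X2 ≤ (g : ℝ) ^ 400 →
    |∑ m ∈ Ico ⌈X1⌉₊ ⌈X2⌉₊, (if m ≡ b [MOD Q] then c.gam m else 0) -
      (X2 - X1) / Q * (2 * c.LL * ∏ p ∈ Q.primeFactors, (1 - c.χ p / p))| ≤
      C * (g ^ 399 / Q) := by
  obtain ⟨C1, hC1, h1⟩ := exists_tau_le 8 226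
  obtain ⟨C2, hC2, h2⟩ := exists_log_pow_le 226
  obtain ⟨C, hC⟩ : ∃ C, C = 2 * (C1 * C2) := ⟨_, rfl⟩
  have hC12 : 1 ≤ C1 * C2 := one_le_mul_of_one_le_of_one_le hC1 hC2
  have hC' : 1 ≤ C := by linarith
  have hCC : C ≤ C ^ 2 := le_self_pow₀ hC' (by norm_num)
  refine ⟨54 * C ^ 2, by linarith, ?_⟩
  intro c g Q b X1 X2 hrg hrQ hQ hQg hb hχb hX1 hX12 hX2
  have hg1 : 1 ≤ g := le_trans c.r_pos hrg
  have hG : (1 : ℝ) ≤ g := by exact_mod_cast hg1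
  have hG0 : (0 : ℝ) < g := by linarith
  have hQ' : (1 : ℝ) ≤ Q := by exact_mod_cast hQ
  have hQ0 : (0 : ℝ) < Q := by linarith
  have hQg' : (Q : ℝ) ≤ (g : ℝ) ^ 226 := by exact_mod_cast hQg
  have hr : (c.r : ℝ) ≤ g := by exact_mod_cast hrg
  have hX20 : 0 ≤ X2 := hX1.trans hX12
  have hgp : ∀ {i j : ℕ}, i ≤ j → (g : ℝ) ^ i ≤ g ^ j := fun h => pow_le_pow_right₀ hG h
  obtain ⟨τ, hτ⟩ : ∃ τ : ℝ, τ = (Q.divisors.card : ℝ) := ⟨_, rfl⟩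
  have hτ1 : 1 ≤ τ := by
    rw [hτ]; exact_mod_cast card_pos.2 ⟨1, Nat.one_mem_divisors.2 hQ.ne'⟩
  have hτ8 : τ ^ 8 ≤ C1 * g := hτ ▸ h1 Q g hQ.ne' hG hQg'
  have hC1C : C1 ≤ C := by nlinarith
  have hτC : τ ^ 8 ≤ C * g := hτ8.trans (by gcongr)
  have hτg : τ ≤ C * g := (le_self_pow₀ hτ1 (by norm_num)).trans hτC
  obtain ⟨W, hW⟩ : ∃ W : ℝ, W = τ * (1 + Real.log Q) := ⟨_, rfl⟩
  have hlog := Real.log_nonneg hQ'
  have hτW : τ ≤ W := by rw [hW]; exact le_mul_of_one_le_right (by linarith) (by linarith)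
  have hW1 : 1 ≤ W := hτ1.trans hτW
  obtain ⟨K, hK⟩ : ∃ K : ℝ, K = 2 * C * g ^ 170 := ⟨_, rfl⟩
  have hK0 : 0 ≤ K := by rw [hK]; positivity
  have hK4 : 2 * (Q : ℝ) ^ 3 * τ ^ 3 ≤ K ^ 4 := by
    have h3 : τ ^ 3 ≤ C * g := (pow_le_pow_right₀ hτ1 (by norm_num)).trans hτC
    calc _ ≤ 2 * ((g : ℝ) ^ 226) ^ 3 * (C * g) := by gcongr
      _ = (2 * C) * g ^ 679 := by ring
      _ ≤ (2 * C) ^ 4 * g ^ 680 := by
          gcongr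
          · exact le_self_pow₀ (by linarith) (by norm_num)
          · norm_num
      _ = _ := by rw [hK]; ring
  obtain ⟨D1, hD1⟩ : ∃ D1, D1 = g ^ 100 := ⟨_, rfl⟩
  have hD1r : (D1 : ℝ) = g ^ 100 := by rw [hD1]; push_cast; rfl
  have hD11 : 1 ≤ D1 := by rw [hD1]; exact Nat.one_le_pow _ _ hg1
  obtain ⟨J, hJ⟩ : ∃ J, J = Nat.log 2 D1 + 1 := ⟨_, rfl⟩
  have hJ1 : D1 < 2 ^ J := hJ ▸ Nat.lt_pow_succ_log_self (by norm_num) D1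
  have hJ2 : ∀ i < J, 2 ^ i ≤ D1 := fun i hi =>
    (Nat.pow_le_pow_right (by norm_num) (by omega)).trans (Nat.pow_log_le_self 2 (by omega))
  have hJW : J * W ^ 2 ≤ C * g := by
    have hD1' : (1 : ℝ) ≤ D1 := by exact_mod_cast hD11
    have h3 : (J : ℝ) ≤ 2 * (1 + Real.log D1) := by
      have h4 : ((2 ^ Nat.log 2 D1 : ℕ) : ℝ) ≤ D1 := by
        exact_mod_cast Nat.pow_log_le_self 2 (by omega)
      have h5 := Real.log_le_log (by positivity) h4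
      push_cast at h5
      rw [Real.log_pow] at h5
      have h6 := Real.log_two_gt_d9
      have h7 : (0 : ℝ) ≤ Nat.log 2 D1 := Nat.cast_nonneg _
      rw [hJ]
      push_cast
      nlinarith
    have h4 := h2 D1 g hD1' hG (by rw [hD1r]; exact hgp (by norm_num))
    have h5 := h2 Q g hQ' hG hQg'
    refine le_of_pow_le_pow_left₀ (n := 4) (by norm_num) (by positivity) ?_
    calc ((J : ℝ) * W ^ 2) ^ 4 = J ^ 4 * τ ^ 8 * ((1 + Real.log Q) ^ 4) ^ 2 := by rw [hW]; ring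
      _ ≤ (2 * (1 + Real.log D1)) ^ 4 * (C1 * g) * (C2 * g) ^ 2 := by gcongr
      _ = 16 * (1 + Real.log D1) ^ 4 * (C1 * g) * (C2 * g) ^ 2 := by ring
      _ ≤ 16 * (C2 * g) * (C1 * g) * (C2 * g) ^ 2 := by gcongr
      _ = 16 * (C1 * C2 ^ 3) * g ^ 4 := by ring
      _ ≤ 16 * (C1 ^ 4 * C2 ^ 4) * g ^ 4 := by
          gcongr
          · exact le_self_pow₀ hC1 (by norm_num)
          · norm_num
      _ = _ := by rw [hC]; ring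
  have hS := dsum c (D := D1 * 2 ^ J) (X1 := X1) hrQ hχb (hX2.trans (by
    have h3 : g ^ 400 ≤ (D1 * 2 ^ J) ^ 2 := by
      calc g ^ 400 = (D1 * D1) ^ 2 := by rw [hD1]; ring
        _ ≤ _ := by gcongr
    exact_mod_cast h3))
  have key : ∀ θ ≤ 1, |∑ d ∈ Ico 1 (D1 * 2 ^ J + 1),
      c.χ d * NN Q b d (max ⌈X1 / d⌉₊ (d + θ)) ⌈X2 / d⌉₊ -
      (X2 - X1) / Q * (c.LL * ∏ p ∈ Q.primeFactors, (1 - c.χ p / p))| ≤
      27 * C ^ 2 * (g ^ 399 / Q) := by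
    intro θ hθ
    have hle : D1 ≤ D1 * 2 ^ J := Nat.le_mul_of_pos_right _ (by positivity)
    rw [← sum_Ico_consecutive _ (show 1 ≤ D1 + 1 by omega) (show D1 + 1 ≤ _ by omega),
      sum_Ico_dyadic, Ico_add_one_right_eq_Icc]
    have p1 := small c hQ hb hX1 hX12 hD11 hθ
    have p2 := mainT c hQ hD11
    rw [← hτ, hD1r, show (g : ℝ) ^ 100 = (g ^ 50) ^ 2 by ring, Real.sqrt_sq (by positivity)] at p2
    have p3 : ∀ i ∈ range J, |∑ d ∈ Ico (D1 * 2 ^ i + 1) (D1 * 2 ^ i + 1 + D1 * 2 ^ i),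
        c.χ d * NN Q b d (max ⌈X1 / d⌉₊ (d + θ)) ⌈X2 / d⌉₊| ≤
        g ^ 2 * (21 * C * W ^ 2 * (g ^ 396 / Q)) := by
      intro i hi
      obtain ⟨T, hT⟩ : ∃ T, T = g ^ 98 * 2 ^ i := ⟨_, rfl⟩
      have e1 : D1 * 2 ^ i = g ^ 2 * T := by rw [hD1, hT]; ring
      have hi2 := hJ2 i (mem_range.1 hi)
      have hT1 : T ≤ g ^ 198 := by
        calc T ≤ g ^ 98 * g ^ 100 := by rw [hT, ← hD1]; gcongr
          _ = _ := by ring
      have hDi : D1 ≤ g ^ 2 * T := e1 ▸ Nat.le_mul_of_pos_right _ (by positivity)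
      rw [e1, sum_Ico_strips]
      refine (abs_sum_le_sum_abs _ _).trans ((sum_le_card_nsmul _ _ _ fun j _ => ?_).trans
        (le_of_eq (by rw [card_range, nsmul_eq_mul]; push_cast; rfl)))
      refine (strip c hrQ hQ hb hX1 hX12 hθ (by omega) hK0 (hτ ▸ hK4)).trans ?_
      rw [← hτ, ← hW]
      refine strip_num hG hQ' hQg' hX2 ?_ (Nat.cast_nonneg _) ?_ (by exact_mod_cast hT1) hW1
        (by linarith) hτW (Nat.cast_nonneg _) hr hC' hK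
      · rw [← hD1r]; exact_mod_cast (by omega : D1 ≤ g ^ 2 * T + 1 + j * T)
      · exact_mod_cast (by rw [mul_comm]; omega : T * g ^ 2 ≤ g ^ 2 * T + 1 + j * T)
    have p4 := (abs_sum_le_sum_abs _ _).trans (sum_le_card_nsmul _ _ _ p3)
    rw [card_range, nsmul_eq_mul] at p4
    have p5 : |(X2 - X1) / Q * ∑ d ∈ Icc 1 D1, (if d.Coprime Q then c.χ d / d else 0) -
        (X2 - X1) / Q * (c.LL * ∏ p ∈ Q.primeFactors, (1 - c.χ p / p))| ≤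
        C ^ 2 * ((g : ℝ) ^ 399 / Q) := by
      rw [← mul_sub, abs_mul, abs_of_nonneg (div_nonneg (by linarith) hQ0.le)]
      calc _ ≤ g ^ 400 / Q * (g / g ^ 50 * (C * g)) := by
            gcongr
            · linarith
            · exact p2.trans (by gcongr)
        _ = C * (g ^ 352 / Q) := by field_simp
        _ ≤ _ := by gcongr; norm_num
    have p6 : (D1 : ℝ) * (2 + 3 * D1 / Q) ≤ 5 * C ^ 2 * (g ^ 399 / Q) := by
      have h3 : (g : ℝ) ^ 100 ≤ g ^ 399 / Q := by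
        rw [le_div_iff₀ hQ0]
        calc (g : ℝ) ^ 100 * Q ≤ (g : ℝ) ^ 100 * (g : ℝ) ^ 226 := by gcongr
          _ = (g : ℝ) ^ 326 := by ring
          _ ≤ _ := hgp (by norm_num)
      have h4 : (g : ℝ) ^ 200 / Q ≤ g ^ 399 / Q := by gcongr; norm_num
      rw [hD1r]
      calc _ = 1 * (3 * (g ^ 200 / Q) + 2 * (g : ℝ) ^ 100) := by ring
        _ ≤ C ^ 2 * (3 * (g ^ 399 / Q) + 2 * ((g : ℝ) ^ 399 / Q)) := by
            gcongr; exact one_le_pow₀ hC'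
        _ = _ := by ring
    have p7 : (J : ℝ) * (g ^ 2 * (21 * C * W ^ 2 * (g ^ 396 / Q))) ≤
        21 * C ^ 2 * (g ^ 399 / Q) := by
      calc _ = 21 * C * (J * W ^ 2) * (g ^ 398 / Q) := by ring
        _ ≤ 21 * C * (C * g) * (g ^ 398 / Q) := by gcongr
        _ = _ := by ring
    rw [abs_le] at p1 p4 p5 ⊢
    constructor <;> linarith [p1.1, p1.2, p4.1, p4.2, p5.1, p5.2]
  rw [hS, sum_range_succ, sum_range_one]
  have k0 := abs_le.1 (key 0 (by norm_num))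
  have k1 := abs_le.1 (key 1 le_rfl)
  rw [abs_le]; constructor <;> linarith [k0.1, k0.2, k1.1, k1.2]

end GamP

theorem gam2 : S_Gam := by
  obtain ⟨C, hC, h⟩ := GamP.single2
  obtain ⟨E, hE⟩ : ∃ E : ℝ, E = 2 ^ 399 := ⟨_, rfl⟩
  refine ⟨C * E, one_le_mul_of_one_le_of_one_le hC (hE ▸ one_le_pow₀ one_le_two), ?_⟩
  intro c Q b X X1 X2 hX hrQ hQ hr hQX hb hχ hX1 hX12 hX2
  obtain ⟨Y, hY⟩ : ∃ Y : ℝ, Y = X ^ (1 / 400 : ℝ) := ⟨_, rfl⟩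
  have hX0 : 0 ≤ X := by linarith
  have hY1 : 1 ≤ Y := hY ▸ Real.one_le_rpow hX (by norm_num)
  have hYp : ∀ n : ℕ, Y ^ n = X ^ ((n : ℝ) / 400) := fun n => by
    rw [hY, ← Real.rpow_natCast, ← Real.rpow_mul hX0]; congr 1; ring
  have hYg : Y ≤ ⌈Y⌉₊ := Nat.le_ceil Y
  have hg2 : (⌈Y⌉₊ : ℝ) ≤ 2 * Y := by linarith [Nat.ceil_lt_add_one (show 0 ≤ Y by linarith)]
  have h1 : c.r ≤ ⌈Y⌉₊ := by exact_mod_cast (hY ▸ hr).trans hYg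
  have h2 : Q ≤ ⌈Y⌉₊ ^ 226 := by
    have : (Q : ℝ) ≤ (⌈Y⌉₊ : ℝ) ^ 226 := by
      calc (Q : ℝ) ≤ Y ^ 226 := by rw [hYp]; convert hQX using 2; norm_num
        _ ≤ _ := by gcongr
    exact_mod_cast this
  have h3 : X2 ≤ (⌈Y⌉₊ : ℝ) ^ 400 := by
    calc X2 ≤ Y ^ 400 := by rw [hYp]; simpa using hX2
      _ ≤ _ := by gcongr
  refine (h c _ Q b X1 X2 h1 hrQ hQ h2 hb hχ hX1 hX12 h3).trans ?_
  have h4 : X ^ (399 / 400 : ℝ) = Y ^ 399 := by rw [hYp]; norm_num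
  calc C * ((⌈Y⌉₊ : ℝ) ^ 399 / Q) ≤ C * ((2 * Y) ^ 399 / Q) := by gcongr
    _ = _ := by rw [h4, mul_pow, ← hE]; ring

end Pool.Agent.P.MP_746f10_nt.UC
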