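import Pool.Agent.P.MP_746f10_nt.UC.Defs

/-! Mean squares of Dirichlet series near one. -/

namespace Pool.Agent.P.MP_746f10_nt.UC

open Finset

namespace L2P

variable {M : ℕ} [NeZero M]

lemma mem_Fam {Q : ℕ} {κ : DirichletCharacter ℂ M} (h : κ ∈ Fam M Q) : κ ≠ 1 ∧ κ.conductor ≤ Q := by
  simpa [Fam] using h

lemma card_Fam (Q : ℕ) : (((Fam M Q).card : ℕ) : ℝ) ≤ (Q ^ 2 : ℕ) := by
  exact_mod_cast le_trans (card_le_card fun κ hκ =>
    mem_filter.2 ⟨mem_univ _, (mem_Fam hκ).2⟩) (card_cond_le Q)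

lemma osc_Fam {Q : ℕ} : ∀ κ ∈ Fam M Q, Osc (Q ^ 2 : ℕ) (pc κ) := fun κ hκ => by
  simpa only [pow_one] using osc_pc_pow (κ := κ) one_ne_zero (by simpa using (mem_Fam hκ).1)
    (K := (Q ^ 2 : ℕ)) (by exact_mod_cast (mem_Fam hκ).2.trans (Nat.le_self_pow two_ne_zero Q))

lemma osc_Fam2 {Q : ℕ} : ∀ κ ∈ Fam M Q, ∀ κ' ∈ Fam M Q, κ ≠ κ' →
    Osc (Q ^ 2 : ℕ) (fun n => pc κ n * (starRingEnd ℂ) (pc κ' n)) := fun κ hκ κ' hκ' hne =>
  osc_pc_pair hne (by rw [sq]; exact_mod_cast Nat.mul_le_mul (mem_Fam hκ).2 (mem_Fam hκ').2)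

lemma summ {h : ℝ} (hh : 0 < h) {i : ℕ → ℝ} {y : ℕ} {I0 : ℝ} (i0 : ∀ n, 0 ≤ i n)
    (hi : ∀ n, y ≤ n → i n ≤ I0 * (Real.log n / Real.log y) ^ 2) (hI0 : 0 ≤ I0) :
    Summable fun n : ℕ => pw h n * i n / n := by
  refine .of_norm_bounded_eventually_nat ((summable_pw_log (half_pos hh)).mul_left
    (I0 / Real.log y ^ 2 * (2 / h))) ?_
  filter_upwards [Filter.eventually_ge_atTop y] with n hn
  have h1 := pw_pos h n
  have h2 := i0 n
  have h3 := Real.log_natCast_nonneg n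
  rw [Real.norm_of_nonneg (by positivity)]
  calc _ ≤ pw h n * (I0 * (Real.log n / Real.log y) ^ 2) / n := by gcongr; exact hi n hn
    _ = I0 / Real.log y ^ 2 * (pw h n * Real.log n / n * Real.log n) := by ring
    _ ≤ I0 / Real.log y ^ 2 * (2 / h * (pw (h / 2) n / n) * Real.log n) := by
        gcongr; exact pw_log_le hh n
    _ = _ := by ring

lemma Ls_sub {y : ℕ} {φ : ℕ → ℂ} (hφ : ∀ n, ‖φ n‖ ≤ 1) {u w : ℕ → ℝ} (hu : Summable u)
    (hw : Summable w) : Ls y φ (fun n => u n - w n) = Ls y φ u - Ls y φ w := by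
  unfold Ls
  rw [← (summable_Ls hφ hu).tsum_sub (summable_Ls hφ hw)]
  exact tsum_congr fun n => by push_cast; ring

lemma sq_sub_le (a b : ℂ) : ‖a - b‖ ^ 2 ≤ 2 * ‖a‖ ^ 2 + 2 * ‖b‖ ^ 2 := by
  nlinarith only [pow_le_pow_left₀ (norm_nonneg _) (norm_sub_le a b) 2, sq_nonneg (‖a‖ - ‖b‖)]

lemma gen {c : ℕ} {C : ℝ} (hL : LS2St c C) {Q y : ℕ} (hQ : 2 ≤ Q) (hy : y = (Q ^ 2) ^ c) {h : ℝ}
    (hh : 0 < h) {f g : ℕ → ℝ} {a b I0 : ℝ} (f0 : ∀ n, 0 ≤ f n)
    (fm : ∀ m n, 1 ≤ m → m ≤ n → f m ≤ f n) (ha : 0 ≤ a) (hb : 0 ≤ b)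
    (g0 : ∀ n, |g n| ≤ b + a * Real.log n)
    (gl : ∀ m n : ℕ, |g m - g n| ≤ a * |Real.log m - Real.log n|) (hI0 : 0 < I0)
    (hi : ∀ n, y ≤ n → f n * (b + a * Real.log n) ≤ I0 * (Real.log n / Real.log y) ^ 2) :
    (Summable fun n : ℕ => pw h n * (f n * g n) / n) ∧
    ∑ κ ∈ Fam M Q, ‖Ls y (pc κ) (fun n => pw h n * (f n * g n) / n) - (f 1 * g 1 : ℝ)‖ ^ 2 ≤
      10 * (C * I0) ^ 2 := by
  have hz : 2 ≤ Q ^ 2 := by nlinarith
  have hl := Real.log_natCast_nonneg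
  have a0 : ∀ n : ℕ, 0 ≤ f n * (b + a * Real.log n) := fun n => by
    have := f0 n; have := hl n; positivity
  have b0 : ∀ n : ℕ, 0 ≤ f n * (b + a * Real.log n + g n) := fun n =>
    mul_nonneg (f0 n) (by linarith [(abs_le.1 (g0 n)).1])
  have hi' : ∀ n, y ≤ n → f n * (b + a * Real.log n + g n) ≤
      2 * I0 * (Real.log n / Real.log y) ^ 2 := fun n hn => by
    have := mul_le_mul_of_nonneg_left (abs_le.1 (g0 n)).2 (f0 n)
    linarith [hi n hn]
  have s1 := summ hh a0 hi hI0.le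
  have s2 := summ hh b0 hi' (by positivity)
  have m1 := hL.fam hz hy (Wt.pw hh.le a0 fun m n h1 h2 => mul_le_mul (fm m n h1 h2)
    (by have := log_mono h1 h2; gcongr) (by have := hl m; positivity) (f0 n)) hI0 hi s1
    (Fam M Q) pc (card_Fam Q) osc_Fam osc_Fam2
  have m2 := hL.fam hz hy (Wt.pw hh.le b0 fun m n h1 h2 => mul_le_mul (fm m n h1 h2)
    (by
      have h3 := log_mono h1 h2
      have h4 := (abs_le.1 (gl m n)).2
      rw [abs_sub_comm, abs_of_nonneg (by linarith)] at h4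
      linarith) (by linarith [(abs_le.1 (g0 m)).1]) (f0 n)) (by positivity) hi' s2
    (Fam M Q) pc (card_Fam Q) osc_Fam osc_Fam2
  have e : (fun n : ℕ => pw h n * (f n * g n) / n) = fun n : ℕ =>
      pw h n * (f n * (b + a * Real.log n + g n)) / n - pw h n * (f n * (b + a * Real.log n)) / n :=
    funext fun n => by ring
  rw [e]
  refine ⟨s2.sub s1, ?_⟩
  refine le_trans (sum_le_sum fun κ _ => le_trans (le_of_eq ?_) (sq_sub_le
    (Ls y (pc κ) (fun n => pw h n * (f n * (b + a * Real.log n + g n)) / n) -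
      (pw h 1 * (f 1 * (b + a * Real.log (1 : ℕ) + g 1)) : ℝ) * pc κ 1)
    (Ls y (pc κ) (fun n => pw h n * (f n * (b + a * Real.log n)) / n) -
      (pw h 1 * (f 1 * (b + a * Real.log (1 : ℕ))) : ℝ) * pc κ 1))) ?_
  · rw [Ls_sub (pc_le κ) s2 s1, pc_one, pw_one]
    congr 2; push_cast; ring
  · rw [sum_add_distrib, ← mul_sum, ← mul_sum]
    nlinarith only [m1, m2]

lemma LS_pt {y : ℕ} (hM : ∀ n, n.Coprime M ↔ rough y n) (κ : DirichletCharacter ℂ M) {f : ℕ → ℝ}
    {h τ : ℝ} (s1 : Summable fun n : ℕ => pw h n * (f n * Real.cos (τ * Real.log n)) / n)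
    (s2 : Summable fun n : ℕ => pw h n * (f n * Real.sin (τ * Real.log n)) / n) :
    LSeries (fun n => κ n * f n) (1 + h + Complex.I * τ) =
      Ls y (pc κ) (fun n => pw h n * (f n * Real.cos (τ * Real.log n)) / n) -
      Complex.I * Ls y (pc κ) (fun n => pw h n * (f n * Real.sin (τ * Real.log n)) / n) := by
  unfold Ls
  rw [← tsum_mul_left, ← (summable_Ls (pc_le κ) s1).tsum_sub
    ((summable_Ls (pc_le κ) s2).mul_left _)]
  refine tsum_congr fun n => ?_
  rcases eq_or_ne n 0 with rfl | hn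
  · simp
  have hn' : (n : ℂ) ≠ 0 := by exact_mod_cast hn
  rw [LSeries.term_of_ne_zero hn, Complex.cpow_add _ _ hn', Complex.cpow_add _ _ hn',
    Complex.cpow_one, Complex.cpow_def_of_ne_zero hn', Complex.cpow_def_of_ne_zero hn',
    ← Complex.natCast_log]
  unfold ri
  split_ifs with h1
  · rw [pc_eq κ ((hM n).2 h1)]
    have e1 := Complex.exp_mul_I (x := -(τ * Real.log n))
    rw [Complex.cos_neg, Complex.sin_neg, neg_mul, Complex.exp_neg] at e1
    unfold pw; push_cast at e1 ⊢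
    rw [Complex.exp_neg, mul_comm (h : ℂ), show Complex.log n * (Complex.I * τ) =
      τ * Complex.log n * Complex.I by ring, div_mul_eq_div_div, div_eq_mul_inv _ (Complex.exp
        (τ * Complex.log n * Complex.I)), e1]
    field_simp
    ring
  · rw [char_zero κ fun h2 => h1 ((hM n).1 h2)]; simp

lemma lip_cos (τ x z : ℝ) : |Real.cos (τ * x) - Real.cos (τ * z)| ≤ |τ| * |x - z| := by
  rw [← abs_mul, mul_sub]; exact Real.abs_cos_sub_cos_le _ _

lemma lip_sin (τ x z : ℝ) : |Real.sin (τ * x) - Real.sin (τ * z)| ≤ |τ| * |x - z| := by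
  rw [← abs_mul, mul_sub]; exact Real.abs_sin_sub_sin_le _ _

lemma two_sum {X : Type} (S : Finset X) (u w : X → ℂ) {K : ℝ} (h1 : ∑ x ∈ S, ‖u x‖ ^ 2 ≤ K)
    (h2 : ∑ x ∈ S, ‖w x‖ ^ 2 ≤ K) : ∑ x ∈ S, ‖u x - Complex.I * w x‖ ^ 2 ≤ 4 * K := by
  refine (sum_le_sum fun x _ => sq_sub_le _ _).trans ?_
  simp only [norm_mul, Complex.norm_I, one_mul]
  rw [sum_add_distrib, ← mul_sum, ← mul_sum]
  linarith

end L2P

open L2P in
theorem l2 : S_L2 := by
  intro c C hc hC hL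
  refine ⟨7 * C, by linarith, ?_⟩
  intro Q y M _ U t hQ hy hM hU
  have hy2 : 2 ≤ y := hy ▸ le_trans (by nlinarith) (Nat.le_self_pow (by omega) _)
  have hl : 0 < Real.log y := Real.log_pos (by exact_mod_cast hy2)
  have hl0 := Real.log_natCast_nonneg
  have hU0 : 0 < U := by linarith
  unfold pt
  set h := 1 / (U * Real.log y) with hh'
  set τ := t / (U * Real.log y) with hτ
  have hh : 0 < h := by positivity
  have ht := abs_nonneg t
  have hτ1 : ∀ n : ℕ, |τ| * Real.log n = |t| / U * (Real.log n / Real.log y) := fun n => by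
    rw [hτ, abs_div, abs_of_pos (mul_pos hU0 hl)]; field_simp
  have hτ2 : ∀ n : ℕ, y ≤ n → 1 + |τ| * Real.log n ≤ (1 + |t|) * (Real.log n / Real.log y) := by
    intro n hn
    have h1 := log_ratio hy2 hn
    have h2 : |t| / U ≤ |t| := div_le_self ht hU
    rw [hτ1, add_mul, one_mul]
    gcongr
  have c0 : ∀ n : ℕ, |Real.cos (τ * Real.log n)| ≤ 1 + |τ| * Real.log n := fun n =>
    (Real.abs_cos_le_one _).trans (le_add_of_nonneg_right (mul_nonneg (abs_nonneg _) (hl0 n)))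
  have d0 : ∀ n : ℕ, |Real.sin (τ * Real.log n)| ≤ 1 + |τ| * Real.log n := fun n =>
    (Real.abs_sin_le_one _).trans (le_add_of_nonneg_right (mul_nonneg (abs_nonneg _) (hl0 n)))
  have i1 : ∀ n : ℕ, y ≤ n → 1 * (1 + |τ| * Real.log n) ≤
      (1 + |t|) * (Real.log n / Real.log y) ^ 2 := fun n hn => by
    have h1 := log_ratio hy2 hn
    rw [one_mul]
    refine (hτ2 n hn).trans ?_
    gcongr; nlinarith only [h1]
  obtain ⟨s1, m1⟩ := gen (M := M) hL hQ hy hh (f := fun _ => 1) (fun _ => zero_le_one)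
    (fun _ _ _ _ => le_rfl) (abs_nonneg τ) zero_le_one c0 (fun m n => lip_cos τ _ _)
    (by positivity) i1
  obtain ⟨s2, m2⟩ := gen (M := M) hL hQ hy hh (f := fun _ => 1) (fun _ => zero_le_one)
    (fun _ _ _ _ => le_rfl) (abs_nonneg τ) zero_le_one d0 (fun m n => lip_sin τ _ _)
    (by positivity) i1
  have e1 := fun κ : DirichletCharacter ℂ M => LS_pt hM κ s1 s2
  simp only [Complex.ofReal_one, mul_one] at e1
  refine ⟨?_, ?_, fun κ hκ => ?_⟩
  · refine le_trans (le_of_eq (sum_congr rfl fun κ _ => ?_)) ((two_sum _ _ _ m1 m2).trans ?_)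
    · rw [e1]; congr 2; simp; ring
    · nlinarith only [sq_nonneg (C * (1 + |t|))]
  · have i2 : ∀ n : ℕ, y ≤ n → Real.log n * (1 + |τ| * Real.log n) ≤
        Real.log y * (1 + |t|) * (Real.log n / Real.log y) ^ 2 := fun n hn => by
      refine (mul_le_mul_of_nonneg_left (hτ2 n hn) (hl0 n)).trans (le_of_eq ?_)
      field_simp
    obtain ⟨s3, m3⟩ := gen (M := M) hL hQ hy hh (f := fun n => Real.log n) hl0
      (fun _ _ => log_mono) (abs_nonneg τ) zero_le_one c0 (fun m n => lip_cos τ _ _)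
      (by positivity) i2
    obtain ⟨s4, m4⟩ := gen (M := M) hL hQ hy hh (f := fun n => Real.log n) hl0
      (fun _ _ => log_mono) (abs_nonneg τ) zero_le_one d0 (fun m n => lip_sin τ _ _)
      (by positivity) i2
    refine le_trans (le_of_eq (sum_congr rfl fun κ _ => ?_)) ((two_sum _ _ _ m3 m4).trans ?_)
    · rw [LS_pt hM κ s3 s4]; simp
    · nlinarith only [sq_nonneg (C * (Real.log y * (1 + |t|)))]
  · rcases eq_or_ne t 0 with rfl | h0
    · simp [hτ]
    have ht0 : 0 < |t| := abs_pos.2 h0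
    have i3 : ∀ n : ℕ, y ≤ n → 1 * (0 + |τ| * Real.log n) ≤
        |t| / U * (Real.log n / Real.log y) ^ 2 := fun n hn => by
      have h1 := log_ratio hy2 hn
      rw [one_mul, zero_add, hτ1]
      gcongr; nlinarith only [h1]
    obtain ⟨-, m3⟩ := gen (M := M) hL hQ hy hh (f := fun _ => 1)
      (g := fun n => Real.cos (τ * Real.log n) - 1) (fun _ => zero_le_one)
      (fun _ _ _ _ => le_rfl) (abs_nonneg τ) le_rfl
      (fun n => by simpa [abs_of_nonneg (hl0 n)] using lip_cos τ (Real.log n) 0)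
      (fun m n => by simpa using lip_cos τ (Real.log m) (Real.log n)) (by positivity) i3
    obtain ⟨-, m4⟩ := gen (M := M) hL hQ hy hh (f := fun _ => 1)
      (g := fun n => Real.sin (τ * Real.log n)) (fun _ => zero_le_one)
      (fun _ _ _ _ => le_rfl) (abs_nonneg τ) le_rfl
      (fun n => by simpa [abs_of_nonneg (hl0 n)] using lip_sin τ (Real.log n) 0)
      (fun m n => lip_sin τ _ _) (by positivity) i3
    have m5 := (single_le_sum (fun x _ => by positivity) hκ).trans (two_sum _ _ _ m3 m4)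
    have e2 := LSeries_eq hM κ (fun _ => 1) h
    simp only [Complex.ofReal_one, mul_one] at e2
    rw [← Ls_congr (fun n hn => pc_eq κ ((hM n).2 hn))] at e2
    have e3 := Ls_sub (y := y) (pc_le κ) s1 (summable_pw hh)
    have e4 : (fun n : ℕ => pw h n * (1 * (Real.cos (τ * Real.log n) - 1)) / n) = fun n : ℕ =>
      pw h n * (1 * Real.cos (τ * Real.log n)) / n - pw h n / n := funext fun n => by ring
    rw [e4, e3] at m5
    rw [e1, zero_div, Complex.ofReal_zero, mul_zero, add_zero, e2]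
    refine (pow_le_pow_iff_left₀ (norm_nonneg _) (by positivity) two_ne_zero).1
      (le_trans (le_of_eq ?_) (m5.trans ?_))
    · congr 2; simp; ring
    · rw [mul_div_assoc]
      nlinarith only [sq_nonneg (C * (|t| / U))]

end Pool.Agent.P.MP_746f10_nt.UC
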