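import Pool.Agent.P.MP_746f10_nt.UC.Defs
import Pool.Agent.P.MP_746f10_nt.Sig

/-! The second regime and the case distinction for the uniform Chen theorem. -/

set_option linter.unusedSectionVars false

namespace Pool.Agent.P.MP_746f10_nt.UC

open Finset

namespace MainP

lemma exists_shift' {ι : Type*} (a b : ι → ℕ) {Δ : ℕ} (hΔ : 0 < Δ)
    (h : ∀ p, p.Prime → p ∣ Δ → ∃ m, ∀ l, ¬ p ∣ a l * m + b l) :
    ∃ n0 < Δ, ∀ l, (a l * n0 + b l).Coprime Δ := by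
  choose! m hm using h
  obtain ⟨t, ht⟩ := Nat.chineseRemainderOfFinset m id Δ.primeFactors
    (fun p hp => (Nat.prime_of_mem_primeFactors hp).ne_zero) fun p hp q hq hne =>
      (Nat.coprime_primes (Nat.prime_of_mem_primeFactors hp) (Nat.prime_of_mem_primeFactors hq)).2 hne
  refine ⟨t % Δ, Nat.mod_lt _ hΔ, fun l => Nat.coprime_of_dvd fun p hp h1 h2 => hm p hp h2 l ?_⟩
  have h3 : t % Δ ≡ m p [MOD p] := ((Nat.mod_modEq t Δ).of_dvd h2).trans
    (ht p (Nat.mem_primeFactors.2 ⟨hp, h2, hΔ.ne'⟩))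
  exact (Nat.modEq_zero_iff_dvd.1 (((h3.mul_left (a l)).add_right (b l)).symm.trans
    (Nat.modEq_zero_iff_dvd.2 h1)))

variable {ι : Type*} [Fintype ι] [DecidableEq ι] {a b : ι → ℕ} {K v : ℕ}

lemma nrm_mono (hN : Nrm a b K v) {K' v' : ℕ} (hK : K' ≤ K) (hv : v ≤ v') : Nrm a b K' v' :=
  ⟨hN.lt, fun l => (hN.le l).trans hv, hN.cop, hN.rad,
    fun p l hp h => hN.small p l hp (h.trans hK), hN.sep⟩

lemma rough_mono {v w n : ℕ} (h : v ≤ w) (hr : rough w n) : rough v n :=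
  fun p hp hd => h.trans_lt (hr p hp hd)

lemma sig_mono (χ : RC) {Z1 Z2 Y1 Y2 : ℕ} (h1 : Y1 ≤ Z1) (h2 : Z2 ≤ Y2) :
    χ.sig Z1 Z2 ≤ χ.sig Y1 Y2 := by
  refine sum_le_sum_of_subset_of_nonneg (fun p hp => ?_) fun _ _ _ => by positivity
  rw [RC.mem_Pp] at hp ⊢
  exact ⟨⟨h1.trans_lt hp.1.1, hp.1.2.1.trans h2, hp.1.2.2⟩, hp.2⟩

lemma len_le {v m R : ℕ} (hv : 2 ≤ v) (hr : rough v m) (hm : m ≤ v ^ R) :
    m.primeFactorsList.length ≤ R := by
  rcases Nat.eq_zero_or_pos m with rfl | h0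
  · simp
  have h1 := List.pow_card_le_prod m.primeFactorsList v fun p hp =>
    (hr p (Nat.prime_of_mem_primeFactorsList hp) (Nat.dvd_of_mem_primeFactorsList hp)).le
  rw [Nat.prod_primeFactorsList h0.ne'] at h1
  exact (Nat.pow_le_pow_iff_right (by omega)).1 (h1.trans hm)

lemma nrm_shift (hN : Nrm a b K v) (hK : Fintype.card ι ≤ K) {r : ℕ} (hr : 0 < r) :
    ∃ n0 < r, (∀ l, (a l * n0 + b l).Coprime r) ∧
      Nrm (fun l => a l * r) (fun l => a l * n0 + b l) K (v * r) := by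
  obtain ⟨n0, h1, h2⟩ := exists_shift' a b hr fun p hp _ => by
    by_cases h : ∃ l', p ∣ a l'
    · obtain ⟨l', h⟩ := h
      exact ⟨0, fun l => hN.not_dvd hp h 0⟩
    · push Not at h
      rcases isEmpty_or_nonempty ι with h0 | h0
      · exact ⟨0, fun l => isEmptyElim l⟩
      have hp' : p ∈ GP a p := mem_GP.2 ⟨le_rfl, hp, h⟩
      have h3 := (hN.good hp').sum_ev univ
      have h4 := hN.lt_of_mem hp'
      by_contra h5
      push Not at h5
      rw [sum_congr rfl fun m _ => ev_eq_one.2 ((h5 m).imp fun l hl => ⟨mem_univ l, hl⟩), sum_const,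
        card_range, nsmul_eq_mul, mul_one, card_univ, Nat.cast_inj] at h3
      omega
  refine ⟨n0, h1, h2, fun l => ?_, fun l => Nat.mul_le_mul_right _ (hN.le l), fun l => ?_,
    fun p l l' hp h => ?_, fun p l hp h => (hN.small p l hp h).mul_right _, fun p n l l' hp h3 h4 => ?_⟩
  · nlinarith [hN.lt l]
  · exact Nat.Coprime.mul_left (by simpa using hN.cop l) (h2 l).symm
  · exact (hp.dvd_mul.1 h).elim (fun h => (hN.rad p l l' hp h).mul_right _) fun h => h.mul_left _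
  · exact hN.sep p (r * n + n0) l l' hp (by convert h3 using 1; ring) (by convert h4 using 1; ring)

lemma exists_Nrm' (K : ℕ) (h1 : ∀ i, 1 ≤ b i ∧ b i < a i)
    (h2 : ∀ p : ℕ, p.Prime → ∃ m : ℤ, ∀ i, ¬ ((p : ℤ) ∣ (a i : ℤ) * m + (b i : ℤ)))
    (h3 : ∀ i j, i ≠ j → (a i, b i) ≠ (a j, b j)) :
    ∃ Δ n0 : ℕ, n0 < Δ ∧ Δ ≤ K.factorial * (∏ i, a i) ^ (2 * Fintype.card ι ^ 2 + 1) ∧
      Nrm (fun l => a l * Δ) (fun l => a l * n0 + b l) K ((∏ i, a i) * Δ) := by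
  have ha : ∀ i, 0 < a i := fun i => by have := h1 i; omega
  have hA : ∀ i, a i ≤ ∏ i, a i := fun i =>
    Nat.le_of_dvd (prod_pos fun i _ => ha i) (dvd_prod_of_mem a (mem_univ i))
  have hcop : ∀ i, (a i).Coprime (b i) := fun i => Nat.coprime_of_dvd fun p hp d1 d2 => by
    obtain ⟨m, hm⟩ := h2 p hp
    exact hm i (dvd_add ((Int.natCast_dvd_natCast.2 d1).mul_right m) (Int.natCast_dvd_natCast.2 d2))
  set d : ι × ι → ℕ := fun x => ((a x.2 : ℤ) * b x.1 - a x.1 * b x.2).natAbs with hd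
  have hd0 : ∀ x ∈ (univ : Finset ι).offDiag, 0 < d x := fun x hx => by
    refine Int.natAbs_pos.2 fun h => h3 _ _ (mem_offDiag.1 hx).2.2 ?_
    have e : a x.2 * b x.1 = a x.1 * b x.2 := by exact_mod_cast sub_eq_zero.1 h
    have e1 : a x.1 = a x.2 := Nat.dvd_antisymm
      ((hcop x.1).dvd_of_dvd_mul_right (e ▸ dvd_mul_right _ _))
      ((hcop x.2).dvd_of_dvd_mul_right (e ▸ dvd_mul_right _ _))
    rw [e1] at e
    rw [e1, Nat.eq_of_mul_eq_mul_left (ha _) e]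
  set Δ := K.factorial * ((∏ i, a i) * ∏ x ∈ (univ : Finset ι).offDiag, d x) with hΔ
  have hΔ0 : 0 < Δ := Nat.mul_pos (Nat.factorial_pos K)
    (Nat.mul_pos (prod_pos fun i _ => ha i) (prod_pos hd0))
  have haΔ : ∀ l, a l ∣ Δ := fun l => ((dvd_prod_of_mem a (mem_univ l)).mul_right _).mul_left _
  obtain ⟨n0, hn0, hco⟩ := exists_shift' a b hΔ0 fun p hp _ => by
    obtain ⟨m, hm⟩ := h2 p hp
    have hp0 : (p : ℤ) ≠ 0 := by exact_mod_cast hp.ne_zero
    refine ⟨(m % p).toNat, fun l h => hm l ?_⟩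
    have h4 := Int.natCast_dvd_natCast.2 h
    push_cast at h4
    rw [Int.toNat_of_nonneg (Int.emod_nonneg m hp0)] at h4
    have e : (a l : ℤ) * m + b l = a l * (m % p) + b l + p * (a l * (m / p)) := by
      linear_combination (-(a l : ℤ)) * Int.emod_add_mul_ediv m p
    rw [e]; exact dvd_add h4 (dvd_mul_right _ _)
  refine ⟨Δ, n0, hn0, Nat.mul_le_mul_left _ ?_, fun l => ?_, fun l => Nat.mul_le_mul_right _ (hA l),
    fun l => ?_, fun p l l' hp h => ?_, fun p l hp h => ?_, fun p n l l' hp h4 h5 => ?_⟩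
  · rw [pow_succ', pow_mul]
    refine Nat.mul_le_mul_left _ ((prod_le_pow_card _ _ ((∏ i, a i) ^ 2) fun x _ => ?_).trans
      (Nat.pow_le_pow_right (pow_pos (prod_pos fun i _ => ha i) 2) ?_))
    · have e1 : a x.2 * b x.1 ≤ (∏ i, a i) ^ 2 := by
        rw [sq]; exact Nat.mul_le_mul (hA _) ((h1 _).2.le.trans (hA _))
      have e2 : a x.1 * b x.2 ≤ (∏ i, a i) ^ 2 := by
        rw [sq]; exact Nat.mul_le_mul (hA _) ((h1 _).2.le.trans (hA _))
      simp only [hd, ← Nat.cast_mul]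
      omega
    · rw [offDiag_card, card_univ, sq]; omega
  · nlinarith [(h1 l).2]
  · exact Nat.Coprime.mul_left ((hco l).symm.coprime_dvd_left (haΔ l)) (hco l).symm
  · exact ((hp.dvd_mul.1 h).elim (fun h => h.trans (haΔ l)) id).mul_left _
  · exact ((hp.dvd_factorial.2 h).mul_right _).mul_left _
  · by_contra hne
    have h6 : p ∣ d (l, l') := by
      refine Int.natCast_dvd.1 ?_
      have b1 := (Int.natCast_dvd_natCast.2 h4).mul_left (a l' : ℤ)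
      have b2 := (Int.natCast_dvd_natCast.2 h5).mul_left (a l : ℤ)
      have e : (a l' : ℤ) * b l - a l * b l' = a l' * (a l * Δ * n + (a l * n0 + b l) : ℕ) -
          a l * (a l' * Δ * n + (a l' * n0 + b l') : ℕ) := by push_cast; ring
      rw [e]; exact dvd_sub b1 b2
    have h7 : p ∣ Δ := ((h6.trans (dvd_prod_of_mem d
      (mem_offDiag.2 ⟨mem_univ _, mem_univ _, hne⟩))).mul_left _).mul_left _
    exact hp.one_lt.ne' (Nat.eq_one_of_dvd_coprimes (hco l)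
      ((Nat.dvd_add_right ((h7.mul_left _).mul_right n)).1 h4) h7)

end MainP

open MainP

theorem regII (h1 : S_Nu) (h2 : S_Det) : S_RegII := by
  classical
  intro k e0
  obtain ⟨K, B1, hNu⟩ := h1 k
  obtain ⟨B2, hDet⟩ := h2
  obtain ⟨η, z0, hη, hD⟩ := hDet (B1 + B2) (by omega)
  obtain ⟨η1, v0, hη1, hN1⟩ := hNu (B1 + B2) (e0 + 10) η (by omega) (by omega) hη
  refine ⟨K, (e0 + 10) * (B1 + B2 + 1), v0 + z0 + 2, min η1 η, lt_min hη1 hη, ?_⟩
  intro ι _ _ a b v i j χ hk hv hN hij hr hχ hs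
  obtain ⟨z, hz⟩ : ∃ z, z = v ^ (e0 + 10) := ⟨_, rfl⟩
  obtain ⟨x, hx⟩ : ∃ x, x = z ^ (B1 + B2) := ⟨_, rfl⟩
  have hvz : v ≤ z := hz ▸ Nat.le_self_pow (by omega) v
  have hz0 : v ^ e0 ≤ z := hz ▸ Nat.pow_le_pow_right (by omega) (by omega)
  have hE : v ^ ((e0 + 10) * (B1 + B2 + 1)) = z ^ (B1 + B2 + 1) := by rw [pow_mul, ← hz]
  have hx1 : 1 ≤ x := hx ▸ Nat.one_le_pow _ _ (by omega)
  have hzx : z ^ (B1 + B2 + 1) = z * x := by rw [hx]; ring
  rw [hE] at hs ⊢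
  obtain ⟨M0, hM0, hEq, hBad⟩ := hN1 a b v z x i j χ hk (by omega) hN hij hz hx (hr i) hχ
    ((sig_mono χ hz0 le_rfl).trans (hs.trans (min_le_left _ _)))
  have haj := hN.pos j
  have hX : a j * x ≤ z ^ (B1 + B2 + 1) := by
    rw [hzx]; exact Nat.mul_le_mul_right _ ((hN.le j).trans hvz)
  obtain ⟨n, hn, hν, hp, hl⟩ := hD z (a j * x) (Ico x (2 * x))
    (fun n => χ.gam (a i * n + b i) * rg a b z n) (fun n => a j * n + b j) M0 (χ.χ (b j)) χ
    (fun n => ¬ (a i * n + b i).Prime) (by omega) (hx ▸ Nat.le_mul_of_pos_left _ haj) hX hM0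
    ((χ.val _).resolve_left (χ.ne _ ((hN.cop j).symm.coprime_dvd_right (hr j))))
    (fun n _ => mul_nonneg (χ.gam_nonneg _) (rg_nonneg _ _ _ _))
    (fun n hn hν => by
      have h3 := mem_Ico.1 hn
      have h4 := hN.lt j
      refine ⟨by nlinarith [h3.1], by nlinarith [h3.2],
        hN.rough_of_rg (right_ne_zero_of_mul hν) j, χ.of_modEq ?_⟩
      simpa using (Nat.modEq_zero_iff_dvd.2 ((hr j).mul_right n)).add_right (b j))
    hEq ((sig_mono χ hz0 hX).trans (hs.trans (min_le_right _ _))) (by convert hBad)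
  have h3 := mem_Ico.1 hn
  refine ⟨n, ?_, by omega, not_not.1 hp, hl,
    fun l => rough_mono hvz (hN.rough_of_rg (right_ne_zero_of_mul hν) l)⟩
  rw [hzx]
  exact h3.2.le.trans (Nat.mul_le_mul_right _ (by omega))

theorem thmN (h1 : S_RegI) (h2 : S_RegII) (k : ℕ) : ∃ K E v0 : ℕ,
    ∀ {ι : Type} [Fintype ι] [DecidableEq ι] (a b : ι → ℕ) (v : ℕ) (i j : ι),
    Fintype.card ι = k → v0 ≤ v → Nrm a b K v → i ≠ j → ∃ n ≤ v ^ E, Good a b i j v n := by
  classical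
  obtain ⟨c, C, hc, hC, hL⟩ := ls2
  obtain ⟨η2, hη2, huniq⟩ := hL.uniq hc hC
  obtain ⟨cw, vs, hcw, hsig⟩ := sig_le
  obtain ⟨K1, e0, η1, hη1, hI⟩ := h1 k c C hc hC hL
  obtain ⟨e, he⟩ : ∃ e, e = e0 + cw := ⟨_, rfl⟩
  obtain ⟨E2, v2, hA2⟩ := hI e η2 (by omega) hη2
  obtain ⟨KB, EB, vB, ηB, hηB, hB⟩ := h2 k cw
  have hCM := one_le_CM
  have hec : 1 ≤ e * 2 * c := Nat.mul_pos (by omega) hc
  have hec' : (0 : ℝ) < CM * (e * 2 * c : ℕ) := by
    have : (0 : ℝ) < (e * 2 * c : ℕ) := by exact_mod_cast hec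
    positivity
  obtain ⟨η', hη'⟩ : ∃ η' : ℝ, η' = min (min η1 ηB / (18 * (EB + E2 + 1 : ℕ)))
    (η2 / (CM * (e * 2 * c : ℕ))) := ⟨_, rfl⟩
  have hm0 : 0 < min η1 ηB := lt_min hη1 hηB
  obtain ⟨E1, v1, hA1⟩ := hI e η' (by omega)
    (hη' ▸ lt_min (by positivity) (div_pos hη2 hec'))
  refine ⟨K1 + KB + k, E1 + e * 2 * c * (EB + E2 + 2), v1 + vB + v2 + vs + 2, ?_⟩
  intro ι _ _ a b v i j hk hv hN hij
  by_cases h1 : ∀ χ : RC, χ.r ≤ v ^ e → η' ≤ χ.ell (((v ^ e) ^ 2) ^ c)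
  · obtain ⟨n, hn, hp⟩ := hA1 a b v i j (fun _ => 0) hk (by omega) (nrm_mono hN (by omega) le_rfl)
      hij (fun χ h => Or.inl (h1 χ h)) (Or.inl fun _ => rfl)
    exact ⟨n, hn.trans (Nat.pow_le_pow_right (by omega) (by omega)), hp⟩
  push Not at h1
  obtain ⟨χ, hr, hχ⟩ := h1
  obtain ⟨y, hy⟩ : ∃ y, y = ((v ^ e) ^ 2) ^ c := ⟨_, rfl⟩
  rw [← hy] at hχ
  have hv1 : v ≤ v ^ e := Nat.le_self_pow (by omega) v
  have hvy : v * χ.r ≤ y := by
    calc _ ≤ (v ^ e) ^ 2 := by rw [sq]; exact Nat.mul_le_mul hv1 hr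
      _ ≤ y := hy ▸ Nat.le_self_pow (by omega) _
  have hr0 := χ.r_pos
  have hvy' : v ≤ y := (Nat.le_mul_of_pos_right _ hr0).trans hvy
  have hry : χ.r ≤ y := (Nat.le_mul_of_pos_left _ (by omega)).trans hvy
  obtain ⟨n0, hn0, hco, hN'⟩ := nrm_shift hN (by omega) hr0
  have fin : ∀ E : ℕ, E ≤ EB + E2 → (∃ n ≤ y ^ E,
      Good (fun l => a l * χ.r) (fun l => a l * n0 + b l) i j y n) →
      ∃ n ≤ v ^ (E1 + e * 2 * c * (EB + E2 + 2)), Good a b i j v n := by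
    rintro E hE ⟨n, hn, p0, p1, p2, p3⟩
    have e1 : ∀ l, a l * (χ.r * n + n0) + b l = a l * χ.r * n + (a l * n0 + b l) := fun l => by ring
    refine ⟨χ.r * n + n0, ?_, by nlinarith, e1 i ▸ p1, e1 j ▸ p2,
      fun l => e1 l ▸ rough_mono hvy' (p3 l)⟩
    have a1 : n ≤ y ^ (EB + E2) := hn.trans (Nat.pow_le_pow_right (by omega) hE)
    have a2 : 1 ≤ y ^ (EB + E2) := Nat.one_le_pow _ _ (by omega)
    calc _ ≤ y * y ^ (EB + E2) + y * y ^ (EB + E2) :=
          add_le_add (Nat.mul_le_mul hry a1) (by nlinarith)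
      _ ≤ y * (y * y ^ (EB + E2)) := by rw [← two_mul]; gcongr; omega
      _ = v ^ (e * 2 * c * (EB + E2 + 2)) := by rw [pow_mul, pow_mul, pow_mul, ← hy]; ring
      _ ≤ _ := Nat.pow_le_pow_right (by omega) (by omega)
  have hs : ∀ Z E : ℕ, y ^ cw ≤ Z → E ≤ EB + E2 → χ.sig Z (y ^ E) ≤ min η1 ηB := by
    intro Z E hZ hE
    have a0 : 1 ≤ y ^ cw := Nat.one_le_pow _ _ (by omega)
    have a1 := hsig χ y Z (y ^ E) (y ^ (EB + E2 + 1)) (by omega) hry hZ
      (le_trans (by omega) (Nat.le_self_pow (by omega) y))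
      ((Nat.pow_le_pow_right (by omega) (by omega)).trans (Nat.le_mul_of_pos_left _ (by omega)))
    have a2 := VV_mul_log_le' y
    have a3 : χ.ell y ≤ min η1 ηB / (18 * (EB + E2 + 1 : ℕ)) := hχ.le.trans (hη' ▸ min_le_left _ _)
    have a4 : (0 : ℝ) < 18 * (EB + E2 + 1 : ℕ) := by positivity
    rw [le_div_iff₀ a4] at a3
    rw [Nat.cast_pow, Real.log_pow] at a1
    have a5 := χ.ell_pos y
    calc _ ≤ _ := a1
      _ = χ.ell y * (18 * (EB + E2 + 1 : ℕ)) * (VV y * Real.log y) := by ring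
      _ ≤ χ.ell y * (18 * (EB + E2 + 1 : ℕ)) * 1 := by gcongr
      _ ≤ _ := by linarith
  rcases (χ.val (a i * n0 + b i)).resolve_left (χ.ne _ (hco i)) with h2 | h2
  · exact fin EB (by omega) (hB (fun l => a l * χ.r) (fun l => a l * n0 + b l) y i j χ hk (by omega)
      (nrm_mono hN' (by omega) hvy) hij (fun l => dvd_mul_left _ _) h2
      ((hs _ _ le_rfl (by omega)).trans (min_le_right _ _)))
  · refine fin E2 (by omega) (hA2 (fun l => a l * χ.r) (fun l => a l * n0 + b l) y i j χ.χ hk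
      (by omega) (nrm_mono hN' (by omega) hvy) hij (fun ψ hψ => ?_)
      (Or.inr ⟨χ, rfl, dvd_mul_left _ _, h2, (hs _ _ ?_ (by omega)).trans (min_le_left _ _)⟩))
    · have hy1 : y ≤ y ^ e := Nat.le_self_pow (by omega) y
      refine or_iff_not_imp_left.2 fun h3 => huniq _ ψ χ
        (le_trans (by omega) (hy1.trans (Nat.le_self_pow two_ne_zero _)))
        (by rw [sq]; exact Nat.mul_le_mul hψ (hry.trans hy1)) (not_le.1 h3).le ?_
      rw [← pow_mul, ← pow_mul, ← mul_assoc]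
      refine (χ.ell_le (Nat.le_self_pow (by omega) y)).trans ?_
      rw [← div_mul_cancel₀ η2 hec'.ne']
      exact mul_le_mul (hχ.le.trans (hη' ▸ min_le_right _ _)) (Th_le_pow (by omega) hec)
        (zero_le_one.trans (one_le_Th _ _)) (by positivity)
    · rw [← pow_mul, ← pow_mul]
      exact Nat.pow_le_pow_right (by omega) (by nlinarith)

theorem main (h1 : S_RegI) (h2 : S_RegII) : S_Main := by
  intro k
  obtain ⟨K, E, v0, h⟩ := thmN h1 h2 k
  refine ⟨(2 * k ^ 2 + 2) * (E + 1), 2 * (K.factorial + v0 + 2) ^ (E + 1), E + 2, by positivity,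
    by positivity, ?_⟩
  intro ι _ _ a b hk h1 h2 h3 i j hij
  obtain ⟨Δ, n0, a1, a2, hN⟩ := exists_Nrm' K h1 h2 h3
  rw [hk] at a2
  have hA : 1 ≤ ∏ i, a i := prod_pos fun i _ => lt_of_le_of_lt (Nat.zero_le _) (h1 i).2
  generalize ∏ i, a i = A at *
  obtain ⟨v, hv⟩ : ∃ v, v = (K.factorial + v0 + 2) * A ^ (2 * k ^ 2 + 2) := ⟨_, rfl⟩
  have b1 : A * Δ ≤ v := by
    calc _ ≤ A * (K.factorial * A ^ (2 * k ^ 2 + 1)) := Nat.mul_le_mul_left _ a2
      _ = K.factorial * A ^ (2 * k ^ 2 + 2) := by ring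
      _ ≤ v := by rw [hv]; gcongr; omega
  have b2 : Δ ≤ v := (Nat.le_mul_of_pos_left _ hA).trans b1
  have b0 : v0 + 2 ≤ v := hv ▸ le_trans (by omega) (Nat.le_mul_of_pos_right _ (by positivity))
  have hN' := nrm_mono hN le_rfl b1
  obtain ⟨n, hn, p0, p1, p2, p3⟩ := h (fun l => a l * Δ) (fun l => a l * n0 + b l) v i j hk
    (by omega) hN' hij
  have e : ∀ l, a l * (Δ * n + n0) + b l = a l * Δ * n + (a l * n0 + b l) := fun l => by ring
  have b3 : 1 ≤ v ^ E := Nat.one_le_pow _ _ (by omega)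
  refine ⟨Δ * n + n0, by nlinarith, ?_, e i ▸ p1, e j ▸ p2, fun l => ?_⟩
  · calc _ ≤ v * v ^ E + v * v ^ E := add_le_add (Nat.mul_le_mul b2 hn) (by nlinarith)
      _ = 2 * v ^ (E + 1) := by ring
      _ = _ := by rw [hv, mul_pow, ← pow_mul, mul_assoc]
  · rw [e]
    refine len_le (v := v) (by omega) (p3 l) ?_
    have c1 : a l * Δ ≤ v := hN'.le l
    have c2 : a l * n0 + b l < a l * Δ := hN'.lt l
    calc _ ≤ v * v ^ E + v * v ^ E := add_le_add (Nat.mul_le_mul c1 hn) (by nlinarith)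
      _ ≤ v * (v * v ^ E) := by rw [← two_mul]; gcongr; omega
      _ = _ := by ring

end Pool.Agent.P.MP_746f10_nt.UC
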