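import Pool.Agent.P.MP_746f10_nt.UC.Defs

/-! The mean value of the second order weight over rough numbers. -/

namespace Pool.Agent.P.MP_746f10_nt.UC

open Finset
open scoped ArithmeticFunction.Moebius

namespace MeanP

lemma log_step_le {m : ℝ} (hm : 0 < m) : Real.log (m + 1) - Real.log m ≤ 1 / m := by
  rw [← Real.log_div (by positivity) hm.ne']
  refine (Real.log_le_sub_one_of_pos (by positivity)).trans (le_of_eq ?_)
  field_simp; ring

lemma le_log_step {m : ℝ} (hm : 0 < m) : 1 / (m + 1) ≤ Real.log (m + 1) - Real.log m := by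
  have h3 : Real.log m - Real.log (m + 1) ≤ -(1 / (m + 1)) := by
    rw [← Real.log_div (by positivity) (by positivity)]
    refine (Real.log_le_sub_one_of_pos (by positivity)).trans (le_of_eq ?_)
    field_simp; ring
  linarith

lemma upper_aux (L : ℝ) (m : ℕ) (hm : 1 ≤ m) (hL : Real.log m ≤ L) :
    ∑ n ∈ Icc 1 m, 2 * (L - Real.log n) / n + (L - Real.log m) ^ 2 ≤ L ^ 2 + 2 * L := by
  induction m, hm using Nat.le_induction with
  | base => simp [add_comm]
  | succ m hm ih =>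
    have hm' : (0 : ℝ) < m := by exact_mod_cast hm
    have h1 := le_log_step hm'
    have h0 : 0 < 1 / ((m : ℝ) + 1) := by positivity
    push_cast at hL
    have h2 := ih (by linarith)
    rw [sum_Icc_succ_top (by omega)]
    push_cast
    set a := Real.log m
    set b := Real.log ((m : ℝ) + 1)
    have h3 : 2 * (L - b) / (m + 1) ≤ 2 * (L - b) * (b - a) := by
      rw [div_eq_mul_one_div]
      exact mul_le_mul_of_nonneg_left h1 (by linarith)
    nlinarith [sq_nonneg (b - a)]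

lemma lower_aux (L : ℝ) (m : ℕ) (hm : 1 ≤ m) (hL : Real.log m ≤ L) :
    L ^ 2 ≤ ∑ n ∈ Icc 1 m, 2 * (L - Real.log n) / n - 2 * (L - Real.log m) / m +
      (L - Real.log m) ^ 2 := by
  induction m, hm using Nat.le_induction with
  | base => simp
  | succ m hm ih =>
    have hm' : (0 : ℝ) < m := by exact_mod_cast hm
    have h1 := log_step_le hm'
    have h0 := le_log_step hm'
    have h00 : 0 < 1 / ((m : ℝ) + 1) := by positivity
    push_cast at hL
    have h2 := ih (by linarith)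
    rw [sum_Icc_succ_top (by omega)]
    push_cast
    set a := Real.log m
    set b := Real.log ((m : ℝ) + 1)
    have h3 : 2 * (L - a) * (b - a) ≤ 2 * (L - a) / m := by
      rw [div_eq_mul_one_div]
      exact mul_le_mul_of_nonneg_left h1 (by linarith)
    nlinarith [sq_nonneg (b - a)]

/-- the discrete substitute of the square of the logarithm -/
noncomputable def Phi (t : ℝ) : ℝ := ∑ n ∈ Icc 1 ⌊t⌋₊, 2 * (Real.log t - Real.log n) / n

lemma Phi_bd {t : ℝ} (ht : 1 ≤ t) : |Real.log t ^ 2 - Phi t| ≤ 2 * Real.log t := by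
  have hm : 1 ≤ ⌊t⌋₊ := Nat.le_floor (by simpa using ht)
  have hm' : (0 : ℝ) < ⌊t⌋₊ := by exact_mod_cast hm
  have hL : Real.log ⌊t⌋₊ ≤ Real.log t := Real.log_le_log hm' (Nat.floor_le (by linarith))
  have h1 := upper_aux _ _ hm hL
  have h2 := lower_aux _ _ hm hL
  have h3 : Real.log t ≤ Real.log ((⌊t⌋₊ : ℝ) + 1) :=
    Real.log_le_log (by linarith) (Nat.lt_floor_add_one t).le
  have h4 := log_step_le hm'
  have h5 : 0 ≤ Real.log t := Real.log_nonneg ht
  unfold Phi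
  set a := Real.log (⌊t⌋₊ : ℝ)
  set L := Real.log t
  have h6 : (L - a) * (L - a) ≤ (L - a) * (1 / ⌊t⌋₊) :=
    mul_le_mul_of_nonneg_left (by linarith) (by linarith)
  have h7 : 0 ≤ (L - a) * (1 / ⌊t⌋₊) := mul_nonneg (by linarith) (by positivity)
  have h8 : 2 * (L - a) / ⌊t⌋₊ = 2 * ((L - a) * (1 / ⌊t⌋₊)) := by ring
  rw [abs_le]
  constructor <;> nlinarith [sq_nonneg (L - a)]

lemma sum_swap (N : ℕ) (F : ℕ → ℕ → ℝ) :
    ∑ d ∈ Icc 1 N, ∑ k ∈ Icc 1 (N / d), F d (d * k) =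
      ∑ n ∈ Icc 1 N, ∑ d ∈ n.divisors, F d n := by
  rw [sum_sigma', sum_sigma']
  refine sum_nbij' (fun x => ⟨x.1 * x.2, x.1⟩) (fun x => ⟨x.2, x.1 / x.2⟩) ?_ ?_ ?_ ?_ ?_
  · rintro ⟨d, k⟩ h
    simp only [mem_sigma, mem_Icc, Nat.mem_divisors] at h ⊢
    obtain ⟨⟨h1, -⟩, h3, h4⟩ := h
    have h5 := (Nat.le_div_iff_mul_le h1).1 h4
    have h6 : 1 ≤ d * k := Nat.mul_pos h1 h3
    exact ⟨⟨h6, by rwa [mul_comm]⟩, dvd_mul_right _ _, by omega⟩
  · rintro ⟨n, d⟩ h
    simp only [mem_sigma, mem_Icc, Nat.mem_divisors] at h ⊢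
    obtain ⟨⟨h1, h2⟩, h3, h4⟩ := h
    have h5 : d ≤ n := Nat.le_of_dvd h1 h3
    have h6 : 0 < d := Nat.pos_of_dvd_of_pos h3 h1
    exact ⟨⟨h6, h5.trans h2⟩, Nat.div_pos h5 h6, Nat.div_le_div_right h2⟩
  · rintro ⟨d, k⟩ h
    simp only [mem_sigma, mem_Icc] at h
    simp [Nat.mul_div_cancel_left k h.1.1]
  · rintro ⟨n, d⟩ h
    simp only [mem_sigma, mem_Icc, Nat.mem_divisors] at h
    simp [Nat.mul_div_cancel' h.2.1]
  · rintro ⟨d, k⟩ _
    rfl

open Classical in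
lemma sum_ri_mu (z : ℕ) {n : ℕ} (hn : n ≠ 0) :
    ∑ d ∈ n.divisors, ri z d * (μ d : ℝ) =
      if n ∈ Nat.factoredNumbers (PP 0 z) then 1 else 0 := by
  set T := n.primeFactors.filter (z < ·) with hT
  set m := ∏ p ∈ T, p with hm
  have hTp : ∀ p ∈ T, p.Prime := fun p hp => Nat.prime_of_mem_primeFactors (mem_filter.1 hp).1
  have hm0 : m ≠ 0 := prod_ne_zero_iff.2 fun p hp => (hTp p hp).ne_zero
  have hmn : m ∣ n :=
    (prod_dvd_prod_of_subset _ _ _ (filter_subset _ _)).trans (Nat.prod_primeFactors_dvd n)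
  have hmp : ∀ p, p.Prime → p ∣ m → p ∈ T := by
    intro p hp h
    obtain ⟨q, hq, hpq⟩ := (Prime.dvd_finsetProd_iff hp.prime _).1 h
    rwa [(Nat.prime_dvd_prime_iff_eq hp (hTp q hq)).1 hpq]
  have h1 : ∑ d ∈ n.divisors, ri z d * (μ d : ℝ) = ∑ d ∈ m.divisors, (μ d : ℝ) := by
    rw [← sum_subset (Nat.divisors_subset_of_dvd hn hmn)]
    · refine sum_congr rfl fun d hd => ?_
      have : rough z d := fun p hp hpd =>
        (mem_filter.1 (hmp p hp (hpd.trans (Nat.dvd_of_mem_divisors hd)))).2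
      rw [ri, if_pos this, one_mul]
    · intro d hd hdm
      by_cases hr : rough z d
      · by_cases hs : Squarefree d
        · exfalso
          apply hdm
          refine Nat.mem_divisors.2 ⟨?_, hm0⟩
          rw [← Nat.prod_primeFactors_of_squarefree hs]
          refine prod_dvd_prod_of_subset _ _ _ fun p hp => mem_filter.2 ⟨?_, ?_⟩
          · exact Nat.primeFactors_mono (Nat.dvd_of_mem_divisors hd) hn hp
          · exact hr p (Nat.prime_of_mem_primeFactors hp) (Nat.dvd_of_mem_primeFactors hp)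
        · rw [ArithmeticFunction.moebius_eq_zero_of_not_squarefree hs]; simp
      · rw [ri, if_neg hr, zero_mul]
  have h2 : ∑ d ∈ m.divisors, (μ d : ℝ) = if m = 1 then 1 else 0 := by
    have := congrArg (fun f : ArithmeticFunction ℝ => f m)
      (ArithmeticFunction.coe_moebius_mul_coe_zeta (R := ℝ))
    simp only [ArithmeticFunction.coe_mul_zeta_apply, ArithmeticFunction.intCoe_apply,
      ArithmeticFunction.one_apply] at this
    exact this
  rw [h1, h2]
  refine if_congr ⟨fun h => ?_, fun h => ?_⟩ rfl rfl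
  · refine Nat.mem_factoredNumbers_of_primeFactors_subset hn fun p hp => ?_
    have hpp := Nat.prime_of_mem_primeFactors hp
    refine mem_PP.2 ⟨hpp.pos, ?_, hpp⟩
    by_contra hlt
    have : p ∣ m := dvd_prod_of_mem _ (mem_filter.2 ⟨hp, by omega⟩)
    rw [h] at this
    exact hpp.one_lt.ne' (Nat.dvd_one.1 this)
  · have : T = ∅ := by
      refine filter_eq_empty_iff.2 fun p hp hz => ?_
      have := (mem_PP.1 (Nat.primeFactors_subset_of_mem_factoredNumbers h hp)).2.1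
      omega
    rw [hm, this, prod_empty]

lemma inv_VV (z : ℕ) : ∏ p ∈ PP 0 z, (1 - (p : ℝ)⁻¹)⁻¹ = (VV z)⁻¹ := by
  unfold VV; rw [← prod_inv_distrib]; simp

lemma sum_inv_dvd (z : ℕ) (A : Finset ℕ) (hA : ∀ n ∈ A, n ∈ Nat.factoredNumbers (PP 0 z))
    {q : ℕ} (hq : 0 < q) :
    ∑ n ∈ A.filter (q ∣ ·), (n : ℝ)⁻¹ ≤ (q : ℝ)⁻¹ * (VV z)⁻¹ := by
  set B := A.filter (q ∣ ·) with hB
  have hdvd : ∀ n ∈ B, q ∣ n := fun n hn => (mem_filter.1 hn).2
  have hinj : Set.InjOn (fun n => n / q) (B : Set ℕ) := by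
    intro a ha b hb h
    rw [← Nat.div_mul_cancel (hdvd a ha), ← Nat.div_mul_cancel (hdvd b hb)]
    exact congrArg (· * q) h
  have h1 := sum_inv_factored (U := PP 0 z) (fun p hp => PP_prime hp) (B.image fun n => n / q) (by
    intro m hm
    obtain ⟨n, hn, rfl⟩ := mem_image.1 hm
    exact Nat.mem_factoredNumbers_of_dvd (hA n (mem_filter.1 hn).1)
      (Nat.div_dvd_of_dvd (hdvd n hn)))
  rw [sum_image hinj, inv_VV] at h1
  have h2 : ∑ n ∈ B, (n : ℝ)⁻¹ = (q : ℝ)⁻¹ * ∑ n ∈ B, ((n / q : ℕ) : ℝ)⁻¹ := by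
    rw [mul_sum]
    refine sum_congr rfl fun n hn => ?_
    rw [← mul_inv, ← Nat.cast_mul, Nat.mul_div_cancel' (hdvd n hn)]
  rw [h2]
  exact mul_le_mul_of_nonneg_left h1 (by positivity)

lemma log_le_sum {z n K : ℕ} (hn : n ∈ Nat.factoredNumbers (PP 0 z)) (hK : n ≤ K) :
    Real.log n ≤ ∑ p ∈ PP 0 z, ∑ j ∈ Ico 1 K, if p ^ j ∣ n then Real.log p else 0 := by
  rw [Real.log_nat_eq_sum_factorization, Finsupp.sum, Nat.support_factorization]
  refine le_trans (sum_le_sum fun p hp => ?_)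
    (sum_le_sum_of_subset_of_nonneg (Nat.primeFactors_subset_of_mem_factoredNumbers hn)
      fun p _ _ => sum_nonneg fun j _ => by split_ifs <;> positivity)
  rw [← sum_filter, sum_const, nsmul_eq_mul,
    Nat.factorization_eq_card_pow_dvd n (Nat.prime_of_mem_primeFactors hp)]
  refine mul_le_mul_of_nonneg_right ?_ (by positivity)
  exact_mod_cast card_le_card (filter_subset_filter _ (Ico_subset_Ico le_rfl hK))

lemma sum_log_le {z : ℕ} (hz : 2 ≤ z) (A : Finset ℕ)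
    (hA : ∀ n ∈ A, n ∈ Nat.factoredNumbers (PP 0 z)) :
    ∑ n ∈ A, Real.log n / n ≤ 6 * Real.log z * (VV z)⁻¹ := by
  set K := A.sup id with hK
  have hW : 0 ≤ (VV z)⁻¹ := (inv_pos.2 (VV_pos z)).le
  have h1 : ∑ p ∈ PP 0 z, Real.log p / p ≤ 3 * Real.log z := by
    have := sum_log_div_le z (by omega)
    have e : PP 0 z = (range (z + 1)).filter Nat.Prime := by
      ext p; simp only [mem_PP, mem_filter, mem_range]
      exact ⟨fun h => ⟨by omega, h.2.2⟩, fun h => ⟨h.2.pos, by omega, h.2⟩⟩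
    have h4 : Real.log 4 = 2 * Real.log 2 := by
      rw [show (4 : ℝ) = 2 ^ 2 by norm_num, Real.log_pow]; norm_num
    have h5 : Real.log 2 ≤ Real.log z :=
      Real.log_le_log (by norm_num) (by exact_mod_cast hz)
    rw [e]
    linarith
  calc ∑ n ∈ A, Real.log n / n
      ≤ ∑ n ∈ A, ∑ p ∈ PP 0 z, ∑ j ∈ Ico 1 K,
          Real.log p * (if p ^ j ∣ n then (n : ℝ)⁻¹ else 0) := by
        refine sum_le_sum fun n hn => ?_
        have := mul_le_mul_of_nonneg_right (log_le_sum (hA n hn) (le_sup (f := id) hn))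
          (show (0 : ℝ) ≤ (n : ℝ)⁻¹ by positivity)
        rw [div_eq_mul_inv]
        refine this.trans (le_of_eq ?_)
        rw [sum_mul]
        refine sum_congr rfl fun p _ => ?_
        rw [sum_mul]
        refine sum_congr rfl fun j _ => ?_
        split_ifs <;> simp
    _ = ∑ p ∈ PP 0 z, Real.log p * ∑ j ∈ Ico 1 K,
          ∑ n ∈ A.filter (p ^ j ∣ ·), (n : ℝ)⁻¹ := by
        rw [sum_comm]
        refine sum_congr rfl fun p _ => ?_
        rw [sum_comm, mul_sum]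
        refine sum_congr rfl fun j _ => ?_
        rw [sum_filter, mul_sum]
    _ ≤ ∑ p ∈ PP 0 z, 2 * (VV z)⁻¹ * (Real.log p / p) := by
        refine sum_le_sum fun p hp => ?_
        have h2 := PP_two hp
        have hx : (p : ℝ)⁻¹ ≤ 1 / 2 := by
          rw [← one_div]; exact one_div_le_one_div_of_le (by norm_num) h2
        have hx0 : (0 : ℝ) ≤ (p : ℝ)⁻¹ := by positivity
        have h3 : ∑ j ∈ Ico 1 K, ((p : ℝ)⁻¹) ^ j ≤ 2 * (p : ℝ)⁻¹ := by
          refine (geom_sum_Ico_le_of_lt_one hx0 (by linarith)).trans ?_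
          rw [pow_one, div_le_iff₀ (by linarith)]
          nlinarith
        have h6 : ∑ j ∈ Ico 1 K, ∑ n ∈ A.filter (p ^ j ∣ ·), (n : ℝ)⁻¹ ≤
            2 * (p : ℝ)⁻¹ * (VV z)⁻¹ := by
          refine le_trans (sum_le_sum fun j _ =>
            sum_inv_dvd z A hA (pow_pos (PP_prime hp).pos j)) ?_
          rw [← sum_mul]
          refine mul_le_mul_of_nonneg_right (le_trans (le_of_eq ?_) h3) hW
          refine sum_congr rfl fun j _ => ?_
          rw [Nat.cast_pow, inv_pow]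
        refine (mul_le_mul_of_nonneg_left h6 (by positivity)).trans (le_of_eq ?_)
        ring
    _ ≤ 6 * Real.log z * (VV z)⁻¹ := by
        rw [← mul_sum]
        nlinarith

open Classical in
/-- the sum over smooth numbers -/
noncomputable def SS (z : ℕ) (Y : ℝ) : ℝ :=
  ∑ n ∈ (Icc 1 ⌊Y⌋₊).filter (· ∈ Nat.factoredNumbers (PP 0 z)), (Real.log Y - Real.log n) / n

lemma SS_le (z : ℕ) {Y : ℝ} (hY : 2 ≤ Y) : SS z Y ≤ Real.log Y * (VV z)⁻¹ := by
  classical
  have hL : 0 ≤ Real.log Y := Real.log_nonneg (by linarith)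
  have h1 := sum_inv_factored (U := PP 0 z) (fun p hp => PP_prime hp)
    ((Icc 1 ⌊Y⌋₊).filter (· ∈ Nat.factoredNumbers (PP 0 z))) (fun n hn => (mem_filter.1 hn).2)
  rw [inv_VV] at h1
  refine le_trans ?_ (mul_le_mul_of_nonneg_left h1 hL)
  rw [mul_sum]
  refine sum_le_sum fun n _ => ?_
  rw [div_eq_mul_inv]
  refine mul_le_mul_of_nonneg_right ?_ (by positivity)
  have : 0 ≤ Real.log n := by positivity
  linarith

lemma le_SS {z : ℕ} (hz : 2 ≤ z) {Y : ℝ} (hY : 2 ≤ Y) :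
    Real.log Y * (VV z)⁻¹ ≤ SS z Y + 6 * Real.log z * (VV z)⁻¹ := by
  classical
  have hL : 0 < Real.log Y := Real.log_pos (by linarith)
  have key : ∀ A : Finset ℕ, (∀ n ∈ A, n ∈ Nat.factoredNumbers (PP 0 z)) →
      ∑ n ∈ A, (n : ℝ)⁻¹ ≤ (SS z Y + 6 * Real.log z * (VV z)⁻¹) / Real.log Y := by
    intro A hA
    have h1 := sum_log_le hz A hA
    have h2 : ∑ n ∈ A, (Real.log Y - Real.log n) / n ≤ SS z Y := by
      rw [← sum_filter_add_sum_filter_not A (· ≤ ⌊Y⌋₊)]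
      have h3 : ∑ n ∈ A.filter (fun n => ¬ n ≤ ⌊Y⌋₊), (Real.log Y - Real.log n) / n ≤ 0 := by
        refine sum_nonpos fun n hn => div_nonpos_of_nonpos_of_nonneg ?_ (by positivity)
        have h4 : ⌊Y⌋₊ < n := not_le.1 (mem_filter.1 hn).2
        have h5 : Y < n := Nat.lt_of_floor_lt h4
        have := Real.log_le_log (by linarith) h5.le
        linarith
      have h6 : ∑ n ∈ A.filter (· ≤ ⌊Y⌋₊), (Real.log Y - Real.log n) / n ≤ SS z Y := by
        refine sum_le_sum_of_subset_of_nonneg (fun n hn => ?_) fun n hn _ => ?_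
        · obtain ⟨h7, h8⟩ := mem_filter.1 hn
          exact mem_filter.2 ⟨mem_Icc.2 ⟨Nat.pos_of_ne_zero (hA n h7).1, h8⟩, hA n h7⟩
        · obtain ⟨h7, h8⟩ := mem_Icc.1 (mem_filter.1 hn).1
          have h9 : (n : ℝ) ≤ Y := (Nat.le_floor_iff (by linarith)).1 h8
          have := Real.log_le_log (by exact_mod_cast h7) h9
          exact div_nonneg (by linarith) (by positivity)
      linarith
    rw [le_div_iff₀ hL, sum_mul]
    have e : ∑ n ∈ A, (n : ℝ)⁻¹ * Real.log Y =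
        ∑ n ∈ A, (Real.log Y - Real.log n) / n + ∑ n ∈ A, Real.log n / n := by
      rw [← sum_add_distrib]
      exact sum_congr rfl fun n _ => by ring
    linarith
  let f : ℕ →* ℝ := ⟨⟨fun n => (n : ℝ)⁻¹, by simp⟩, fun a b => by push_cast; rw [mul_inv]⟩
  have hf : ∀ {p : ℕ}, p.Prime → ‖f p‖ < 1 := by
    intro p hp
    have : (1 : ℝ) < p := by exact_mod_cast hp.one_lt
    change ‖(p : ℝ)⁻¹‖ < 1
    rw [Real.norm_eq_abs, abs_of_nonneg (by positivity)]
    exact inv_lt_one_of_one_lt₀ this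
  have h := (EulerProduct.summable_and_hasSum_factoredNumbers_prod_filter_prime_geometric hf
    (PP 0 z)).2
  rw [Finset.filter_true_of_mem fun p hp => PP_prime hp] at h
  have h2 : ∏ p ∈ PP 0 z, (1 - (p : ℝ)⁻¹)⁻¹ ≤
      (SS z Y + 6 * Real.log z * (VV z)⁻¹) / Real.log Y := by
    refine hasSum_le_of_sum_le h fun s => ?_
    have := key (s.map (Function.Embedding.subtype _)) (fun n hn => by
      obtain ⟨m, -, rfl⟩ := mem_map.1 hn
      exact m.2)
    rw [sum_map] at this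
    exact this
  rwa [inv_VV, le_div_iff₀ hL, mul_comm] at h2

lemma sum_Phi (z : ℕ) {Y : ℝ} (hY : 2 ≤ Y) :
    ∑ d ∈ Icc 1 ⌊Y⌋₊, ri z d * (μ d : ℝ) / d * Phi (Y / d) = 2 * SS z Y := by
  classical
  have h1 := sum_swap ⌊Y⌋₊ (fun d n => ri z d * (μ d : ℝ) * (2 * (Real.log Y - Real.log n) / n))
  have h2 : ∑ d ∈ Icc 1 ⌊Y⌋₊, ri z d * (μ d : ℝ) / d * Phi (Y / d) =
      ∑ d ∈ Icc 1 ⌊Y⌋₊, ∑ k ∈ Icc 1 (⌊Y⌋₊ / d),
        ri z d * (μ d : ℝ) * (2 * (Real.log Y - Real.log (d * k : ℕ)) / (d * k : ℕ)) := by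
    refine sum_congr rfl fun d hd => ?_
    have hd0 : (0 : ℝ) < d := by exact_mod_cast (mem_Icc.1 hd).1
    unfold Phi
    rw [Nat.floor_div_natCast, mul_sum]
    refine sum_congr rfl fun k hk => ?_
    have hk0 : (0 : ℝ) < k := by exact_mod_cast (mem_Icc.1 hk).1
    rw [Nat.cast_mul, Real.log_mul hd0.ne' hk0.ne', Real.log_div (by linarith) hd0.ne']
    field_simp
    ring
  rw [h2, h1, SS, sum_filter, mul_sum]
  refine sum_congr rfl fun n hn => ?_
  rw [← sum_mul, sum_ri_mu z (by have := (mem_Icc.1 hn).1; omega)]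
  split_ifs
  · ring
  · ring

lemma err_le (z : ℕ) {Y : ℝ} (hY : 2 ≤ Y) :
    |∑ d ∈ Icc 1 ⌊Y⌋₊, ri z d * (μ d : ℝ) / d * (Real.log (Y / d) ^ 2 - Phi (Y / d))| ≤
      2 * Real.log Y * Th z ⌊Y⌋₊ := by
  classical
  have hL : 0 ≤ Real.log Y := Real.log_nonneg (by linarith)
  have h1 := sum_inv_factored (U := PP z ⌊Y⌋₊) (fun p hp => PP_prime hp)
    ((Icc 1 ⌊Y⌋₊).filter (rough z)) (fun n hn => by
      obtain ⟨h2, h3⟩ := mem_filter.1 hn
      obtain ⟨h4, h5⟩ := mem_Icc.1 h2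
      refine Nat.mem_factoredNumbers_of_primeFactors_subset (by omega) fun p hp => ?_
      have hpp := Nat.prime_of_mem_primeFactors hp
      have hpd := Nat.dvd_of_mem_primeFactors hp
      exact mem_PP.2 ⟨h3 p hpp hpd, (Nat.le_of_dvd h4 hpd).trans h5, hpp⟩)
  have e : ∏ p ∈ PP z ⌊Y⌋₊, (1 - (p : ℝ)⁻¹)⁻¹ = Th z ⌊Y⌋₊ := by unfold Th; simp
  rw [e] at h1
  refine le_trans ?_ (mul_le_mul_of_nonneg_left h1 (by positivity))
  rw [sum_filter, mul_sum]
  refine (abs_sum_le_sum_abs _ _).trans (sum_le_sum fun d hd => ?_)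
  obtain ⟨h4, h5⟩ := mem_Icc.1 hd
  have hd1 : (1 : ℝ) ≤ d := by exact_mod_cast h4
  have hdY : (d : ℝ) ≤ Y := (Nat.le_floor_iff (by linarith)).1 h5
  have h6 := Phi_bd (t := Y / d) ((one_le_div (by linarith)).2 hdY)
  have h7 : Real.log (Y / d) ≤ Real.log Y :=
    Real.log_le_log (by positivity) (div_le_self (by linarith) hd1)
  have h8 : |(μ d : ℝ)| ≤ 1 := by exact_mod_cast ArithmeticFunction.abs_moebius_le_one
  unfold ri
  split_ifs
  · rw [one_mul, abs_mul, abs_div, abs_of_nonneg (show (0 : ℝ) ≤ d by positivity), mul_comm]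
    refine mul_le_mul (by linarith) ?_ (by positivity) (by positivity)
    rw [div_eq_mul_inv]
    exact mul_le_of_le_one_left (by positivity) h8
  · simp

end MeanP

open MeanP in
theorem mean : S_Mean := by
  refine ⟨12, by norm_num, fun z Y hz hY => ?_⟩
  have h1 := err_le z hY
  have h2 := sum_Phi z hY
  have h3 := SS_le z hY
  have h4 := le_SS hz hY
  have h5 : 0 ≤ Real.log Y * Th z ⌊Y⌋₊ :=
    mul_nonneg (Real.log_nonneg (by linarith)) (zero_le_one.trans (one_le_Th _ _))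
  have h6 : 0 ≤ Real.log z * (VV z)⁻¹ := mul_nonneg (by positivity) (inv_pos.2 (VV_pos z)).le
  have e : ∑ d ∈ Icc 1 ⌊Y⌋₊, ri z d * (μ d : ℝ) / d * Real.log (Y / d) ^ 2 =
      ∑ d ∈ Icc 1 ⌊Y⌋₊, ri z d * (μ d : ℝ) / d * (Real.log (Y / d) ^ 2 - Phi (Y / d)) +
        ∑ d ∈ Icc 1 ⌊Y⌋₊, ri z d * (μ d : ℝ) / d * Phi (Y / d) := by
    rw [← sum_add_distrib]
    exact sum_congr rfl fun d _ => by ring
  rw [e, h2, div_eq_mul_inv, div_eq_mul_inv (Real.log z), abs_le]
  rw [abs_le] at h1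
  constructor <;> linarith [h1.1, h1.2]

end Pool.Agent.P.MP_746f10_nt.UC
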