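import Pool.Agent.P.MP_746f10_nt.UC.NuA

/-! The measure given by the divisor sum along the prime form. -/

set_option linter.unusedSectionVars false

namespace Pool.Agent.P.MP_746f10_nt.UC

open Finset

namespace NuP

variable {ι : Type} [Fintype ι] [DecidableEq ι] {a b : ι → ℕ} {K v : ℕ}

/-- common hypotheses -/
structure Hy (a b : ι → ℕ) (K v : ℕ) (i : ι) (c : RC) (z x B s0 : ℕ) : Prop where
  hN : Nrm a b K v
  hK : 2 * (Fintype.card ι + 3) ≤ K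
  hr : c.r ∣ a i
  hχ : c.χ (b i) = 1
  v3 : 3 ≤ v
  hz : v ^ 10 ≤ z
  hx : x = z ^ B
  hB : 400 * (3 * s0 + 1) ≤ B
  hM : x / (v : ℝ) ^ 3 ≤ MM c a i z x

namespace Hy

variable {i j : ι} {c : RC} {z x B s0 : ℕ} (h : Hy a b K v i c z x B s0)
include h

lemma vv : 3 * v ≤ z ∧ v * v ≤ z ∧ v * v ^ 4 ≤ z := by
  have h1 := h.v3
  have h2 : v * v ^ 4 ≤ z := by
    rw [← pow_succ']; exact (Nat.pow_le_pow_right (by omega) (by norm_num)).trans h.hz
  have h3 : v * v ≤ z := le_trans (Nat.mul_le_mul_left _ (Nat.le_self_pow (by norm_num) v)) h2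
  exact ⟨le_trans (Nat.mul_le_mul_right _ h1) h3, h3, h2⟩

lemma vz : v ≤ z := by have := h.vv.1; omega

lemma z1 : 1 ≤ z := by have := h.vz; have := h.v3; omega

lemma x2 : 2 ≤ x := by
  have h1 := h.vz; have h2 := h.v3; have h3 := h.hB
  rw [h.hx]; exact le_trans (by omega) (Nat.le_self_pow (by omega) z)

lemma form_le (l : ι) : a l * (2 * x) + b l ≤ 3 * (a l * x) := by
  have h1 := h.hN.lt l
  have h2 := h.x2
  nlinarith

lemma form_le' (l : ι) : a l * (2 * x) + b l ≤ 3 * v * x := by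
  have h1 := h.form_le l
  have h2 := h.hN.le l
  nlinarith

lemma top_le : 3 * v * x ≤ z ^ (B + 1) := by
  rw [pow_succ', ← h.hx]; exact Nat.mul_le_mul_right _ h.vv.1

lemma MM_pos : 0 < MM c a i z x := by
  have h1 : (0 : ℝ) < x := by have := h.x2; exact_mod_cast (by omega : 0 < x)
  have h2 : (0 : ℝ) < v := by have := h.v3; exact_mod_cast (by omega : 0 < v)
  exact lt_of_lt_of_le (by positivity) h.hM

lemma not_dvd {p : ℕ} (hp : z < p) (l : ι) : ¬ p ∣ a l := fun h1 => by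
  have := Nat.le_of_dvd (h.hN.pos l) h1
  have := h.hN.le l
  have := h.vz
  omega

lemma eqd {C ε : ℝ} (hC : 1 ≤ C) (s : SieveW (GP a z) (z ^ s0) (Fintype.card ι + 3) ε)
    (hε : ε ≤ 1 / (4 * (B : ℝ) ^ 8)) (hv1 : 12 * C * (B : ℝ) ^ 8 ≤ v)
    (hv2 : 8 * ((B : ℝ) + 1) * (B : ℝ) ^ 8 ≤ v)
    (hH : ∀ (T : Finset ℕ) (X : ℝ), (∀ p ∈ T, p.Prime ∧ ¬ p ∣ a i) → Disjoint T (GP a z) → 1 ≤ X →
      ((a i * (2 * x) + b i : ℕ) : ℝ) ≤ X → (a i : ℝ) ≤ X ^ (1 / 400 : ℝ) →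
      ((a i * (∏ p ∈ T, p) * z ^ s0 : ℕ) : ℝ) ≤ X ^ (113 / 200 : ℝ) →
      HC a b (Ico x (2 * x))
        (fun n => c.gam (a i * n + b i) * (if (∏ p ∈ T, p) ∣ a j * n + b j then 1 else 0))
        (GP a z) {i}
        (x / (∏ p ∈ T, p : ℕ) * (2 * c.LL * ∏ p ∈ (a i).primeFactors, (1 - c.χ p / p)) *
          ∏ p ∈ T, (1 - c.χ p / p))
        (fun p => 1 - c.χ p / p) (C * X ^ (399 / 400 : ℝ) / (a i * ∏ p ∈ T, p : ℕ)) (z ^ s0)) :
    Eqd z (a j * x) B (Ico x (2 * x)) (fun n => c.gam (a i * n + b i) * rg a b z n)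
      (fun n => a j * n + b j) (MM c a i z x) := by
  intro T hT hTX
  have hTp : ∀ p ∈ T, z < p ∧ p.Prime := fun p hp => ⟨(mem_PP.1 (hT hp)).1, PP_prime (hT hp)⟩
  have hd0 : 0 < ∏ p ∈ T, p := prod_pos fun p hp => (hTp p hp).2.pos
  have hB := h.hB
  have hB' : 400 * (3 * (s0 : ℝ) + 1) ≤ B := by exact_mod_cast hB
  have hB1 : (1 : ℝ) ≤ B := by exact_mod_cast (by omega : 1 ≤ B)
  have hB8 : (1 : ℝ) ≤ (B : ℝ) ^ 8 := one_le_pow₀ hB1
  have hx1 : (1 : ℝ) ≤ x := by have := h.x2; exact_mod_cast (by omega : 1 ≤ x)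
  have ha1 : ∀ l, (1 : ℝ) ≤ a l := fun l => by exact_mod_cast h.hN.pos l
  have hav : ∀ l, (a l : ℝ) ≤ v := fun l => by exact_mod_cast h.hN.le l
  have hvz : (v : ℝ) ≤ z := by exact_mod_cast h.vz
  have hv1' : (1 : ℝ) ≤ v := (ha1 i).trans (hav i)
  have hz1 : (1 : ℝ) ≤ z := hv1'.trans hvz
  have hs0 : (0 : ℝ) ≤ s0 := Nat.cast_nonneg _
  obtain ⟨X, hX⟩ : ∃ X : ℝ, X = 3 * (a i * x) := ⟨_, rfl⟩
  have hxX : (x : ℝ) ≤ X := by rw [hX]; nlinarith [ha1 i]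
  have hroot : (z : ℝ) ^ (3 * s0 + 1) ≤ X ^ (1 / 400 : ℝ) := by
    refine (pow_le_rpow (B := B) (t := 1 / 400) h.z1 (by push_cast; linarith)).trans ?_
    rw [← h.hx]; gcongr
  have hdx : ((∏ p ∈ T, p : ℕ) : ℝ) ≤ v * (x : ℝ) ^ (14 / 25 : ℝ) := by
    refine hTX.trans ?_
    rw [Nat.cast_mul, Real.mul_rpow (by positivity) (by positivity)]
    gcongr
    exact (Real.rpow_le_self_of_one_le (ha1 j) (by norm_num)).trans (hav j)
  have h1 := hH T X (fun p hp => ⟨(hTp p hp).2, h.not_dvd (hTp p hp).1 i⟩)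
    (disjoint_left.2 fun p h1 h2 => by have := (hTp p h1).1; have := (mem_GP.1 h2).1; omega)
    (hx1.trans hxX) (by rw [hX]; exact_mod_cast h.form_le i)
    (((hav i).trans hvz).trans ((le_self_pow₀ hz1 (by omega)).trans hroot))
    (by
      have k1 : (z : ℝ) ^ (s0 + 1) ≤ (x : ℝ) ^ (1 / 200 : ℝ) := by
        rw [h.hx]; exact pow_le_rpow h.z1 (by push_cast; linarith)
      have k2 : (v : ℝ) * v ≤ z := by exact_mod_cast h.vv.2.1
      rw [Nat.cast_mul, Nat.cast_mul, Nat.cast_pow]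
      calc _ ≤ v * (v * (x : ℝ) ^ (14 / 25 : ℝ)) * z ^ s0 := by gcongr; exact h.hN.le i
        _ = v * v * z ^ s0 * (x : ℝ) ^ (14 / 25 : ℝ) := by ring
        _ ≤ z * z ^ s0 * (x : ℝ) ^ (14 / 25 : ℝ) := by gcongr
        _ ≤ (x : ℝ) ^ (1 / 200 : ℝ) * (x : ℝ) ^ (14 / 25 : ℝ) := by rw [← pow_succ']; gcongr
        _ = (x : ℝ) ^ (113 / 200 : ℝ) := by rw [← Real.rpow_add (by linarith)]; norm_num
        _ ≤ _ := by gcongr)
  have hF0 : 0 ≤ ∏ p ∈ T, (1 - c.χ p / p) := prod_nonneg fun p hp => (c.fac_pos (hTp p hp).2).le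
  have hX0 : 0 < X := by linarith
  have h2 := sieve_rg h.hN h.hK i c s h1 (by positivity)
    (mul_nonneg (mul_nonneg (by positivity) (A0_nonneg c _)) hF0)
    (fun n _ => mul_nonneg (c.gam_nonneg _) (by split_ifs <;> norm_num))
  have hcard : T.card ≤ B + 1 := by
    have k1 : z ^ T.card ≤ ∏ p ∈ T, p := pow_card_le_prod _ _ _ fun p hp => (hTp p hp).1.le
    have k2 : ((∏ p ∈ T, p : ℕ) : ℝ) ≤ (a j * x : ℕ) :=
      hTX.trans (Real.rpow_le_self_of_one_le (by push_cast; nlinarith [ha1 j]) (by norm_num))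
    have k3 : a j * x ≤ z ^ (B + 1) := by
      rw [pow_succ', ← h.hx]; exact Nat.mul_le_mul_right _ ((h.hN.le j).trans h.vz)
    have := h.vz; have := h.v3
    exact (Nat.pow_le_pow_iff_right (by omega)).1 (k1.trans ((by exact_mod_cast k2 : _ ≤ _).trans k3))
  have hF : |∏ p ∈ T, (1 - c.χ p / p) - 1| ≤ 1 / (4 * (B : ℝ) ^ 8) := by
    have k1 : ∑ p ∈ T, |1 - c.χ p / p - 1| ≤ 1 / (8 * (B : ℝ) ^ 8) := by
      calc _ ≤ ∑ p ∈ T, 1 / (z : ℝ) := by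
            refine sum_le_sum fun p hp => ?_
            rw [sub_sub_cancel_left, abs_neg, abs_div, Nat.abs_cast]
            have : (z : ℝ) ≤ p := by exact_mod_cast (hTp p hp).1.le
            gcongr
            exact c.abs_le p
        _ ≤ (B + 1) * (1 / (z : ℝ)) := by
            rw [sum_const, nsmul_eq_mul]; gcongr; exact_mod_cast hcard
        _ ≤ _ := by rw [mul_one_div, div_le_div_iff₀ (by linarith) (by positivity)]; linarith
    refine (abs_prod_sub_one_le k1 ?_).trans (le_of_eq (by field_simp; ring))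
    rw [div_le_one (by positivity)]; linarith
  have hd' : (0 : ℝ) < (∏ p ∈ T, p : ℕ) := by exact_mod_cast hd0
  have herr : ((z ^ s0 : ℕ) : ℝ) * (C * X ^ (399 / 400 : ℝ) / (a i * ∏ p ∈ T, p : ℕ) *
      ((z ^ s0 : ℕ) : ℝ) ^ 2) ≤ MM c a i z x / (∏ p ∈ T, p : ℕ) * (1 / (4 * (B : ℝ) ^ 8)) := by
    have k1 : X ^ (399 / 400 : ℝ) ≤ X / (z : ℝ) ^ (3 * s0 + 1) := by
      rw [show (399 / 400 : ℝ) = 1 - 1 / 400 by norm_num, Real.rpow_sub hX0, Real.rpow_one]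
      gcongr
    have k2 : (v : ℝ) * v ^ 4 ≤ z := by exact_mod_cast h.vv.2.2
    have k3 : 12 * C * (B : ℝ) ^ 8 * v ^ 3 ≤ z := by
      refine le_trans ?_ k2
      gcongr; norm_num
    have := ha1 i
    rw [Nat.cast_mul, Nat.cast_pow]
    generalize ((∏ p ∈ T, p : ℕ) : ℝ) = d at hd' ⊢
    calc _ ≤ (z : ℝ) ^ s0 * (C * (X / (z : ℝ) ^ (3 * s0 + 1)) / (a i * d) * ((z : ℝ) ^ s0) ^ 2) := by
          gcongr
      _ = x / d * (3 * C / z) := by rw [hX]; field_simp; ring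
      _ ≤ x / d * (3 * C / (12 * C * (B : ℝ) ^ 8 * v ^ 3)) := by gcongr
      _ = x / (v : ℝ) ^ 3 / d * (1 / (4 * (B : ℝ) ^ 8)) := by field_simp; ring
      _ ≤ _ := by gcongr; exact h.hM
  have e1 : x / (∏ p ∈ T, p : ℕ) * (2 * c.LL * ∏ p ∈ (a i).primeFactors, (1 - c.χ p / p)) *
      (∏ p ∈ T, (1 - c.χ p / p)) * Wd c a i z =
      MM c a i z x / (∏ p ∈ T, p : ℕ) * ∏ p ∈ T, (1 - c.χ p / p) := by unfold MM; ring
  have e2 : ∑ n ∈ Ico x (2 * x), c.gam (a i * n + b i) * rg a b z n *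
      (if (∏ p ∈ T, p) ∣ a j * n + b j then 1 else 0) = ∑ n ∈ Ico x (2 * x), c.gam (a i * n + b i) *
      (if (∏ p ∈ T, p) ∣ a j * n + b j then 1 else 0) * rg a b z n :=
    sum_congr rfl fun n _ => by ring
  rw [e1] at h2
  rw [e2]
  have hu : 0 ≤ MM c a i z x / (∏ p ∈ T, p : ℕ) := div_nonneg h.MM_pos.le hd'.le
  have e3 : MM c a i z x / (∏ p ∈ T, p : ℕ) / (B : ℝ) ^ 8 =
      4 * (MM c a i z x / (∏ p ∈ T, p : ℕ) * (1 / (4 * (B : ℝ) ^ 8))) := by field_simp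
  have hβ : 1 / (4 * (B : ℝ) ^ 8) ≤ 1 := by rw [div_le_one (by positivity)]; linarith
  have hβ0 : 0 ≤ 1 / (4 * (B : ℝ) ^ 8) := by positivity
  rw [e3]
  replace h2 := h2.trans (add_le_add le_rfl herr)
  generalize MM c a i z x / (∏ p ∈ T, p : ℕ) = u at *
  generalize 1 / (4 * (B : ℝ) ^ 8) = β at *
  generalize ∏ p ∈ T, (1 - c.χ p / p) = F at *
  obtain ⟨f1, f2⟩ := abs_le.1 hF
  obtain ⟨f3, f4⟩ := abs_le.1 h2
  have f5 : ε * (u * F) ≤ β * (u * 2) :=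
    mul_le_mul hε (mul_le_mul_of_nonneg_left (by linarith) hu) (mul_nonneg hu hF0) hβ0
  have f6 := mul_le_mul_of_nonneg_left f1 hu
  have f7 := mul_le_mul_of_nonneg_left f2 hu
  rw [abs_le]; constructor <;> nlinarith

lemma mu_le {C ε : ℝ} (hC : 1 ≤ C) (s : SieveW (GP a z) (z ^ s0) (Fintype.card ι + 3) ε)
    (hε : ε ≤ 1) (hv1 : 3 * C ≤ v) {p : ℕ} (hp : p ∈ c.Pp z (z ^ (B / 2 + 1)))
    (hH : ∀ (G : ℕ) (X : ℝ), 0 < p → p.Coprime (a i) → c.χ p = 1 →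
      (∀ q ∈ GP a z, q.Prime ∧ ¬ q ∣ a i ∧ p.Coprime q) → x ≤ 2 * x → a i * z ^ s0 ≤ G →
      (G : ℝ) ^ 128 ≤ X → ((a i * (2 * x) + b i : ℕ) : ℝ) / p ≤ X →
      HC a b (Ico x (2 * x))
        (fun n => if p ∣ a i * n + b i then c.gam ((a i * n + b i) / p) else 0) (GP a z) {i}
        (((2 * x : ℕ) - x) / p * (2 * c.LL * ∏ p ∈ (a i).primeFactors, (1 - c.χ p / p)))
        (fun p => 1 - c.χ p / p) (C * X / G ^ 4) (z ^ s0)) :
    ∑ n ∈ Ico x (2 * x), c.mu p (a i * n + b i) * rg a b z n ≤ 3 * MM c a i z x * (1 / p) := by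
  obtain ⟨⟨p1, p2, p3⟩, p4⟩ := RC.mem_Pp.1 hp
  have hp0 : (0 : ℝ) < p := by exact_mod_cast p3.pos
  have hB := h.hB
  have hv3 := h.v3
  have hz1 : (1 : ℝ) ≤ z := by exact_mod_cast h.z1
  have hv0 : (1 : ℝ) ≤ v := by exact_mod_cast (by omega : 1 ≤ v)
  have h1 := hH (z ^ (s0 + 1)) (3 * v * x / p) p3.pos
    ((Nat.Prime.coprime_iff_not_dvd p3).2 (h.not_dvd p1 i)) p4
    (fun q hq => ⟨(mem_GP.1 hq).2.1, (mem_GP.1 hq).2.2 i,
      (Nat.coprime_primes p3 (mem_GP.1 hq).2.1).2 (by have := (mem_GP.1 hq).1; omega)⟩)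
    (by omega) (by rw [pow_succ']; exact Nat.mul_le_mul_right _ ((h.hN.le i).trans h.vz))
    (by
      rw [le_div_iff₀ hp0]
      have : (z ^ (s0 + 1)) ^ 128 * p ≤ 3 * v * x := by
        calc _ ≤ (z ^ (s0 + 1)) ^ 128 * z ^ (B / 2 + 1) := Nat.mul_le_mul_left _ p2
          _ ≤ z ^ B := by
              rw [← pow_mul, ← pow_add]; exact Nat.pow_le_pow_right h.z1 (by omega)
          _ ≤ _ := by rw [← h.hx]; exact Nat.le_mul_of_pos_left _ (by omega)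
      exact_mod_cast this)
    (by gcongr; exact_mod_cast h.form_le' i)
  have e0 : ((2 * x : ℕ) : ℝ) - x = x := by push_cast; ring
  rw [e0] at h1
  have h2 := (abs_le.1 (sieve_rg h.hN h.hK i c s h1 (by positivity)
    (mul_nonneg (by positivity) (A0_nonneg c _)) (fun n _ => c.mu_nonneg p _))).2
  have e1 : x / p * (2 * c.LL * ∏ p ∈ (a i).primeFactors, (1 - c.χ p / p)) * Wd c a i z =
      MM c a i z x * (1 / p) := by unfold MM; ring
  have herr : ((z ^ s0 : ℕ) : ℝ) * (C * (3 * v * x / p) / ((z ^ (s0 + 1) : ℕ) : ℝ) ^ 4 *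
      ((z ^ s0 : ℕ) : ℝ) ^ 2) ≤ MM c a i z x * (1 / p) := by
    have k2 : (v : ℝ) * v ^ 4 ≤ z := by exact_mod_cast h.vv.2.2
    have k3 : 3 * C * (v : ℝ) ^ 4 ≤ z ^ s0 * z ^ 4 := by
      calc _ ≤ (v : ℝ) * v ^ 4 := by gcongr
        _ ≤ 1 * z ^ 4 := by rw [one_mul]; exact k2.trans (le_self_pow₀ hz1 (by norm_num))
        _ ≤ _ := by gcongr; exact one_le_pow₀ hz1
    push_cast
    calc _ = x / p * (3 * C * v / (z ^ s0 * z ^ 4)) := by field_simp; ring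
      _ ≤ x / p * (3 * C * v / (3 * C * (v : ℝ) ^ 4)) := by gcongr
      _ = x / (v : ℝ) ^ 3 * (1 / p) := by field_simp
      _ ≤ _ := by gcongr; exact h.hM
  rw [e1] at h2
  have hu : 0 ≤ MM c a i z x * (1 / p) := mul_nonneg h.MM_pos.le (by positivity)
  have h3 := mul_le_of_le_one_left hu hε
  unfold RC.mu
  linarith

open Classical in
lemma bad {η : ℝ} (hη : 0 < η) (hv : 12 * 2 ^ B / η ≤ v) (hs : c.sig z (z ^ (B + 1)) ≤ η / 12)
    (hmu : ∀ p ∈ c.Pp z (z ^ (B / 2 + 1)), ∑ n ∈ Ico x (2 * x), c.mu p (a i * n + b i) * rg a b z n ≤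
      3 * MM c a i z x * (1 / p)) :
    ∑ n ∈ (Ico x (2 * x)).filter (fun n => ¬ (a i * n + b i).Prime ∨ ¬ Squarefree (a j * n + b j)),
      c.gam (a i * n + b i) * rg a b z n ≤ η * MM c a i z x := by
  have hB := h.hB
  have hx2 := h.x2
  have hM := h.MM_pos
  have hv0 : (1 : ℝ) ≤ v := by have := h.v3; exact_mod_cast (by omega : 1 ≤ v)
  have hle : ∀ n ∈ Ico x (2 * x), a i * n + b i ≤ z ^ (B + 1) := fun n hn =>
    le_trans (by have := (mem_Ico.1 hn).2; gcongr) ((h.form_le' i).trans h.top_le)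
  have hsig : c.sig z (z ^ (B / 2 + 1)) ≤ η / 12 := by
    refine le_trans (sum_le_sum_of_subset_of_nonneg (fun p hp => ?_) fun _ _ _ => by positivity) hs
    obtain ⟨⟨p1, p2, p3⟩, p4⟩ := RC.mem_Pp.1 hp
    exact RC.mem_Pp.2 ⟨⟨p1, p2.trans (Nat.pow_le_pow_right h.z1 (by omega)), p3⟩, p4⟩
  have hsq : ∀ l, ∑ n ∈ Ico x (2 * x), sqi z (a l * n + b l) ≤ η / 4 * MM c a i z x / 2 ^ B := by
    intro l
    refine (sum_sqi_form h.z1 (h.hN.pos l) (by omega) (h.form_le' l)).trans ?_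
    have k2 : (v : ℝ) * v ^ 4 ≤ z := by exact_mod_cast h.vv.2.2
    push_cast
    calc _ ≤ 3 * v * x / (12 * 2 ^ B / η * (v : ℝ) ^ 4) := by
          gcongr; exact le_trans (by gcongr) k2
      _ = η / 4 * (x / (v : ℝ) ^ 3) / 2 ^ B := by field_simp; ring
      _ ≤ _ := by gcongr; exact h.hM
  calc _ ≤ ∑ n ∈ (Ico x (2 * x)).filter
          (fun n => ¬ (a i * n + b i).Prime ∨ ¬ Squarefree (a j * n + b j)),
          (2 ^ B * (sqi z (a i * n + b i) + sqi z (a j * n + b j)) +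
            2 * ∑ p ∈ c.Pp z (z ^ (B / 2 + 1)), c.mu p (a i * n + b i) * rg a b z n) := by
        refine sum_le_sum fun n hn => ?_
        obtain ⟨h1, h2⟩ := mem_filter.1 hn
        refine point h.hN c ?_ ?_ ((hle n h1).trans ?_) (hle n h1) h2
        · rw [← h.hχ]
          exact c.of_modEq (by
            simpa using (Nat.modEq_zero_iff_dvd.2 (h.hr.trans (dvd_mul_right _ n))).add_right (b i))
        · have := (mem_Ico.1 h1).1
          have := h.hN.pos i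
          nlinarith
        · rw [← pow_mul]; exact Nat.pow_le_pow_right h.z1 (by omega)
    _ ≤ ∑ n ∈ Ico x (2 * x), (2 ^ B * (sqi z (a i * n + b i) + sqi z (a j * n + b j)) +
            2 * ∑ p ∈ c.Pp z (z ^ (B / 2 + 1)), c.mu p (a i * n + b i) * rg a b z n) := by
        refine sum_le_sum_of_subset_of_nonneg (filter_subset _ _) fun n _ _ => ?_
        have := sqi_nonneg z (a i * n + b i)
        have := sqi_nonneg z (a j * n + b j)
        have : 0 ≤ ∑ p ∈ c.Pp z (z ^ (B / 2 + 1)), c.mu p (a i * n + b i) * rg a b z n :=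
          sum_nonneg fun p _ => mul_nonneg (c.mu_nonneg _ _) (rg_nonneg _ _ _ _)
        positivity
    _ ≤ 2 ^ B * (η / 4 * MM c a i z x / 2 ^ B + η / 4 * MM c a i z x / 2 ^ B) +
          2 * (3 * MM c a i z x * (η / 12)) := by
        rw [sum_add_distrib, ← mul_sum, ← mul_sum, sum_add_distrib, sum_comm]
        gcongr
        · exact hsq i
        · exact hsq j
        · refine (sum_le_sum hmu).trans ?_
          rw [← mul_sum]
          exact mul_le_mul_of_nonneg_left hsig (by positivity)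
    _ = _ := by field_simp; ring

end Hy

end NuP

open NuP in
theorem nu (h : S_Gam) : S_Nu := by
  intro k
  obtain ⟨C1, hC1, h1⟩ := HC_div h
  obtain ⟨C2, hC2, h2⟩ := HC_single
  obtain ⟨k0, hk0⟩ := exists_sieve ((k : ℝ) + 3) (by positivity)
  obtain ⟨B0, hB0⟩ := exists_level k0
  refine ⟨2 * (k + 3), B0, fun B e η hB he hη => ?_⟩
  obtain ⟨m, hm1, hm2⟩ := hB0 B hB
  obtain ⟨v1, hv1⟩ := NuP.exists_log_pow_le (648 * (CM * e) ^ (2 * k + 1)) (2 * k + 1)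
  refine ⟨η / 12, v1 + 3 + ⌈12 * C1 * (B : ℝ) ^ 8 + 8 * ((B : ℝ) + 1) * (B : ℝ) ^ 8 + 3 * C2 +
    12 * 2 ^ B / η⌉₊, by positivity, ?_⟩
  intro ι _ _ a b v z x i j c hk hv hN hij hz hx hr hχ hs
  subst hk
  have hv2 : 12 * C1 * (B : ℝ) ^ 8 + 8 * ((B : ℝ) + 1) * (B : ℝ) ^ 8 + 3 * C2 + 12 * 2 ^ B / η ≤ v :=
    Nat.ceil_le.1 (by omega)
  have t1 : 0 ≤ 12 * C1 * (B : ℝ) ^ 8 := by positivity
  have t2 : 0 ≤ 8 * ((B : ℝ) + 1) * (B : ℝ) ^ 8 := by positivity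
  have t3 : 0 ≤ 12 * 2 ^ B / η := by positivity
  have hz10 : v ^ 10 ≤ z := by rw [hz]; exact Nat.pow_le_pow_right (by omega) he
  have hvz : v ≤ z := (Nat.le_self_pow (by norm_num) v).trans hz10
  have hz2 : 2 ≤ z := by omega
  have hv0 : (0 : ℝ) < v := by exact_mod_cast (by omega : 0 < v)
  have H : Hy a b (2 * (Fintype.card ι + 3)) v i c z x B (4 * (k0 + m) + 6) := by
    refine ⟨hN, le_rfl, hr, hχ, by omega, hz10, hx, hm2, le_trans ?_ (MM_ge hN le_rfl i c x hz2 hvz hr)⟩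
    have k1 := hv1 v (by omega)
    have k2 : 0 < CM * Real.log z := lt_of_lt_of_le (inv_pos.2 (VV_pos z)) (inv_VV_le z hz2)
    gcongr
    rw [hz, Nat.cast_pow, Real.log_pow, ← mul_assoc, mul_pow]
    calc _ = (v : ℝ) ^ 2 * (648 * (CM * e) ^ (2 * Fintype.card ι + 1) *
          Real.log v ^ (2 * Fintype.card ι + 1)) := by ring
      _ ≤ (v : ℝ) ^ 2 * v := by gcongr
      _ = _ := by ring
  obtain ⟨s⟩ := hk0 m z (GP a z) hz2 fun p hp => ⟨(mem_GP.1 hp).2.1, (mem_GP.1 hp).1⟩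
  have hB1 : (0 : ℝ) < B := by exact_mod_cast (by omega : 0 < B)
  refine ⟨MM c a i z x, H.MM_pos, H.eqd hC1 s ?_ (by linarith) (by linarith)
    fun T X g1 g2 g3 g4 g5 g6 => h1 a b _ v i j c _ T x _ X hN hij hr hχ
      (fun p hp => ⟨(mem_GP.1 hp).2.1, (mem_GP.1 hp).2.2 i⟩) g1 g2 g3 g4 g5 g6,
    H.bad hη (by linarith) hs fun p hp => H.mu_le hC2 s ?_ (by linarith) hp
      fun G X g1 g2 g3 g4 g5 g6 g7 g8 => h2 a b i c _ p x _ G _ X (hN.pos i) (hN.cop i) hr hχ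
        g1 g2 g3 g4 g5 g6 g7 g8⟩
  · gcongr; exact_mod_cast hm1
  · rw [div_le_one (by positivity)]; exact one_le_pow₀ (by norm_num)

end Pool.Agent.P.MP_746f10_nt.UC
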