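import Pool.Agent.P.MP_746f10_nt.UC.Defs
import Pool.Agent.P.MP_a14ce1_nt.Ch.Mertens

/-! A double sum over primes. -/

namespace Pool.Agent.P.MP_746f10_nt.UC

open Finset
open scoped ArithmeticFunction.vonMangoldt

namespace Num2P

open Pool.Agent.P.MP_a14ce1_nt.Ch.Mertens (mertens_vm)

lemma abel (g H : ℕ → ℝ) {N : ℕ} (hN : 1 ≤ N) (h : ∀ n, 1 ≤ n → n < N →
    (Real.log (n + 1 : ℕ) - Real.log n) * g (n + 1) + 6 * |g (n + 1) - g n| ≤ H (n + 1) - H n) :
    ∑ n ∈ Ioc 0 N, Λ n / n * g n ≤ H N - H 1 + 6 * |g N| := by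
  have key : ∑ n ∈ Ioc 0 N, Λ n / n * g n ≤
      H N - H 1 + (∑ n ∈ Ioc 0 N, Λ n / n - Real.log N) * g N := by
    induction N, hN using Nat.le_induction with
    | base => simp
    | succ N hN ih =>
      have ih := ih fun n h1 h2 => h n h1 (by omega)
      have h1 := h N hN (by omega)
      have h2 : |(∑ n ∈ Ioc 0 N, Λ n / n - Real.log N) * (g (N + 1) - g N)| ≤
          6 * |g (N + 1) - g N| := by
        rw [abs_mul]
        exact mul_le_mul_of_nonneg_right (mertens_vm hN) (abs_nonneg _)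
      rw [sum_Ioc_succ_top (Nat.zero_le N), sum_Ioc_succ_top (Nat.zero_le N)]
      linarith [(abs_le.1 h2).1]
  have h2 : |(∑ n ∈ Ioc 0 N, Λ n / n - Real.log N) * g N| ≤ 6 * |g N| := by
    rw [abs_mul]
    exact mul_le_mul_of_nonneg_right (mertens_vm hN) (abs_nonneg _)
  linarith [(abs_le.1 h2).2]

lemma log_step {n N : ℕ} (h1 : 1 ≤ n) (h2 : n < N) : Real.log n ≤ Real.log (n + 1 : ℕ) ∧
    Real.log (n + 1 : ℕ) ≤ Real.log n + 1 ∧ Real.log (n + 1 : ℕ) ≤ Real.log N := by
  have hn : (1 : ℝ) ≤ n := by exact_mod_cast h1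
  refine ⟨Real.log_le_log (by linarith) (by push_cast; linarith), ?_,
    Real.log_le_log (by positivity) (by exact_mod_cast h2)⟩
  have h3 := Real.log_le_log (x := (n + 1 : ℕ)) (y := n * 2) (by positivity) (by push_cast; linarith)
  rw [Real.log_mul (by linarith) (by norm_num)] at h3
  linarith [Real.log_two_lt_d9]

lemma log_ge {r s : ℝ} (hr : 0 < r) (hs : 0 < s) : s - r ≤ s * (Real.log s - Real.log r) := by
  have := Real.log_le_sub_one_of_pos (div_pos hr hs)
  rw [Real.log_div hr.ne' hs.ne'] at this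
  have h2 := mul_le_mul_of_nonneg_left this hs.le
  have e : s * (r / s - 1) = r - s := by field_simp
  linarith

lemma inner {b δ : ℝ} {M : ℕ} (hM : 1 ≤ M) (hδ : 0 < δ) (h : δ ≤ b - Real.log M) :
    ∑ n ∈ Ioc 0 M, Λ n / n * (1 / (b - Real.log n)) ≤ Real.log b - Real.log δ + 13 / δ := by
  have h0 := abel (fun n => 1 / (b - Real.log n))
    (fun n => -Real.log (b - Real.log n) + 7 * (1 / (b - Real.log n))) hM fun n h1 h2 => by
      obtain ⟨a1, a2, a3⟩ := log_step h1 h2
      generalize Real.log (n + 1 : ℕ) = y at *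
      generalize Real.log n = x at *
      have p1 : 0 < b - y := by linarith
      have p2 : 0 < b - x := by linarith
      have p3 : 1 / (b - x) ≤ 1 / (b - y) := one_div_le_one_div_of_le p1 (by linarith)
      have p4 : (y - x) * (1 / (b - x)) ≤ Real.log (b - x) - Real.log (b - y) := by
        rw [mul_one_div, div_le_iff₀ p2]
        linarith [log_ge p1 p2]
      rw [abs_of_nonneg (sub_nonneg.2 p3)]
      nlinarith [mul_nonneg (show 0 ≤ 1 - (y - x) by linarith) (sub_nonneg.2 p3)]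
  have l0 : 0 ≤ Real.log M := Real.log_natCast_nonneg M
  have p1 : 1 / (b - Real.log M) ≤ 1 / δ := one_div_le_one_div_of_le hδ h
  have p2 : 0 ≤ 1 / (b - Real.log M) := one_div_nonneg.2 (by linarith)
  have p3 : 0 ≤ 1 / b := one_div_nonneg.2 (by linarith)
  have p4 := Real.log_le_log hδ h
  simp only [Nat.cast_one, Real.log_one, sub_zero, abs_of_nonneg p2] at h0
  have e : 13 / δ = 13 * (1 / δ) := by ring
  linarith

lemma outer {c δ : ℝ} {N : ℕ} (hN : 1 ≤ N) (hδ : 0 < δ) (h : δ ≤ c - Real.log N) :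
    ∑ n ∈ Ioc 0 N, Λ n / n * (Real.log (c - Real.log n) - Real.log δ) ≤
      (c + 6) * (Real.log c - Real.log δ) - c + δ := by
  have h0 := abel (fun n => Real.log (c - Real.log n) - Real.log δ)
    (fun n => (c - Real.log n) - (c - Real.log n + 6) * (Real.log (c - Real.log n) - Real.log δ))
    hN fun n h1 h2 => by
      obtain ⟨a1, -, a3⟩ := log_step h1 h2
      generalize Real.log (n + 1 : ℕ) = y at *
      generalize Real.log n = x at *
      have p1 : 0 < c - y := by linarith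
      have p2 : 0 < c - x := by linarith
      have p3 := Real.log_le_log p1 (show c - y ≤ c - x by linarith)
      rw [abs_of_nonpos (by linarith)]
      linarith [log_ge p1 p2]
  have p4 := Real.log_le_log hδ h
  simp only [Nat.cast_one, Real.log_one, sub_zero, abs_of_nonneg (sub_nonneg.2 p4)] at h0
  linarith [log_ge hδ (show 0 < c - Real.log N by linarith)]

/-- the summand -/
noncomputable def F (c : ℝ) (p : ℕ × ℕ) : ℝ :=
  Λ p.1 / p.1 * (Λ p.2 / p.2 * (1 / (c - Real.log p.1 - Real.log p.2)))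

/-- the pairs with a small product -/
def D (N : ℕ) : Finset (ℕ × ℕ) := (Ioc 0 N ×ˢ Ioc 0 N).filter fun p => p.1 * p.2 ≤ N

lemma log_mul_le {k m N : ℕ} (hk : 0 < k) (hm : 0 < m) (h : k * m ≤ N) :
    Real.log k + Real.log m ≤ Real.log N := by
  rw [← Real.log_mul (by positivity) (by positivity)]
  exact Real.log_le_log (by positivity) (by exact_mod_cast h)

lemma dbl {c δ : ℝ} {N : ℕ} (hN : 1 ≤ N) (hδ : 0 < δ) (h : δ ≤ c - Real.log N) :
    ∑ p ∈ D N, F c p ≤
      (c + 6) * (Real.log c - Real.log δ) - c + δ + (Real.log N + 6) * (13 / δ) := by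
  have h1 : ∑ p ∈ D N, F c p ≤ ∑ k ∈ Ioc 0 N,
      Λ k / k * (Real.log (c - Real.log k) - Real.log δ + 13 / δ) := by
    rw [D, sum_filter, sum_product]
    refine sum_le_sum fun k hk => ?_
    obtain ⟨k0, k1⟩ := mem_Ioc.1 hk
    have e : (Ioc 0 N).filter (fun m => k * m ≤ N) = Ioc 0 (N / k) := by
      ext m
      simp only [mem_filter, mem_Ioc, Nat.le_div_iff_mul_le k0, mul_comm m k]
      exact ⟨fun a => ⟨a.1.1, a.2⟩, fun a => ⟨⟨a.1, (Nat.le_mul_of_pos_left m k0).trans a.2⟩, a.2⟩⟩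
    have m1 : 1 ≤ N / k := (Nat.le_div_iff_mul_le k0).2 (by omega)
    simp only [F]
    rw [← sum_filter, e, ← mul_sum]
    refine mul_le_mul_of_nonneg_left (inner m1 hδ ?_)
      (div_nonneg ArithmeticFunction.vonMangoldt_nonneg (Nat.cast_nonneg _))
    linarith [log_mul_le k0 m1 (Nat.mul_div_le N k)]
  simp only [mul_add (Λ _ / _ : ℝ), sum_add_distrib, ← sum_mul] at h1
  have h3 := mul_le_mul_of_nonneg_right
    (show ∑ n ∈ Ioc 0 N, Λ n / n ≤ Real.log N + 6 by linarith [(abs_le.1 (mertens_vm hN)).2])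
    (show 0 ≤ 13 / δ by positivity)
  linarith [outer hN hδ h]

lemma half {c : ℝ} {N : ℕ} (h : 0 ≤ c - Real.log N) :
    2 * ∑ p ∈ (D N).filter (fun p => p.1 < p.2), F c p ≤ ∑ p ∈ D N, F c p := by
  have sw : ∀ p ∈ D N, p.swap ∈ D N := fun p hp => by
    simp only [D, mem_filter, mem_product, Prod.fst_swap, Prod.snd_swap] at hp ⊢
    exact ⟨⟨hp.1.2, hp.1.1⟩, by rw [mul_comm]; exact hp.2⟩
  have e : ∑ p ∈ (D N).filter (fun p => p.1 < p.2), F c p =
      ∑ p ∈ (D N).filter (fun p => p.2 < p.1), F c p := by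
    refine sum_nbij' Prod.swap Prod.swap
      (fun p hp => mem_filter.2 ⟨sw p (mem_filter.1 hp).1, (mem_filter.1 hp).2⟩)
      (fun p hp => mem_filter.2 ⟨sw p (mem_filter.1 hp).1, (mem_filter.1 hp).2⟩)
      (fun _ _ => rfl) (fun _ _ => rfl) fun p _ => ?_
    simp only [F, Prod.fst_swap, Prod.snd_swap, sub_right_comm c (Real.log p.1)]
    ring
  rw [two_mul, ← sum_filter_add_sum_filter_not (D N) fun p => p.1 < p.2]
  refine add_le_add le_rfl (e.trans_le (sum_le_sum_of_subset_of_nonneg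
    (monotone_filter_right _ fun p _ a => not_lt.2 a.le) fun p hp _ => ?_))
  obtain ⟨a1, a2⟩ := mem_filter.1 (mem_filter.1 hp).1
  have a3 := log_mul_le (mem_Ioc.1 (mem_product.1 a1).1).1 (mem_Ioc.1 (mem_product.1 a1).2).1 a2
  have n : ∀ k : ℕ, 0 ≤ Λ k / k := fun k =>
    div_nonneg ArithmeticFunction.vonMangoldt_nonneg (Nat.cast_nonneg _)
  exact mul_nonneg (n _) (mul_nonneg (n _) (one_div_nonneg.2 (by linarith)))

end Num2P

open Num2P in
theorem num2 : S_Num2 := by
  refine ⟨⌈Real.exp 4000⌉₊, fun X hX => ?_⟩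
  have hX1 : Real.exp 4000 ≤ X := Nat.ceil_le.1 hX
  have hX0 : (0 : ℝ) < X := (Real.exp_pos _).trans_le hX1
  have hl : 4000 ≤ Real.log X := (Real.le_log_iff_exp_le hX0).2 hX1
  obtain ⟨N, hN⟩ : ∃ N, N = ⌊3 * (X : ℝ) ^ (11 / 25 : ℝ)⌋₊ := ⟨_, rfl⟩
  have x1 : 1 ≤ (X : ℝ) ^ (11 / 25 : ℝ) :=
    Real.one_le_rpow ((Real.one_le_exp (by norm_num)).trans hX1) (by norm_num)
  have N1 : 1 ≤ N := hN ▸ Nat.le_floor (by push_cast; linarith)
  have N2 : Real.log N ≤ 2 + 11 / 25 * Real.log X := by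
    have h1 : (N : ℝ) ≤ 3 * (X : ℝ) ^ (11 / 25 : ℝ) := hN ▸ Nat.floor_le (by positivity)
    have h2 := Real.log_le_log (by exact_mod_cast N1) h1
    rw [Real.log_mul (by norm_num) (by positivity), Real.log_rpow hX0] at h2
    linarith [Real.log_le_sub_one_of_pos (show (0 : ℝ) < 3 by norm_num)]
  have h1 : ∑ p ∈ PS X, Real.log p.1 * Real.log p.2 / ((p.1 * p.2 : ℕ) *
      Real.log ((X : ℝ) ^ (14 / 25 : ℝ) / (p.1 * p.2 : ℕ))) ≤
      ∑ p ∈ (D N).filter (fun p => p.1 < p.2), F (14 / 25 * Real.log X) p := by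
    refine le_trans (le_of_eq (sum_congr rfl fun p hp => ?_))
      (sum_le_sum_of_subset_of_nonneg (s := PS X) (fun p hp => ?_) fun p hp _ => ?_)
    · obtain ⟨a1, a2⟩ := mem_product.1 (mem_filter.1 hp).1
      have p1 := PP_two a1
      have p2 := PP_two a2
      rw [F, ArithmeticFunction.vonMangoldt_apply_prime (PP_prime a1),
        ArithmeticFunction.vonMangoldt_apply_prime (PP_prime a2), Nat.cast_mul,
        Real.log_div (by positivity) (by positivity), Real.log_rpow hX0,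
        Real.log_mul (by positivity) (by positivity), ← sub_sub]
      generalize 14 / 25 * Real.log X - Real.log p.1 - Real.log p.2 = t
      ring
    · obtain ⟨a, a3, a4⟩ := mem_filter.1 hp
      obtain ⟨a1, a2⟩ := mem_product.1 a
      have p1 := (PP_prime a1).pos
      have p2 := (PP_prime a2).pos
      have p3 : p.1 * p.2 ≤ N := hN ▸ Nat.le_floor a4
      exact mem_filter.2 ⟨mem_filter.2 ⟨mem_product.2
        ⟨mem_Ioc.2 ⟨p1, (Nat.le_mul_of_pos_right _ p2).trans p3⟩,
          mem_Ioc.2 ⟨p2, (Nat.le_mul_of_pos_left _ p1).trans p3⟩⟩, p3⟩, a3⟩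
    · obtain ⟨a1, a2⟩ := mem_filter.1 (mem_filter.1 hp).1
      have a3 := log_mul_le (mem_Ioc.1 (mem_product.1 a1).1).1 (mem_Ioc.1 (mem_product.1 a1).2).1 a2
      have n : ∀ k : ℕ, 0 ≤ Λ k / k := fun k =>
        div_nonneg ArithmeticFunction.vonMangoldt_nonneg (Nat.cast_nonneg _)
      exact mul_nonneg (n _) (mul_nonneg (n _) (one_div_nonneg.2 (by linarith)))
  generalize Real.log X = l at *
  have h2 := half (c := 14 / 25 * l) (N := N) (by linarith)
  have h3 := dbl (c := 14 / 25 * l) (δ := 14 / 125 * l) N1 (by linarith) (by linarith)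
  have e1 : Real.log (14 / 25 * l) - Real.log (14 / 125 * l) ≤ 1.62 := by
    rw [← Real.log_div (by linarith) (by linarith),
      show 14 / 25 * l / (14 / 125 * l) = 5 by field_simp; norm_num]
    have a1 := Real.log_le_log (x := 5 ^ 3) (y := 2 ^ 7) (by norm_num) (by norm_num)
    rw [Real.log_pow, Real.log_pow] at a1
    push_cast at a1
    linarith [Real.log_two_lt_d9]
  have e2 : (Real.log N + 6) * (13 / (14 / 125 * l)) ≤ 65 := by
    rw [← mul_div_assoc, div_le_iff₀ (by linarith)]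
    linarith
  have e3 := mul_le_mul_of_nonneg_left e1 (show 0 ≤ 14 / 25 * l + 6 by linarith)
  linarith

end Pool.Agent.P.MP_746f10_nt.UC
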