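import Pool.Agent.P.MP_746f10_nt.UC.Defs

/-! Pointwise identities for truncated second order Moebius sums. -/

namespace Pool.Agent.P.MP_746f10_nt.UC

open Finset
open scoped ArithmeticFunction.vonMangoldt ArithmeticFunction.Moebius

namespace PtP

lemma sum_div_mul {p n : ℕ} (hp : p.Prime) (h : ¬ p ∣ n) (f : ℕ → ℝ) :
    ∑ d ∈ (p * n).divisors, f d = ∑ d ∈ n.divisors, (f d + f (p * d)) := by
  have n0 : n ≠ 0 := by rintro rfl; exact h (dvd_zero p)
  have h1 : (p * n).divisors = n.divisors ∪ n.divisors.image (p * ·) := by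
    ext d
    simp only [Nat.mem_divisors, mem_union, mem_image, ne_eq, mul_eq_zero, hp.ne_zero, n0, or_self,
      not_false_eq_true, and_true]
    constructor
    · intro hd
      by_cases hpd : p ∣ d
      · obtain ⟨e, rfl⟩ := hpd
        exact Or.inr ⟨e, Nat.dvd_of_mul_dvd_mul_left hp.pos hd, rfl⟩
      · exact Or.inl (((Nat.Prime.coprime_iff_not_dvd hp).2 hpd).symm.dvd_of_dvd_mul_left hd)
    · rintro (hd | ⟨e, he, rfl⟩)
      · exact hd.mul_left p
      · exact Nat.mul_dvd_mul_left p he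
  rw [h1, sum_union, sum_image fun a _ b _ hab => Nat.eq_of_mul_eq_mul_left hp.pos hab,
    sum_add_distrib]
  refine disjoint_left.2 fun d hd hd' => ?_
  obtain ⟨e, -, rfl⟩ := mem_image.1 hd'
  exact h ((Dvd.intro e rfl).trans (Nat.dvd_of_mem_divisors hd))

lemma mu_mul {p n d : ℕ} (hp : p.Prime) (h : ¬ p ∣ n) (hd : d ∈ n.divisors) :
    (μ (p * d) : ℝ) = - μ d := by
  rw [ArithmeticFunction.isMultiplicative_moebius.map_mul_of_coprime
    ((Nat.Prime.coprime_iff_not_dvd hp).2 fun hc => h (hc.trans (Nat.dvd_of_mem_divisors hd))),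
    ArithmeticFunction.moebius_apply_prime hp]
  push_cast; ring

lemma full {p n : ℕ} (hp : p.Prime) (h : ¬ p ∣ n) (n1 : n ≠ 1) (A : ℝ) :
    ∑ d ∈ (p * n).divisors, (μ d : ℝ) * (A - Real.log d) ^ 2 = 2 * Real.log p * Λ n := by
  have h0 : ∑ d ∈ n.divisors, (μ d : ℝ) = 0 := by
    have := ArithmeticFunction.coe_mul_zeta_apply (f := (μ : ArithmeticFunction ℝ)) (x := n)
    rw [ArithmeticFunction.coe_moebius_mul_coe_zeta, ArithmeticFunction.one_apply_ne n1] at this
    exact this.symm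
  have h1 := ArithmeticFunction.sum_moebius_mul_log_eq (n := n)
  simp only [ArithmeticFunction.log_apply] at h1
  rw [sum_div_mul hp h, sum_congr rfl (g := fun d => (2 * A * Real.log p - Real.log p ^ 2) * μ d
    - 2 * Real.log p * (μ d * Real.log d)) fun d hd => ?_, sum_sub_distrib, ← mul_sum, ← mul_sum,
    h0, h1]
  · ring
  · rw [mu_mul hp h hd, Nat.cast_mul, Real.log_mul (by exact_mod_cast hp.ne_zero)
      (by exact_mod_cast (Nat.pos_of_mem_divisors hd).ne')]
    ring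

lemma vm_sqf {n : ℕ} (hn : Squarefree n) (h : ¬ n.Prime) : Λ n = 0 := by
  by_contra hc
  exact h (Nat.squarefree_and_prime_pow_iff_prime.1
    ⟨hn, ArithmeticFunction.vonMangoldt_ne_zero_iff.1 hc⟩)

lemma len_mul {p n : ℕ} (hp : p.Prime) (n0 : n ≠ 0) :
    (p * n).primeFactorsList.length = n.primeFactorsList.length + 1 := by
  rw [(Nat.perm_primeFactorsList_mul hp.ne_zero n0).length_eq, List.length_append,
    Nat.primeFactorsList_prime hp, List.length_singleton, add_comm]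

lemma split {p n : ℕ} (hp : p.Prime) (h : Squarefree (p * n)) : ¬ p ∣ n ∧ Squarefree n :=
  ⟨(Nat.Prime.coprime_iff_not_dvd hp).1 (Nat.coprime_of_squarefree_mul h), h.of_mul_right⟩

lemma NW_full {m : ℕ} {Y : ℝ} (hm : Squarefree m) (h3 : 2 < m.primeFactorsList.length)
    (Y0 : 0 < Y) : NW Y m + μ m * NW (m / Y) m = 0 := by
  have m0 := hm.ne_zero
  have m1 : m ≠ 1 := by rintro rfl; simp at h3
  have hp := Nat.minFac_prime m1
  obtain ⟨n, hn⟩ := Nat.minFac_dvd m
  obtain ⟨p, hp'⟩ : ∃ p, p = m.minFac := ⟨_, rfl⟩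
  rw [← hp'] at hp hn
  obtain ⟨a1, a2⟩ := split hp (hn ▸ hm)
  rw [hn, len_mul hp a2.ne_zero] at h3
  have h0 := full hp a1 (by rintro rfl; simp at h3) (Real.log Y)
  rw [vm_sqf a2 (fun hc => by simp [Nat.primeFactorsList_prime hc] at h3), mul_zero, ← hn] at h0
  rw [← h0, NW, NW, ← Nat.sum_div_divisors m fun d => (μ d : ℝ) * max 0 (Real.log (m / Y / d)) ^ 2,
    mul_sum, ← sum_add_distrib]
  refine sum_congr rfl fun d hd => ?_
  obtain ⟨e, rfl⟩ := Nat.dvd_of_mem_divisors hd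
  have d0 : 0 < d := Nat.pos_of_mem_divisors hd
  have d1 : (0 : ℝ) < d := by exact_mod_cast d0
  have e0 : (e : ℝ) ≠ 0 := by exact_mod_cast right_ne_zero_of_mul m0
  have h1 : ((μ e : ℤ) : ℝ) ^ 2 = 1 := by
    exact_mod_cast ArithmeticFunction.moebius_sq_eq_one_of_squarefree hm.of_mul_right
  rw [Nat.mul_div_cancel_left e d0, ArithmeticFunction.isMultiplicative_moebius.map_mul_of_coprime
    (Nat.coprime_of_squarefree_mul hm),
    show ((d * e : ℕ) : ℝ) / Y / e = (Y / d)⁻¹ by push_cast; field_simp, Real.log_inv,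
    Real.log_div Y0.ne' d1.ne']
  push_cast
  rcases le_total 0 (Real.log Y - Real.log d) with h | h
  · rw [max_eq_right h, max_eq_left (by linarith)]; ring
  · rw [max_eq_left h, max_eq_right (by linarith)]
    linear_combination (μ d : ℝ) * (Real.log Y - Real.log d) ^ 2 * h1

lemma NW_diff {m : ℕ} {Y Z l : ℝ} (Y1 : 1 ≤ Y) (h1 : Y ≤ Z) (h2 : Z ≤ 3 * Y)
    (hl : Real.log Z ≤ l) : |NW Y m - NW Z m| ≤ 4 * m.divisors.card * l := by
  rw [NW, NW, ← sum_sub_distrib]
  refine (abs_sum_le_sum_abs _ _).trans ((sum_le_card_nsmul _ _ (4 * l) fun d hd => ?_).trans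
    (le_of_eq (by rw [nsmul_eq_mul]; ring)))
  have d1 : (1 : ℝ) ≤ d := by exact_mod_cast Nat.pos_of_mem_divisors hd
  have a0 := Real.log_nonneg d1
  have a1 := Real.log_le_log (by linarith) h1
  have a2 := Real.log_le_log (by linarith) h2
  have a3 := Real.log_le_sub_one_of_pos (show (0 : ℝ) < 3 by norm_num)
  have a4 := Real.log_nonneg Y1
  rw [Real.log_mul (by norm_num) (by linarith)] at a2
  rw [← mul_sub, abs_mul, Real.log_div (by linarith) (by linarith),
    Real.log_div (by linarith) (by linarith)]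
  have a5 : |((μ d : ℤ) : ℝ)| ≤ 1 := by exact_mod_cast ArithmeticFunction.abs_moebius_le_one
  refine (mul_le_of_le_one_left (abs_nonneg _) a5).trans ?_
  have b1 : max 0 (Real.log Y - Real.log d) ≤ max 0 (Real.log Z - Real.log d) :=
    max_le_max le_rfl (by linarith)
  have b2 : max 0 (Real.log Z - Real.log d) ≤ max 0 (Real.log Y - Real.log d) + 2 :=
    max_le (by positivity) (by linarith [le_max_right 0 (Real.log Y - Real.log d)])
  have b3 : max 0 (Real.log Z - Real.log d) ≤ l := max_le (by linarith) (by linarith)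
  have b4 := le_max_left 0 (Real.log Y - Real.log d)
  rw [abs_le]
  constructor <;> nlinarith only [b1, b2, b3, b4]

lemma NW_big {p q n : ℕ} {Y : ℝ} (hp : p.Prime) (hq : q.Prime) (hm : Squarefree (p * (q * n)))
    (n1 : n ≠ 1) (h1 : ((q * n : ℕ) : ℝ) ≤ Y) (h2 : Y ≤ p) :
    NW Y (p * (q * n)) = 2 * Real.log q * Λ n := by
  obtain ⟨a1, a2⟩ := split hp hm
  have Y0 : 0 < Y := lt_of_lt_of_le (by exact_mod_cast Nat.pos_of_ne_zero a2.ne_zero) h1
  rw [NW, sum_div_mul hp a1, ← full hq (split hq a2).1 n1 (Real.log Y)]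
  refine sum_congr rfl fun d hd => ?_
  have d1 : (1 : ℝ) ≤ d := by exact_mod_cast Nat.pos_of_mem_divisors hd
  have d2 : (d : ℝ) ≤ Y := le_trans (by exact_mod_cast Nat.divisor_le hd) h1
  have p0 : (0 : ℝ) < p := by exact_mod_cast hp.pos
  rw [max_eq_right (Real.log_nonneg ((one_le_div (by linarith)).2 d2)),
    max_eq_left (Real.log_nonpos (by positivity) ((div_le_one (by push_cast; positivity)).2
      (by push_cast; nlinarith))), Real.log_div Y0.ne' (by linarith)]
  ring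

end PtP

open PtP in
theorem ptw : S_Pt := by
  refine ⟨8, 3 ^ 20, by norm_num, fun X m σ hX h1 h2 hm h3 hσ h4 => ?_⟩
  have X3 : (3 : ℝ) ^ 20 ≤ X := by exact_mod_cast hX
  have X1 : (1 : ℝ) ≤ X := le_trans (by norm_num) X3
  have X0 : (0 : ℝ) < X := by linarith
  have l0 := Real.log_nonneg X1
  have σ0 : 0 ≤ 2 * (1 + σ) := by rcases hσ with rfl | rfl <;> norm_num
  have hnn : ∀ p ∈ PS X, 0 ≤ if p.1 * p.2 ∣ m ∧ (m / (p.1 * p.2)).Prime ∧
      (X : ℝ) ^ (14 / 25 : ℝ) < (m / (p.1 * p.2) : ℕ) then Real.log p.1 * Real.log p.2 else 0 :=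
    fun p _ => by split_ifs <;> positivity
  have h5 := mul_nonneg σ0 (sum_nonneg hnn)
  have e0 : (3 : ℝ) ≤ (X : ℝ) ^ (1 / 20 : ℝ) := by
    refine le_trans (le_of_eq ?_) (Real.rpow_le_rpow (by positivity) X3 (by norm_num))
    rw [← Real.rpow_natCast, ← Real.rpow_mul (by norm_num)]; norm_num
  have r1 : (X : ℝ) ≤ m := by exact_mod_cast h1
  have r2 : (m : ℝ) ≤ 3 * X := by exact_mod_cast h2
  have mono : ∀ {a b : ℝ}, a ≤ b → (X : ℝ) ^ a ≤ (X : ℝ) ^ b := Real.rpow_le_rpow_of_exponent_le X1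
  have add : ∀ {a b c : ℝ}, a + b = c → (X : ℝ) ^ a * (X : ℝ) ^ b = (X : ℝ) ^ c := fun h => by
    rw [← Real.rpow_add X0, h]
  rcases h4 with ⟨p, hp, ⟨k, rfl⟩, hpX⟩ | h4
  · have k0 := (split hp hm).2.ne_zero
    rw [len_mul hp k0] at h3
    have k1 : k ≠ 1 := by rintro rfl; simp at h3
    have hq := Nat.minFac_prime k1
    obtain ⟨n, hn⟩ := Nat.minFac_dvd k
    have hmin : ∀ r, r.Prime → r ∣ k → k.minFac ≤ r := fun r hr => Nat.minFac_le_of_dvd hr.two_le
    obtain ⟨q, hq'⟩ : ∃ q, q = k.minFac := ⟨_, rfl⟩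
    rw [← hq'] at hq hn hmin
    subst hn
    obtain ⟨a1, a2⟩ := split hq (split hp hm).2
    rw [len_mul hq a2.ne_zero] at h3
    have n1 : n ≠ 1 := by rintro rfl; simp at h3
    have k2 : ((q * n : ℕ) : ℝ) ≤ 3 * (X : ℝ) ^ (11 / 25 : ℝ) := by
      have b1 := add (show (14 / 25 : ℝ) + 11 / 25 = 1 by norm_num)
      rw [Real.rpow_one] at b1
      rw [Nat.cast_mul] at r2
      refine le_of_mul_le_mul_left ?_ (Real.rpow_pos_of_pos X0 (14 / 25))
      linarith [mul_le_mul_of_nonneg_right hpX.le (Nat.cast_nonneg (α := ℝ) (q * n))]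
    have k3 : ((q * n : ℕ) : ℝ) ≤ (X : ℝ) ^ (49 / 100 : ℝ) := by
      rw [← add (show (1 / 20 : ℝ) + 11 / 25 = 49 / 100 by norm_num)]
      exact k2.trans (mul_le_mul_of_nonneg_right e0 (by positivity))
    rw [WW, NW_big hp hq hm n1 (k3.trans (mono (by norm_num)))
      ((mono (by norm_num)).trans hpX.le), NW_big hp hq hm n1 k3 ((mono (by norm_num)).trans hpX.le)]
    have h6 : 0 ≤ 8 * ((p * (q * n)).divisors.card : ℝ) * Real.log X :=
      mul_nonneg (mul_nonneg (by norm_num) (Nat.cast_nonneg _)) l0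
    by_cases hn : n.Prime
    · have k4 : q * n ≤ X := by
        have := k3.trans (mono (show (49 / 100 : ℝ) ≤ 1 by norm_num))
        rw [Real.rpow_one] at this
        exact_mod_cast this
      have k5 : p * (q * n) / (q * n) = p := Nat.mul_div_cancel _ (Nat.pos_of_ne_zero k0)
      have := single_le_sum hnn (a := (q, n)) (mem_filter.2 ⟨mem_product.2
        ⟨mem_PP.2 ⟨hq.pos, (Nat.le_mul_of_pos_right q hn.pos).trans k4, hq⟩,
          mem_PP.2 ⟨hn.pos, (Nat.le_mul_of_pos_left n hq.pos).trans k4, hn⟩⟩,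
        lt_of_le_of_ne (hmin n hn (Dvd.intro_left q rfl)) (fun hc => a1 (by
          simp only at hc; rw [hc])), k2⟩)
      rw [if_pos ⟨Dvd.intro_left p rfl, by rw [k5]; exact hp, by rw [k5]; exact hpX⟩]
        at this
      rw [ArithmeticFunction.vonMangoldt_apply_prime hn]
      linarith [mul_le_mul_of_nonneg_left this σ0]
    · rw [vm_sqf a2 hn]; linarith
  · have Y0 := Real.rpow_pos_of_pos X0 (51 / 100)
    have b0 := NW_full hm h3 Y0
    have b1 := add (show (49 / 100 : ℝ) + 51 / 100 = 1 by norm_num)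
    rw [Real.rpow_one] at b1
    have b2 := NW_diff (m := m) (Y := (X : ℝ) ^ (49 / 100 : ℝ)) (Z := m / (X : ℝ) ^ (51 / 100 : ℝ))
      (l := 2 * Real.log X) (Real.one_le_rpow X1 (by norm_num))
      (by rw [le_div_iff₀ Y0]; linarith) (by rw [div_le_iff₀ Y0]; linarith) (by
        rw [two_mul, ← Real.log_mul X0.ne' X0.ne']
        refine Real.log_le_log (div_pos (by linarith) Y0) ?_
        refine (div_le_self (by linarith) (Real.one_le_rpow X1 (by norm_num))).trans ?_
        nlinarith only [r2, X3])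
    rw [h4] at b0
    obtain ⟨b3, b4⟩ := abs_le.1 b2
    rw [WW]
    rcases hσ with rfl | rfl <;> linarith

end Pool.Agent.P.MP_746f10_nt.UC
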