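import Pool.Agent.P.MP_746f10_nt.UC.RegIA

/-! The case without a harmful exceptional character. -/

set_option linter.unusedSectionVars false

namespace Pool.Agent.P.MP_746f10_nt.UC

open Finset
open Pool.Agent.P.MP_0ad054_nt.Chen (Lev bet ck Wm Mm Hc zz Dl Nl Qs IsChen)
open scoped ArithmeticFunction.vonMangoldt

namespace RegP

lemma polylog (Kc : ℝ) (J : ℕ) : ∃ v1 : ℕ, ∀ v : ℕ, v1 ≤ v → Kc * Real.log v ^ J ≤ v := by
  have h := (Asymptotics.isLittleO_iff.1 (Real.isLittleO_pow_log_id_atTop (n := J))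
    (c := 1 / (|Kc| + 1)) (by positivity)).natCast_atTop
  obtain ⟨v1, h⟩ := Filter.eventually_atTop.1 h
  refine ⟨v1, fun v hv => ?_⟩
  have h1 := h v hv
  have h2 : 0 ≤ Real.log v ^ J := pow_nonneg (Real.log_natCast_nonneg v) J
  rw [Real.norm_of_nonneg h2, id, Real.norm_of_nonneg (Nat.cast_nonneg v), one_div,
    le_inv_mul_iff₀ (by positivity)] at h1
  exact le_trans (mul_le_mul_of_nonneg_right (by linarith [le_abs_self Kc]) h2) h1

lemma final {L L7 u σ l t ε c0 M1 M2 M3 Hh S1 S2 S3 : ℝ} (hL : 0 < L) (h7 : 0 ≤ L7) (h7' : L7 ≤ 2 * L)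
    (hu : 0 ≤ u) (hσ : 1 ≤ σ) (hl : 0 ≤ l) (t0 : 0 ≤ t) (t1 : t ≤ 1 / 100) (t2 : 100 * t ≤ ε)
    (hc : 0 ≤ c0) (m1 : 0 ≤ M1) (m2 : 0 ≤ M2) (m3 : 0 ≤ M3) (hH : 0 ≤ Hh)
    (h : c0 / L ≤ (1 - ε) * M1 - ε * M2 - ε * M3 - (1 + ε) * (L7 / 2 * (Hh * M3)))
    (s1 : u * σ * l * L * (1 - 6 * t) ≤ S1) (s2 : S2 ≤ u * σ * l * L * (6 * t))
    (s3 : S3 ≤ (1 + t) ^ 2 * u * (σ * (Hh * (l * L * (1 + 5 * t))) + t * l / 2)) :
    u * l * c0 ≤ M1 * S1 - M2 * S2 - L7 / 2 * (M3 * S3) := by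
  set X := u * σ * l * L with hX
  have X0 : 0 ≤ X := by positivity
  have a1 := mul_le_mul_of_nonneg_left s1 m1
  have a2 := mul_le_mul_of_nonneg_left s2 m2
  have a3 : S3 ≤ (1 + ε) * (X * Hh) + u * σ * l * t := by
    refine s3.trans ?_
    have q1 : t * t ≤ t := mul_le_of_le_one_left t0 (by linarith)
    have q2 : t * t * t ≤ t := (mul_le_of_le_one_right (by positivity) (by linarith)).trans q1
    have b1 : (1 + t) ^ 2 * (1 + 5 * t) ≤ 1 + ε := by linarith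
    have b2 : (1 + t) ^ 2 / 2 ≤ σ := by linarith
    have b3 := mul_le_mul_of_nonneg_right b1 (show 0 ≤ X * Hh by positivity)
    have b4 := mul_le_mul_of_nonneg_right b2 (show 0 ≤ u * l * t by positivity)
    rw [hX] at b3 ⊢
    linarith
  have a4 := mul_le_mul_of_nonneg_left a3 (show 0 ≤ L7 / 2 * M3 by positivity)
  have a5 := mul_le_mul_of_nonneg_right h7' (show 0 ≤ M3 * (u * σ * l * t) / 2 by positivity)
  have a6 := mul_le_mul_of_nonneg_left h X0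
  have a7 : X * (c0 / L) = σ * (u * l * c0) := by rw [hX]; field_simp
  have a8 := mul_le_mul_of_nonneg_right hσ (show 0 ≤ u * l * c0 by positivity)
  have a9 := mul_le_mul_of_nonneg_right (show 6 * t ≤ ε by linarith) (mul_nonneg X0 m1)
  have a10 := mul_le_mul_of_nonneg_right (show 6 * t ≤ ε by linarith) (mul_nonneg X0 m2)
  have a11 := mul_le_mul_of_nonneg_right (show t ≤ ε by linarith) (mul_nonneg X0 m3)
  rw [hX] at a11
  nlinarith

lemma errs {CB H1 H2 L L7 r v y w c A : ℝ} {jj : ℕ} (C0 : 0 ≤ CB) (h1 : 1 ≤ H1) (h2 : 1 ≤ H2)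
    (hL : 1 ≤ L) (h7 : L7 ≤ 2 * L) (r0 : 0 ≤ r) (hr : r ≤ 2 * v) (hv : 2 ≤ v) (hy : v ^ 8 ≤ y)
    (w0 : 0 ≤ w) (hw : w ≤ 1 / v ^ 8) (hc : 0 < c) (hA : 0 < A)
    (h : (16 * CB * (H1 + H2) + 6) / c * (L ^ (jj + 2) * A) ≤ v) :
    2 * (CB * (2 * v ^ 2) * (H1 + 1) * L ^ jj * (1 / v ^ 8 + w)) +
      L7 / 2 * r * (CB * (2 * v ^ 2) * (H2 + 1) * L ^ jj * (1 / v ^ 8 + w)) +
      (L * ((1 + L) / y) + L * r * ((1 + L) / y)) < 1 / (v * A) * c := by
  have v0 : 0 < v := by linarith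
  have z1 : L ^ jj ≤ L ^ (jj + 2) := pow_le_pow_right₀ hL (by omega)
  have z2 : L * L ^ jj ≤ L ^ (jj + 2) := by rw [← pow_succ']; exact pow_le_pow_right₀ hL (by omega)
  have z3 : L * L ≤ L ^ (jj + 2) := by rw [← sq]; exact pow_le_pow_right₀ hL (by omega)
  set Z := L ^ (jj + 2)
  have Z0 : 0 < Z := by nlinarith
  have e1 : 2 * (CB * (2 * v ^ 2) * (H1 + 1) * L ^ jj * (1 / v ^ 8 + w)) ≤
      8 * CB * (H1 + H2) * Z / v ^ 5 := by
    calc _ ≤ 2 * (CB * (2 * v ^ 3) * (H1 + H2) * Z * (1 / v ^ 8 + 1 / v ^ 8)) := by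
          gcongr <;> [linarith; norm_num]
      _ = _ := by field_simp; ring
  have e2 : L7 / 2 * r * (CB * (2 * v ^ 2) * (H2 + 1) * L ^ jj * (1 / v ^ 8 + w)) ≤
      8 * CB * (H1 + H2) * Z / v ^ 5 := by
    calc _ ≤ L * (2 * v) * (CB * (2 * v ^ 2) * (H2 + H1) * L ^ jj * (1 / v ^ 8 + 1 / v ^ 8)) := by
          gcongr; linarith
      _ = 8 * CB * (H1 + H2) * (L * L ^ jj) / v ^ 5 := by field_simp; ring
      _ ≤ _ := by gcongr
  have e3 : L * ((1 + L) / y) + L * r * ((1 + L) / y) ≤ 6 * Z / v ^ 5 := by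
    calc _ = L * (1 + L) * (1 + r) / y := by ring
      _ ≤ L * (2 * L) * (3 * v ^ 3) / v ^ 8 := by
          gcongr
          · linarith
          · nlinarith [le_self_pow₀ (show 1 ≤ v by linarith) (n := 3) (by norm_num)]
      _ = 6 * (L * L) / v ^ 5 := by field_simp; ring
      _ ≤ _ := by gcongr
  rw [div_mul_eq_mul_div, div_le_iff₀ hc] at h
  refine lt_of_le_of_lt (add_le_add (add_le_add e1 e2) e3) ?_
  rw [← add_div, ← add_div, one_div_mul_eq_div, div_lt_div_iff₀ (by positivity) (by positivity)]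
  have : v * v < v ^ 5 := by nlinarith [pow_le_pow_left₀ (by norm_num) hv 3, mul_pos v0 v0]
  nlinarith [mul_le_mul_of_nonneg_right h v0.le, mul_lt_mul_of_pos_left this hc]

variable {ι : Type} [Fintype ι] [DecidableEq ι] {a b : ι → ℕ} {K v : ℕ}

lemma dens (hN : Nrm a b K v) {k y0 : ℕ} (hk : Fintype.card ι = k) (hK : 2 * k + 2 ≤ K) (i : ι) :
    (∀ p ∈ GP a y0, 0 ≤ ((k : ℝ) - 1) / (p - 1) ∧ ((k : ℝ) - 1) / (p - 1) ≤ k / p ∧
      ((k : ℝ) - 1) / (p - 1) ≤ 3 / 4) ∧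
    VV y0 ^ (2 * k) ≤ ∏ p ∈ GP a y0, (1 - ((k : ℝ) - 1) / (p - 1)) := by
  have : Nonempty ι := ⟨i⟩
  have k1 : (1 : ℝ) ≤ k := by exact_mod_cast hk ▸ Fintype.card_pos
  have hp : ∀ p ∈ GP a y0, 2 * (k : ℝ) + 2 ≤ p := fun p hp => by
    exact_mod_cast hK.trans (hN.lt_of_mem hp).le
  have h1 : ∀ p ∈ GP a y0, ((k : ℝ) - 1) / (p - 1) ≤ k / p := fun p h => by
    have := hp p h
    rw [div_le_div_iff₀ (by linarith) (by linarith)]; linarith
  refine ⟨fun p h => ⟨div_nonneg (by linarith) (by linarith [hp p h]), h1 p h, ?_⟩, ?_⟩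
  · rw [div_le_iff₀ (by linarith [hp p h])]; linarith [hp p h]
  calc _ ≤ (∏ p ∈ GP a y0, (1 - 1 / (p : ℝ))) ^ (2 * k) := by
        refine pow_le_pow_left₀ (VV_pos y0).le (prod_le_prod_of_subset_of_le_one (filter_subset _ _)
          (fun p hp => (one_sub_inv_pos (PP_two hp)).le) fun p _ _ => ?_) _
        have : (0 : ℝ) ≤ 1 / p := by positivity
        linarith
    _ ≤ _ := by
        rw [← prod_pow]
        refine prod_le_prod (fun p hp => pow_nonneg (one_sub_inv_pos (PP_two (mem_filter.1 hp).1)).le _)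
          fun p h => (pow_le_one_sub (by linarith [hp p h]) (by linarith [hp p h])).trans ?_
        linarith [h1 p h]

lemma tot (hN : Nrm a b K v) (i j : ι) : (a j : ℝ) / a i / (a j).totient = 1 / (a i).totient := by
  have e : (a j).primeFactors = (a i).primeFactors := by
    ext p
    simp only [Nat.mem_primeFactors, ne_eq, (hN.pos i).ne', (hN.pos j).ne', not_false_eq_true, and_true]
    exact and_congr_right fun hp => ⟨hN.rad p j i hp, hN.rad p i j hp⟩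
  have : (a j : ℝ) ≠ 0 := by exact_mod_cast (hN.pos j).ne'
  rw [totient_real, totient_real, e]
  field_simp

end RegP

open RegP in
theorem regI (hB : S_Bump) (hW : S_Win) (hC : S_Core) (hG : S_Big) (hF : S_Four) (h2 : S_Chen2)
    (hS : S_Sign2) : S_RegI := by
  intro k c C hc hC1 hL
  obtain ⟨c0, ε, y00, N1, c00, ε0, h2⟩ := h2
  obtain ⟨N2, hS⟩ := hS
  obtain ⟨CB, jj, N3, CB0, hG⟩ := hG
  obtain ⟨k0, hk0⟩ := exists_sieve k (Nat.cast_nonneg k)
  obtain ⟨t, t0, t1, t2⟩ : ∃ t : ℝ, 0 < t ∧ t ≤ 1 / 100 ∧ 100 * t ≤ ε :=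
    ⟨min (1 / 100) (ε / 100), by positivity, min_le_left _ _, by linarith [min_le_right (1 / 100) (ε / 100)]⟩
  obtain ⟨m, hm⟩ := exists_pow_lt_of_lt_one t0 (show (1 / 2 : ℝ) < 1 by norm_num)
  rw [div_pow, one_pow] at hm
  obtain ⟨s0, hs0⟩ : ∃ s0, s0 = 4 * (k0 + m) + 6 := ⟨_, rfl⟩
  obtain ⟨l, hl⟩ : ∃ l : ℝ, l = 1 / 25000 := ⟨_, rfl⟩
  have l0 : 0 < l := by rw [hl]; norm_num
  obtain ⟨δ, hδ⟩ : ∃ δ : ℝ, δ = t * l := ⟨_, rfl⟩
  have δ0 : 0 < δ := by rw [hδ]; positivity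
  have δ1 : δ ≤ 1 / 2500000 := by rw [hδ, hl]; linarith
  obtain ⟨φ1, H1, b1⟩ := hB (99993 / 100000) (99997 / 100000) δ δ0 (by linarith)
  obtain ⟨φ2, H2, b2⟩ := hB (99993 / 100000 - 2 * δ) (99997 / 100000 + 2 * δ) δ δ0 (by linarith)
  refine ⟨2 * k + 2 + k ^ (4 * s0), 8 * s0 + 1, δ, δ0, fun e η he hη => ?_⟩
  obtain ⟨U1, hU1⟩ := hC c C hc hC1 hL (δ / 40) η H1 (by positivity) hη
  obtain ⟨U2, hU2⟩ := hC c C hc hC1 hL (δ / 40) η H2 (by positivity) hη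
  obtain ⟨U, hU⟩ : ∃ U, U = U1 + U2 + 20000 + ⌈15 / δ⌉₊ := ⟨_, rfl⟩
  obtain ⟨E, hE⟩ : ∃ E, E = e * 2 * c * U := ⟨_, rfl⟩
  obtain ⟨v1, hv1⟩ := polylog ((16 * CB * (H1 + H2) + 6) / (l * c0) *
    ((E : ℝ) ^ (jj + 2) * (CM * 8) ^ (2 * k))) (jj + 2 + 2 * k)
  obtain ⟨v2, hv2⟩ := polylog (2 * E / δ) 1
  refine ⟨E, v1 + v2 + 3 + y00 + N1 + N2 + N3 + ⌈1 / t + 1⌉₊, ?_⟩
  intro ι _ _ a b v i j χ0 hk hv hN hij hGd hex
  by_contra hno
  push Not at hno
  obtain ⟨y, hy⟩ : ∃ y, y = ((v ^ e) ^ 2) ^ c := ⟨_, rfl⟩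
  obtain ⟨N, hNE⟩ : ∃ N, N = v ^ E := ⟨_, rfl⟩
  rw [← hy] at hGd hex
  rw [← hNE] at hex hno
  have hNy : N = y ^ U := by rw [hNE, hE, hy, ← pow_mul, ← pow_mul, ← pow_mul]; ring_nf
  -- sizes
  have v3 : 3 ≤ v := by omega
  have Q1 : v * (v ^ 8) ^ s0 ≤ v ^ e := by
    rw [← pow_mul, ← pow_succ']; exact Nat.pow_le_pow_right (by omega) he
  have Q2 : v ^ e ≤ y := hy ▸ (Nat.le_self_pow two_ne_zero _).trans (Nat.le_self_pow (by omega) _)
  have Q3 : v ^ 8 ≤ y := le_trans ((Nat.le_self_pow (by omega) _).trans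
    (Nat.le_mul_of_pos_left _ (by omega))) (Q1.trans Q2)
  have Q4 : v ≤ v ^ 8 := Nat.le_self_pow (by norm_num) v
  have Q5 : v ≤ v ^ e := Nat.le_self_pow (by omega) v
  have Q6 : y ≤ N := hNy ▸ Nat.le_self_pow (by omega) y
  have v3' : (3 : ℝ) ≤ v := by exact_mod_cast v3
  have y1 : (1 : ℝ) ≤ y := by exact_mod_cast (by omega)
  have N1' : (1 : ℝ) < N := by exact_mod_cast (by omega)
  have yN : ∀ (n : ℕ) (θ : ℝ), n / 20000 ≤ θ → (y : ℝ) ^ n ≤ (N : ℝ) ^ θ := fun n θ h => by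
    rw [hNy, Nat.cast_pow, ← Real.rpow_natCast, ← Real.rpow_natCast, ← Real.rpow_mul (by linarith)]
    refine Real.rpow_le_rpow_of_exponent_le y1 ?_
    have h1 : (20000 : ℝ) ≤ U := by exact_mod_cast (by omega)
    have h3 : (0 : ℝ) ≤ n / 20000 := by positivity
    nlinarith
  have yN1 : ∀ θ : ℝ, 1 / 20000 ≤ θ → (y : ℝ) ≤ (N : ℝ) ^ θ := fun θ h => by
    simpa using yN 1 θ (by simpa using h)
  have lv : 1 ≤ Real.log v := by
    linarith [Real.log_le_log (by norm_num) v3', Real.log_three_gt_d9]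
  have hLE : Real.log N = E * Real.log v := by rw [hNE, Nat.cast_pow, Real.log_pow]
  set L := Real.log N with hL'
  have E1 : 15 / δ ≤ E := by
    refine (Nat.le_ceil _).trans ?_
    have : U ≤ E := hE ▸ Nat.le_mul_of_pos_left _ (Nat.mul_pos (by omega) hc)
    exact_mod_cast (by omega)
  rw [div_le_iff₀ δ0] at E1
  have s1 : 15 * Real.log v ≤ δ * L := by rw [hLE]; nlinarith
  have L1 : 1 ≤ L := by nlinarith
  have L0 : 0 < L := one_pos.trans_le L1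
  have lL : 0 < l * L := mul_pos l0 L0
  have s2 : 2 * L ≤ δ * v := by
    have := hv2 v (by omega)
    rw [pow_one, div_mul_eq_mul_div, div_le_iff₀ δ0] at this
    rw [hLE]; linarith
  have vy : (v : ℝ) ≤ y := by exact_mod_cast Q4.trans Q3
  have s3 : (1 + L) / y ≤ δ := by rw [div_le_iff₀ (by linarith)]; nlinarith
  have s4 : y * L / (N : ℝ) ^ (9 / 10 : ℝ) ≤ 1 := by
    rw [div_le_one (by positivity)]
    refine le_trans ?_ (yN 2 _ (by norm_num))
    rw [sq]; gcongr; nlinarith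
  have s5 : Real.log (2 * v) ≤ δ * L := by
    rw [Real.log_mul (by norm_num) (by positivity)]; linarith [Real.log_two_lt_d9]
  have s6 : v * (1 / t + 1) ≤ Nl N := by
    refine le_trans ?_ (yN 2 _ (by norm_num))
    have : 1 / t + 1 ≤ v := (Nat.le_ceil _).trans (by exact_mod_cast (by omega))
    rw [sq]; gcongr; linarith
  have s7 : (y : ℝ) ≤ zz N := yN1 _ (by norm_num)
  have s8 : (N : ℝ) ^ (-(1 / 20000) : ℝ) ≤ 1 / (v : ℝ) ^ 8 := by
    rw [Real.rpow_neg (by linarith), ← one_div]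
    exact one_div_le_one_div_of_le (by positivity) (le_trans (by exact_mod_cast Q3) (yN1 _ le_rfl))
  have L7 : Real.log (7 * N) ≤ 2 * L := by
    have h3 : Real.log 7 ≤ L := Real.log_le_log (by norm_num) (by
      have : 3 ^ 8 ≤ v ^ 8 := Nat.pow_le_pow_left v3 8
      exact_mod_cast (by omega))
    rw [Real.log_mul (by norm_num) (by positivity)]; linarith
  have L70 : 0 ≤ Real.log (7 * N) := Real.log_nonneg (by linarith)
  -- the weights
  obtain ⟨μ1, μ2, μ3, ch, lev2, hT, m1, m2, m3, hch⟩ := h2 N (v ^ 8) (by omega) (by omega)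
    (le_trans (by exact_mod_cast Q3) s7)
  obtain ⟨cf, hS⟩ := hS N (by omega)
  have cf1 : Cf N 1 (ck N) := ⟨fun k => ⟨(cf.1 k).1, (le_abs_self _).trans (cf.2.1 k).1⟩, cf.2⟩
  obtain ⟨s⟩ := hk0 m (v ^ 8) (GP a (v ^ 8)) (by omega) fun p hp => ⟨(mem_GP.1 hp).2.1, (mem_GP.1 hp).1⟩
  rw [← hs0] at s
  obtain ⟨g1, g2⟩ := dens (y0 := v ^ 8) hN hk (by omega) i
  have hx : ∀ n, ∀ p ∈ GP a (v ^ 8), 0 ≤ ev a b univ p n ∧ ev a b univ p n ≤ 1 :=
    fun n p _ => ⟨ev_nonneg _ _ _, ev_le_one _ _ _⟩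
  have esub : ∀ x, th2 (GP a (v ^ 8)) (fun T => s.up T - s.lo T) x =
      th2 (GP a (v ^ 8)) s.up x - th2 (GP a (v ^ 8)) s.lo x := fun x => by
    simp only [th2, sub_mul, sum_sub_distrib]
  have sup2 : ∀ T ⊆ GP a (v ^ 8), s.up T - s.lo T ≠ 0 → ∏ p ∈ T, p ≤ (v ^ 8) ^ s0 := fun T hT h => by
    by_cases h3 : s.up T = 0
    · exact s.supp_lo T hT fun h4 => h (by rw [h3, h4, sub_zero])
    · exact s.supp_up T hT h3
  have F1 := fun l => (hF a b _ v l hN).1 (v ^ 8) y _ _ s.up Q4 Q3 Q1 s.supp_up fun n => s.U_nonneg (hx n)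
  have F2 := (hF a b _ v i hN).1 (v ^ 8) y _ _ (fun T => s.up T - s.lo T) Q4 Q3 Q1 sup2 fun n => by
    rw [esub]; exact sub_nonneg.2 ((s.lo_le _ (hx n)).trans (s.le_up _ (hx n)))
  rw [hk] at F1 F2
  set V0 := ∏ p ∈ GP a (v ^ 8), (1 - ((k : ℝ) - 1) / (p - 1)) with hV0
  have V00 : 0 < V0 := (pow_pos (VV_pos _) _).trans_le g2
  have g3 : ∀ p ∈ GP a (v ^ 8), 0 ≤ ((k : ℝ) - 1) / (p - 1) ∧ ((k : ℝ) - 1) / (p - 1) ≤ 1 :=
    fun p hp => ⟨(g1 p hp).1, by linarith only [(g1 p hp).2.2]⟩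
  have u1 : V0 ≤ th2 (GP a (v ^ 8)) s.up (fun p => ((k : ℝ) - 1) / (p - 1)) := s.le_up _ g3
  have u2 : th2 (GP a (v ^ 8)) s.up (fun p => ((k : ℝ) - 1) / (p - 1)) ≤ (1 + t) * V0 :=
    (s.up_le _ g1).trans (mul_le_mul_of_nonneg_right (by linarith only [hm]) V00.le)
  have u3 : (1 - t) * V0 ≤ th2 (GP a (v ^ 8)) s.lo (fun p => ((k : ℝ) - 1) / (p - 1)) :=
    le_trans (mul_le_mul_of_nonneg_right (by linarith only [hm]) V00.le) (s.le_lo _ g1)
  have u4 : th2 (GP a (v ^ 8)) s.lo (fun p => ((k : ℝ) - 1) / (p - 1)) ≤ V0 := s.lo_le _ g3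
  rw [esub] at F2
  have nz : ∀ l, NeZero (a l * ∏ p ∈ PP 0 y, p) := fun l =>
    ⟨(Nat.mul_pos (hN.pos l) (prod_pos fun p hp => (PP_prime hp).pos)).ne'⟩
  have hex' : ∀ lam, (∀ n, χ0 n = 0) ∨ ∃ χ : RC, χ0 = χ.χ ∧ χ.r ∣ a i * ∏ p ∈ PP 0 y, p ∧
      χ.r ≤ v ^ e ∧ ∀ m, FL a b i (GP a (v ^ 8)) lam m ≠ 0 → χ0 m = -1 := fun lam =>
    hex.imp_right fun ⟨χ, e1, e2, e3, _⟩ => ⟨χ, e1, e2.mul_right _,
      ((Nat.le_of_dvd (hN.pos i) e2).trans (hN.le i)).trans Q5, fun m hm => by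
        have h3 : m % a i = b i := by_contra fun h => hm (if_neg h)
        rw [e1, ← e3, ← h3]
        exact χ.of_modEq ((Nat.mod_modEq m (a i)).symm.of_dvd e2)⟩
  have K1 := abs_le.1 ((hU1 φ1 _ _ δ b1 (by norm_num) (by norm_num) _ y _ U N _ _ χ0 (by omega) hy
    (by omega) hNy (F1 i) hGd).1 (hex' _))
  have K2 := abs_le.1 ((hU1 φ1 _ _ δ b1 (by norm_num) (by norm_num) _ y _ U N _ _ χ0 (by omega) hy
    (by omega) hNy F2 hGd).1 (hex' _))
  have K3 := fun e' h => (hU2 φ2 _ _ δ b2 (by linarith only [δ1]) (by linarith only [δ1]) _ y _ U N _ _ χ0 (by omega) hy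
    (by omega) hNy (F1 j) hGd).2 e' _ _ h cf
  obtain ⟨W1, W2, W3, -, W5⟩ := hW φ1 _ _ δ H1 N y b1 (by norm_num) (by norm_num) (by norm_num) δ0.le
    (by omega) (by omega)
  obtain ⟨W6, -, -, W7, -⟩ := hW φ2 _ _ δ H2 N y b2 (by linarith only [δ1]) (by linarith only [δ0])
    (by linarith only [δ1]) δ0.le
    (by omega) (by omega)
  replace W7 := W7 _ _ cf
  rw [← hL'] at K1 K2 K3 W1 W2 W3 W5 W6 W7
  set Ψ := ∑ m ∈ range N, Λ m * ri y m * wt φ1 L m * (1 - χ0 m) with hΨ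
  have P1 : Ψ ≤ 2 * (l * L + 14) := by
    rw [hl]
    refine le_trans ?_ (mul_le_mul_of_nonneg_left (W2.trans_eq (by norm_num)) (by norm_num))
    rw [mul_sum]
    refine sum_le_sum fun m _ => ?_
    have a1 : 1 - χ0 m ≤ 2 := by
      rcases hex with h | ⟨χ, e1, -⟩
      · rw [h]; norm_num
      · rw [e1]; linarith only [χ.neg_one_le m]
    have a2 := wt_nonneg b1 L m
    have a3 : 0 ≤ Λ m := ArithmeticFunction.vonMangoldt_nonneg
    have a4 := ri_bd y m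
    calc _ ≤ Λ m * ri y m * wt φ1 L m * 2 :=
          mul_le_mul_of_nonneg_left a1 (mul_nonneg (mul_nonneg a3 a4.1) a2)
      _ ≤ Λ m * 1 * wt φ1 L m * 2 := mul_le_mul_of_nonneg_right (mul_le_mul_of_nonneg_right
          (mul_le_mul_of_nonneg_left a4.2 a3) a2) zero_le_two
      _ = _ := by ring
  have tL : δ * L = t * (l * L) := by rw [hδ]; ring
  have W3' : l * L * (1 - 3 * t) ≤ ∑ m ∈ range N, Λ m * ri y m * wt φ1 L m := by
    refine le_trans ?_ W3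
    rw [hl] at tL ⊢
    linarith only [tL, s1, s4, s5, lv]
  obtain ⟨e', he', P2⟩ : ∃ e' : ℝ, (e' = 1 ∨ e' = 0 ∧ ∀ n, χ0 n = 0) ∧
      (1 + e') * (l * L * (1 - 5 * t)) ≤ Ψ := by
    have a0 : 0 ≤ t * (l * L) := (mul_pos t0 lL).le
    rcases hex with h | ⟨χ, e1, e2, -, e4⟩
    · refine ⟨0, Or.inr ⟨rfl, h⟩, ?_⟩
      simp only [hΨ, h, sub_zero, mul_one]
      linarith only [a0, W3']
    · refine ⟨1, Or.inl rfl, ?_⟩
      have a1 := W5 χ (((Nat.le_of_dvd (hN.pos i) e2).trans (hN.le i)).trans (Q4.trans Q3))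
      have a2 : Ψ = 2 * ∑ m ∈ range N, Λ m * ri y m * wt φ1 L m -
          ∑ m ∈ range N, Λ m * ri y m * wt φ1 L m * (1 + χ.χ m) := by
        rw [mul_sum, ← sum_sub_distrib, hΨ, e1]; exact sum_congr rfl fun m _ => by ring
      have a3 := mul_le_mul_of_nonneg_left (add_le_add e4 s3) (mul_pos two_pos L0).le
      linarith only [a0, a1, a2, a3, W3', tL, s4, s1, lv]
  have e'0 : 0 ≤ e' := by rcases he' with h | ⟨h, -⟩ <;> rw [h] <;> norm_num
  replace K3 := K3 e' he'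
  have ti : (0 : ℝ) < (a i).totient := by exact_mod_cast Nat.totient_pos.2 (hN.pos i)
  have tj : (0 : ℝ) < (a j).totient := by exact_mod_cast Nat.totient_pos.2 (hN.pos j)
  have ai : (1 : ℝ) ≤ a i := by exact_mod_cast hN.pos i
  set r := (1 + t) * ((a j : ℝ) / a i) with hr
  have r00 : (0 : ℝ) ≤ (a j : ℝ) / a i := div_nonneg (Nat.cast_nonneg _) (Nat.cast_nonneg _)
  have r0 : 0 ≤ r := mul_nonneg (add_pos one_pos t0).le r00
  have r1 : r ≤ 2 * v := mul_le_mul (by linarith only [t1]) ((div_le_self (Nat.cast_nonneg _) ai).trans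
    (by exact_mod_cast hN.le j)) r00 (by norm_num)
  have H0 : 0 ≤ Hc N (ck N) := sum_nonneg fun k _ => div_nonneg (cf.1 k).1 (Nat.cast_nonneg k)
  have σ0 : 0 ≤ 1 + e' := add_nonneg zero_le_one e'0
  have fin := final (u := V0 / (a i).totient) (σ := 1 + e') L0 L70 L7 (div_pos V00 ti).le
    (le_add_of_nonneg_right e'0) l0.le t0.le t1 t2 c00.le m1 m2 m3 H0 hch
    (S1 := ∑ m ∈ range N, Λ m * ri y m * wt φ1 L m * FL a b i (GP a (v ^ 8)) s.up m)
    (S2 := ∑ m ∈ range N, Λ m * ri y m * wt φ1 L m *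
      FL a b i (GP a (v ^ 8)) (fun T => s.up T - s.lo T) m)
    (S3 := r * ∑ m ∈ range N, bet (ck N) m * ri y m * wt φ2 L m * FL a b j (GP a (v ^ 8)) s.up m)
    (by
      have a1 : (1 + e') * (l * L * (1 - 6 * t)) ≤ Ψ - δ / 40 * L := by
        linarith only [P2, tL, mul_nonneg e'0 (mul_pos t0 lL).le, mul_pos t0 lL]
      have a2 := mul_le_mul (div_le_div_of_nonneg_right u1 ti.le) a1
        (mul_nonneg σ0 (mul_nonneg lL.le (by linarith only [t1])))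
        (div_nonneg (V00.le.trans u1) ti.le)
      linarith only [K1.1, a2])
    (by
      have a1 : Ψ + δ / 40 * L ≤ (1 + e') * (l * L * 3) := by
        linarith only [P1, tL, s1, lv, lL, mul_nonneg e'0 lL.le, mul_le_mul_of_nonneg_right t1 lL.le]
      have a0 : 0 ≤ (1 + e') * (l * L * (1 - 5 * t)) :=
        mul_nonneg σ0 (mul_nonneg lL.le (by linarith only [t1]))
      have a2 := mul_le_mul (div_le_div_of_nonneg_right (show _ ≤ 2 * t * V0 from
        (sub_le_sub u2 u3).trans_eq (by ring)) ti.le) a1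
        (add_nonneg (a0.trans P2) (mul_pos (div_pos δ0 (by norm_num)) L0).le)
        (div_pos (mul_pos (mul_pos two_pos t0) V00) ti).le
      have a3 : 2 * t * V0 / (a i).totient * ((1 + e') * (l * L * 3)) =
          V0 / (a i).totient * (1 + e') * l * L * (6 * t) := by ring
      linarith only [K2.2, a2, a3])
    (by
      have a1 : (99997 / 100000 + 2 * δ - (99993 / 100000 - 2 * δ)) * L + 14 ≤ l * L * (1 + 5 * t) := by
        rw [hl] at tL ⊢; linarith only [tL, s1, lv]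
      have a2 : δ / 40 * (20 / L) * L = t * l / 2 := by
        rw [mul_assoc, div_mul_cancel₀ _ L0.ne', hδ]; ring
      rw [a2] at K3
      have a3 := W7.trans (mul_le_mul_of_nonneg_left a1 H0)
      refine (mul_le_mul_of_nonneg_left (K3.trans (mul_le_mul (div_le_div_of_nonneg_right u2 tj.le)
        (add_le_add_left (mul_le_mul_of_nonneg_left a3 σ0) _) ?_
        (div_pos (mul_pos (add_pos one_pos t0) V00) tj).le))
        r0).trans (le_of_eq ?_)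
      · refine add_nonneg (mul_nonneg σ0 (sum_nonneg fun m _ => mul_nonneg
          (sum_nonneg fun k _ => mul_nonneg (cf.1 k).1 ArithmeticFunction.vonMangoldt_nonneg)
          (wt_nonneg b2 _ _))) (half_pos (mul_pos t0 l0)).le
      · rw [div_eq_mul_one_div V0 ((a i).totient : ℝ), ← tot hN i j, hr]; ring)
  -- large conductors
  have R1 := wt_range b1 (show 2 ≤ N by omega) (by norm_num) (by norm_num)
  have R2 := wt_range b2 (show 2 ≤ N by omega) (by linarith only [δ1]) (by linarith only [δ1])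
  have ub := fun (i j : ι) (hij : i ≠ j) lam h1 h2 w g μ' H => useBig hG hF hN hk (by omega) (by omega)
    (by omega) (by omega) (Q1.trans Q2) (yN1 _ (by norm_num)) (by omega) (by omega) hij (lam := lam)
    h1 h2 (w := w) (g := g) (μ' := μ') (H := H)
  have up2 : ∀ T, |s.up T| ≤ 2 := fun T => (s.abs_up T).trans one_le_two
  have B1 := abs_le.1 (ub i j hij _ up2 s.supp_up _ _ _ _ R1 W1 (Or.inl rfl) ch.1)
  have B2 := abs_le.1 (ub i j hij _ (fun T => (abs_sub _ _).trans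
    (by linarith only [s.abs_up T, s.abs_lo T])) sup2 _ _ _ _ R1 W1 (Or.inl rfl) lev2)
  have B3 := mul_le_mul_of_nonneg_left (abs_le.1 (ub j i hij.symm _ up2 s.supp_up _ _ _ _ R2 W6
    (Or.inr ⟨_, rfl, cf1⟩) ch.2.1)).2 (mul_nonneg (div_nonneg L70 zero_le_two) r0)
  have pt := sum_le_sum (s := range N) fun n hn => point hN (by omega) s ch hT hS (fun k => (cf.1 k).1)
    Q4 s7 (Real.rpow_lt_rpow_of_exponent_lt N1' (by norm_num)) (by omega) (wt_nonneg b1 L _)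
    (wt_nonneg b2 L _) r0 i j n (fun h => by
      obtain ⟨a1, a2, a3⟩ := window hN b1 b2 (by omega) (by norm_num) (by norm_num) t0 s5 s6 i j h
      exact ⟨a1, R1 _ h, R2 _ a2, a3⟩) (hno n (mem_range.1 hn).le)
  rw [sum_sub_distrib, sum_sub_distrib, sum_add_distrib, ← mul_sum, ← mul_sum, ← mul_sum] at pt
  have D1 := mul_le_mul_of_nonneg_left (sum_bad hN b1 (show 1 ≤ y by omega) (fun m h => (R1 m h).2) i)
    L0.le
  have D2 := mul_le_mul_of_nonneg_left (sum_bad hN b2 (show 1 ≤ y by omega) (fun m h => (R2 m h).2) j)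
    (mul_nonneg L0.le r0)
  have A00 : 0 < CM * ((8 : ℕ) * Real.log v) :=
    mul_pos (one_pos.trans_le one_le_CM) (mul_pos (by norm_num) (one_pos.trans_le lv))
  have A0 : 0 < (CM * 8 * Real.log v) ^ (2 * k) := pow_pos (by rw [mul_assoc]; exact_mod_cast A00) _
  have er := errs (jj := jj) CB0.le b1.one_le b2.one_le L1 L7 r0 r1 (by linarith only [v3'])
    (show (v : ℝ) ^ 8 ≤ y by exact_mod_cast Q3) (Real.rpow_nonneg (Nat.cast_nonneg _) _) s8 (mul_pos l0 c00) A0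
    (le_trans (le_of_eq (by rw [hLE]; ring)) (hv1 v (by omega)))
  have lo : 1 / (v * (CM * 8 * Real.log v) ^ (2 * k)) ≤ V0 / (a i).totient := by
    have a1 := inv_VV_le (v ^ 8) (by omega)
    rw [Nat.cast_pow, Real.log_pow, inv_le_comm₀ (VV_pos _) A00] at a1
    rw [mul_comm (v : ℝ), ← div_div]
    refine div_le_div₀ V00.le (le_trans ?_ ((pow_le_pow_left₀ (inv_pos.2 A00).le a1 _).trans g2)) ti
      (by exact_mod_cast (Nat.totient_le _).trans (hN.le i))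
    rw [one_div, inv_pow, mul_assoc]; norm_num
  have lo2 := mul_le_mul_of_nonneg_right lo (mul_pos l0 c00).le
  rw [← hL', Nat.cast_pow] at B1 B2 B3
  rw [← hL'] at pt D1 D2
  linarith only [B1.1, B2.2, B3, pt, D1, D2, er, lo2, fin]

end Pool.Agent.P.MP_746f10_nt.UC
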