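import Pool.Agent.P.MP_746f10_nt.UC.Defs

/-! The Selberg upper bound sieve with at most two primes left out. -/

namespace Pool.Agent.P.MP_746f10_nt.UC

open Finset

namespace SelP

lemma TT_le {z : ℕ} (hz : 2 ≤ z) {E : Finset ℕ} (hE : E.card ≤ 2) (h : ∀ p ∈ E, z < p) :
    (1 - 2 / (z : ℝ)) * TT (fun p : ℕ => p) E ≤ 1 := by
  have hz' : (2 : ℝ) ≤ z := by exact_mod_cast hz
  have h0 := one_sub_inv_pos hz'
  have h1 : (1 - 1 / (z : ℝ)) ^ E.card ≤ ∏ p ∈ E, (1 - 1 / (p : ℝ)) := by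
    rw [← prod_const]
    refine prod_le_prod (fun _ _ => h0.le) fun p hp => ?_
    have : (z : ℝ) ≤ p := by exact_mod_cast (h p hp).le
    linarith [one_div_le_one_div_of_le (by linarith) this]
  have h2 : 1 - 2 / (z : ℝ) ≤ (1 - 1 / (z : ℝ)) ^ E.card := by
    have k : (0 : ℝ) ≤ 1 / z := by positivity
    have h3 := pow_le_pow_of_le_one h0.le (by linarith) hE
    have e : 2 / (z : ℝ) = 2 * (1 / z) := by ring
    nlinarith [mul_nonneg k k]
  unfold TT
  rw [prod_inv_distrib, ← div_eq_mul_inv, div_le_one (lt_of_lt_of_le (pow_pos h0 _) h1)]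
  exact h2.trans h1

lemma hh_le_mul (z ξ : ℕ) (E : Finset ℕ) : hh z ξ ξ ≤
    (∑ U ∈ (PP z ξ \ E).powerset, (if dd (fun p : ℕ => p) U ≤ ξ then 1 else 0) *
      ph (fun p : ℕ => p) U) * TT (fun p : ℕ => p) (PP z ξ ∩ E) := by
  have two : ∀ p ∈ PP z ξ, 2 ≤ p := fun p hp => (PP_prime hp).two_le
  rw [TT_eq fun p hp => two p (mem_inter.1 hp).1, sum_mul_sum, hh]
  conv_lhs => rw [← sdiff_union_inter (PP z ξ) E]
  rw [sum_powerset_union (disjoint_sdiff_inter _ _)]
  refine sum_le_sum fun S hS => sum_le_sum fun T hT => ?_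
  have hS' : ∀ p ∈ S, 2 ≤ p := fun p hp => two p (mem_sdiff.1 (mem_powerset.1 hS hp)).1
  have hT' : ∀ p ∈ T, 2 ≤ p := fun p hp => two p (mem_inter.1 (mem_powerset.1 hT hp)).1
  split_ifs with h1 h2
  · rw [one_mul, prod_union ((disjoint_sdiff_inter _ _).mono (mem_powerset.1 hS)
      (mem_powerset.1 hT))]
    exact le_rfl
  · exact absurd ((dd_mono (π := fun p : ℕ => p) (fun p hp => (mem_union.1 hp).elim (hS' p) (hT' p))
      subset_union_left).trans h1) h2
  · exact mul_nonneg (mul_nonneg zero_le_one (ph_nonneg hS')) (ph_nonneg hT')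
  · simp

end SelP

open SelP in
theorem sel : S_Sel := by
  classical
  intro z ξ E A ν m M ε G hz hE hν hM hε hG hG' h
  have two : ∀ p ∈ PP z ξ \ E, 2 ≤ p := fun p hp => (PP_prime (mem_sdiff.1 hp).1).two_le
  obtain ⟨y, hy⟩ : ∃ y : Finset ℕ → ℝ, y = fun U => if dd (fun p : ℕ => p) U ≤ ξ then 1 else 0 :=
    ⟨_, rfl⟩
  obtain ⟨G', hd⟩ : ∃ G' : ℝ, G' = ∑ U ∈ (PP z ξ \ E).powerset, y U * ph (fun p : ℕ => p) U :=
    ⟨_, rfl⟩
  have e1 : diag (fun p : ℕ => p) (PP z ξ \ E) y = G' := by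
    rw [hd]
    refine sum_congr rfl fun U _ => ?_
    simp only [hy]
    split_ifs <;> simp
  have hz' : (2 : ℝ) ≤ z := by exact_mod_cast hz
  have z0 : 0 ≤ 1 - 2 / (z : ℝ) := by
    rw [sub_nonneg, div_le_one (by linarith)]; exact hz'
  have g0 : 0 ≤ G' := e1 ▸ diag_nonneg two y
  have g1 : G ≤ G' := by
    have a1 := hh_le_mul z ξ E
    have a2 := TT_le hz (E := PP z ξ ∩ E) ((card_le_card inter_subset_right).trans hE)
      fun p hp => (mem_PP.1 (mem_inter.1 hp).1).1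
    have a3 : ∑ U ∈ (PP z ξ \ E).powerset, (if dd (fun p : ℕ => p) U ≤ ξ then 1 else 0) *
      ph (fun p : ℕ => p) U = G' := by rw [hd, hy]
    rw [a3] at a1
    calc G ≤ (1 - 2 / z) * (G' * TT (fun p : ℕ => p) (PP z ξ ∩ E)) :=
          hG'.trans (mul_le_mul_of_nonneg_left ((hh_ge le_rfl).trans a1) z0)
      _ = G' * ((1 - 2 / z) * TT (fun p : ℕ => p) (PP z ξ ∩ E)) := by ring
      _ ≤ G' := mul_le_of_le_one_right g0 a2
  have q := quad_err (π := fun p : ℕ => p) two (y := y) (Y := 1) (Z := ξ)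
    (fun U _ => by simp only [hy]; split_ifs <;> simp)
    (fun U _ k => by
      by_contra k'
      exact k (by simp only [hy, if_neg k']))
    (fun W => ∑ n ∈ A, ν n * ∏ a ∈ W, dv (m n) a) (fun _ => False) (β := 0) (E := 0) hM hε le_rfl
    (by simp) fun W hW k => by
      simp only [prod_dv fun p hp => PP_prime (mem_sdiff.1 (hW hp)).1, if_false, add_zero]
      exact h W hW k
  rw [← sum_mul_FF_sq A ν _ y (B := fun n => dv (m n)) fun n a => by
    unfold dv; split_ifs <;> simp, e1] at q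
  have t1 : TT (fun p : ℕ => p) (PP z ξ \ E) ≤ Th z ξ := by
    unfold TT Th
    rw [← prod_sdiff (inter_subset_left (s₁ := PP z ξ) (s₂ := E)), sdiff_inter_self_left]
    exact le_mul_of_one_le_right (le_trans zero_le_one (one_le_TT two))
      (one_le_TT (π := fun p : ℕ => p) fun p hp => (PP_prime (mem_inter.1 hp).1).two_le)
  have t2 : TT (fun p : ℕ => p) (PP z ξ \ E) ^ 5 ≤ Th z ξ ^ 5 :=
    pow_le_pow_left₀ (le_trans zero_le_one (one_le_TT two)) t1 5
  have k1 : (∑ n ∈ A.filter (fun n => ∀ p ∈ PP z ξ \ E, ¬ p ∣ m n), ν n) * G' ^ 2 ≤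
      ∑ n ∈ A, ν n * FF (fun p : ℕ => p) (PP z ξ \ E) y (dv (m n)) ^ 2 := by
    rw [sum_mul]
    refine le_trans (le_of_eq (sum_congr rfl fun n hn => ?_))
      (sum_le_sum_of_subset_of_nonneg (filter_subset _ _) fun n hn _ =>
        mul_nonneg (hν n hn) (sq_nonneg _))
    congr 2
    rw [hd]
    refine sum_congr rfl fun U hU => ?_
    congr 1
    refine prod_congr rfl fun p hp => ?_
    rw [dv, if_neg ((mem_filter.1 hn).2 p (mem_powerset.1 hU hp))]
    simp
  have k2 : (∑ n ∈ A.filter (fun n => ∀ p ∈ PP z ξ \ E, ¬ p ∣ m n), ν n) * G' ^ 2 ≤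
      M * G' + M * ε * Th z ξ ^ 5 := by
    have := (abs_le.1 q).2
    have k3 := mul_le_mul_of_nonneg_left t2 (mul_nonneg hM hε)
    nlinarith
  have g2 : 0 < G' := hG.trans_le g1
  have th := one_le_Th z ξ
  calc _ ≤ (M * G' + M * ε * Th z ξ ^ 5) / G' ^ 2 := by
        rw [le_div_iff₀ (by positivity)]; convert k2
    _ = M * (1 / G' + ε * Th z ξ ^ 5 / G' ^ 2) := by field_simp
    _ ≤ _ := by gcongr

end Pool.Agent.P.MP_746f10_nt.UC
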