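import Pool.Agent.P.MP_746f10_nt.UC.Defs
import Pool.Agent.P.MP_0ad054_nt.Chen.Sign

/-! The switching inequality. -/

namespace Pool.Agent.P.MP_0ad054_nt.Chen

open Finset ChenP SignP
open scoped ArithmeticFunction.vonMangoldt

theorem sign2' : Pool.Agent.P.MP_746f10_nt.UC.S_Sign2 := by
  obtain ⟨N1, h1, hN1⟩ := ev_Nl
  obtain ⟨N2, hN2⟩ := sign
  obtain ⟨N3, -, hN3⟩ := ev_pow (a := 2 / 3 + 1 / 20) (b := 9999 / 10000) (by norm_num) 4
  refine ⟨max (max N1 2) (max N2 N3), fun N hN => ?_⟩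
  simp only [max_le_iff] at hN
  have hL := hN1 N hN.1.1
  have hN' : (1 : ℝ) < N := by exact_mod_cast hN.1.2
  have hck := ck_nonneg hL
  have hl := Real.log_pos hN'
  obtain ⟨c1, c2, -⟩ := hN2 N hN.2.1
  refine ⟨⟨fun k => ⟨hck k, ?_⟩, c1, c2⟩, fun a ha ha' hsq hbig hc => ?_⟩
  · by_cases h : ck N k = 0
    · rw [h]; positivity
    obtain ⟨p, hp, rfl⟩ := ck_ne h
    obtain ⟨⟨a1, -⟩, ⟨a2, -⟩, -⟩ := mem_Pr.1 hp
    have hk : (0 : ℝ) < (p.1 * p.2 : ℕ) := by exact_mod_cast Nat.mul_pos a1.pos a2.pos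
    have h2 : (N : ℝ) ^ (1 / 20 : ℝ) ≤ Nl N / (p.1 * p.2 : ℕ) := by
      rw [le_div_iff₀ hk]
      refine le_trans ?_ (hN3 N hN.2.2)
      rw [Real.rpow_add (by linarith)]
      have := mul_le_mul_of_nonneg_left (Pr_le hp) (show 0 ≤ (N : ℝ) ^ (1 / 20 : ℝ) by positivity)
      linarith
    have h3 := Real.log_le_log (by positivity) h2
    rw [Real.log_rpow (by linarith)] at h3
    rw [ck_eq hp, div_le_div_iff₀ (by linarith) hl]
    linarith
  have hbet : 0 ≤ bet (ck N) a :=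
    sum_nonneg fun k _ => mul_nonneg (hck k) ArithmeticFunction.vonMangoldt_nonneg
  have ha0 : a ≠ 0 := hsq.ne_zero
  obtain ⟨p1, p2, p3, r, q1, q2, q3, l1, l2, l3, e⟩ := split3 ha0 hc
  have hy0 := yy_nonneg N
  have hcube : (a : ℝ) < yy N ^ 3 := by
    rw [yy_cube]
    have : (a : ℝ) ≤ N := by exact_mod_cast ha'
    linarith
  have hr : 1 ≤ r := Nat.pos_of_ne_zero fun h => by rw [h, mul_zero] at e; omega
  have d1 : p1 ∣ a := ⟨p2 * p3 * r, by rw [e]; ring⟩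
  have d2 : p2 ∣ a := ⟨p1 * p3 * r, by rw [e]; ring⟩
  have m1 : p1 ∈ Qs N := by
    refine (mem_prs (zz_nonneg N)).2 ⟨q1, hbig _ q1 d1, ?_⟩
    refine (lt_of_pow_lt_pow_left₀ 3 hy0 (lt_of_le_of_lt ?_ hcube)).le
    have : p1 ^ 3 ≤ a := by
      rw [e]
      calc p1 ^ 3 = p1 * p1 * p1 * 1 := by ring
        _ ≤ _ := by gcongr; exact l1.trans l2
    exact_mod_cast this
  by_cases g2 : yy N < p2
  swap
  · have m2 : p2 ∈ Qs N := (mem_prs (zz_nonneg N)).2 ⟨q2, hbig _ q2 d2, not_lt.1 g2⟩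
    have hne : p1 ≠ p2 := fun h' => q1.prime.not_isUnit (hsq p1 ⟨p3 * r, by rw [e, ← h']; ring⟩)
    have : 2 ≤ ((Qs N).filter (fun q => q ∣ a)).card :=
      one_lt_card.2 ⟨p1, mem_filter.2 ⟨m1, d1⟩, p2, mem_filter.2 ⟨m2, d2⟩, hne⟩
    have : (2 : ℝ) ≤ ((Qs N).filter (fun q => q ∣ a)).card := by exact_mod_cast this
    linarith
  obtain rfl : r = 1 := by
    refine l3.resolve_right fun h => ?_
    have : p2 ^ 3 ≤ a := by
      rw [e]
      calc p2 ^ 3 = 1 * p2 * p2 * p2 := by ring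
        _ ≤ _ := by gcongr; exacts [q1.one_le, l2.trans h]
    have : (p2 : ℝ) ^ 3 ≤ a := by exact_mod_cast this
    have := pow_lt_pow_left₀ g2 hy0 (n := 3) (by norm_num)
    linarith
  rw [mul_one] at e
  have hPr : (p1, p2) ∈ Pr N := by
    refine mem_Pr.2 ⟨(mem_prs (zz_nonneg N)).1 m1, ⟨q2, g2, ?_⟩, ?_⟩
    · exact_mod_cast (Nat.le_of_dvd (by omega) d2).trans (by omega)
    · calc p1 * p2 ^ 2 = p1 * p2 * p2 := by ring
        _ ≤ p1 * p2 * p3 := by gcongr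
        _ ≤ _ := by omega
  have hk : (0 : ℝ) < (p1 * p2 : ℕ) := by exact_mod_cast Nat.mul_pos q1.pos q2.pos
  have t1 : 1 ≤ bet (ck N) a := by
    refine le_trans ?_ (single_le_sum (f := fun k => ck N k * Λ (a / k))
      (fun k _ => mul_nonneg (hck k) ArithmeticFunction.vonMangoldt_nonneg)
      (Nat.mem_divisors.2 ⟨⟨p3, e⟩, by omega⟩))
    have h5 := hL _ hPr
    have h6 := ck_eq hPr
    dsimp only at h5 h6 ⊢
    rw [h6, e, Nat.mul_div_cancel_left _ (Nat.mul_pos q1.pos q2.pos),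
      ArithmeticFunction.vonMangoldt_apply_prime q3, one_div_mul_eq_div, le_div_iff₀ (by linarith),
      one_mul]
    refine Real.log_le_log (by have : 0 < Nl N := by unfold Nl; positivity
                               positivity) ?_
    rw [div_le_iff₀ hk]
    have : (a : ℝ) = p3 * (p1 * p2 : ℕ) := by rw [e]; push_cast; ring
    linarith
  have : 1 ≤ ((Qs N).filter (fun q => q ∣ a)).card := card_pos.2 ⟨p1, mem_filter.2 ⟨m1, d1⟩⟩
  have : (1 : ℝ) ≤ ((Qs N).filter (fun q => q ∣ a)).card := by exact_mod_cast this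
  linarith

end Pool.Agent.P.MP_0ad054_nt.Chen

namespace Pool.Agent.P.MP_746f10_nt.UC

theorem sign2 : S_Sign2 := Pool.Agent.P.MP_0ad054_nt.Chen.sign2'

end Pool.Agent.P.MP_746f10_nt.UC
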