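import Pool.Agent.P.MP_746f10_nt.UC.Defs
import Pool.Agent.P.MP_a14ce1_nt.Ch.Mertens

/-! Mertens estimates in windows. -/

namespace Pool.Agent.P.MP_746f10_nt.UC

open Finset
open Pool.Agent.P.MP_0ad054_nt.Chen (Lev bet ck Wm Mm Hc zz Dl Nl Qs IsChen)
open scoped ArithmeticFunction.vonMangoldt
open ArithmeticFunction (vonMangoldt_nonneg vonMangoldt_le_log vonMangoldt_ne_zero_iff)

namespace WinP

lemma sum_le_of {s t : Finset ℕ} {f g : ℕ → ℝ} (hg : ∀ x ∈ t, 0 ≤ g x)
    (h : ∀ x ∈ s, f x ≠ 0 → f x ≤ 0 ∨ x ∈ t ∧ f x ≤ g x) : ∑ x ∈ s, f x ≤ ∑ x ∈ t, g x := by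
  calc _ ≤ ∑ x ∈ s, if x ∈ t then g x else 0 := by
        refine sum_le_sum fun x hx => ?_
        have h0 : 0 ≤ if x ∈ t then g x else 0 := by split_ifs with k; exacts [hg x k, le_rfl]
        by_cases h1 : f x = 0
        · rwa [h1]
        · rcases h x hx h1 with h2 | h2
          · exact h2.trans h0
          · rw [if_pos h2.1]; exact h2.2
    _ = ∑ x ∈ s ∩ t, g x := sum_ite_mem _ _ _
    _ ≤ _ := sum_le_sum_of_subset_of_nonneg inter_subset_right fun x hx _ => hg x hx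

lemma mert {x : ℝ} (hx : 1 ≤ x) :
    Real.log x - 7 ≤ ∑ n ∈ Ioc 0 ⌊x⌋₊, Λ n / n ∧ ∑ n ∈ Ioc 0 ⌊x⌋₊, Λ n / n ≤ Real.log x + 6 := by
  have h1 : 1 ≤ ⌊x⌋₊ := Nat.le_floor (by simpa using hx)
  have h1' : (1 : ℝ) ≤ ⌊x⌋₊ := by exact_mod_cast h1
  have h2 := abs_le.1 (Pool.Agent.P.MP_a14ce1_nt.Ch.Mertens.mertens_vm h1)
  have h3 : Real.log ⌊x⌋₊ ≤ Real.log x :=
    Real.log_le_log (by linarith) (Nat.floor_le (by linarith))
  have h4 : Real.log x ≤ Real.log (2 * ⌊x⌋₊) :=
    Real.log_le_log (by linarith) (by linarith [Nat.lt_floor_add_one x])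
  rw [Real.log_mul (by norm_num) (by linarith)] at h4
  have h5 := Real.log_two_lt_d9
  constructor <;> linarith [h2.1, h2.2]

lemma window {A B : ℝ} (hA : 1 ≤ A) (hAB : A ≤ B) :
    |∑ n ∈ Ioc ⌊A⌋₊ ⌊B⌋₊, Λ n / n - (Real.log B - Real.log A)| ≤ 13 := by
  have h1 := mert hA
  have h2 := mert (hA.trans hAB)
  have h3 := sum_Ioc_consecutive (fun n : ℕ => Λ n / n) (Nat.zero_le ⌊A⌋₊) (Nat.floor_le_floor hAB)
  rw [abs_le]
  constructor <;> linarith [h1.1, h1.2, h2.1, h2.2]

variable {φ : ℝ → ℝ} {α β δ H : ℝ} {N : ℕ}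

lemma one_lt_log (hN : 3 ≤ N) : 1 < Real.log N := by
  have h : (3 : ℝ) ≤ N := by exact_mod_cast hN
  rw [Real.lt_log_iff_exp_lt (by linarith)]
  linarith [Real.exp_one_lt_d9]

lemma wt_bd (h : Bump φ α β δ H) (L : ℝ) (m : ℕ) : 0 ≤ wt φ L m ∧ wt φ L m ≤ 1 / m :=
  ⟨div_nonneg (h.nn _) (Nat.cast_nonneg _),
    div_le_div_of_nonneg_right (h.le _) (Nat.cast_nonneg _)⟩

lemma wt_supp (h : Bump φ α β δ H) (hN : 3 ≤ N) {m : ℕ} (hm : wt φ (Real.log N) m ≠ 0) :
    (N : ℝ) ^ α < m ∧ (m : ℝ) < (N : ℝ) ^ β := by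
  have hL := one_lt_log hN
  have hN0 : (0 : ℝ) < N := by exact_mod_cast (by omega : 0 < N)
  obtain ⟨h1, h2⟩ := div_ne_zero_iff.1 hm
  have hm0 : (0 : ℝ) < m := lt_of_le_of_ne (Nat.cast_nonneg _) h2.symm
  obtain ⟨h3, h4⟩ := h.supp _ h1
  rw [lt_div_iff₀ (by linarith)] at h3
  rw [div_lt_iff₀ (by linarith)] at h4
  rw [Real.rpow_def_of_pos hN0, Real.rpow_def_of_pos hN0, ← Real.lt_log_iff_exp_lt hm0,
    ← Real.log_lt_iff_lt_exp hm0]
  constructor <;> linarith

lemma upper (h : Bump φ α β δ H) (hN : 3 ≤ N) (hαβ : α ≤ β) {k : ℕ} (hk : 1 ≤ k)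
    (hk' : (k : ℝ) ≤ (N : ℝ) ^ α) (S : Finset ℕ) :
    ∑ l ∈ S, Λ l * wt φ (Real.log N) (k * l) ≤ 1 / k * ((β - α) * Real.log N + 14) := by
  have hN1 : (1 : ℝ) ≤ N := by exact_mod_cast (by omega : 1 ≤ N)
  have hk0 : (0 : ℝ) < k := by exact_mod_cast hk
  have hA : 1 ≤ (N : ℝ) ^ α / k := (one_le_div hk0).2 hk'
  have hAB : (N : ℝ) ^ α / k ≤ (N : ℝ) ^ β / k :=
    div_le_div_of_nonneg_right (Real.rpow_le_rpow_of_exponent_le hN1 hαβ) hk0.le
  have h1 := (abs_le.1 (window hA hAB)).2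
  rw [Real.log_div (by positivity) hk0.ne', Real.log_div (by positivity) hk0.ne',
    Real.log_rpow (by linarith), Real.log_rpow (by linarith)] at h1
  calc _ ≤ ∑ l ∈ Ioc ⌊(N : ℝ) ^ α / k⌋₊ ⌊(N : ℝ) ^ β / k⌋₊, 1 / k * (Λ l / l) := by
        refine sum_le_of (fun l _ => mul_nonneg (by positivity)
          (div_nonneg vonMangoldt_nonneg (Nat.cast_nonneg _))) fun l _ hl => Or.inr ⟨?_, ?_⟩
        · obtain ⟨h2, h3⟩ := wt_supp h hN (right_ne_zero_of_mul hl)
          push_cast at h2 h3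
          refine mem_Ioc.2 ⟨(Nat.floor_lt (by linarith)).2 ?_, Nat.le_floor ?_⟩
          · rw [div_lt_iff₀ hk0]; linarith
          · rw [le_div_iff₀ hk0]; linarith
        · have := mul_le_mul_of_nonneg_left (wt_bd h (Real.log N) (k * l)).2
            (vonMangoldt_nonneg (n := l))
          refine this.trans (le_of_eq ?_)
          push_cast
          ring
    _ ≤ _ := by
        rw [← mul_sum]
        exact mul_le_mul_of_nonneg_left (by linarith) (by positivity)

lemma wt_lt (h : Bump φ α β δ H) (hN : 3 ≤ N) (hβ : β ≤ 1) {m : ℕ}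
    (hm : wt φ (Real.log N) m ≠ 0) : m < N := by
  have hN1 : (1 : ℝ) ≤ N := by exact_mod_cast (by omega : 1 ≤ N)
  have h1 := (wt_supp h hN hm).2.trans_le (Real.rpow_le_rpow_of_exponent_le hN1 hβ)
  rw [Real.rpow_one] at h1
  exact_mod_cast h1

lemma lower (h : Bump φ α β δ H) (hN : 3 ≤ N) (hα : 0 ≤ α) (hβ : β ≤ 1) (hδ : 0 ≤ δ)
    (hab : α + δ ≤ β - δ) :
    (β - α - 2 * δ) * Real.log N - 14 ≤ ∑ m ∈ range N, Λ m * wt φ (Real.log N) m := by
  have hN1 : (1 : ℝ) ≤ N := by exact_mod_cast (by omega : 1 ≤ N)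
  have hL := one_lt_log hN
  have hA : 1 ≤ (N : ℝ) ^ (α + δ) := Real.one_le_rpow hN1 (by linarith)
  have hAB := Real.rpow_le_rpow_of_exponent_le hN1 hab
  have h1 := (abs_le.1 (window hA hAB)).1
  rw [Real.log_rpow (by linarith), Real.log_rpow (by linarith)] at h1
  refine le_trans (by linarith) (sum_le_of (s := Ioc ⌊(N : ℝ) ^ (α + δ)⌋₊ ⌊(N : ℝ) ^ (β - δ)⌋₊)
    (f := fun n => Λ n / n) (fun m _ => mul_nonneg vonMangoldt_nonneg (wt_bd h _ _).1)
    fun m hm _ => Or.inr ?_)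
  obtain ⟨h2, h3⟩ := mem_Ioc.1 hm
  rw [Nat.floor_lt (by linarith)] at h2
  rw [Nat.le_floor_iff (by linarith)] at h3
  have hm0 : (0 : ℝ) < m := by linarith
  have h4 := Real.log_le_log (by linarith) h2.le
  have h5 := Real.log_le_log hm0 h3
  rw [Real.log_rpow (by linarith)] at h4 h5
  have h6 : wt φ (Real.log N) m = 1 / m := by
    rw [wt, h.one _ ((le_div_iff₀ (by linarith)).2 h4) ((div_le_iff₀ (by linarith)).2 h5)]
  refine ⟨mem_range.2 (wt_lt h hN hβ (by rw [h6]; positivity)), le_of_eq ?_⟩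
  rw [h6]
  ring

lemma sum_dvd_le {p : ℕ} (hp : p.Prime) (hN : 1 ≤ N) :
    ∑ m ∈ range N, (if p ∣ m then Λ m else 0) ≤ Real.log N := by
  have h1 : ∑ m ∈ range N, (if p ∣ m then Λ m else 0) ≤ ∑ d ∈ (p ^ Nat.log p N).divisors, Λ d := by
    refine sum_le_of (fun _ _ => vonMangoldt_nonneg) fun m hm h => Or.inr ?_
    have h2 : p ∣ m := by by_contra k; exact h (if_neg k)
    rw [if_pos h2] at h ⊢
    obtain ⟨q, j, hq, hj, rfl⟩ := (isPrimePow_nat_iff m).1 (vonMangoldt_ne_zero_iff.1 h)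
    obtain rfl := (Nat.prime_dvd_prime_iff_eq hp hq).1 (hp.dvd_of_dvd_pow h2)
    exact ⟨Nat.mem_divisors.2 ⟨pow_dvd_pow _ (Nat.le_log_of_pow_le hp.one_lt (mem_range.1 hm).le),
      pow_ne_zero _ hp.ne_zero⟩, le_rfl⟩
  rw [ArithmeticFunction.vonMangoldt_sum] at h1
  refine h1.trans (Real.log_le_log (by exact_mod_cast pow_pos hp.pos _) ?_)
  exact_mod_cast Nat.pow_log_le_self p (by omega)

lemma loss (hN : 1 ≤ N) (y : ℕ) : ∑ m ∈ range N, Λ m * (1 - ri y m) ≤ y * Real.log N := by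
  calc _ ≤ ∑ m ∈ range N, ∑ p ∈ PP 0 y, if p ∣ m then Λ m else 0 := by
        refine sum_le_sum fun m _ => ?_
        have h0 : ∀ p ∈ PP 0 y, 0 ≤ if p ∣ m then Λ m else 0 := fun p _ => by
          split_ifs; exacts [vonMangoldt_nonneg, le_rfl]
        unfold ri
        split_ifs with h
        · simpa only [sub_self, mul_zero] using sum_nonneg h0
        · simp only [rough, not_forall, not_lt] at h
          obtain ⟨p, h1, h2, h3⟩ := h
          refine le_trans ?_ (single_le_sum h0 (mem_PP.2 ⟨h1.pos, h3, h1⟩))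
          rw [if_pos h2, sub_zero, mul_one]
    _ = ∑ p ∈ PP 0 y, ∑ m ∈ range N, if p ∣ m then Λ m else 0 := sum_comm
    _ ≤ (PP 0 y).card • Real.log N :=
        sum_le_card_nsmul _ _ _ fun p hp => sum_dvd_le (PP_prime hp) hN
    _ ≤ _ := by
        rw [nsmul_eq_mul]
        refine mul_le_mul_of_nonneg_right ?_ (Real.log_natCast_nonneg N)
        have : (PP 0 y).card ≤ y := (card_filter_le _ _).trans (by simp)
        exact_mod_cast this

lemma step (h : Bump φ α β δ H) (hN : 3 ≤ N) {t : ℕ} (ht : 1 ≤ t) :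
    |wt φ (Real.log N) (t + 1) - wt φ (Real.log N) t| ≤ (H + 1) / (t : ℝ) ^ 2 := by
  have hL := one_lt_log hN
  have hH := h.one_le
  have ht0 : (0 : ℝ) < t := by exact_mod_cast ht
  unfold wt
  push_cast
  set u := Real.log (t + 1) / Real.log N
  set v := Real.log t / Real.log N
  have h1 : |u - v| ≤ 1 / t := by
    have h2 : Real.log (t + 1) - Real.log t ≤ 1 / t := by
      rw [← Real.log_div (by linarith) ht0.ne']
      refine (Real.log_le_sub_one_of_pos (by positivity)).trans (le_of_eq ?_)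
      field_simp
      ring
    have h3 : 0 ≤ Real.log (t + 1) - Real.log t :=
      sub_nonneg.2 (Real.log_le_log ht0 (by linarith))
    rw [← sub_div, abs_of_nonneg (div_nonneg h3 (by linarith))]
    exact (div_le_self h3 hL.le).trans h2
  have h4 : |φ u - φ v| ≤ H / t :=
    (h.lip u v).trans ((mul_le_mul_of_nonneg_left h1 (by linarith)).trans (le_of_eq (by ring)))
  have h5 : φ u / (t + 1) - φ v / t = ((φ u - φ v) - φ v / t) / (t + 1) := by
    field_simp
    ring
  have h6 : |φ v / t| ≤ 1 / t := by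
    rw [abs_of_nonneg (div_nonneg (h.nn v) ht0.le)]
    exact div_le_div_of_nonneg_right (h.le v) ht0.le
  rw [h5, abs_div, abs_of_pos (by linarith : (0 : ℝ) < t + 1)]
  calc _ ≤ (H / t + 1 / t) / t :=
        div_le_div₀ (by positivity) ((abs_sub _ _).trans (add_le_add h4 h6)) ht0 (by linarith)
    _ = _ := by field_simp

end WinP

open WinP in
theorem win : S_Win := by
  intro φ α β δ H N y h hα hαβ hβ hδ hN hy
  have hN1 : (1 : ℝ) ≤ N := by exact_mod_cast (by omega : 1 ≤ N)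
  have hL := one_lt_log hN
  have h9 := Real.rpow_le_rpow_of_exponent_le hN1 hα
  have h90 : (0 : ℝ) < (N : ℝ) ^ (9 / 10 : ℝ) := by positivity
  have hw := wt_bd h (Real.log N)
  refine ⟨fun t ht => step h hN ht, ?_, ?_, fun B c hc => ?_, fun χ hχ => ?_⟩
  · simpa using upper h hN hαβ le_rfl
      (by simpa using Real.one_le_rpow hN1 (by linarith : 0 ≤ α)) (range N)
  · have h0 : 0 ≤ y * Real.log N / (N : ℝ) ^ (9 / 10 : ℝ) := by positivity
    rcases le_or_gt (α + δ) (β - δ) with hab | hab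
    · have h1 := lower h hN (by linarith) hβ hδ hab
      have h2 : ∑ m ∈ range N, Λ m * (1 - ri y m) * wt φ (Real.log N) m ≤
          y * Real.log N / (N : ℝ) ^ (9 / 10 : ℝ) := by
        refine le_trans ?_ (div_le_div_of_nonneg_right (loss (by omega) y) h90.le)
        rw [sum_div]
        refine sum_le_sum fun m _ => ?_
        rw [div_eq_mul_one_div]
        refine mul_le_mul_of_nonneg_left ?_
          (mul_nonneg vonMangoldt_nonneg (sub_nonneg.2 (ri_bd y m).2))
        by_cases k : wt φ (Real.log N) m = 0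
        · rw [k]; positivity
        · exact (hw m).2.trans (one_div_le_one_div_of_le h90 (h9.trans (wt_supp h hN k).1.le))
      have h3 : ∑ m ∈ range N, Λ m * ri y m * wt φ (Real.log N) m =
          ∑ m ∈ range N, Λ m * wt φ (Real.log N) m -
            ∑ m ∈ range N, Λ m * (1 - ri y m) * wt φ (Real.log N) m := by
        rw [← sum_sub_distrib]
        exact sum_congr rfl fun m _ => by ring
      linarith
    · refine le_trans ?_ (sum_nonneg fun m _ =>
        mul_nonneg (mul_nonneg vonMangoldt_nonneg (ri_bd y m).1) (hw m).1)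
      have : (β - α - 2 * δ) * Real.log N ≤ 0 :=
        mul_nonpos_of_nonpos_of_nonneg (by linarith) (by linarith)
      linarith
  · simp only [bet, sum_mul, Hc]
    rw [sum_comm' (t' := Icc 1 N) (s' := fun k => (range N).filter fun m => k ∈ m.divisors)]
    · refine sum_le_sum fun k hk => ?_
      by_cases k0 : c k = 0
      · simp [k0]
      have h1 := upper h hN hαβ (mem_Icc.1 hk).1 ((((hc.2.1 k).2 k0).1).trans h9)
        (((range N).filter fun m => k ∈ m.divisors).image (· / k))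
      have hd : ∀ m ∈ (range N).filter fun m => k ∈ m.divisors, k ∣ m :=
        fun m hm => Nat.dvd_of_mem_divisors (mem_filter.1 hm).2
      rw [sum_image fun a ha b hb e => (Nat.div_left_inj (hd a ha) (hd b hb)).1 e] at h1
      calc _ = c k * ∑ m ∈ (range N).filter fun m => k ∈ m.divisors,
            Λ (m / k) * wt φ (Real.log N) (k * (m / k)) := by
            rw [mul_sum]
            exact sum_congr rfl fun m hm => by rw [Nat.mul_div_cancel' (hd m hm), mul_assoc]
        _ ≤ _ := (mul_le_mul_of_nonneg_left h1 (hc.1 k).1).trans (le_of_eq (by ring))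
    · intro m k
      simp only [mem_filter, mem_Icc]
      refine ⟨fun h1 => ⟨h1, Nat.pos_of_mem_divisors h1.2, ?_⟩, fun h1 => h1.1⟩
      exact (Nat.divisor_le h1.2).trans (mem_range.1 h1.1).le
  · have h1 : ∑ m ∈ range N, Λ m * ri y m * wt φ (Real.log N) m * (1 + χ.χ m) ≤
        ∑ m ∈ Icc 1 N, 2 * Real.log N *
          ((if m ∈ χ.Pp y N then 1 / (m : ℝ) else 0) + sqi y m / m) := by
      have p1 : ∀ m : ℕ, 0 ≤ if m ∈ χ.Pp y N then 1 / (m : ℝ) else 0 := fun m => by
        split_ifs <;> positivity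
      have p2 : ∀ m : ℕ, 0 ≤ sqi y m / m := fun m => div_nonneg (sqi_nonneg _ _) (by positivity)
      refine sum_le_of (fun m _ => mul_nonneg (by linarith) (add_nonneg (p1 m) (p2 m)))
        fun m hm h0 => Or.inr ?_
      simp only [ne_eq, mul_eq_zero, not_or] at h0
      obtain ⟨⟨⟨a1, a2⟩, -⟩, a4⟩ := h0
      have hr : rough y m := by by_contra k; exact a2 (if_neg k)
      obtain ⟨p, j, hp, hj, rfl⟩ := (isPrimePow_nat_iff m).1 (vonMangoldt_ne_zero_iff.1 a1)
      have hlt := (mem_range.1 hm).le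
      have hpos := pow_pos hp.pos j
      have hyp := hr p hp (dvd_pow_self p hj.ne')
      refine ⟨mem_Icc.2 ⟨hpos, hlt⟩, ?_⟩
      have b1 : Λ (p ^ j) ≤ Real.log N := vonMangoldt_le_log.trans
        (Real.log_le_log (by exact_mod_cast hpos) (by exact_mod_cast hlt))
      have b2 : Λ (p ^ j) * ri y (p ^ j) * wt φ (Real.log N) (p ^ j) * (1 + χ.χ (p ^ j)) ≤
          Real.log N * 1 * (1 / (p ^ j : ℕ)) * 2 := by
        have c1 := abs_le.1 (χ.abs_le (p ^ j))
        have := ri_bd y (p ^ j)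
        have := hw (p ^ j)
        gcongr
        exacts [by linarith, this.1, by tauto, by tauto, this.2, by linarith]
      refine b2.trans ?_
      rw [show Real.log N * 1 * (1 / (p ^ j : ℕ)) * 2 = 2 * Real.log N * (1 / (p ^ j : ℕ)) by ring]
      refine mul_le_mul_of_nonneg_left ?_ (by linarith)
      rcases Nat.eq_or_lt_of_le hj with rfl | hj
      · rw [Nat.succ_eq_add_one, zero_add, pow_one] at *
        have c1 : p.Coprime χ.r := (Nat.Prime.coprime_iff_not_dvd hp).2 fun k => by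
          have := Nat.le_of_dvd χ.r_pos k
          omega
        have c2 : χ.χ p = 1 := by
          rcases χ.val p with k | k | k
          exacts [(χ.ne p c1 k).elim, k, (a4 (by rw [k]; ring)).elim]
        rw [if_pos (RC.mem_Pp.2 ⟨⟨hyp, hlt, hp⟩, c2⟩)]
        exact le_add_of_nonneg_right (p2 p)
      · have c1 : sqi y (p ^ j) = 1 := if_pos ⟨p, hp, hyp, pow_dvd_pow p hj⟩
        rw [c1]
        exact le_add_of_nonneg_left (p1 _)
    refine h1.trans ?_
    rw [← mul_sum, sum_add_distrib, sum_ite_mem]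
    refine mul_le_mul_of_nonneg_left (add_le_add ?_ (sum_sqi_div_le hy N)) (by linarith)
    exact sum_le_sum_of_subset_of_nonneg inter_subset_right fun _ _ _ => by positivity

end Pool.Agent.P.MP_746f10_nt.UC
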