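import Pool.Agent.P.MP_746f10_nt.UC.Big
import Pool.Agent.P.MP_746f10_nt.UC.Big0
import Pool.Agent.P.MP_746f10_nt.UC.Bump
import Pool.Agent.P.MP_746f10_nt.UC.Chen2
import Pool.Agent.P.MP_746f10_nt.UC.Chi
import Pool.Agent.P.MP_746f10_nt.UC.Ck
import Pool.Agent.P.MP_746f10_nt.UC.Core
import Pool.Agent.P.MP_746f10_nt.UC.Det
import Pool.Agent.P.MP_746f10_nt.UC.Four
import Pool.Agent.P.MP_746f10_nt.UC.Gam
import Pool.Agent.P.MP_746f10_nt.UC.L2
import Pool.Agent.P.MP_746f10_nt.UC.Lin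
import Pool.Agent.P.MP_746f10_nt.UC.Main
import Pool.Agent.P.MP_746f10_nt.UC.Mean
import Pool.Agent.P.MP_746f10_nt.UC.Nu
import Pool.Agent.P.MP_746f10_nt.UC.Num2
import Pool.Agent.P.MP_746f10_nt.UC.Pt
import Pool.Agent.P.MP_746f10_nt.UC.RegI
import Pool.Agent.P.MP_746f10_nt.UC.Sel
import Pool.Agent.P.MP_746f10_nt.UC.Sign2
import Pool.Agent.P.MP_746f10_nt.UC.Win

/-! Assembly of the uniform Chen theorem. -/

namespace Pool.Agent.P.MP_746f10_nt.UC

theorem main_all : S_Main :=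
  main (regI bump win (core (chi l2 ckl2) mel lin) (big big0) four chen2 sign2)
    (regII (nu gam2) (det mean ptw num2 sel))

end Pool.Agent.P.MP_746f10_nt.UC
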