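import Pool.Agent.P.MP_746f10_nt.UC.Defs

/-! The linear sieve for a nonnegative function with small conductors. -/

namespace Pool.Agent.P.MP_746f10_nt.UC

open Finset

namespace LinP

variable {M : ℕ} [NeZero M]

lemma exists_cop (m : ℕ) : ∃ d, d ∣ M ∧ d.Coprime m ∧ ∀ q, q ∣ M → q.Coprime m → q ∣ d := by
  obtain ⟨d, hd, hmax⟩ := exists_max_image (M.divisors.filter (fun d => d.Coprime m)) id
    ⟨1, by simp [NeZero.ne M]⟩
  have h1 := mem_filter.1 hd
  have h2 := Nat.dvd_of_mem_divisors h1.1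
  refine ⟨d, h2, h1.2, fun q hq hc => ?_⟩
  have h3 : d.lcm q ∣ M := Nat.lcm_dvd h2 hq
  have h4 : d.lcm q ≤ d := hmax _ (mem_filter.2 ⟨Nat.mem_divisors.2 ⟨h3, NeZero.ne M⟩,
    (h1.2.mul_left hc).coprime_dvd_left (Nat.lcm_dvd_mul d q)⟩)
  have h5 : d.lcm q = d := le_antisymm h4
    (Nat.le_of_dvd (Nat.pos_of_dvd_of_pos h3 (NeZero.pos M)) (Nat.dvd_lcm_left d q))
  exact h5 ▸ Nat.dvd_lcm_right d q

lemma vanish' {κ : DirichletCharacter ℂ M} {q : ℕ} (hq : q ∣ M) (h1 : ¬ κ.FactorsThrough q)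
    {Φ : ℕ → ℂ} (hΦ : ∀ m m', m ≡ m' [MOD q] → Φ m = Φ m') :
    ∑ x ∈ range M, Φ x * κ x = 0 := by
  rw [DirichletCharacter.factorsThrough_iff_ker_unitsMap hq, SetLike.le_def] at h1
  push Not at h1
  obtain ⟨a, a1, a2⟩ := h1
  set u := (a : ZMod M).val with hu
  have hc : u.Coprime M := ZMod.val_coe_unit_coprime a
  have hu1 : u ≡ 1 [MOD q] := by
    have := congrArg Units.val (MonoidHom.mem_ker.1 a1)
    rw [ZMod.unitsMap_val, ZMod.cast_eq_val, Units.val_one] at this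
    exact (ZMod.natCast_eq_natCast_iff _ _ _).1 (by rw [Nat.cast_one]; exact this)
  have hne : κ u ≠ 1 := fun h => a2 (MonoidHom.mem_ker.2 (Units.ext (by simpa [hu] using h)))
  have hM := NeZero.pos M
  have hm' : ∀ n ∈ range M, (u * n) % M ∈ range M := fun n _ => mem_range.2 (Nat.mod_lt _ hM)
  have hi : Set.InjOn (fun n => (u * n) % M) (range M : Set ℕ) := fun n hn n' hn' h =>
    Nat.ModEq.eq_of_lt_of_lt (Nat.ModEq.cancel_left_of_coprime (c := u) hc.symm h)
      (by simpa using hn) (by simpa using hn')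
  have := sum_nbij (s := range M) (t := range M)
    (f := fun n => κ u * (Φ n * κ n)) (g := fun n => Φ n * κ n)
    (fun n => (u * n) % M) hm' hi (surjOn_of_injOn_of_card_le _ hm' hi le_rfl)
    (fun n _ => by
      rw [hΦ (u * n % M) n (((Nat.mod_modEq _ _).of_dvd hq).trans (by simpa using hu1.mul_right n)),
        ZMod.natCast_mod, Nat.cast_mul, map_mul]; ring)
  rw [← mul_sum] at this
  exact eq_zero_of_mul_eq_self_left hne this

/-- the extension by primitive characters -/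
noncomputable def Ft (M : ℕ) [NeZero M] (F : ℕ → ℝ) (m : ℕ) : ℝ :=
  (∑ κ : DirichletCharacter ℂ M, Gh F κ * pc κ m).re

lemma Ft_eq {F : ℕ → ℝ} (hp : ∀ m m', m ≡ m' [MOD M] → F m = F m') {m : ℕ} (hm : m.Coprime M) :
    Ft M F m = F m := by
  rw [Ft, ← Complex.ofReal_re (F m), expand hp hm]
  simp only [pc_eq _ hm]

lemma Ft_nonneg {F : ℕ → ℝ} (hp : ∀ m m', m ≡ m' [MOD M] → F m = F m') (h0 : ∀ m, 0 ≤ F m)
    (m : ℕ) : 0 ≤ Ft M F m := by
  obtain ⟨d, hd, hc, hmax⟩ := exists_cop (M := M) m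
  set S := (range M).filter (fun x => x.Coprime M ∧ x ≡ m [MOD d]) with hS
  have hne : S.Nonempty := by
    obtain ⟨u, hu⟩ := ZMod.unitsMap_surjective hd (ZMod.unitOfCoprime m hc.symm)
    refine ⟨(u : ZMod M).val, mem_filter.2 ⟨mem_range.2 (ZMod.val_lt _),
      ZMod.val_coe_unit_coprime u, ?_⟩⟩
    have := congrArg Units.val hu
    rw [ZMod.unitsMap_val, ZMod.cast_eq_val, ZMod.coe_unitOfCoprime] at this
    exact (ZMod.natCast_eq_natCast_iff _ _ _).1 this
  have key : ∀ κ : DirichletCharacter ℂ M, ∑ x ∈ S, κ x = S.card * pc κ m := by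
    intro κ
    by_cases h : κ.conductor ∣ d
    · rw [← nsmul_eq_mul, ← sum_const]
      refine sum_congr rfl fun x hx => ?_
      have h1 := (mem_filter.1 hx).2
      rw [← pc_eq κ h1.1, pc_mod κ (h1.2.of_dvd h)]
    · have : NeZero κ.conductor := ⟨κ.conductor_ne_zero⟩
      have h1 : pc κ m = 0 := char_zero _ fun h2 => h (hmax _ κ.conductor_dvd_level h2.symm)
      have h2 := vanish' (κ := κ) hd (fun h3 => h (κ.conductor_dvd_of_mem_conductorSet h3))
        (Φ := fun x => if x ≡ m [MOD d] then 1 else 0) fun x x' hx =>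
          if_congr ⟨fun h4 => hx.symm.trans h4, fun h4 => hx.trans h4⟩ rfl rfl
      rw [h1, mul_zero, ← h2, hS, sum_filter]
      refine sum_congr rfl fun x _ => ?_
      by_cases h3 : x.Coprime M
      · by_cases h4 : x ≡ m [MOD d] <;> simp [h3, h4]
      · simp [h3, char_zero κ h3]
  have h1 : ((∑ x ∈ S, F x : ℝ) : ℂ) =
      S.card * ∑ κ : DirichletCharacter ℂ M, Gh F κ * pc κ m := by
    rw [Complex.ofReal_sum, sum_congr rfl fun x hx => expand hp (mem_filter.1 hx).2.1, sum_comm,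
      mul_sum]
    exact sum_congr rfl fun κ _ => by rw [← mul_sum, key]; ring
  have h2 := congrArg Complex.re h1
  rw [Complex.ofReal_re, ← Complex.ofReal_natCast, Complex.re_ofReal_mul] at h2
  have h3 : (0 : ℝ) < S.card := by exact_mod_cast hne.card_pos
  exact (mul_nonneg_iff_of_pos_left h3).1 (h2 ▸ sum_nonneg fun x _ => h0 x)

variable {Q y : ℕ} {F : ℕ → ℝ} {c0 : ℝ}

lemma Gh_one (h : FG Q y M F c0) : Gh F (1 : DirichletCharacter ℂ M) = c0 := by
  rw [Gh, h.mean]; push_cast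
  congr 1
  refine sum_congr rfl fun m _ => ?_
  unfold ri
  split_ifs with h2
  · rw [one_char ((h.unit m).2 h2)]; simp
  · rw [char_zero _ fun h3 => h2 ((h.unit m).1 h3)]; simp

lemma Gh_le (h : FG Q y M F c0) (κ : DirichletCharacter ℂ M) : ‖Gh F κ‖ ≤ c0 := by
  rw [Gh, norm_div, Complex.norm_natCast, h.mean]
  refine div_le_div_of_nonneg_right ((norm_sum_le _ _).trans (sum_le_sum fun m _ => ?_))
    (Nat.cast_nonneg _)
  rw [norm_mul, Complex.norm_real, Real.norm_of_nonneg (h.nn m), Complex.norm_conj]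
  refine mul_le_mul_of_nonneg_left ?_ (h.nn m)
  unfold ri
  split_ifs with h2
  · exact κ.norm_le_one _
  · rw [char_zero κ fun h3 => h2 ((h.unit m).1 h3), norm_zero]

lemma pc_triv (m : ℕ) : pc (1 : DirichletCharacter ℂ M) m = 1 := by
  rw [← pc_one (1 : DirichletCharacter ℂ M)]
  refine pc_mod _ ?_
  rw [DirichletCharacter.conductor_one]
  exact Nat.modEq_one

lemma blk (h : FG Q y M F c0) (hQ : 1 ≤ Q) {P : Finset ℕ} (hP : ∀ p ∈ P, p.Prime) {D : ℕ}
    {c : Finset ℕ → ℝ} (hc : ∀ T, |c T| ≤ 1) (hs : ∀ T ⊆ P, c T ≠ 0 → ∏ p ∈ T, p ≤ D) {A B : ℕ}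
    (hA : 1 ≤ A) (hAB : A ≤ B) {i : ℕ → ℝ} (hw : Wt (fun _ => 1) i) {I : ℝ} (hI0 : 0 ≤ I)
    (hI : ∀ n ∈ Ico A B, i n ≤ I) :
    |∑ n ∈ Ico A B, i n / n * th2 P c (dv n) * Ft M F n -
      c0 * ((∑ n ∈ Ico A B, i n / n) * th2 P c (fun p => 1 / p))| ≤
      c0 * (4 * I * (D * Q ^ 3 / A)) := by
  classical
  have hc0 : 0 ≤ c0 := (norm_nonneg _).trans (Gh_le h 1)
  have hQ' : (1 : ℝ) ≤ Q := by exact_mod_cast hQ
  set T := fun κ : DirichletCharacter ℂ M =>
    ∑ n ∈ Ico A B, ((1 * i n / n * th2 P c (dv n) : ℝ) : ℂ) * pc κ n with hT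
  have e1 : ∑ n ∈ Ico A B, i n / n * th2 P c (dv n) * Ft M F n =
      (∑ κ : DirichletCharacter ℂ M, Gh F κ * T κ).re := by
    simp only [hT, mul_sum]
    rw [sum_comm, Complex.re_sum]
    refine sum_congr rfl fun n _ => ?_
    rw [Ft, ← Complex.re_ofReal_mul, mul_sum, one_mul]
    congr 1
    exact sum_congr rfl fun κ _ => by ring
  set G := (univ.filter fun κ : DirichletCharacter ℂ M => κ.conductor ≤ Q) with hG
  have h1G : (1 : DirichletCharacter ℂ M) ∈ G :=
    mem_filter.2 ⟨mem_univ _, by rw [DirichletCharacter.conductor_one]; omega⟩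
  rw [← sum_subset (subset_univ G) fun κ _ hκ => by
    rw [Gh, h.van κ (by simpa [hG] using hκ)]; simp, ← add_sum_erase _ _ h1G, Complex.add_re] at e1
  have e2 : (Gh F (1 : DirichletCharacter ℂ M) * T 1).re =
      c0 * ∑ n ∈ Ico A B, 1 * i n / n * th2 P c (dv n) := by
    simp only [hT, pc_triv, mul_one]
    rw [Gh_one h, ← Complex.ofReal_sum, ← Complex.ofReal_mul, Complex.ofReal_re]
  have b1 := blk_one hP hc hs hA hAB hw hI0 hI
  have b2 : |(∑ κ ∈ G.erase 1, Gh F κ * T κ).re| ≤ Q ^ 2 * (c0 * (D * (2 * Q * I / A))) := by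
    refine (Complex.abs_re_le_norm _).trans ((norm_sum_le _ _).trans
      ((sum_le_card_nsmul _ _ (c0 * (D * (2 * Q * I / A))) fun κ hκ => ?_).trans ?_))
    · rw [norm_mul]
      refine mul_le_mul (Gh_le h κ) (blk_osc hP hc hs hA hAB hw hI0 hI ?_) (norm_nonneg _) hc0
      simpa only [pow_one] using osc_pc_pow (κ := κ) one_ne_zero
        (by simpa using ne_of_mem_erase hκ) (K := Q)
        (by exact_mod_cast (mem_filter.1 (mem_of_mem_erase hκ)).2)
    · rw [nsmul_eq_mul]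
      gcongr
      exact_mod_cast card_erase_le.trans (card_cond_le Q)
  simp only [one_mul] at b1 e2
  have b3 : c0 * (D * (2 * I / A)) ≤ c0 * (2 * I * (D * Q ^ 3 / A)) := by
    refine mul_le_mul_of_nonneg_left ?_ hc0
    calc (D : ℝ) * (2 * I / A) = 2 * I * (D * 1 / A) := by ring
      _ ≤ _ := by gcongr; exact one_le_pow₀ hQ'
  have b4 := mul_le_mul_of_nonneg_left b1 hc0
  rw [← abs_of_nonneg hc0, ← abs_mul, abs_of_nonneg hc0] at b4
  rw [e1, e2]
  calc _ = |c0 * (∑ n ∈ Ico A B, i n / n * th2 P c (dv n) -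
        (∑ n ∈ Ico A B, i n / n) * th2 P c (fun p => 1 / p)) +
        (∑ κ ∈ G.erase 1, Gh F κ * T κ).re| := by congr 1; ring
    _ ≤ c0 * (2 * I * (D * Q ^ 3 / A)) + Q ^ 2 * (c0 * (D * (2 * Q * I / A))) :=
        (abs_add_le _ _).trans (add_le_add (b4.trans b3) b2)
    _ = _ := by ring

end LinP

open LinP

theorem lin : S_Lin := by
  intro ε H hε
  obtain ⟨k0, hk0⟩ := exists_sieve 1 zero_le_one
  have hlim : Filter.Tendsto (fun m : ℕ => 20 * (m * (1 / 2 : ℝ) ^ m) + (20 + 16 * H) * (1 / 2) ^ m)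
      Filter.atTop (nhds (20 * 0 + (20 + 16 * H) * 0)) :=
    ((tendsto_self_mul_const_pow_of_lt_one (by norm_num) (by norm_num)).const_mul _).add
      ((tendsto_pow_atTop_nhds_zero_of_lt_one (by norm_num) (by norm_num)).const_mul _)
  obtain ⟨m0, hm0⟩ := Filter.eventually_atTop.1 (hlim.eventually_le_const (by simpa using hε))
  refine ⟨10 * (m0 + k0 + 2), ?_⟩
  intro φ α β δ hφ hα _ Q y M U N _ F c0 hQ hy hU hN hF
  obtain ⟨m, hm1, hm2⟩ : ∃ m, 10 * m ≤ U ∧ U < 10 * m + 10 := ⟨U / 10, by omega, by omega⟩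
  have hy4 : 4 ≤ y := le_trans (by nlinarith) hy
  have hy' : (2 : ℝ) ≤ y := by exact_mod_cast (by omega : 2 ≤ y)
  have hl : 1 ≤ Real.log y := by
    have : Real.log 4 ≤ Real.log y := Real.log_le_log (by norm_num) (by exact_mod_cast hy4)
    rw [show (4 : ℝ) = 2 ^ 2 by norm_num, Real.log_pow] at this
    push_cast at this; linarith [Real.log_two_gt_d9]
  set L := Real.log N with hL
  have hLU : L = U * Real.log y := by rw [hL, hN]; push_cast; rw [Real.log_pow]
  have hU1 : (1 : ℝ) ≤ U := by exact_mod_cast (by omega : 1 ≤ U)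
  have hL1 : 1 ≤ L := by rw [hLU]; exact one_le_mul_of_one_le_of_one_le hU1 hl
  have hL0 : 0 < L := by linarith
  have hH := hφ.one_le
  have hc0 : 0 ≤ c0 := (norm_nonneg _).trans (Gh_le hF 1)
  obtain ⟨s⟩ := hk0 m y (PP 0 y) (by omega) fun p hp => ⟨PP_prime hp, (mem_PP.1 hp).2.1⟩
  set e : ℝ := 1 / 2 ^ m with he
  have he0 : 0 < e := by positivity
  set D := y ^ (4 * (k0 + m) + 6) with hD
  set A := y ^ (9 * m) with hA
  have hA1 : 1 ≤ A := Nat.one_le_pow _ _ (by omega)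
  have hAN : A ≤ N := hN ▸ Nat.pow_le_pow_right (by omega) (by omega)
  have hDA : (D : ℝ) * Q ^ 3 / A ≤ e := by
    have a1 : D * Q ^ 3 * 2 ^ m ≤ A := by
      calc D * Q ^ 3 * 2 ^ m ≤ D * (Q ^ 2) ^ 2 * 2 ^ m := by
            rw [← pow_mul]; gcongr <;> omega
        _ ≤ D * y ^ 2 * y ^ m := by gcongr; omega
        _ = y ^ (4 * (k0 + m) + 6 + 2 + m) := by rw [hD]; ring
        _ ≤ _ := Nat.pow_le_pow_right (by omega) (by omega)
    rw [he, div_le_div_iff₀ (by exact_mod_cast hA1) (by positivity), one_mul]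
    exact_mod_cast a1
  set g : ℕ → ℝ := fun n => Real.log n * wt φ L n with hg
  have g0 : ∀ n, 0 ≤ g n := fun n => mul_nonneg (Real.log_natCast_nonneg n)
    (div_nonneg (hφ.nn _) (Nat.cast_nonneg n))
  have gz : ∀ n, n < A → g n = 0 := by
    intro n hn
    rcases Nat.eq_zero_or_pos n with rfl | h0
    · simp [hg]
    have a1 : φ (Real.log n / L) = 0 := by
      by_contra a2
      have a3 := (lt_div_iff₀ hL0).1 (hφ.supp _ a2).1
      have a4 := log_mono h0 hn.le
      rw [hA, Nat.cast_pow, Real.log_pow] at a4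
      have a5 : ((10 * m : ℕ) : ℝ) ≤ U := by exact_mod_cast hm1
      have a6 := mul_le_mul_of_nonneg_right a5 (by linarith : 0 ≤ Real.log y)
      have a7 := mul_le_mul_of_nonneg_right hα hL0.le
      push_cast at a4 a6
      linarith
    simp [hg, wt, a1]
  have cut : ∀ f : ℕ → ℝ, ∑ n ∈ range N, g n * f n = ∑ n ∈ Ico A N, g n * f n := fun f =>
    (sum_subset (fun n hn => mem_range.2 (mem_Ico.1 hn).2) fun n h1 h2 => by
      rw [gz n (by simp only [mem_range, mem_Ico] at h1 h2; omega), zero_mul]).symm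
  set i2 : ℕ → ℝ := fun n => Real.log n * (H * (Real.log n / L)) with hi2
  set i1 : ℕ → ℝ := fun n => Real.log n * (H * (Real.log n / L) + φ (Real.log n / L)) with hi1
  have l0 : ∀ n : ℕ, 0 ≤ Real.log n := Real.log_natCast_nonneg
  have w2 : Wt (fun _ => 1) i2 := ⟨Wt.one.t0, Wt.one.t1, Wt.one.anti,
    fun n => by have := l0 n; simp only [hi2]; positivity, fun a b h1 h2 => by
      have := l0 a; have := l0 b; have := log_mono h1 h2; simp only [hi2]; gcongr⟩
  have w1 : Wt (fun _ => 1) i1 := ⟨Wt.one.t0, Wt.one.t1, Wt.one.anti,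
    fun n => by have := l0 n; have := hφ.nn (Real.log n / L); simp only [hi1]; positivity,
    fun a b h1 h2 => by
      have a1 := l0 a
      have a2 := log_mono h1 h2
      have a3 : Real.log a / L ≤ Real.log b / L := by gcongr
      have a4 := (abs_le.1 (hφ.lip (Real.log b / L) (Real.log a / L))).1
      rw [abs_of_nonneg (by linarith)] at a4
      have a5 := hφ.nn (Real.log a / L)
      exact mul_le_mul a2 (by linarith) (by positivity) (l0 b)⟩
  have lN : ∀ n ∈ Ico A N, Real.log n ≤ L := fun n hn =>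
    log_mono (hA1.trans (mem_Ico.1 hn).1) (mem_Ico.1 hn).2.le
  have hI1 : ∀ n ∈ Ico A N, i1 n ≤ L * (2 * H) := fun n hn => by
    have a1 : Real.log n / L ≤ 1 := (div_le_one hL0).2 (lN n hn)
    have a2 := mul_le_mul_of_nonneg_left a1 (by linarith : 0 ≤ H)
    have a3 := hφ.nn (Real.log n / L)
    have a4 := l0 n
    exact mul_le_mul (lN n hn) (by linarith [hφ.le (Real.log n / L)]) (by positivity) hL0.le
  have hI2 : ∀ n ∈ Ico A N, i2 n ≤ L * (2 * H) := fun n hn =>
    le_trans (mul_le_mul_of_nonneg_left (le_add_of_nonneg_right (hφ.nn _)) (l0 n)) (hI1 n hn)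
  have gi : ∀ n, g n = i1 n / n - i2 n / n := fun n => by simp only [hg, hi1, hi2, wt]; ring
  set G := ∑ n ∈ Ico A N, g n with hG
  have key : ∀ c : Finset ℕ → ℝ, (∀ T, |c T| ≤ 1) → (∀ T ⊆ PP 0 y, c T ≠ 0 → ∏ p ∈ T, p ≤ D) →
      |∑ n ∈ Ico A N, g n * (th2 (PP 0 y) c (dv n) * Ft M F n) -
        c0 * (G * th2 (PP 0 y) c (fun p => 1 / p))| ≤ c0 * (16 * H * L * e) := by
    intro c h1 h2
    have b1 := blk hF (by omega) (fun p hp => PP_prime hp) h1 h2 hA1 hAN w1 (by positivity) hI1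
    have b2 := blk hF (by omega) (fun p hp => PP_prime hp) h1 h2 hA1 hAN w2 (by positivity) hI2
    have b3 : c0 * (4 * (L * (2 * H)) * (D * Q ^ 3 / A)) ≤ c0 * (4 * (L * (2 * H)) * e) := by gcongr
    simp only [hG, gi, sub_mul, sum_sub_distrib, ← mul_assoc]
    simp only [← mul_assoc] at b1 b2 b3
    rw [abs_le] at b1 b2 ⊢
    constructor <;> linarith [b1.1, b1.2, b2.1, b2.2]
  have hG0 : 0 ≤ G := sum_nonneg fun n _ => g0 n
  have hV := VV_pos y
  have hVG : VV y * G ≤ 2 * U * L := by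
    have a1 : G ≤ L * (1 + L) := by
      refine le_trans ?_ (mul_le_mul_of_nonneg_left (sum_Ico_inv_le hA1 N) hL0.le)
      rw [mul_sum]
      refine sum_le_sum fun n hn => mul_le_mul (lN n hn) ?_
        (div_nonneg (hφ.nn _) (Nat.cast_nonneg n)) hL0.le
      exact div_le_div_of_nonneg_right (hφ.le _) (Nat.cast_nonneg n)
    calc VV y * G ≤ VV y * (L * (L + L)) := by gcongr; exact a1.trans (by gcongr)
      _ = 2 * U * L * (VV y * Real.log y) := by rw [hLU]; ring
      _ ≤ 2 * U * L * 1 := by gcongr; exact VV_mul_log_le' y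
      _ = _ := mul_one _
  have hup : ∀ n, ri y n ≤ th2 (PP 0 y) s.up (dv n) := fun n =>
    (prod_one_sub_dv y n).symm.le.trans (s.le_up _ fun p _ => dv_bd n p)
  have hlo : ∀ n, th2 (PP 0 y) s.lo (dv n) ≤ ri y n := fun n =>
    (s.lo_le _ fun p _ => dv_bd n p).trans (prod_one_sub_dv y n).le
  have m1 : th2 (PP 0 y) s.up (fun p => 1 / p) ≤ (1 + e) * VV y := s.up_le _ inv_prime_bd
  have m2 : (1 - e) * VV y ≤ th2 (PP 0 y) s.lo (fun p => 1 / p) := s.le_lo _ inv_prime_bd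
  have e1 : ∑ n ∈ range N, Real.log n * ri y n * wt φ L n * F n =
      ∑ n ∈ Ico A N, g n * (ri y n * Ft M F n) := by
    rw [← cut]
    refine sum_congr rfl fun n _ => ?_
    unfold ri
    split_ifs with h1
    · rw [Ft_eq hF.per ((hF.unit n).2 h1)]; simp only [hg]; ring
    · simp
  have e2 : ∑ n ∈ range N, Real.log n * wt φ L n = G := by simpa using cut fun _ => 1
  have f0 := Ft_nonneg hF.per hF.nn
  have a1 := (abs_le.1 (key _ s.abs_up s.supp_up)).2
  have a2 := (abs_le.1 (key _ s.abs_lo s.supp_lo)).1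
  have a3 := sum_le_sum fun n (_ : n ∈ Ico A N) =>
    mul_le_mul_of_nonneg_left (mul_le_mul_of_nonneg_right (hup n) (f0 n)) (g0 n)
  have a4 := sum_le_sum fun n (_ : n ∈ Ico A N) =>
    mul_le_mul_of_nonneg_left (mul_le_mul_of_nonneg_right (hlo n) (f0 n)) (g0 n)
  have a5 := mul_le_mul_of_nonneg_left (mul_le_mul_of_nonneg_left m1 hG0) hc0
  have a6 := mul_le_mul_of_nonneg_left (mul_le_mul_of_nonneg_left m2 hG0) hc0
  have a7 := mul_le_mul_of_nonneg_left hVG (mul_nonneg hc0 he0.le)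
  have a8 : (2 * U + 16 * H) * e ≤ ε := by
    refine le_trans ?_ (hm0 m (by omega))
    have b1 : (U : ℝ) ≤ (10 * m + 10 : ℕ) := by exact_mod_cast hm2.le
    have b2 := mul_le_mul_of_nonneg_right b1 he0.le
    rw [one_div_pow, ← he]
    push_cast at b2
    linarith
  have a9 := mul_le_mul_of_nonneg_left a8 (mul_nonneg hc0 hL0.le)
  rw [e1, e2, abs_le]
  constructor <;> linarith

end Pool.Agent.P.MP_746f10_nt.UC
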