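import Pool.Agent.P.MP_746f10_nt.EstA
import Pool.Agent.P.MP_0ad054_nt.Chen.Defs

/-! Definitions and interface statements for the uniform Chen theorem. -/

namespace Pool.Agent.P.MP_746f10_nt.UC

open Finset
open Pool.Agent.P.MP_0ad054_nt.Chen (Lev bet ck Wm Mm Hc zz Dl Nl Qs IsChen)
open scoped ArithmeticFunction.vonMangoldt ArithmeticFunction.Moebius

/-! ### characters of small conductor -/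

open Classical in
/-- nonprincipal characters of conductor at most `Q` -/
noncomputable def Fam (M Q : ℕ) : Finset (DirichletCharacter ℂ M) :=
  univ.filter (fun κ => κ ≠ 1 ∧ κ.conductor ≤ Q)

open Classical in
/-- the same without the character that agrees with `χ0` on rough numbers -/
noncomputable def Fam' (M Q y : ℕ) (χ0 : ℕ → ℝ) : Finset (DirichletCharacter ℂ M) :=
  (Fam M Q).filter (fun κ => ¬ ∀ n : ℕ, rough y n → κ n = χ0 n)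

/-- the point `1 + (1 + i t) / L` -/
noncomputable def pt (L t : ℝ) : ℂ := 1 + (1 / L : ℝ) + Complex.I * (t / L : ℝ)

/-- all real characters other than `χ0` are not too small at one -/
def Gd (Q y : ℕ) (η : ℝ) (χ0 : ℕ → ℝ) : Prop :=
  ∀ χ : RC, χ.r ≤ Q → η ≤ χ.ell y ∨ ∀ n, rough y n → χ.χ n = χ0 n

/-- coefficients of the switched term -/
def Cf (N : ℕ) (B : ℝ) (c : ℕ → ℝ) : Prop :=
  (∀ k, 0 ≤ c k ∧ c k ≤ B) ∧ Lev ((N : ℝ) ^ (1 / 10 : ℝ)) ((N : ℝ) ^ (9 / 10 : ℝ)) c ∧ c 1 = 0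

def S_L2 : Prop :=
  ∀ (c : ℕ) (C : ℝ), 1 ≤ c → 1 ≤ C → LS2St c C → ∃ C' : ℝ, 1 ≤ C' ∧
    ∀ (Q y M : ℕ) [NeZero M] (U t : ℝ), 2 ≤ Q → y = (Q ^ 2) ^ c →
    (∀ n, n.Coprime M ↔ rough y n) → 1 ≤ U →
    ∑ κ ∈ Fam M Q, ‖LSeries (fun n => κ n) (pt (U * Real.log y) t) - 1‖ ^ 2 ≤
      (C' * (1 + |t|)) ^ 2 ∧
    ∑ κ ∈ Fam M Q, ‖LSeries (fun n => κ n * (Real.log n : ℝ)) (pt (U * Real.log y) t)‖ ^ 2 ≤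
      (C' * Real.log y * (1 + |t|)) ^ 2 ∧
    ∀ κ ∈ Fam M Q, ‖LSeries (fun n => κ n) (pt (U * Real.log y) t) -
      LSeries (fun n => κ n) (pt (U * Real.log y) 0)‖ ≤ C' * |t| / U

def S_Ck : Prop :=
  ∃ (C : ℝ) (U0 : ℕ), 1 ≤ C ∧ ∀ (Q y M U N : ℕ) [NeZero M] (t B : ℝ) (c : ℕ → ℝ), 2 ≤ Q →
    Q ^ 2 ≤ y → (∀ n, n.Coprime M ↔ rough y n) → U0 ≤ U → N = y ^ U → Cf N B c →
    ∑ κ ∈ Fam M Q, ‖LSeries (fun n => κ n * (c n : ℝ)) (pt (Real.log N) t)‖ ^ 2 ≤ (C * B) ^ 2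

def S_Chi : Prop :=
  ∀ (c : ℕ) (C : ℝ), 1 ≤ c → 1 ≤ C → LS2St c C → ∀ ε η : ℝ, 0 < ε → 0 < η → ∃ U0 : ℕ,
    ∀ (Q y M U N : ℕ) [NeZero M] (t : ℝ) (χ0 : ℕ → ℝ), 2 ≤ Q → y = (Q ^ 2) ^ c →
    (∀ n, n.Coprime M ↔ rough y n) → U0 ≤ U → N = y ^ U → Gd Q y η χ0 →
    ∑ κ ∈ Fam' M Q y χ0, ‖LSeries (fun n => κ n * (Real.log n - Λ n : ℝ)) (pt (Real.log N) t)‖ ≤
      ε * Real.log N * (1 + |t|) ^ 4 ∧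
    ∀ (B : ℝ) (cc : ℕ → ℝ), Cf N B cc →
      ∑ κ ∈ Fam' M Q y χ0, ‖LSeries (fun n => κ n * (bet cc n : ℝ)) (pt (Real.log N) t)‖ ≤
        ε * B * Real.log N * (1 + |t|) ^ 4

/-! ### smooth weights -/

/-- a smooth minorant of the indicator of the interval from `α` to `β` -/
structure Bump (φ : ℝ → ℝ) (α β δ H : ℝ) : Prop where
  nn : ∀ v, 0 ≤ φ v
  le : ∀ v, φ v ≤ 1
  supp : ∀ v, φ v ≠ 0 → α < v ∧ v < β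
  one : ∀ v, α + δ ≤ v → v ≤ β - δ → φ v = 1
  one_le : 1 ≤ H
  lip : ∀ u v, |φ u - φ v| ≤ H * |u - v|
  mel : ∃ h : ℝ → ℂ, Continuous h ∧ MeasureTheory.Integrable (fun t => (1 + |t|) ^ 4 * ‖h t‖) ∧
    ∫ t, (1 + |t|) ^ 4 * ‖h t‖ ≤ H ∧
    ∀ v : ℝ, ((φ v * Real.exp v : ℝ) : ℂ) = ∫ t : ℝ, h t * Complex.exp (-(Complex.I * t * v))

/-- the weight -/
noncomputable def wt (φ : ℝ → ℝ) (L : ℝ) (m : ℕ) : ℝ := φ (Real.log m / L) / m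

def S_Bump : Prop := ∀ α β δ : ℝ, 0 < δ → α + 2 * δ < β → ∃ φ H, Bump φ α β δ H

def S_Mel : Prop :=
  ∀ (φ : ℝ → ℝ) (α β δ H : ℝ), Bump φ α β δ H → ∀ {ι : Type} (S : Finset ι) (a : ι → ℕ → ℂ)
    (L G : ℝ) (N : ℕ), 0 < L → Real.exp (β * L) ≤ N →
    (∀ i ∈ S, LSeriesSummable (a i) (pt L 0)) →
    (∀ t, ∑ i ∈ S, ‖LSeries (a i) (pt L t)‖ ≤ G * (1 + |t|) ^ 4) →
    ∑ i ∈ S, ‖∑ m ∈ range N, a i m * (wt φ L m : ℝ)‖ ≤ G * H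

/-- Mertens in windows -/
def S_Win : Prop :=
  ∀ (φ : ℝ → ℝ) (α β δ H : ℝ) (N y : ℕ), Bump φ α β δ H → 9 / 10 ≤ α → α ≤ β → β ≤ 1 → 0 ≤ δ →
    3 ≤ N → 1 ≤ y →
    (∀ t : ℕ, 1 ≤ t → |wt φ (Real.log N) (t + 1) - wt φ (Real.log N) t| ≤ (H + 1) / (t : ℝ) ^ 2) ∧
    ∑ m ∈ range N, Λ m * wt φ (Real.log N) m ≤ (β - α) * Real.log N + 14 ∧
    (β - α - 2 * δ) * Real.log N - 14 - y * Real.log N / (N : ℝ) ^ (9 / 10 : ℝ) ≤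
      ∑ m ∈ range N, Λ m * ri y m * wt φ (Real.log N) m ∧
    (∀ (B : ℝ) (c : ℕ → ℝ), Cf N B c → ∑ m ∈ range N, bet c m * wt φ (Real.log N) m ≤
      Hc N c * ((β - α) * Real.log N + 14)) ∧
    ∀ χ : RC, χ.r ≤ y → ∑ m ∈ range N, Λ m * ri y m * wt φ (Real.log N) m * (1 + χ.χ m) ≤
      2 * Real.log N * (χ.sig y N + (1 + Real.log N) / y)

/-! ### functions with small conductors -/

/-- a nonnegative periodic function whose Fourier coefficients live on small conductors -/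
structure FG (Q y M : ℕ) (F : ℕ → ℝ) (c0 : ℝ) : Prop where
  unit : ∀ n, n.Coprime M ↔ rough y n
  nn : ∀ m, 0 ≤ F m
  per : ∀ m m', m ≡ m' [MOD M] → F m = F m'
  van : ∀ κ : DirichletCharacter ℂ M, Q < κ.conductor →
    ∑ m ∈ range M, F m * (starRingEnd ℂ) (κ m) = 0
  mean : c0 = (∑ m ∈ range M, F m * ri y m) / M.totient

def S_Lin : Prop :=
  ∀ ε H : ℝ, 0 < ε → ∃ U0 : ℕ, ∀ (φ : ℝ → ℝ) (α β δ : ℝ), Bump φ α β δ H → 9 / 10 ≤ α → β ≤ 1 →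
    ∀ (Q y M U N : ℕ) [NeZero M] (F : ℕ → ℝ) (c0 : ℝ), 2 ≤ Q → Q ^ 2 ≤ y → U0 ≤ U → N = y ^ U →
    FG Q y M F c0 →
    |∑ m ∈ range N, Real.log m * ri y m * wt φ (Real.log N) m * F m -
      c0 * (VV y * ∑ m ∈ range N, Real.log m * wt φ (Real.log N) m)| ≤ ε * c0 * Real.log N

def S_Core : Prop :=
  ∀ (c : ℕ) (C : ℝ), 1 ≤ c → 1 ≤ C → LS2St c C → ∀ ε η H : ℝ, 0 < ε → 0 < η → ∃ U0 : ℕ,
    ∀ (φ : ℝ → ℝ) (α β δ : ℝ), Bump φ α β δ H → 9 / 10 ≤ α → β ≤ 1 →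
    ∀ (Q y M U N : ℕ) [NeZero M] (F : ℕ → ℝ) (c0 : ℝ) (χ0 : ℕ → ℝ), 2 ≤ Q → y = (Q ^ 2) ^ c →
    U0 ≤ U → N = y ^ U → FG Q y M F c0 → Gd Q y η χ0 →
    (((∀ n, χ0 n = 0) ∨ ∃ χ : RC, χ0 = χ.χ ∧ χ.r ∣ M ∧ χ.r ≤ Q ∧ ∀ m, F m ≠ 0 → χ0 m = -1) →
      |∑ m ∈ range N, Λ m * ri y m * wt φ (Real.log N) m * F m -
        c0 * ∑ m ∈ range N, Λ m * ri y m * wt φ (Real.log N) m * (1 - χ0 m)| ≤
        ε * c0 * Real.log N) ∧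
    ∀ (e B : ℝ) (cc : ℕ → ℝ), (e = 1 ∨ e = 0 ∧ ∀ n, χ0 n = 0) → Cf N B cc →
      ∑ m ∈ range N, bet cc m * ri y m * wt φ (Real.log N) m * F m ≤
        c0 * ((1 + e) * ∑ m ∈ range N, bet cc m * wt φ (Real.log N) m + ε * B * Real.log N)

/-! ### large conductors -/

/-- Dirichlet convolution -/
noncomputable def cv (c b : ℕ → ℝ) (m : ℕ) : ℝ := ∑ k ∈ m.divisors, c k * b (m / k)

def S_Big0 : Prop :=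
  ∃ (C : ℝ) (j : ℕ), 0 < C ∧ ∀ (X R : ℕ) (g : ℕ → ℝ), 2 ≤ X → 1 ≤ R →
    ((g = fun n => Λ n) ∨ ∃ c b : ℕ → ℝ, g = cv c b ∧ (∀ k, |c k| ≤ 1) ∧
      (∀ l, |b l| ≤ Real.log l) ∧
      ∀ k, c k ≠ 0 → (X : ℝ) ^ (1 / 20 : ℝ) ≤ k ∧ (k : ℝ) ≤ (X : ℝ) ^ (19 / 20 : ℝ)) →
    ∃ G : ℕ → ℝ, (∀ e, 0 ≤ G e) ∧
      ∑ e ∈ Icc 1 ⌊(X : ℝ) ^ (999 / 2000 : ℝ)⌋₊, G e ≤
        C * X * Real.log X ^ j * (1 / R + (X : ℝ) ^ (-(1 / 10000) : ℝ)) ∧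
      ∀ s d r : ℕ, 1 ≤ s → 1 ≤ d → s.Coprime d → (∀ p, p.Prime → p ∣ d → R < p) →
        r.Coprime (s * d) →
        |∑ m ∈ (Icc 1 X).filter (fun m => m ≡ r [MOD s * d]), g m - 1 / (d.totient : ℝ) *
          ∑ m ∈ (Icc 1 X).filter (fun m => m ≡ r [MOD s] ∧ m.Coprime d), g m| ≤ G (s * d)

def S_Big : Prop :=
  ∃ (C : ℝ) (j N0 : ℕ), 0 < C ∧ ∀ (N R y : ℕ) (W H : ℝ) (w g μ' : ℕ → ℝ) (ρ : ℕ → ℕ) {ι : Type}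
    (S : Finset ι) (s : ι → ℕ) (F : ι → ℕ → ℝ), N0 ≤ N → 1 ≤ R → R ≤ y →
    (y : ℝ) ≤ (N : ℝ) ^ (1 / 100 : ℝ) → (∀ t, w t ≠ 0 → Nl N ≤ t ∧ t < N) →
    (∀ t : ℕ, 1 ≤ t → |w (t + 1) - w t| ≤ H / (t : ℝ) ^ 2) →
    ((g = fun n => Λ n) ∨ ∃ c, g = bet c ∧ Cf N 1 c) → Set.InjOn s S →
    (∀ i ∈ S, 1 ≤ s i ∧ (s i : ℝ) ≤ (N : ℝ) ^ (1 / 10000 : ℝ) ∧
      (∀ p, p.Prime → p ∣ s i → p ≤ R) ∧ (∀ m m', m ≡ m' [MOD s i] → F i m = F i m') ∧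
      ∑ m ∈ range (s i), (if m.Coprime (s i) then |F i m| else 0) ≤ W) →
    0 ≤ W → Lev R (Dl N) μ' → (∀ d, μ' d ≠ 0 → (ρ d).Coprime d) →
    |∑ m ∈ range N, g m * ri y m * w m * (∑ i ∈ S, F i m) *
      (∑ d ∈ Icc 1 N, μ' d * (if m ≡ ρ d [MOD d] then 1 else 0) - Mm N μ')| ≤
      C * W * H * Real.log N ^ j * (1 / R + (N : ℝ) ^ (-(1 / 20000) : ℝ))

/-! ### local structure of a system of forms -/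

section forms

variable {ι : Type} [Fintype ι] [DecidableEq ι] (a b : ι → ℕ)

/-- divisibility pattern seen from the form `i` -/
noncomputable def FT (i : ι) (T : Finset ℕ) : ℕ → ℝ :=
  lft (a i) (b i) (fun n => ∏ p ∈ T, ev a b univ p n)

/-- a sieve weight seen from the form `i` -/
noncomputable def FL (i : ι) (P : Finset ℕ) (lam : Finset ℕ → ℝ) : ℕ → ℝ :=
  lft (a i) (b i) (fun n => th2 P lam (fun p => ev a b univ p n))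

/-- a good point -/
def Good (i j : ι) (v n : ℕ) : Prop :=
  1 ≤ n ∧ (a i * n + b i).Prime ∧ (a j * n + b j).primeFactorsList.length ≤ 2 ∧
    ∀ l, rough v (a l * n + b l)

end forms

def S_Four : Prop :=
  ∀ {ι : Type} [Fintype ι] [DecidableEq ι] (a b : ι → ℕ) (K v : ℕ) (i : ι), Nrm a b K v →
    (∀ (y0 y Y Q : ℕ) (lam : Finset ℕ → ℝ), v ≤ y0 → y0 ≤ y → v * Y ≤ Q →
      (∀ T ⊆ GP a y0, lam T ≠ 0 → ∏ p ∈ T, p ≤ Y) →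
      (∀ n, 0 ≤ th2 (GP a y0) lam (fun p => ev a b univ p n)) →
      FG Q y (a i * ∏ p ∈ PP 0 y, p) (FL a b i (GP a y0) lam)
        (th2 (GP a y0) lam (fun p => ((Fintype.card ι : ℝ) - 1) / (p - 1)) / (a i).totient)) ∧
    (∀ (y0 : ℕ) (T : Finset ℕ), T ⊆ GP a y0 →
      (∀ m m', m ≡ m' [MOD a i * ∏ p ∈ T, p] → FT a b i T m = FT a b i T m') ∧
      ∑ m ∈ range (a i * ∏ p ∈ T, p), (if m.Coprime (a i * ∏ p ∈ T, p) then |FT a b i T m| else 0) ≤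
        (Fintype.card ι : ℝ) ^ T.card) ∧
    ∀ j, i ≠ j → ∃ ρ : ℕ → ℕ, ∀ d, 1 ≤ d → rough v d → (ρ d).Coprime d ∧
      ∀ n, d ∣ a j * n + b j ↔ a i * n + b i ≡ ρ d [MOD d]

/-! ### Chen's weights -/

def S_Chen2 : Prop :=
  ∃ (c ε : ℝ) (y0 N0 : ℕ), 0 < c ∧ 0 < ε ∧ ∀ N y : ℕ, N0 ≤ N → y0 ≤ y → (y : ℝ) ≤ zz N →
    ∃ μ1 μ2 μ3 : ℕ → ℝ, IsChen N y ∅ μ1 μ3 ∧ Lev y (Dl N) μ2 ∧
      (∀ a, 1 ≤ a → Wm μ1 a ≤ Wm μ2 a ∧ 0 ≤ Wm μ2 a ∧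
        ((∀ l : ℕ, l.Prime → l ∣ a → zz N < l) → 1 ≤ Wm μ2 a)) ∧
      0 ≤ Mm N μ1 ∧ 0 ≤ Mm N μ2 ∧ 0 ≤ Mm N μ3 ∧
      c / Real.log N ≤ (1 - ε) * Mm N μ1 - ε * Mm N μ2 - ε * Mm N μ3 -
        (1 + ε) * (Real.log (7 * N) / 2 * (Hc N (ck N) * Mm N μ3))

def S_Sign2 : Prop :=
  ∃ N0 : ℕ, ∀ N : ℕ, N0 ≤ N → Cf N (20 / Real.log N) (ck N) ∧
    ∀ a : ℕ, Nl N ≤ a → a ≤ N → Squarefree a → (∀ l : ℕ, l.Prime → l ∣ a → zz N < l) →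
      2 < a.primeFactorsList.length →
      1 - (((Qs N).filter (fun q => q ∣ a)).card : ℝ) / 2 ≤ bet (ck N) a / 2

/-- no exceptional character, or one that equals minus one on the prime form -/
def S_RegI : Prop :=
  ∀ (k c : ℕ) (C : ℝ), 1 ≤ c → 1 ≤ C → LS2St c C → ∃ (K e0 : ℕ) (η1 : ℝ), 0 < η1 ∧
    ∀ (e : ℕ) (η : ℝ), e0 ≤ e → 0 < η → ∃ E v0 : ℕ,
    ∀ {ι : Type} [Fintype ι] [DecidableEq ι] (a b : ι → ℕ) (v : ℕ) (i j : ι) (χ0 : ℕ → ℝ),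
    Fintype.card ι = k → v0 ≤ v → Nrm a b K v → i ≠ j → Gd (v ^ e) (((v ^ e) ^ 2) ^ c) η χ0 →
    ((∀ n, χ0 n = 0) ∨ ∃ χ : RC, χ0 = χ.χ ∧ χ.r ∣ a i ∧ χ.χ (b i) = -1 ∧
      χ.sig (((v ^ e) ^ 2) ^ c) (v ^ E) ≤ η1) →
    ∃ n ≤ v ^ E, Good a b i j v n

/-! ### an exceptional character that equals one on the prime form -/

def S_Gam : Prop :=
  ∃ C : ℝ, 1 ≤ C ∧ ∀ (c : RC) (Q b : ℕ) (X X1 X2 : ℝ), 1 ≤ X → c.r ∣ Q → 0 < Q →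
    (c.r : ℝ) ≤ X ^ (1 / 400 : ℝ) → (Q : ℝ) ≤ X ^ (113 / 200 : ℝ) → b.Coprime Q → c.χ b = 1 →
    0 ≤ X1 → X1 ≤ X2 → X2 ≤ X →
    |∑ m ∈ Ico ⌈X1⌉₊ ⌈X2⌉₊, (if m ≡ b [MOD Q] then c.gam m else 0) -
      (X2 - X1) / Q * (2 * c.LL * ∏ p ∈ Q.primeFactors, (1 - c.χ p / p))| ≤
      C * X ^ (399 / 400 : ℝ) / Q

/-- equidistribution of the values `m n` in the multiples of rough squarefree numbers -/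
def Eqd (z X B : ℕ) (A : Finset ℕ) (ν : ℕ → ℝ) (m : ℕ → ℕ) (M0 : ℝ) : Prop :=
  ∀ T ⊆ PP z X, ((∏ p ∈ T, p : ℕ) : ℝ) ≤ (X : ℝ) ^ (14 / 25 : ℝ) →
    |∑ n ∈ A, ν n * (if (∏ p ∈ T, p) ∣ m n then 1 else 0) - M0 / (∏ p ∈ T, p : ℕ)| ≤
      M0 / (∏ p ∈ T, p : ℕ) / (B : ℝ) ^ 8

open Classical in
def S_Nu : Prop :=
  ∀ k : ℕ, ∃ K B0 : ℕ, ∀ (B e : ℕ) (η : ℝ), B0 ≤ B → 10 ≤ e → 0 < η → ∃ (η1 : ℝ) (v0 : ℕ), 0 < η1 ∧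
    ∀ {ι : Type} [Fintype ι] [DecidableEq ι] (a b : ι → ℕ) (v z x : ℕ) (i j : ι) (χ : RC),
    Fintype.card ι = k → v0 ≤ v → Nrm a b K v → i ≠ j → z = v ^ e → x = z ^ B → χ.r ∣ a i →
    χ.χ (b i) = 1 → χ.sig z (z ^ (B + 1)) ≤ η1 → ∃ M0 : ℝ, 0 < M0 ∧
      Eqd z (a j * x) B (Ico x (2 * x)) (fun n => χ.gam (a i * n + b i) * rg a b z n)
        (fun n => a j * n + b j) M0 ∧
      ∑ n ∈ (Ico x (2 * x)).filter (fun n => ¬ (a i * n + b i).Prime ∨ ¬ Squarefree (a j * n + b j)),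
        χ.gam (a i * n + b i) * rg a b z n ≤ η * M0

/-- truncated second order weight -/
noncomputable def NW (Y : ℝ) (m : ℕ) : ℝ :=
  ∑ d ∈ m.divisors, (μ d : ℝ) * max 0 (Real.log (Y / d)) ^ 2

/-- the detector of numbers with at most two prime factors -/
noncomputable def WW (X : ℕ) (σ : ℝ) (m : ℕ) : ℝ :=
  NW ((X : ℝ) ^ (51 / 100 : ℝ)) m + σ * NW ((X : ℝ) ^ (49 / 100 : ℝ)) m

/-- pairs of primes with a small product -/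
noncomputable def PS (X : ℕ) : Finset (ℕ × ℕ) :=
  (PP 0 X ×ˢ PP 0 X).filter
    (fun p => p.1 < p.2 ∧ ((p.1 * p.2 : ℕ) : ℝ) ≤ 3 * (X : ℝ) ^ (11 / 25 : ℝ))

def S_Mean : Prop :=
  ∃ C : ℝ, 0 < C ∧ ∀ (z : ℕ) (Y : ℝ), 2 ≤ z → 2 ≤ Y →
    |∑ d ∈ Icc 1 ⌊Y⌋₊, ri z d * (μ d : ℝ) / d * Real.log (Y / d) ^ 2 - 2 * Real.log Y / VV z| ≤
      C * (Real.log z / VV z + Real.log Y * Th z ⌊Y⌋₊)

open Classical in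
def S_Pt : Prop :=
  ∃ (C : ℝ) (X0 : ℕ), 0 < C ∧ ∀ (X m : ℕ) (σ : ℝ), X0 ≤ X → X ≤ m → m ≤ 3 * X → Squarefree m →
    2 < m.primeFactorsList.length → (σ = 1 ∨ σ = -1) →
    ((∃ p : ℕ, p.Prime ∧ p ∣ m ∧ (X : ℝ) ^ (14 / 25 : ℝ) < p) ∨ (μ m : ℝ) = σ) →
    WW X σ m ≤ C * m.divisors.card * Real.log X + 2 * (1 + σ) * ∑ p ∈ PS X,
      if p.1 * p.2 ∣ m ∧ (m / (p.1 * p.2)).Prime ∧
        (X : ℝ) ^ (14 / 25 : ℝ) < (m / (p.1 * p.2) : ℕ) then Real.log p.1 * Real.log p.2 else 0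

def S_Num2 : Prop :=
  ∃ X0 : ℕ, ∀ X : ℕ, X0 ≤ X → ∑ p ∈ PS X, Real.log p.1 * Real.log p.2 / ((p.1 * p.2 : ℕ) *
    Real.log ((X : ℝ) ^ (14 / 25 : ℝ) / (p.1 * p.2 : ℕ))) ≤ 6 / 25 * Real.log X

open Classical in
def S_Sel : Prop :=
  ∀ (z ξ : ℕ) (E A : Finset ℕ) (ν : ℕ → ℝ) (m : ℕ → ℕ) (M ε G : ℝ), 2 ≤ z → E.card ≤ 2 →
    (∀ n ∈ A, 0 ≤ ν n) → 0 ≤ M → 0 ≤ ε → 0 < G → G ≤ (1 - 2 / z) * (VV z * Real.log (ξ + 1)) →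
    (∀ T ⊆ PP z ξ \ E, ∏ p ∈ T, p ≤ ξ ^ 2 →
      |∑ n ∈ A, ν n * (if (∏ p ∈ T, p) ∣ m n then 1 else 0) - M / (∏ p ∈ T, p : ℕ)| ≤
        M / (∏ p ∈ T, p : ℕ) * ε) →
    ∑ n ∈ A.filter (fun n => ∀ p ∈ PP z ξ \ E, ¬ p ∣ m n), ν n ≤
      M * (1 / G + ε * Th z ξ ^ 5 / G ^ 2)

open Classical in
def S_Det : Prop :=
  ∃ B0 : ℕ, ∀ B : ℕ, B0 ≤ B → ∃ (η : ℝ) (z0 : ℕ), 0 < η ∧ ∀ (z X : ℕ) (A : Finset ℕ) (ν : ℕ → ℝ)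
    (m : ℕ → ℕ) (M0 σ : ℝ) (χ : RC) (Bad : ℕ → Prop), z0 ≤ z → z ^ B ≤ X → X ≤ z ^ (B + 1) →
    0 < M0 → (σ = 1 ∨ σ = -1) → (∀ n ∈ A, 0 ≤ ν n) →
    (∀ n ∈ A, ν n ≠ 0 → X ≤ m n ∧ m n ≤ 3 * X ∧ rough z (m n) ∧ χ.χ (m n) = σ) →
    Eqd z X B A ν m M0 → χ.sig z X ≤ η →
    ∑ n ∈ A.filter (fun n => Bad n ∨ ¬ Squarefree (m n)), ν n ≤ η * M0 →
    ∃ n ∈ A, ν n ≠ 0 ∧ ¬ Bad n ∧ (m n).primeFactorsList.length ≤ 2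

def S_RegII : Prop :=
  ∀ k e0 : ℕ, ∃ (K E v0 : ℕ) (η1 : ℝ), 0 < η1 ∧
    ∀ {ι : Type} [Fintype ι] [DecidableEq ι] (a b : ι → ℕ) (v : ℕ) (i j : ι) (χ : RC),
    Fintype.card ι = k → v0 ≤ v → Nrm a b K v → i ≠ j → (∀ l, χ.r ∣ a l) → χ.χ (b i) = 1 →
    χ.sig (v ^ e0) (v ^ E) ≤ η1 → ∃ n ≤ v ^ E, Good a b i j v n

def S_Main : Prop :=
  ∀ k : ℕ, ∃ E γ R : ℕ, 0 < E ∧ 0 < γ ∧ ∀ {ι : Type} [Fintype ι] [DecidableEq ι] (a b : ι → ℕ),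
    Fintype.card ι = k → (∀ i, 1 ≤ b i ∧ b i < a i) →
    (∀ p : ℕ, p.Prime → ∃ m : ℤ, ∀ i, ¬ ((p : ℤ) ∣ (a i : ℤ) * m + (b i : ℤ))) →
    (∀ i j, i ≠ j → (a i, b i) ≠ (a j, b j)) → ∀ i j, i ≠ j →
    ∃ n, 1 ≤ n ∧ n ≤ γ * (∏ l, a l) ^ E ∧ (a i * n + b i).Prime ∧
      (a j * n + b j).primeFactorsList.length ≤ 2 ∧
      ∀ l, (a l * n + b l).primeFactorsList.length ≤ R

end Pool.Agent.P.MP_746f10_nt.UC
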