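import Pool.Agent.P.MP_746f10_nt.UC.Defs
import Pool.Agent.P.MP_0ad054_nt.An.BV

/-! Elementary lemmas for the large conductor estimate. -/

namespace Pool.Agent.P.MP_746f10_nt.UC

open Finset
open Pool.Agent.P.MP_0ad054_nt.Chen (Lev bet ck Wm Mm Hc zz Dl Nl Qs IsChen)
open scoped ArithmeticFunction.vonMangoldt ArithmeticFunction.Moebius

namespace BigP

lemma sum_inj {α β : Type} (S : Finset α) (T : Finset β) (e : α → β) (G : β → ℝ)
    (hG : ∀ b, 0 ≤ G b) (hm : ∀ a ∈ S, e a ∈ T) (hi : Set.InjOn e S) :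
    ∑ a ∈ S, G (e a) ≤ ∑ b ∈ T, G b := by
  classical
  rw [← sum_image (f := G) hi]
  refine sum_le_sum_of_subset_of_nonneg (fun b hb => ?_) fun b _ _ => hG b
  obtain ⟨a, ha, rfl⟩ := mem_image.1 hb
  exact hm a ha

lemma card_le_real {α : Type} (S : Finset α) (e : α → ℕ) (K : ℝ) (hK : 0 ≤ K)
    (hm : ∀ a ∈ S, 1 ≤ e a ∧ (e a : ℝ) ≤ K) (hi : Set.InjOn e S) : (S.card : ℝ) ≤ K := by
  have h := card_le_card_of_injOn (t := Icc 1 ⌊K⌋₊) e
    (fun a ha => mem_coe.2 (mem_Icc.2 ⟨(hm a ha).1, Nat.le_floor (hm a ha).2⟩)) hi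
  rw [Nat.card_Icc, Nat.add_sub_cancel] at h
  exact (Nat.cast_le.2 h).trans (Nat.floor_le hK)

lemma w_bd {N : ℕ} {A H : ℝ} {w : ℕ → ℝ} (hA : 0 < A) (hw : ∀ t, w t ≠ 0 → A ≤ t ∧ t < N)
    (hH : ∀ t : ℕ, 1 ≤ t → |w (t + 1) - w t| ≤ H / (t : ℝ) ^ 2) (m : ℕ) : |w m| ≤ 2 * H / A := by
  have H0 : 0 ≤ H := by simpa using (abs_nonneg _).trans (hH 1 le_rfl)
  by_cases h : w m = 0
  · rw [h, abs_zero]; positivity
  obtain ⟨h1, h2⟩ := hw m h
  have m0 : (0 : ℝ) < m := hA.trans_le h1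
  have m1 : 1 ≤ m := by exact_mod_cast m0
  have hN : w N = 0 := by
    by_contra h3
    exact lt_irrefl _ (hw N h3).2
  have e1 : ∑ t ∈ Ico m N, (w (t + 1) - w t) = w N - w m := sum_Ico_sub w h2.le
  have e2 : Ico m N = Ioo (m - 1) N := by
    ext t; simp only [mem_Ico, mem_Ioo]; omega
  have e3 := sum_Ioo_inv_sq_le (α := ℝ) (m - 1) N
  have e4 : ((m - 1 : ℕ) : ℝ) + 1 = m := by
    rw [Nat.cast_sub m1]; simp
  rw [e4, ← e2] at e3
  calc |w m| = |∑ t ∈ Ico m N, (w (t + 1) - w t)| := by rw [e1, hN, zero_sub, abs_neg]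
    _ ≤ ∑ t ∈ Ico m N, H * ((t : ℝ) ^ 2)⁻¹ :=
      (abs_sum_le_sum_abs _ _).trans (sum_le_sum fun t ht => by
        rw [← div_eq_mul_inv]; exact hH t (m1.trans (mem_Ico.1 ht).1))
    _ ≤ H * (2 / m) := by rw [← mul_sum]; gcongr
    _ ≤ H * (2 / A) := by gcongr
    _ = _ := by ring

lemma abel0 (w x : ℕ → ℝ) (n : ℕ) :
    ∑ m ∈ range (n + 1), w m * x m = w 0 * x 0 +
      ∑ t ∈ range n, (w t - w (t + 1)) * ∑ m ∈ Icc 1 t, x m + w n * ∑ m ∈ Icc 1 n, x m := by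
  induction n with
  | zero => simp
  | succ n ih =>
    rw [sum_range_succ, ih, sum_range_succ, sum_Icc_succ_top (by omega)]
    ring

lemma abel {w : ℕ → ℝ} (x : ℕ → ℝ) {N : ℕ} (h0 : w 0 = 0) (hN : w N = 0) :
    ∑ m ∈ range N, w m * x m = ∑ t ∈ range N, (w t - w (t + 1)) * ∑ m ∈ Icc 1 t, x m := by
  have := abel0 w x N
  rw [sum_range_succ, h0, hN] at this
  simpa using this

lemma wsum {w : ℕ → ℝ} {ω : ℝ} (h0 : w 0 = 0) (hω : ∀ m, |w m| ≤ ω) (x f : ℕ → ℝ) (N : ℕ)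
    (hx : ∀ m, |x m| ≤ f m) : |∑ m ∈ range N, w m * x m| ≤ ω * ∑ m ∈ Icc 1 N, f m := by
  have ω0 : 0 ≤ ω := (abs_nonneg _).trans (hω 0)
  have e1 : ∑ m ∈ range N, w m * x m = ∑ m ∈ (range N).erase 0, w m * x m :=
    (sum_erase _ (by rw [h0, zero_mul])).symm
  rw [e1, mul_sum]
  refine (abs_sum_le_sum_abs _ _).trans ((sum_le_sum fun m _ => ?_).trans
    (sum_le_sum_of_subset_of_nonneg (f := fun m => ω * f m) (fun m hm => ?_) fun m _ _ =>
      mul_nonneg ω0 ((abs_nonneg _).trans (hx m))))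
  · rw [abs_mul]
    exact mul_le_mul (hω m) (hx m) (abs_nonneg _) ω0
  · simp only [mem_erase, mem_range, mem_Icc] at hm ⊢
    omega

lemma pw3 (P Q R : Prop) [Decidable P] [Decidable Q] [Decidable R] (a w g q : ℝ) :
    a * w * (if P then 1 else 0) * ((if Q then 1 else 0) - q) =
      w * ((if P ∧ Q then g else 0) - q * (if P ∧ R then g else 0)) +
      w * -(q * (if P ∧ ¬ R then g else 0)) +
      w * ((a - g) * ((if P then 1 else 0) * ((if Q then 1 else 0) - q))) := by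
  by_cases c1 : P <;> by_cases c2 : Q <;> by_cases c3 : R <;> simp [c1, c2, c3] <;> ring

lemma one {N s d r ρ r' : ℕ} {w g a G : ℕ → ℝ} {H ω E D : ℝ} {T : Finset ℕ}
    (h0 : w 0 = 0) (hN : w N = 0) (hT : T ⊆ range N) (hT0 : ∀ t, t ∉ T → w t - w (t + 1) = 0)
    (hH : ∀ t ∈ T, |w (t + 1) - w t| ≤ H / (t : ℝ) ^ 2) (hω : ∀ m, |w m| ≤ ω)
    (hd : 1 ≤ d) (hsd : s.Coprime d) (h1 : r' ≡ r [MOD s]) (h2 : r' ≡ ρ [MOD d])
    (hG : ∀ t ∈ T, |∑ m ∈ (Icc 1 t).filter (fun m => m ≡ r' [MOD s * d]), g m -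
      1 / (d.totient : ℝ) *
        ∑ m ∈ (Icc 1 t).filter (fun m => m ≡ r' [MOD s] ∧ m.Coprime d), g m| ≤ G t)
    (hE : ∑ m ∈ (Icc 1 N).filter (fun m => ¬ m.Coprime d), |g m| ≤ E)
    (hD : ∑ m ∈ Icc 1 N, |a m - g m| ≤ D) :
    |∑ m ∈ range N, a m * w m * (if m ≡ r [MOD s] then 1 else 0) *
      ((if m ≡ ρ [MOD d] then 1 else 0) - 1 / (d.totient : ℝ))| ≤
      ∑ t ∈ T, H / (t : ℝ) ^ 2 * G t + ω * (E / d.totient) + ω * D := by
  have ω0 : 0 ≤ ω := (abs_nonneg _).trans (hω 0)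
  have hφ : (1 : ℝ) ≤ d.totient := by exact_mod_cast Nat.totient_pos.2 hd
  have hq0 : 0 < 1 / (d.totient : ℝ) := by positivity
  have hq1 : 1 / (d.totient : ℝ) ≤ 1 := by rw [div_le_one (by positivity)]; exact hφ
  set q : ℝ := 1 / (d.totient : ℝ) with hq
  let x : ℕ → ℝ := fun m => (if m ≡ r' [MOD s * d] then g m else 0) -
    q * (if m ≡ r' [MOD s] ∧ m.Coprime d then g m else 0)
  let x2 : ℕ → ℝ := fun m => -(q * (if m ≡ r [MOD s] ∧ ¬ m.Coprime d then g m else 0))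
  let x3 : ℕ → ℝ := fun m => (a m - g m) * ((if m ≡ r [MOD s] then 1 else 0) *
    ((if m ≡ ρ [MOD d] then 1 else 0) - q))
  have e1 : ∀ m, a m * w m * (if m ≡ r [MOD s] then 1 else 0) *
      ((if m ≡ ρ [MOD d] then 1 else 0) - q) = w m * x m + w m * x2 m + w m * x3 m := by
    intro m
    have i1 : m ≡ r' [MOD s] ↔ m ≡ r [MOD s] := ⟨fun h => h.trans h1, fun h => h.trans h1.symm⟩
    have i2 : m ≡ r' [MOD d] ↔ m ≡ ρ [MOD d] := ⟨fun h => h.trans h2, fun h => h.trans h2.symm⟩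
    have i3 : m ≡ r' [MOD s * d] ↔ m ≡ r [MOD s] ∧ m ≡ ρ [MOD d] := by
      rw [← Nat.modEq_and_modEq_iff_modEq_mul hsd, i1, i2]
    simp only [x, x2, x3, i1, i3]
    exact pw3 _ _ _ _ _ _ _
  simp only [e1, sum_add_distrib]
  refine (abs_add_three _ _ _).trans (add_le_add (add_le_add ?_ ?_) ?_)
  · rw [abel x h0 hN, ← sum_subset hT (fun t _ ht => by rw [hT0 t ht, zero_mul])]
    refine (abs_sum_le_sum_abs _ _).trans (sum_le_sum fun t ht => ?_)
    rw [abs_mul, abs_sub_comm]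
    refine mul_le_mul (hH t ht) ?_ (abs_nonneg _) ((abs_nonneg _).trans (hH t ht))
    have := hG t ht
    rw [sum_filter, sum_filter, mul_sum, ← sum_sub_distrib] at this
    exact this
  · refine (wsum h0 hω x2 (fun m => q * (if ¬ m.Coprime d then |g m| else 0)) N fun m => ?_).trans
      ?_
    · simp only [x2, abs_neg, abs_mul, abs_of_pos hq0]
      refine mul_le_mul_of_nonneg_left ?_ hq0.le
      by_cases c1 : m ≡ r [MOD s] <;> by_cases c3 : m.Coprime d <;> simp [c1, c3]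
    · refine mul_le_mul_of_nonneg_left ?_ ω0
      rw [← mul_sum, ← sum_filter, div_eq_mul_one_div E, mul_comm E]
      exact mul_le_mul_of_nonneg_left hE hq0.le
  · refine (wsum h0 hω x3 (fun m => |a m - g m|) N fun m => ?_).trans
      (mul_le_mul_of_nonneg_left hD ω0)
    simp only [x3]
    rw [abs_mul]
    refine mul_le_of_le_one_right (abs_nonneg _) ?_
    rw [abs_le]
    split_ifs <;> constructor <;> linarith

lemma two {N s : ℕ} {a u F : ℕ → ℝ} {W B : ℝ} (hs : 1 ≤ s) (ha : ∀ m, a m ≠ 0 → m.Coprime s)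
    (hF : ∀ m m', m ≡ m' [MOD s] → F m = F m')
    (hW : ∑ m ∈ range s, (if m.Coprime s then |F m| else 0) ≤ W) (B0 : 0 ≤ B)
    (hB : ∀ r, r.Coprime s → |∑ m ∈ range N, a m * (if m ≡ r [MOD s] then 1 else 0) * u m| ≤ B) :
    |∑ m ∈ range N, a m * F m * u m| ≤ W * B := by
  have e1 : ∀ m, a m * F m * u m = ∑ r ∈ range s, (if r.Coprime s then F r else 0) *
      (a m * (if m ≡ r [MOD s] then 1 else 0) * u m) := by
    intro m
    have hm : m ≡ m % s [MOD s] := (Nat.mod_modEq m s).symm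
    rw [sum_eq_single (m % s)]
    · by_cases h : a m = 0
      · simp [h]
      · have : (m % s).Coprime s := by
          have := ha m h
          unfold Nat.Coprime at this ⊢
          rw [← hm.gcd_eq]; exact this
        rw [if_pos this, if_pos hm, hF _ _ hm]; ring
    · intro r hr hne
      rw [if_neg (c := m ≡ r [MOD s])]
      · simp
      · intro h
        exact hne (by rw [h, Nat.mod_eq_of_lt (mem_range.1 hr)])
    · intro h
      exact absurd (mem_range.2 (Nat.mod_lt _ hs)) h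
  simp only [e1]
  rw [sum_comm]
  refine (abs_sum_le_sum_abs _ _).trans (le_trans ?_ (mul_le_mul_of_nonneg_right hW B0))
  rw [sum_mul]
  refine sum_le_sum fun r _ => ?_
  rw [← mul_sum, abs_mul]
  split_ifs with h
  · exact mul_le_mul_of_nonneg_left (hB r h) (abs_nonneg _)
  · simp

lemma conv_le (N : ℕ) (f h : ℕ → ℝ) (hf : ∀ k, 0 ≤ f k) (hh : ∀ k, 0 ≤ h k) :
    ∑ m ∈ Icc 1 N, ∑ k ∈ m.divisors, f k * h (m / k) ≤
      (∑ k ∈ Icc 1 N, f k) * ∑ l ∈ Icc 1 N, h l := by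
  rw [sum_mul_sum, ← sum_product', sum_sigma']
  refine sum_inj _ _ (fun z : (_ : ℕ) × ℕ => (z.2, z.1 / z.2)) (fun p => f p.1 * h p.2)
    (fun p => mul_nonneg (hf _) (hh _)) ?_ ?_
  · rintro ⟨m, k⟩ hz
    simp only [mem_sigma, mem_Icc, Nat.mem_divisors, mem_product] at hz ⊢
    obtain ⟨⟨h1, h2⟩, h3, h4⟩ := hz
    have k0 : 0 < k := Nat.pos_of_dvd_of_pos h3 h1
    exact ⟨⟨k0, (Nat.le_of_dvd h1 h3).trans h2⟩, Nat.div_pos (Nat.le_of_dvd h1 h3) k0,
      (Nat.div_le_self _ _).trans h2⟩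
  · rintro ⟨m, k⟩ hz ⟨m', k'⟩ hz' he
    simp only [coe_sigma, Set.mem_sigma_iff, mem_coe, Nat.mem_divisors, Prod.mk.injEq] at hz hz' he
    obtain ⟨rfl, h2⟩ := he
    have : m = m' := by rw [← Nat.mul_div_cancel' hz.2.1, h2, Nat.mul_div_cancel' hz'.2.1]
    rw [this]

lemma natLog_le' {N : ℕ} (hN : 2 ≤ N) : (Nat.log 2 N : ℝ) ≤ 3 * Real.log N := by
  have := Pool.Agent.P.MP_0ad054_nt.An.BVP.natLog_le hN
  push_cast at this
  linarith

lemma omega_le {N d : ℕ} (hN : 2 ≤ N) (hd : 1 ≤ d) (hdN : d ≤ N) :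
    (d.primeFactors.card : ℝ) ≤ 3 * Real.log N := by
  refine le_trans (Nat.cast_le.2 (Nat.le_log_of_pow_le one_lt_two ?_)) (natLog_le' hN)
  exact (pow_card_le_prod _ (fun p => p) 2 fun p hp => (Nat.prime_of_mem_primeFactors hp).two_le).trans
    ((Nat.le_of_dvd hd (Nat.prod_primeFactors_dvd d)).trans hdN)

lemma err' {N d : ℕ} (hN : 2 ≤ N) (hd : 1 ≤ d) (hdN : d ≤ N) :
    ∑ n ∈ (Icc 1 N).filter (fun n => ¬ n.Coprime d), Λ n ≤ 3 * Real.log N ^ 2 := by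
  refine (Pool.Agent.P.MP_0ad054_nt.An.BVP.err (by omega) N).trans ?_
  have h1 : Real.log d ≤ Real.log N := Real.log_le_log (by exact_mod_cast hd) (by exact_mod_cast hdN)
  calc (Nat.log 2 N : ℝ) * Real.log d ≤ 3 * Real.log N * Real.log N :=
        mul_le_mul (natLog_le' hN) h1 (Real.log_natCast_nonneg _)
          (by have := Real.log_natCast_nonneg N; positivity)
    _ = _ := by ring

lemma errD {N y : ℕ} (hN : 2 ≤ N) (hyN : y ≤ N) :
    ∑ m ∈ Icc 1 N, |Λ m * ri y m - Λ m| ≤ 3 * Real.log N ^ 2 * y := by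
  have h1 := Pool.Agent.P.MP_0ad054_nt.An.BVP.err (Nat.factorial_ne_zero y) N
  have h2 : Real.log (y.factorial : ℕ) ≤ y * Real.log N := by
    rw [← Real.log_pow]
    refine Real.log_le_log (by exact_mod_cast y.factorial_pos) ?_
    exact_mod_cast y.factorial_le_pow.trans (Nat.pow_le_pow_left hyN y)
  have L0 := Real.log_natCast_nonneg N
  rw [sum_filter] at h1
  calc _ ≤ _ := sum_le_sum fun m _ => ?_
    _ ≤ _ := h1
    _ ≤ 3 * Real.log N * (y * Real.log N) :=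
        mul_le_mul (natLog_le' hN) h2 (Real.log_natCast_nonneg _) (by positivity)
    _ = _ := by ring
  have Λ0 : 0 ≤ Λ m := ArithmeticFunction.vonMangoldt_nonneg
  by_cases hr : rough y m
  · simp only [ri, if_pos hr, mul_one, sub_self, abs_zero]
    split_ifs <;> simp [Λ0]
  · have : ¬ m.Coprime y.factorial := fun hc => hr fun p hp hpm => by
      by_contra hle
      exact (Nat.Prime.coprime_iff_not_dvd hp).1 (hc.coprime_dvd_left hpm)
        ((Nat.Prime.dvd_factorial hp).2 (not_lt.1 hle))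
    simp [ri, hr, this, abs_of_nonneg Λ0]

end BigP

end Pool.Agent.P.MP_746f10_nt.UC
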