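import Pool.Agent.P.MP_746f10_nt.UC.BigA

/-! The large conductor estimate with weights. -/

namespace Pool.Agent.P.MP_746f10_nt.UC

open Finset
open Pool.Agent.P.MP_0ad054_nt.Chen (Lev bet ck Wm Mm Hc zz Dl Nl Qs IsChen)
open scoped ArithmeticFunction.vonMangoldt ArithmeticFunction.Moebius

namespace BigP

lemma errE {N d : ℕ} (hN : 2 ≤ N) (hd : 1 ≤ d) (hdN : d ≤ N) {c b : ℕ → ℝ} {Z K : ℝ}
    (hZ : 0 < Z) (hK : 0 ≤ K) (hZK : N ≤ K * Z) (hc : Lev Z K c) (hb : ∀ l, |b l| ≤ Λ l) :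
    ∑ m ∈ (Icc 1 N).filter (fun m => ¬ m.Coprime d), |cv c b m| ≤ 6 * Real.log N ^ 2 * K := by
  have L0 := Real.log_natCast_nonneg N
  have Λ0 : ∀ m, 0 ≤ Λ m := fun m => ArithmeticFunction.vonMangoldt_nonneg
  set P := d.primeFactors.filter (fun p : ℕ => Z < p) with hP
  have key : ∀ m ∈ (Icc 1 N).filter (fun m => ¬ m.Coprime d), |cv c b m| ≤
      ∑ p ∈ P, (if p ∣ m then Real.log N else 0) +
        ∑ k ∈ m.divisors, |c k| * (if ¬ (m / k).Coprime d then Λ (m / k) else 0) := by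
    intro m hm
    obtain ⟨hm1, hm2⟩ := mem_filter.1 hm
    obtain ⟨hm0, hmN⟩ := mem_Icc.1 hm1
    have n1 : 0 ≤ ∑ p ∈ P, (if p ∣ m then Real.log N else 0) :=
      sum_nonneg fun p _ => by split_ifs <;> simp [L0]
    have n2 : 0 ≤ ∑ k ∈ m.divisors, |c k| * (if ¬ (m / k).Coprime d then Λ (m / k) else 0) :=
      sum_nonneg fun k _ => mul_nonneg (abs_nonneg _) (by split_ifs <;> simp [Λ0])
    have h1 : |cv c b m| ≤ ∑ k ∈ m.divisors, |c k| * Λ (m / k) :=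
      (abs_sum_le_sum_abs _ _).trans (sum_le_sum fun k _ => by
        rw [abs_mul]; exact mul_le_mul_of_nonneg_left (hb _) (abs_nonneg _))
    by_cases h : ∃ p ∈ P, p ∣ m
    · obtain ⟨p, hp, hpm⟩ := h
      have h2 : ∑ k ∈ m.divisors, |c k| * Λ (m / k) ≤ Real.log N := by
        calc _ ≤ ∑ k ∈ m.divisors, Λ (m / k) :=
              sum_le_sum fun k _ => mul_le_of_le_one_left (Λ0 _) (hc k).1
          _ = Real.log m := by
              rw [Nat.sum_div_divisors m (fun k => Λ k), ArithmeticFunction.vonMangoldt_sum]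
          _ ≤ _ := Real.log_le_log (by exact_mod_cast hm0) (by exact_mod_cast hmN)
      have h3 : Real.log N ≤ ∑ p ∈ P, (if p ∣ m then Real.log N else 0) := by
        have := single_le_sum (f := fun p => if p ∣ m then Real.log N else 0)
          (fun p _ => by split_ifs <;> simp [L0]) hp
        simpa only [if_pos hpm] using this
      linarith
    · refine h1.trans (le_trans (sum_le_sum fun k hk => ?_) (le_add_of_nonneg_left n1))
      by_cases hck : c k = 0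
      · simp [hck]
      have hkm := Nat.dvd_of_mem_divisors hk
      rw [if_pos]
      intro hco
      refine hm2 ?_
      rw [← Nat.mul_div_cancel' hkm]
      refine Nat.Coprime.mul_left (Nat.coprime_of_dvd fun p hp hpk hpd => h ⟨p, ?_, hpk.trans hkm⟩)
        hco
      exact mem_filter.2 ⟨Nat.mem_primeFactors.2 ⟨hp, hpd, by omega⟩, ((hc k).2 hck).2 p hp hpk⟩
  refine (sum_le_sum key).trans (le_trans (sum_le_sum_of_subset_of_nonneg (filter_subset _ _)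
    fun m _ _ => add_nonneg (sum_nonneg fun p _ => by split_ifs <;> simp [L0])
      (sum_nonneg fun k _ => mul_nonneg (abs_nonneg _) (by split_ifs <;> simp [Λ0]))) ?_)
  rw [sum_add_distrib, sum_comm]
  have s1 : ∑ p ∈ P, ∑ m ∈ Icc 1 N, (if p ∣ m then Real.log N else 0) ≤
      3 * Real.log N * (K * Real.log N) := by
    refine (sum_le_card_nsmul _ _ (K * Real.log N) fun p hp => ?_).trans ?_
    · rw [← sum_filter, sum_const, nsmul_eq_mul]
      refine mul_le_mul_of_nonneg_right ?_ L0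
      have e1 : Icc 1 N = Ioc 0 N := rfl
      rw [e1, Nat.Ioc_filter_dvd_card_eq_div]
      have hp2 := (mem_filter.1 hp).2
      refine Nat.cast_div_le.trans ?_
      rw [div_le_iff₀ (hZ.trans hp2)]
      exact hZK.trans (mul_le_mul_of_nonneg_left hp2.le hK)
    · rw [nsmul_eq_mul]
      refine mul_le_mul_of_nonneg_right (le_trans ?_ (omega_le hN hd hdN)) (by positivity)
      exact_mod_cast card_filter_le _ _
  have s2 := conv_le N (fun k => |c k|) (fun l => if ¬ l.Coprime d then Λ l else 0)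
    (fun _ => abs_nonneg _) (fun l => by split_ifs <;> simp [Λ0])
  have s3 : ∑ k ∈ Icc 1 N, |c k| ≤ K := by
    rw [← sum_filter_ne_zero]
    refine (sum_le_card_nsmul _ _ 1 fun k _ => (hc k).1).trans ?_
    rw [nsmul_eq_mul, mul_one]
    refine card_le_real _ (fun k => k) K hK (fun k hk => ?_) (fun _ _ _ _ h => h)
    obtain ⟨h1, h2⟩ := mem_filter.1 hk
    exact ⟨(mem_Icc.1 h1).1, ((hc k).2 (abs_ne_zero.1 h2)).1⟩
  have s4 := err' hN hd hdN
  rw [sum_filter] at s4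
  have s5 := mul_le_mul s3 s4 (sum_nonneg fun l _ => by split_ifs <;> simp [Λ0]) hK
  calc _ ≤ 3 * Real.log N * (K * Real.log N) + K * (3 * Real.log N ^ 2) :=
        add_le_add s1 (s2.trans s5)
    _ = _ := by ring

lemma bet_eq {y : ℕ} {Z K : ℝ} {c : ℕ → ℝ} (hy : (y : ℝ) ≤ Z) (hc : Lev Z K c) (m : ℕ) :
    bet c m * ri y m = cv c (fun l => Λ l * ri y l) m := by
  rw [bet, cv, sum_mul]
  refine sum_congr rfl fun k hk => ?_
  by_cases hck : c k = 0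
  · simp [hck]
  have hkm := Nat.dvd_of_mem_divisors hk
  have : rough y m ↔ rough y (m / k) := by
    refine ⟨fun h p hp hpm => h p hp (hpm.trans (Nat.div_dvd_of_dvd hkm)), fun h p hp hpm => ?_⟩
    rw [← Nat.mul_div_cancel' hkm] at hpm
    rcases (Nat.Prime.dvd_mul hp).1 hpm with h1 | h1
    · exact_mod_cast hy.trans_lt (((hc k).2 hck).2 p hp h1)
    · exact h p hp h1
  have e : ri y m = ri y (m / k) := by
    unfold ri
    rw [this]
  rw [e, mul_assoc]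

lemma cop {R s d : ℕ} (hs : ∀ p, p.Prime → p ∣ s → p ≤ R) (hd : ∀ p, p.Prime → p ∣ d → R < p) :
    s.Coprime d :=
  Nat.coprime_of_dvd fun p hp h1 h2 => absurd (hs p hp h1) (not_le.2 (hd p hp h2))

lemma aux {N R : ℕ} {W H ω E D K1 K2 Y : ℝ} {w g a μ' : ℕ → ℝ} {ρ : ℕ → ℕ} {ι : Type}
    {S : Finset ι} {s : ι → ℕ} {F : ι → ℕ → ℝ} {T : Finset ℕ} {G : ℕ → ℕ → ℝ} {K : ℕ → ℕ}
    (h0 : w 0 = 0) (hN : w N = 0) (hT : T ⊆ range N) (hT0 : ∀ t, t ∉ T → w t - w (t + 1) = 0)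
    (hH : ∀ t ∈ T, |w (t + 1) - w t| ≤ H / (t : ℝ) ^ 2) (hω : ∀ m, |w m| ≤ ω) (H0 : 0 ≤ H)
    (ha : ∀ m, a m ≠ 0 → rough R m) (hi : Set.InjOn s S) (K10 : 0 ≤ K1) (K20 : 0 ≤ K2)
    (hs : ∀ i ∈ S, 1 ≤ s i ∧ (s i : ℝ) ≤ K1 ∧
      (∀ p, p.Prime → p ∣ s i → p ≤ R) ∧ (∀ m m', m ≡ m' [MOD s i] → F i m = F i m') ∧
      ∑ m ∈ range (s i), (if m.Coprime (s i) then |F i m| else 0) ≤ W)
    (W0 : 0 ≤ W) (hμ : Lev R K2 μ') (hρ : ∀ d, μ' d ≠ 0 → (ρ d).Coprime d)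
    (G0 : ∀ t ∈ T, ∀ e, 0 ≤ G t e) (hK : ∀ t ∈ T, ∀ e : ℕ, (e : ℝ) ≤ K1 * K2 → e ≤ K t)
    (G1 : ∀ t ∈ T, ∑ e ∈ Icc 1 (K t), G t e ≤ t * Y) (Y0 : 0 ≤ Y)
    (G2 : ∀ t ∈ T, ∀ s d r : ℕ, 1 ≤ s → 1 ≤ d → s.Coprime d → (∀ p, p.Prime → p ∣ d → R < p) →
      r.Coprime (s * d) →
      |∑ m ∈ (Icc 1 t).filter (fun m => m ≡ r [MOD s * d]), g m - 1 / (d.totient : ℝ) *
        ∑ m ∈ (Icc 1 t).filter (fun m => m ≡ r [MOD s] ∧ m.Coprime d), g m| ≤ G t (s * d))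
    (E0 : 0 ≤ E) (hE : ∀ d ∈ Icc 1 N, ∑ m ∈ (Icc 1 N).filter (fun m => ¬ m.Coprime d), |g m| ≤ E)
    (hD : ∑ m ∈ Icc 1 N, |a m - g m| ≤ D) :
    |∑ m ∈ range N, a m * w m * (∑ i ∈ S, F i m) *
      (∑ d ∈ Icc 1 N, μ' d * (if m ≡ ρ d [MOD d] then 1 else 0) - Mm N μ')| ≤
      W * (H * Y * (1 + Real.log N) + K1 * (ω * E * (1 + Real.log N) ^ 2) + K1 * (K2 * (ω * D))) := by
  classical
  have ω0 : 0 ≤ ω := (abs_nonneg _).trans (hω 0)
  have D0 : 0 ≤ D := (sum_nonneg fun _ _ => abs_nonneg _).trans hD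
  set Ds := (Icc 1 N).filter (fun d => μ' d ≠ 0) with hDs
  have hD1 : ∀ d ∈ Ds, 1 ≤ d ∧ (d : ℝ) ≤ K2 ∧ ∀ p, p.Prime → p ∣ d → R < p := by
    intro d hd
    obtain ⟨h1, h2⟩ := mem_filter.1 hd
    exact ⟨(mem_Icc.1 h1).1, ((hμ d).2 h2).1, fun p hp hpd => by
      exact_mod_cast ((hμ d).2 h2).2 p hp hpd⟩
  have e1 : ∀ m, a m * w m * (∑ i ∈ S, F i m) *
      (∑ d ∈ Icc 1 N, μ' d * (if m ≡ ρ d [MOD d] then 1 else 0) - Mm N μ') =
      ∑ i ∈ S, ∑ d ∈ Ds, μ' d * (a m * F i m *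
        (w m * ((if m ≡ ρ d [MOD d] then 1 else 0) - 1 / (d.totient : ℝ)))) := by
    intro m
    have e2 : ∑ d ∈ Icc 1 N, μ' d * (if m ≡ ρ d [MOD d] then 1 else 0) - Mm N μ' =
        ∑ d ∈ Ds, μ' d * ((if m ≡ ρ d [MOD d] then 1 else 0) - 1 / (d.totient : ℝ)) := by
      rw [Mm, ← sum_sub_distrib, hDs, sum_filter]
      refine sum_congr rfl fun d _ => ?_
      by_cases h : μ' d = 0
      · simp [h]
      · rw [if_pos h]; ring
    rw [e2, mul_assoc, sum_mul_sum, mul_sum]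
    refine sum_congr rfl fun i _ => ?_
    rw [mul_sum]
    exact sum_congr rfl fun d _ => by ring
  have key : ∀ i ∈ S, ∀ d ∈ Ds, |∑ m ∈ range N, μ' d * (a m * F i m *
      (w m * ((if m ≡ ρ d [MOD d] then 1 else 0) - 1 / (d.totient : ℝ))))| ≤
      W * (∑ t ∈ T, H / (t : ℝ) ^ 2 * G t (s i * d) + ω * (E / d.totient) + ω * D) := by
    intro i hiS d hd
    obtain ⟨s1, -, s3, s4, s5⟩ := hs i hiS
    obtain ⟨d1, -, d3⟩ := hD1 d hd
    have hsd := cop s3 d3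
    have B0 : 0 ≤ ∑ t ∈ T, H / (t : ℝ) ^ 2 * G t (s i * d) + ω * (E / d.totient) + ω * D :=
      add_nonneg (add_nonneg (sum_nonneg fun t ht => mul_nonneg (by positivity) (G0 t ht _))
        (by positivity)) (by positivity)
    rw [← mul_sum, abs_mul]
    refine (mul_le_of_le_one_left (abs_nonneg _) (hμ d).1).trans
      (two s1 (fun m hm => (cop s3 (ha m hm)).symm) s4 s5 B0 fun r hr => ?_)
    obtain ⟨r', h1, h2⟩ := Nat.chineseRemainder hsd r (ρ d)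
    have hr' : r'.Coprime (s i * d) := by
      refine Nat.Coprime.mul_right ?_ ?_
      · unfold Nat.Coprime at hr ⊢; rw [h1.gcd_eq]; exact hr
      · have := hρ d (mem_filter.1 hd).2
        unfold Nat.Coprime at this ⊢; rw [h2.gcd_eq]; exact this
    have := one (a := a) (G := fun t => G t (s i * d)) h0 hN hT hT0 hH hω d1 hsd h1 h2
      (fun t ht => G2 t ht _ _ _ s1 d1 hsd d3 hr') (hE d (mem_filter.1 hd).1) hD
    refine le_of_eq_of_le ?_ this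
    congr 1
    exact sum_congr rfl fun m _ => by ring
  simp only [e1]
  rw [sum_comm]
  refine (abs_sum_le_sum_abs _ _).trans ((sum_le_sum fun i hiS => ?_).trans
    (b := ∑ i ∈ S, ∑ d ∈ Ds,
      W * (∑ t ∈ T, H / (t : ℝ) ^ 2 * G t (s i * d) + ω * (E / d.totient) + ω * D)) ?_)
  · rw [sum_comm]
    exact (abs_sum_le_sum_abs _ _).trans (sum_le_sum fun d hd => key i hiS d hd)
  simp only [← mul_sum, sum_add_distrib]
  refine mul_le_mul_of_nonneg_left (add_le_add (add_le_add ?_ ?_) ?_) W0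
  · rw [← sum_product', sum_comm]
    have h1 : ∀ t ∈ T, ∑ z ∈ S ×ˢ Ds, H / (t : ℝ) ^ 2 * G t (s z.1 * z.2) ≤ H * Y * (1 / t) := by
      intro t ht
      rw [← mul_sum]
      have h2 := sum_inj (S ×ˢ Ds) (Icc 1 (K t)) (fun z => s z.1 * z.2) (G t) (G0 t ht) ?_ ?_
      · calc _ ≤ H / (t : ℝ) ^ 2 * (t * Y) :=
              mul_le_mul_of_nonneg_left (h2.trans (G1 t ht)) (by positivity)
          _ = _ := by
              by_cases h : (t : ℝ) = 0
              · simp [h]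
              · field_simp
      · rintro ⟨i, d⟩ hz
        obtain ⟨hz1, hz2⟩ := mem_product.1 hz
        refine mem_Icc.2 ⟨Nat.mul_pos (hs i hz1).1 (hD1 d hz2).1, hK t ht _ ?_⟩
        push_cast
        exact mul_le_mul (hs i hz1).2.1 (hD1 d hz2).2.1 (Nat.cast_nonneg _) K10
      · rintro ⟨i, d⟩ hz ⟨i', d'⟩ hz' he
        obtain ⟨hz1, hz2⟩ := mem_product.1 (mem_coe.1 hz)
        obtain ⟨hz1', hz2'⟩ := mem_product.1 (mem_coe.1 hz')
        have he' : s i * d = s i' * d' := he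
        have c1 := cop (hs i hz1).2.2.1 (hD1 d' hz2').2.2
        have c2 := cop (hs i' hz1').2.2.1 (hD1 d hz2).2.2
        have e3 : s i = s i' := Nat.dvd_antisymm
          (c1.dvd_of_dvd_mul_right (he' ▸ Dvd.intro _ rfl))
          (c2.dvd_of_dvd_mul_right (he' ▸ Dvd.intro _ rfl))
        rw [e3] at he'
        exact Prod.ext (hi hz1 hz1' e3) (Nat.eq_of_mul_eq_mul_left (hs i' hz1').1 he')
    refine (sum_le_sum h1).trans ?_
    rw [← mul_sum]
    refine mul_le_mul_of_nonneg_left ?_ (by positivity)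
    have h3 := harmonic_le_one_add_log N
    rw [harmonic_eq_sum_Icc] at h3
    push_cast at h3
    refine le_trans ?_ h3
    rw [← sum_erase (a := 0) T (by simp)]
    simp only [one_div]
    refine sum_le_sum_of_subset_of_nonneg (fun t ht => ?_) fun _ _ _ => by positivity
    obtain ⟨h4, h5⟩ := mem_erase.1 ht
    have := mem_range.1 (hT h5)
    exact mem_Icc.2 ⟨by omega, by omega⟩
  · have h1 : ∑ d ∈ Ds, E / (d.totient : ℝ) ≤ E * (1 + Real.log N) ^ 2 := by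
      refine le_trans ?_ (mul_le_mul_of_nonneg_left
        (Pool.Agent.P.MP_0ad054_nt.An.BVP.sum_inv_totient N) E0)
      rw [mul_sum]
      simp only [mul_one_div]
      exact sum_le_sum_of_subset_of_nonneg (filter_subset _ _) fun _ _ _ => by positivity
    have h2 := card_le_real S s K1 K10 (fun i h => ⟨(hs i h).1, (hs i h).2.1⟩) hi
    rw [sum_const, nsmul_eq_mul]
    calc _ ≤ ω * (K1 * (E * (1 + Real.log N) ^ 2)) :=
          mul_le_mul_of_nonneg_left (mul_le_mul h2 h1 (sum_nonneg fun _ _ => by positivity) K10) ω0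
      _ = _ := by ring
  · have h2 := card_le_real S s K1 K10 (fun i h => ⟨(hs i h).1, (hs i h).2.1⟩) hi
    have h3 := card_le_real Ds (fun d => d) K2 K20 (fun d h => ⟨(hD1 d h).1, (hD1 d h).2.1⟩)
      (fun _ _ _ _ h => h)
    simp only [sum_const, nsmul_eq_mul]
    calc _ ≤ ω * (K1 * (K2 * D)) := by gcongr
      _ = _ := by ring

end BigP

open BigP in
theorem big (h : S_Big0) : S_Big := by
  obtain ⟨C, j, C0, h⟩ := h
  obtain ⟨N0, hN0⟩ : ∃ N0 : ℕ, ∀ N : ℕ, N0 ≤ N → (3 : ℝ) ≤ (N : ℝ) ^ (1 / 2500 : ℝ) :=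
    Filter.eventually_atTop.1 (((tendsto_rpow_atTop (by norm_num)).comp
      tendsto_natCast_atTop_atTop).eventually_ge_atTop 3)
  refine ⟨2 * C + 54, j + 4, max N0 3, by positivity, ?_⟩
  intro N R y W H w g μ' ρ ι S s F hN hR hRy hy hw hH hg hi hs W0 hμ hρ
  have h3 := hN0 N (le_of_max_le_left hN)
  have N3 : 3 ≤ N := le_of_max_le_right hN
  have N2 : 2 ≤ N := by omega
  have N1 : (1 : ℝ) ≤ N := by exact_mod_cast (by omega : 1 ≤ N)
  have Np : (0 : ℝ) < N := by linarith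
  have rp : ∀ {a b : ℝ}, a ≤ b → (N : ℝ) ^ a ≤ (N : ℝ) ^ b := fun hab =>
    Real.rpow_le_rpow_of_exponent_le N1 hab
  have ra : ∀ a b : ℝ, (N : ℝ) ^ a * (N : ℝ) ^ b = (N : ℝ) ^ (a + b) := fun a b =>
    (Real.rpow_add Np a b).symm
  have r0 : ∀ a : ℝ, 0 < (N : ℝ) ^ a := fun a => Real.rpow_pos_of_pos Np a
  have H0 : 0 ≤ H := by simpa using (abs_nonneg _).trans (hH 1 le_rfl)
  have L1 : 1 ≤ Real.log N := by
    rw [Real.le_log_iff_exp_le Np]
    have := Real.exp_one_lt_d9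
    have h4 : (3 : ℝ) ≤ N := by exact_mod_cast N3
    linarith
  set L := Real.log N with hL
  set ε := (N : ℝ) ^ (-(1 / 20000) : ℝ) with hε
  have hNl : 0 < Nl N := r0 _
  have hω := w_bd hNl hw hH
  have w0 : ∀ t : ℕ, (t : ℝ) < Nl N → w t = 0 := fun t ht => by
    by_contra h1
    exact absurd (hw t h1).1 (not_le.2 ht)
  have h0 : w 0 = 0 := w0 0 (by simpa using hNl)
  have hwN : w N = 0 := by
    by_contra h1
    exact lt_irrefl _ (hw N h1).2
  set T := (range N).filter (fun t : ℕ => (N : ℝ) ^ (1999 / 2000 : ℝ) ≤ t) with hT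
  have hT0 : ∀ t, t ∉ T → w t - w (t + 1) = 0 := by
    intro t ht
    by_cases h1 : t < N
    · have h2 : (t : ℝ) < (N : ℝ) ^ (1999 / 2000 : ℝ) :=
        not_le.1 fun h2 => ht (mem_filter.2 ⟨mem_range.2 h1, h2⟩)
      have h4 : Nl N = (N : ℝ) ^ (1999 / 2000 : ℝ) * (N : ℝ) ^ (1 / 2500 : ℝ) := by
        rw [ra, Nl]; norm_num
      have h5 : (1 : ℝ) ≤ (N : ℝ) ^ (1999 / 2000 : ℝ) := Real.one_le_rpow N1 (by norm_num)
      have h6 := mul_le_mul_of_nonneg_left h3 (r0 (1999 / 2000)).le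
      rw [w0 t (by linarith), w0 (t + 1) (by push_cast; linarith), sub_zero]
    · have h2 : ∀ u, N ≤ u → w u = 0 := fun u hu => by
        by_contra h4
        exact absurd (hw u h4).2 (not_lt.2 hu)
      rw [h2 t (by omega), h2 (t + 1) (by omega), sub_zero]
  have hTm : ∀ t ∈ T, 2 ≤ t ∧ (t : ℝ) ≤ N ∧ ∀ a : ℝ, 0 ≤ a →
      (N : ℝ) ^ (1999 / 2000 * a) ≤ (t : ℝ) ^ a ∧ (t : ℝ) ^ a ≤ (N : ℝ) ^ a := by
    intro t ht
    obtain ⟨h1, h2⟩ := mem_filter.1 ht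
    have h4 : (t : ℝ) ≤ N := by exact_mod_cast (mem_range.1 h1).le
    refine ⟨?_, h4, fun a ha => ⟨?_, Real.rpow_le_rpow (Nat.cast_nonneg _) h4 ha⟩⟩
    · have h5 := h3.trans ((rp (by norm_num)).trans h2)
      have : (2 : ℝ) ≤ t := by linarith
      exact_mod_cast this
    · rw [Real.rpow_mul Np.le]
      exact Real.rpow_le_rpow (r0 _).le h2 ha
  have hyN : y ≤ N := by
    have h1 := hy.trans (rp (b := 1) (by norm_num))
    rw [Real.rpow_one] at h1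
    exact_mod_cast h1
  obtain ⟨g', hg1, hE, hD⟩ : ∃ g' : ℕ → ℝ, (∀ t ∈ T, (g' = fun n => Λ n) ∨
      ∃ c b : ℕ → ℝ, g' = cv c b ∧ (∀ k, |c k| ≤ 1) ∧ (∀ l, |b l| ≤ Real.log l) ∧
        ∀ k, c k ≠ 0 → (t : ℝ) ^ (1 / 20 : ℝ) ≤ k ∧ (k : ℝ) ≤ (t : ℝ) ^ (19 / 20 : ℝ)) ∧
      (∀ d ∈ Icc 1 N, ∑ m ∈ (Icc 1 N).filter (fun m => ¬ m.Coprime d), |g' m| ≤
        6 * L ^ 2 * (N : ℝ) ^ (9 / 10 : ℝ)) ∧
      ∑ m ∈ Icc 1 N, |g m * ri y m - g' m| ≤ 3 * L ^ 2 * y := by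
    rcases hg with rfl | ⟨c, rfl, -, hc, hc1⟩
    · refine ⟨fun n => Λ n, fun _ _ => Or.inl rfl, fun d hd => ?_, errD N2 hyN⟩
      have h1 := err' N2 (mem_Icc.1 hd).1 (mem_Icc.1 hd).2
      have h5 : (1 : ℝ) ≤ (N : ℝ) ^ (9 / 10 : ℝ) := Real.one_le_rpow N1 (by norm_num)
      simp only [abs_of_nonneg ArithmeticFunction.vonMangoldt_nonneg]
      refine h1.trans ?_
      have h6 : 0 ≤ L ^ 2 := sq_nonneg _
      nlinarith
    · have hb : ∀ l, |Λ l * ri y l| ≤ Λ l := fun l => by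
        rw [abs_of_nonneg (mul_nonneg ArithmeticFunction.vonMangoldt_nonneg (ri_bd y l).1)]
        exact mul_le_of_le_one_right ArithmeticFunction.vonMangoldt_nonneg (ri_bd y l).2
      refine ⟨cv c (fun l => Λ l * ri y l), fun t ht => Or.inr ⟨c, _, rfl, fun k => (hc k).1,
        fun l => (hb l).trans ArithmeticFunction.vonMangoldt_le_log, fun k hk => ⟨?_, ?_⟩⟩,
        fun d hd => errE N2 (mem_Icc.1 hd).1 (mem_Icc.1 hd).2 (r0 _) (r0 _).le ?_ hc hb, ?_⟩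
      · have k1 : k ≠ 1 := fun h1 => hk (h1 ▸ hc1)
        have k0 : k ≠ 0 := by
          rintro rfl
          have h1 := ((hc 0).2 hk).2 2 Nat.prime_two (dvd_zero _)
          have h2 := h3.trans (rp (b := 1 / 10) (by norm_num))
          push_cast at h1
          linarith
        have h1 := ((hc k).2 hk).2 _ (Nat.minFac_prime k1) (Nat.minFac_dvd k)
        have h2 : (k.minFac : ℝ) ≤ k := by exact_mod_cast Nat.minFac_le (Nat.pos_of_ne_zero k0)
        exact ((hTm t ht).2.2 _ (by norm_num)).2.trans ((rp (by norm_num)).trans (h1.le.trans h2))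
      · exact ((hc k).2 hk).1.trans ((rp (by norm_num)).trans ((hTm t ht).2.2 _ (by norm_num)).1)
      · rw [ra]; norm_num
      · simp only [bet_eq (hy.trans (rp (by norm_num))) hc, sub_self, abs_zero, sum_const_zero]
        positivity
  have hG : ∀ t, ∃ G : ℕ → ℝ, t ∈ T → (∀ e, 0 ≤ G e) ∧
      ∑ e ∈ Icc 1 ⌊(t : ℝ) ^ (999 / 2000 : ℝ)⌋₊, G e ≤ t * (C * L ^ j * (1 / R + ε)) ∧
      ∀ s d r : ℕ, 1 ≤ s → 1 ≤ d → s.Coprime d → (∀ p, p.Prime → p ∣ d → R < p) →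
        r.Coprime (s * d) →
        |∑ m ∈ (Icc 1 t).filter (fun m => m ≡ r [MOD s * d]), g' m - 1 / (d.totient : ℝ) *
          ∑ m ∈ (Icc 1 t).filter (fun m => m ≡ r [MOD s] ∧ m.Coprime d), g' m| ≤ G (s * d) := by
    intro t
    by_cases ht : t ∈ T
    · obtain ⟨t2, tN, ta⟩ := hTm t ht
      obtain ⟨G, G0, G1, G2⟩ := h t R g' t2 hR (hg1 t ht)
      refine ⟨G, fun _ => ⟨G0, G1.trans ?_, G2⟩⟩
      have t0 : (0 : ℝ) < t := by exact_mod_cast (by omega : 0 < t)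
      have h1 : Real.log t ^ j ≤ L ^ j :=
        pow_le_pow_left₀ (Real.log_natCast_nonneg _) (Real.log_le_log t0 tN) j
      have h2 : (t : ℝ) ^ (-(1 / 10000) : ℝ) ≤ ε := by
        rw [hε, Real.rpow_neg t0.le, Real.rpow_neg Np.le]
        exact inv_anti₀ (r0 _) ((rp (by norm_num)).trans (ta _ (by norm_num)).1)
      have h4 : 0 ≤ (t : ℝ) ^ (-(1 / 10000) : ℝ) := by positivity
      calc _ ≤ C * t * L ^ j * (1 / R + ε) := by gcongr
        _ = _ := by ring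
    · exact ⟨0, fun h1 => absurd h1 ht⟩
  choose G hG using hG
  have ε0 : 0 < ε := r0 _
  have R0 : (0 : ℝ) ≤ 1 / R := by positivity
  have main := aux (a := fun m => g m * ri y m) (g := g') (G := G) (T := T)
    (K := fun t => ⌊(t : ℝ) ^ (999 / 2000 : ℝ)⌋₊) h0 hwN (filter_subset _ _) hT0
    (fun t ht => hH t (by have := (hTm t ht).1; omega)) hω H0
    (fun m hm p hp hpm => by
      have h1 : rough y m := by
        by_contra h1
        exact hm (by simp [ri, h1])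
      exact hRy.trans_lt (h1 p hp hpm)) hi (r0 _).le (r0 _).le hs W0 hμ hρ
    (fun t ht => (hG t ht).1) (fun t ht e he => Nat.le_floor (he.trans (by
      rw [ra]
      exact (rp (by norm_num)).trans ((hTm t ht).2.2 _ (by norm_num)).1)))
    (fun t ht => (hG t ht).2.1) (by positivity) (fun t ht => (hG t ht).2.2) (by positivity) hE hD
  refine main.trans ?_
  have hNl' : 2 * H / Nl N = 2 * H * (N : ℝ) ^ (-(9999 / 10000) : ℝ) := by
    rw [Real.rpow_neg Np.le, div_eq_mul_inv, Nl]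
  have b1 : (N : ℝ) ^ (1 / 10000 : ℝ) * ((N : ℝ) ^ (-(9999 / 10000) : ℝ) *
      (N : ℝ) ^ (9 / 10 : ℝ)) ≤ 1 / R + ε := by
    rw [ra, ra]
    exact le_add_of_nonneg_of_le R0 (rp (by norm_num))
  have b2 : (N : ℝ) ^ (1 / 10000 : ℝ) * ((N : ℝ) ^ (499 / 1000 : ℝ) *
      ((N : ℝ) ^ (-(9999 / 10000) : ℝ) * y)) ≤ 1 / R + ε := by
    refine le_trans (b := (N : ℝ) ^ (1 / 10000 : ℝ) * ((N : ℝ) ^ (499 / 1000 : ℝ) *
      ((N : ℝ) ^ (-(9999 / 10000) : ℝ) * (N : ℝ) ^ (1 / 100 : ℝ)))) (by gcongr) ?_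
    rw [ra, ra, ra]
    exact le_add_of_nonneg_of_le R0 (rp (by norm_num))
  have L0 : 0 ≤ L := by linarith
  have p1 : L ^ j * (1 + L) ≤ 2 * L ^ (j + 4) := by
    calc L ^ j * (1 + L) ≤ L ^ j * (2 * L) := by gcongr; linarith
      _ = 2 * L ^ (j + 1) := by ring
      _ ≤ _ := mul_le_mul_of_nonneg_left (pow_le_pow_right₀ L1 (by omega)) (by norm_num)
  have p2 : L ^ 2 * (1 + L) ^ 2 ≤ 4 * L ^ (j + 4) := by
    calc L ^ 2 * (1 + L) ^ 2 ≤ L ^ 2 * (2 * L) ^ 2 := by gcongr; linarith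
      _ = 4 * L ^ 4 := by ring
      _ ≤ _ := mul_le_mul_of_nonneg_left (pow_le_pow_right₀ L1 (by omega)) (by norm_num)
  have p3 : L ^ 2 ≤ L ^ (j + 4) := pow_le_pow_right₀ L1 (by omega)
  set Z := 1 / (R : ℝ) + ε with hZ
  have Z0 : 0 ≤ Z := by positivity
  rw [hNl', ← hL]
  calc _ = W * H * (C * (L ^ j * (1 + L)) * Z + 12 * (L ^ 2 * (1 + L) ^ 2) *
        ((N : ℝ) ^ (1 / 10000 : ℝ) * ((N : ℝ) ^ (-(9999 / 10000) : ℝ) * (N : ℝ) ^ (9 / 10 : ℝ))) +
        6 * L ^ 2 * ((N : ℝ) ^ (1 / 10000 : ℝ) * ((N : ℝ) ^ (499 / 1000 : ℝ) *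
          ((N : ℝ) ^ (-(9999 / 10000) : ℝ) * y)))) := by ring
    _ ≤ W * H * (C * (2 * L ^ (j + 4)) * Z + 12 * (4 * L ^ (j + 4)) * Z + 6 * L ^ (j + 4) * Z) := by
        gcongr
    _ = _ := by ring

end Pool.Agent.P.MP_746f10_nt.UC
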