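import Pool.Agent.P.MP_746f10_nt.UC.Defs
import Pool.Agent.P.MP_746f10_nt.Hyp
import Pool.Agent.P.MP_746f10_nt.PointB

/-! Equidistribution of the divisor sum along one form with a divisibility condition on another. -/

set_option linter.unusedSectionVars false

namespace Pool.Agent.P.MP_746f10_nt.UC.NuP

open Finset

lemma exists_class {a b d q : ℕ} (c0 : ℕ) (hd : 0 < d) (hda : d.Coprime a) (hdq : d.Coprime q) :
    ∃ c1, ∀ n, n ≡ c1 [MOD d * q] ↔ d ∣ a * n + b ∧ n ≡ c0 [MOD q] := by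
  obtain ⟨u, -, hu⟩ := Nat.exists_mul_mod_eq_of_coprime ((d - 1) * b) hda.symm hd.ne'
  have hu' : d ∣ a * u + b := by
    have h1 : a * u + b ≡ (d - 1) * b + b [MOD d] := Nat.ModEq.add_right _ hu
    refine (Nat.modEq_zero_iff_dvd).1 (h1.trans (Nat.modEq_zero_iff_dvd.2 ⟨b, ?_⟩))
    obtain ⟨e, rfl⟩ : ∃ e, d = e + 1 := ⟨d - 1, by omega⟩
    simp; ring
  obtain ⟨c1, hc1⟩ := Nat.chineseRemainder hdq u c0
  refine ⟨c1, fun n => ?_⟩
  rw [← Nat.modEq_and_modEq_iff_modEq_mul hdq]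
  refine and_congr ⟨fun h1 => ?_, fun h1 => ?_⟩
    ⟨fun h1 => h1.trans hc1.2, fun h1 => h1.trans hc1.2.symm⟩
  · exact ((((h1.trans hc1.1).mul_left a).add_right b).dvd_iff dvd_rfl).2 hu'
  · refine Nat.ModEq.trans ?_ hc1.1.symm
    refine Nat.ModEq.cancel_left_of_coprime (c := a) hda (Nat.ModEq.add_right_cancel' b ?_)
    exact (Nat.modEq_zero_iff_dvd.2 h1).trans (Nat.modEq_zero_iff_dvd.2 hu').symm

theorem HC_div (h : S_Gam) : ∃ C : ℝ, 1 ≤ C ∧ ∀ {ι : Type} [Fintype ι] [DecidableEq ι]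
    (a b : ι → ℕ) (K v : ℕ) (i j : ι) (c : RC) (P T : Finset ℕ) (x Lvl : ℕ) (X : ℝ),
    Nrm a b K v → i ≠ j → c.r ∣ a i → c.χ (b i) = 1 → (∀ p ∈ P, p.Prime ∧ ¬ p ∣ a i) →
    (∀ p ∈ T, p.Prime ∧ ¬ p ∣ a i) → Disjoint T P → 1 ≤ X →
    ((a i * (2 * x) + b i : ℕ) : ℝ) ≤ X → (a i : ℝ) ≤ X ^ (1 / 400 : ℝ) →
    ((a i * (∏ p ∈ T, p) * Lvl : ℕ) : ℝ) ≤ X ^ (113 / 200 : ℝ) →
    HC a b (Ico x (2 * x))
      (fun n => c.gam (a i * n + b i) * (if (∏ p ∈ T, p) ∣ a j * n + b j then 1 else 0)) P {i}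
      (x / (∏ p ∈ T, p : ℕ) * (2 * c.LL * ∏ p ∈ (a i).primeFactors, (1 - c.χ p / p)) *
        ∏ p ∈ T, (1 - c.χ p / p))
      (fun p => 1 - c.χ p / p) (C * X ^ (399 / 400 : ℝ) / (a i * ∏ p ∈ T, p : ℕ)) Lvl := by
  obtain ⟨C, hC, h⟩ := h
  refine ⟨C, hC, ?_⟩
  intro ι _ _ a b K v i j c P T x Lvl X hN hij hr hχ hP hT hTP hX hup har hmod U hU hUL c0 hc0
  have ha := hN.pos i
  have hUp : ∀ p ∈ U, p.Prime ∧ ¬ p ∣ a i := fun p hp => hP p (hU hp)
  have hTU : Disjoint T U := hTP.mono_right hU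
  set d := ∏ p ∈ T, p with hd
  set q := ∏ p ∈ U, p with hq
  have hd0 : 0 < d := prod_pos fun p hp => (hT p hp).1.pos
  have hq0 : 0 < q := prod_pos fun p hp => (hUp p hp).1.pos
  have hdq : d.Coprime q := Nat.Coprime.prod_left fun p hp => Nat.Coprime.prod_right fun p' hp' =>
    (Nat.coprime_primes (hT p hp).1 (hUp p' hp').1).2 (by
      rintro rfl; exact disjoint_left.1 hTU hp hp')
  have hda : d.Coprime (a j) := Nat.Coprime.prod_left fun p hp =>
    (Nat.Prime.coprime_iff_not_dvd (hT p hp).1).2 fun h1 => (hT p hp).2 (hN.rad p j i (hT p hp).1 h1)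
  obtain ⟨c1, hiff⟩ := exists_class (a := a j) (b := b j) c0 hd0 hda hdq
  have hc1 := (hiff c1).1 rfl
  obtain ⟨m0, h1, h2, h3⟩ := form_to_class c (c0 := c1) (p0 := 1) ha (Nat.mul_pos hd0 hq0)
    one_pos (hN.cop i) (by
      refine Nat.Coprime.mul_right (Nat.Coprime.prod_right fun p hp => ?_)
        (Nat.Coprime.prod_right fun p hp => ?_)
      · refine ((Nat.Prime.coprime_iff_not_dvd (hT p hp).1).2 fun h4 => hij ?_).symm
        exact hN.sep p c1 i j (hT p hp).1 h4 ((dvd_prod_of_mem _ hp).trans hc1.1)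
      · refine ((Nat.Prime.coprime_iff_not_dvd (hUp p hp).1).2 fun h4 => ?_).symm
        refine hc0 p hp i (mem_singleton_self i) ?_
        exact (((hc1.2.of_dvd (dvd_prod_of_mem _ hp)).mul_left _).add_right _).dvd_iff
          dvd_rfl |>.1 h4) (by simp) hr hχ c.one
  have e1 : ∑ n ∈ Ico x (2 * x), c.gam (a i * n + b i) * (if d ∣ a j * n + b j then 1 else 0) *
      (if n ≡ c0 [MOD q] then 1 else 0) =
      ∑ n ∈ Ico x (2 * x), (if 1 ∣ a i * n + b i then c.gam ((a i * n + b i) / 1) else 0) *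
        (if n ≡ c1 [MOD d * q] then 1 else 0) := by
    refine sum_congr rfl fun n _ => ?_
    by_cases k1 : d ∣ a j * n + b j <;> by_cases k3 : n ≡ c0 [MOD q] <;> simp [hiff, k1, k3]
  have hX0 : 0 ≤ X := by linarith
  have h4 := h c (a i * (d * q)) m0 X (((a i * x + b i : ℕ) : ℝ) / (1 : ℕ))
    (((a i * (2 * x) + b i : ℕ) : ℝ) / (1 : ℕ)) hX (hr.mul_right _)
    (Nat.mul_pos ha (Nat.mul_pos hd0 hq0))
    (le_trans (by exact_mod_cast Nat.le_of_dvd ha hr) har)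
    (le_trans (by exact_mod_cast (by rw [← mul_assoc]; exact Nat.mul_le_mul_left _ hUL)) hmod)
    h1 h2 (by positivity) (by gcongr; omega) (by rw [Nat.cast_one, div_one]; exact hup)
  rw [← h3, ← e1] at h4
  have ha' : (0 : ℝ) < a i := by exact_mod_cast ha
  have hd' : (0 : ℝ) < d := by exact_mod_cast hd0
  have hq' : (1 : ℝ) ≤ q := by exact_mod_cast hq0
  refine le_trans (le_of_eq ?_) (h4.trans ?_)
  · congr 2
    have e2 : d * q = ∏ p ∈ T ∪ U, p := by rw [prod_union hTU]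
    rw [e2, prod_primeFactors_mul ha.ne' (fun p hp => (mem_union.1 hp).elim (hT p) (hUp p)), ← e2,
      prod_union hTU, prod_div_distrib, ← Nat.cast_prod, ← hq]
    push_cast
    field_simp
    ring
  · push_cast
    gcongr
    exact le_mul_of_one_le_right hd'.le hq'

variable {ι : Type} [Fintype ι] [DecidableEq ι] {a b : ι → ℕ} {K v : ℕ}

lemma ee_ok (hN : Nrm a b K v) (hK : 2 * (Fintype.card ι + 3) ≤ K) (i : ι) (c : RC) {z p : ℕ}
    (hp : p ∈ GP a z) :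
    1 - ee {i} (fun p => 1 - c.χ p / p) univ p = (1 - c.χ p / p) * (1 - (Fintype.card ι : ℝ) / p) ∧
      0 ≤ ee {i} (fun p => 1 - c.χ p / p) univ p ∧
      ee {i} (fun p => 1 - c.χ p / p) univ p ≤ ((Fintype.card ι : ℝ) + 3) / p ∧
      ee {i} (fun p => 1 - c.χ p / p) univ p ≤ 3 / 4 := by
  have : Nonempty ι := ⟨i⟩
  have h1 : ee {i} (fun p => 1 - c.χ p / p) univ p =
      1 - (1 - c.χ p / p) * (1 - (Fintype.card ι : ℝ) / p) := by
    unfold ee; rw [if_neg (by simp), card_univ]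
  have hp' := (mem_GP.1 hp).2.1
  have h2 : 2 * ((Fintype.card ι : ℝ) + 3) ≤ p := by exact_mod_cast hK.trans (hN.lt_of_mem hp).le
  have hk : (1 : ℝ) ≤ Fintype.card ι := by exact_mod_cast Fintype.card_pos
  have hp0 : (0 : ℝ) < p := by linarith
  have a1 := c.fac_ge hp'
  have a2 := c.fac_le hp'
  have h3 : ((Fintype.card ι : ℝ) + 3) / p ≤ 1 / 2 := by rw [div_le_iff₀ hp0]; linarith
  have h4 : (1 : ℝ) / p ≤ Fintype.card ι / p := by gcongr
  have h5 : (0 : ℝ) ≤ 1 / p := by positivity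
  have h6 : ((Fintype.card ι : ℝ) + 3) / p = Fintype.card ι / p + 3 * (1 / p) := by ring
  rw [h6] at h3
  rw [h1, h6]
  clear h1 h6
  generalize (Fintype.card ι : ℝ) / p = u at *
  generalize (1 : ℝ) / p = w at *
  generalize 1 - c.χ p / p = f at *
  have h7 : 1 - f * (1 - u) ≤ u + 3 * w := by nlinarith
  exact ⟨by ring, by nlinarith, h7, by linarith⟩

/-- the sifting density for the twisted sequence -/
noncomputable def Wd (c : RC) (a : ι → ℕ) (i : ι) (z : ℕ) : ℝ :=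
  ∏ p ∈ GP a z, (1 - ee {i} (fun p => 1 - c.χ p / p) univ p)

/-- the total mass -/
noncomputable def MM (c : RC) (a : ι → ℕ) (i : ι) (z x : ℕ) : ℝ :=
  x * (2 * c.LL * ∏ p ∈ (a i).primeFactors, (1 - c.χ p / p)) * Wd c a i z

lemma A0_nonneg (c : RC) (n : ℕ) : 0 ≤ 2 * c.LL * ∏ p ∈ n.primeFactors, (1 - c.χ p / p) :=
  mul_nonneg (by linarith [c.LL_pos])
    (prod_nonneg fun p hp => (c.fac_pos (Nat.prime_of_mem_primeFactors hp)).le)

lemma sieve_rg (hN : Nrm a b K v) (hK : 2 * (Fintype.card ι + 3) ≤ K) (i : ι) (c : RC) {z D : ℕ}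
    {ε : ℝ} (s : SieveW (GP a z) D (Fintype.card ι + 3) ε) {Ω : Finset ℕ} {μ : ℕ → ℝ} {X E : ℝ}
    (h : HC a b Ω μ (GP a z) {i} X (fun p => 1 - c.χ p / p) E D) (hE : 0 ≤ E) (hX : 0 ≤ X)
    (hμ : ∀ n ∈ Ω, 0 ≤ μ n) :
    |∑ n ∈ Ω, μ n * rg a b z n - X * Wd c a i z| ≤ ε * (X * Wd c a i z) + D * (E * (D : ℝ) ^ 2) := by
  have h2 := h.sieve1 (fun p hp => hN.good hp) hE hX hμ Subset.rfl s
    (fun p hp => (ee_ok hN hK i c hp).2) (θ := rg a b z)
    (fun n => ⟨le_rfl, s.le_up _ fun p _ => ⟨ev_nonneg _ _ _, ev_le_one _ _ _⟩⟩)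
    (T := ∅) (by simp) (by simp) (by simp) (fun _ => ∅) (by simp) (by simp)
  simpa only [prod_empty, mul_one, Wd] using h2

lemma MM_ge (hN : Nrm a b K v) (hK : 2 * (Fintype.card ι + 3) ≤ K) (i : ι) (c : RC) {z : ℕ}
    (x : ℕ) (hz : 2 ≤ z) (hvz : v ≤ z) (hr : c.r ∣ a i) :
    x / (648 * (v : ℝ) ^ 2 * (CM * Real.log z) ^ (2 * Fintype.card ι + 1)) ≤ MM c a i z x := by
  have : Nonempty ι := ⟨i⟩
  have e1 : MM c a i z x = 2 * x * (c.ell z * Vk a z) := by
    unfold MM Wd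
    rw [prod_congr rfl fun p hp => (ee_ok hN hK i c hp).1, prod_mul_distrib, RC.ell,
      ← hN.prod_split i hvz, Vk]
    ring
  have h1 : VV z ^ (2 * Fintype.card ι) ≤ Vk a z := by
    calc _ ≤ (∏ p ∈ GP a z, (1 - 1 / (p : ℝ))) ^ (2 * Fintype.card ι) := by
          refine pow_le_pow_left₀ (VV_pos z).le (prod_le_prod_of_subset_of_le_one (filter_subset _ _)
            (fun p hp => (one_sub_inv_pos (PP_two hp)).le) fun p _ _ => ?_) _
          have : (0 : ℝ) ≤ 1 / p := by positivity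
          linarith
      _ ≤ _ := by
          rw [← prod_pow]
          refine prod_le_prod (fun p hp => pow_nonneg (one_sub_inv_pos
            (by exact_mod_cast (mem_GP.1 hp).2.1.two_le)).le _) fun p hp => pow_le_one_sub ?_ ?_
          · exact_mod_cast (le_trans (by omega) (hK.trans (hN.lt_of_mem hp).le))
          · exact_mod_cast (mem_GP.1 hp).2.1.one_le
  have hr' : (c.r : ℝ) ≤ v := by exact_mod_cast (Nat.le_of_dvd (hN.pos i) hr).trans (hN.le i)
  have hr1 := c.one_le_r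
  have hV := VV_pos z
  have h2 : 1 / (1296 * (v : ℝ) ^ 2) * VV z ≤ c.ell z :=
    le_trans (by gcongr) (c.ell_ge z)
  have h3 : 1 / (CM * Real.log z) ≤ VV z := by
    rw [one_div]; exact inv_le_of_inv_le₀ hV (inv_VV_le z hz)
  have hL : 0 < CM * Real.log z := lt_of_lt_of_le (inv_pos.2 hV) (inv_VV_le z hz)
  have hv : (0 : ℝ) < v := by linarith
  rw [e1]
  calc _ = 2 * x * (1 / (1296 * (v : ℝ) ^ 2) * (1 / (CM * Real.log z)) *
        (1 / (CM * Real.log z)) ^ (2 * Fintype.card ι)) := by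
        rw [pow_succ, one_div_pow]
        generalize CM * Real.log z = L at hL
        field_simp; ring
    _ ≤ 2 * x * (1 / (1296 * (v : ℝ) ^ 2) * VV z * VV z ^ (2 * Fintype.card ι)) := by gcongr
    _ ≤ _ := by
        refine mul_le_mul_of_nonneg_left (mul_le_mul h2 h1 (by positivity) (c.ell_pos z).le)
          (by positivity)

lemma exists_log_pow_le (A : ℝ) (n : ℕ) : ∃ v0 : ℕ, ∀ v : ℕ, v0 ≤ v → A * Real.log v ^ n ≤ v := by
  have h := (Real.isLittleO_pow_log_id_atTop (n := n)).comp_tendsto tendsto_natCast_atTop_atTop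
  obtain ⟨v0, h⟩ := Filter.eventually_atTop.1 (h.bound (c := 1 / (|A| + 1)) (by positivity))
  refine ⟨v0, fun v hv => ?_⟩
  have h1 := h v hv
  simp only [Function.comp, id, Real.norm_eq_abs, Nat.abs_cast] at h1
  rw [abs_of_nonneg (pow_nonneg (Real.log_natCast_nonneg v) n), one_div_mul_eq_div,
    le_div_iff₀ (by positivity)] at h1
  nlinarith [le_abs_self A, pow_nonneg (Real.log_natCast_nonneg v) n]

lemma exists_level (k0 : ℕ) : ∃ B0 : ℕ, ∀ B, B0 ≤ B → ∃ m, 4 * B ^ 8 ≤ 2 ^ m ∧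
    400 * (3 * (4 * (k0 + m) + 6) + 1) ≤ B := by
  have h := tendsto_pow_const_div_const_pow_of_one_lt 8 (r := 2) (by norm_num)
  have hp : (0 : ℝ) < 1 / (4 * 19200 ^ 8) := by positivity
  obtain ⟨m0, h1⟩ := Filter.eventually_atTop.1 (h.eventually (gt_mem_nhds hp))
  refine ⟨9600 * (m0 + 1) + 9600 * k0 + 15200, fun B hB => ⟨B / 9600, ?_, by omega⟩⟩
  have h2 := h1 (B / 9600) (by omega)
  rw [div_lt_div_iff₀ (by positivity) (by positivity)] at h2
  have h3 : B ≤ 19200 * (B / 9600) := by omega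
  generalize B / 9600 = m at h2 h3
  rw [one_mul] at h2
  have h4 : m ^ 8 * (4 * 19200 ^ 8) ≤ 2 ^ m := by exact_mod_cast h2.le
  calc 4 * B ^ 8 ≤ 4 * (19200 * m) ^ 8 := by gcongr
    _ = m ^ 8 * (4 * 19200 ^ 8) := by ring
    _ ≤ _ := h4

lemma pow_le_rpow {z B n : ℕ} (hz : 1 ≤ z) {t : ℝ} (h : n ≤ B * t) :
    (z : ℝ) ^ n ≤ ((z ^ B : ℕ) : ℝ) ^ t := by
  have hz' : (1 : ℝ) ≤ z := by exact_mod_cast hz
  rw [Nat.cast_pow, ← Real.rpow_natCast, ← Real.rpow_natCast, ← Real.rpow_mul (by linarith)]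
  exact Real.rpow_le_rpow_of_exponent_le hz' h

lemma sum_sqi_form {z a b x Y : ℕ} (hz : 1 ≤ z) (ha : 0 < a) (hx : 1 ≤ x)
    (hY : a * (2 * x) + b ≤ Y) : ∑ n ∈ Ico x (2 * x), sqi z (a * n + b) ≤ Y / z := by
  calc _ = ∑ m ∈ (Ico x (2 * x)).image (fun n => a * n + b), sqi z m := by
        rw [sum_image]
        intro n _ n' _ e
        exact Nat.eq_of_mul_eq_mul_left ha (by simpa using e)
    _ ≤ ∑ m ∈ Icc 1 Y, sqi z m := by
        refine sum_le_sum_of_subset_of_nonneg (fun m hm => ?_) fun _ _ _ => sqi_nonneg _ _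
        obtain ⟨n, hn, rfl⟩ := mem_image.1 hm
        have := mem_Ico.1 hn
        exact mem_Icc.2 ⟨by nlinarith, by nlinarith⟩
    _ ≤ _ := sum_sqi_le hz Y

lemma point (hN : Nrm a b K v) (c : RC) {i j : ι} {z H e n : ℕ} (hχ : c.χ (a i * n + b i) = 1)
    (h2 : 2 ≤ a i * n + b i) (hH : a i * n + b i ≤ H ^ 2) (he : a i * n + b i ≤ z ^ (e + 1))
    (hbad : ¬ (a i * n + b i).Prime ∨ ¬ Squarefree (a j * n + b j)) :
    c.gam (a i * n + b i) * rg a b z n ≤ 2 ^ e * (sqi z (a i * n + b i) + sqi z (a j * n + b j)) +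
      2 * ∑ p ∈ c.Pp z H, c.mu p (a i * n + b i) * rg a b z n := by
  have n1 := sqi_nonneg z (a i * n + b i)
  have n2 := sqi_nonneg z (a j * n + b j)
  have n3 : ∀ p, 0 ≤ c.mu p (a i * n + b i) * rg a b z n := fun p =>
    mul_nonneg (c.mu_nonneg _ _) (rg_nonneg _ _ _ _)
  have n4 : 0 ≤ ∑ p ∈ c.Pp z H, c.mu p (a i * n + b i) * rg a b z n := sum_nonneg fun p _ => n3 p
  by_cases h0 : c.gam (a i * n + b i) * rg a b z n = 0
  · rw [h0]; positivity
  obtain ⟨g1, g2⟩ := mul_ne_zero_iff.1 h0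
  have g3 : rg a b z n = 1 := (rg_01 a b z n).resolve_left g2
  have ri := hN.rough_of_rg g2 i
  have rj := hN.rough_of_rg g2 j
  by_cases hs : sqi z (a i * n + b i) = 0 ∧ sqi z (a j * n + b j) = 0
  · have hsq : Squarefree (a j * n + b j) := by
      rw [Nat.squarefree_iff_prime_squarefree]
      intro p hp hd
      have h3 := hs.2
      unfold sqi at h3
      rw [if_pos ⟨p, hp, rj p hp ((dvd_mul_right p p).trans hd), by rwa [sq]⟩] at h3
      norm_num at h3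
    obtain ⟨f1, f2⟩ := c.factor h2 (hbad.resolve_right (not_not.2 hsq)) hH ri hs.1 hχ g1
    have h3 := single_le_sum (f := fun p => c.mu p (a i * n + b i) * rg a b z n)
      (fun p _ => n3 p) f1
    simp only [RC.mu, if_pos (Nat.minFac_dvd _)] at h3
    rw [hs.1, hs.2, f2]
    unfold RC.mu
    linarith
  · have h1 : 1 ≤ sqi z (a i * n + b i) + sqi z (a j * n + b j) := by
      unfold sqi at hs ⊢; split_ifs at hs ⊢ <;> simp at hs ⊢
    have h3 := c.gam_le_pow ri he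
    have h4 := mul_le_of_le_one_right (c.gam_nonneg (a i * n + b i)) (rg_le_one a b z n)
    have h5 := le_mul_of_one_le_right (show (0 : ℝ) ≤ 2 ^ e by positivity) h1
    linarith

end Pool.Agent.P.MP_746f10_nt.UC.NuP
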