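import Pool.Agent.P.MP_746f10_nt.UC.Defs

/-! Lemmas for the case without a harmful exceptional character. -/

set_option linter.unusedSectionVars false

namespace Pool.Agent.P.MP_746f10_nt.UC.RegP

open Finset
open Pool.Agent.P.MP_0ad054_nt.Chen (Lev bet ck Wm Mm Hc zz Dl Nl Qs IsChen)
open scoped ArithmeticFunction.vonMangoldt

/-- the body of `S_Big` -/
def BigSt (C : ℝ) (j N0 : ℕ) : Prop :=
  ∀ (N R y : ℕ) (W H : ℝ) (w g μ' : ℕ → ℝ) (ρ : ℕ → ℕ) {ι : Type}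
    (S : Finset ι) (s : ι → ℕ) (F : ι → ℕ → ℝ), N0 ≤ N → 1 ≤ R → R ≤ y →
    (y : ℝ) ≤ (N : ℝ) ^ (1 / 100 : ℝ) → (∀ t, w t ≠ 0 → Nl N ≤ t ∧ t < N) →
    (∀ t : ℕ, 1 ≤ t → |w (t + 1) - w t| ≤ H / (t : ℝ) ^ 2) →
    ((g = fun n => Λ n) ∨ ∃ c, g = bet c ∧ Cf N 1 c) → Set.InjOn s S →
    (∀ i ∈ S, 1 ≤ s i ∧ (s i : ℝ) ≤ (N : ℝ) ^ (1 / 10000 : ℝ) ∧
      (∀ p, p.Prime → p ∣ s i → p ≤ R) ∧ (∀ m m', m ≡ m' [MOD s i] → F i m = F i m') ∧
      ∑ m ∈ range (s i), (if m.Coprime (s i) then |F i m| else 0) ≤ W) →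
    0 ≤ W → Lev R (Dl N) μ' → (∀ d, μ' d ≠ 0 → (ρ d).Coprime d) →
    |∑ m ∈ range N, g m * ri y m * w m * (∑ i ∈ S, F i m) *
      (∑ d ∈ Icc 1 N, μ' d * (if m ≡ ρ d [MOD d] then 1 else 0) - Mm N μ')| ≤
      C * W * H * Real.log N ^ j * (1 / R + (N : ℝ) ^ (-(1 / 20000) : ℝ))

lemma transfer {a b : ℕ} (h : b < a) (N : ℕ) (f G : ℕ → ℝ) (hG : ∀ m, N ≤ m → G m = 0) :
    ∑ m ∈ range N, G m * lft a b f m = ∑ n ∈ range N, G (a * n + b) * f n := by
  have h1 := sum_lft h N f G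
  rw [← sum_subset (range_subset_range.2 (Nat.le_mul_of_pos_left N (by omega : 0 < a)))
    fun m _ hm => by rw [hG m (by simpa using hm), mul_zero]] at h1
  simpa only [mul_comm] using h1

lemma Dl_le {N : ℕ} (hN : 1 ≤ N) : Dl N ≤ N := by
  have : (1 : ℝ) ≤ N := by exact_mod_cast hN
  simpa [Dl] using Real.rpow_le_rpow_of_exponent_le this (show (499 / 1000 : ℝ) ≤ 1 by norm_num)

variable {ι : Type} [Fintype ι] [DecidableEq ι] {a b : ι → ℕ} {K v : ℕ}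

lemma form_pos (hN : Nrm a b K v) (hK : 2 ≤ K) (l : ι) (n : ℕ) : 0 < a l * n + b l :=
  Nat.pos_of_ne_zero fun h => hN.not_dvd Nat.prime_two (hN.small 2 l Nat.prime_two hK) n
    (l := l) (by rw [h]; exact dvd_zero 2)

lemma useBig {C : ℝ} {jj N0 : ℕ} (hB : BigSt C jj N0) (hF : S_Four) {k s0 N y : ℕ}
    (hN : Nrm a b K v) (hk : Fintype.card ι = k) (hK : k ^ (4 * s0) ≤ K) (hK2 : 2 ≤ K)
    (hs0 : 1 ≤ s0) (hv : 2 ≤ v) (hy : v * (v ^ 8) ^ s0 ≤ y)
    (hyN : (y : ℝ) ≤ (N : ℝ) ^ (1 / 10000 : ℝ)) (hN0 : N0 ≤ N) (hN1 : 1 ≤ N) {i j : ι} (hij : i ≠ j)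
    {lam : Finset ℕ → ℝ} (h1 : ∀ T, |lam T| ≤ 2)
    (h2 : ∀ T ⊆ GP a (v ^ 8), lam T ≠ 0 → ∏ p ∈ T, p ≤ (v ^ 8) ^ s0) {w g μ' : ℕ → ℝ} {H : ℝ}
    (hw : ∀ t, w t ≠ 0 → Nl N ≤ t ∧ t < N)
    (hw2 : ∀ t : ℕ, 1 ≤ t → |w (t + 1) - w t| ≤ H / (t : ℝ) ^ 2)
    (hg : (g = fun n => Λ n) ∨ ∃ c, g = bet c ∧ Cf N 1 c) (hμ : Lev (v ^ 8 : ℕ) (Dl N) μ') :
    |∑ n ∈ range N, g (a i * n + b i) * ri y (a i * n + b i) * w (a i * n + b i) *
        th2 (GP a (v ^ 8)) lam (fun p => ev a b univ p n) * Wm μ' (a j * n + b j) -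
      Mm N μ' * ∑ m ∈ range N, g m * ri y m * w m * FL a b i (GP a (v ^ 8)) lam m| ≤
      C * (2 * v ^ 2) * H * Real.log N ^ jj * (1 / (v ^ 8 : ℕ) + (N : ℝ) ^ (-(1 / 20000) : ℝ)) := by
  classical
  have : Nonempty ι := ⟨i⟩
  obtain ⟨-, f2, f3⟩ := hF a b K v i hN
  obtain ⟨ρ, hρ⟩ := f3 j hij
  have hv8 : v ≤ v ^ 8 := Nat.le_self_pow (by norm_num) v
  have hr : ∀ d, μ' d ≠ 0 → 1 ≤ d ∧ rough v d := fun d hd => by
    have h3 : rough v d := fun p hp h => hv8.trans_lt (by exact_mod_cast ((hμ d).2 hd).2 p hp h)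
    exact ⟨Nat.pos_of_ne_zero fun h => by
      have := h3 2 Nat.prime_two (h ▸ dvd_zero 2); omega, h3⟩
  have hP : ∀ T ⊆ GP a (v ^ 8), ∀ p ∈ T, p.Prime := fun T hT p hp => (mem_GP.1 (hT hp)).2.1
  set S := (GP a (v ^ 8)).powerset.filter (fun T => lam T ≠ 0) with hS
  have mS : ∀ T ∈ S, T ⊆ GP a (v ^ 8) ∧ lam T ≠ 0 := fun T hT =>
    ⟨mem_powerset.1 (mem_filter.1 hT).1, (mem_filter.1 hT).2⟩
  have hN1' : (1 : ℝ) ≤ N := by exact_mod_cast hN1
  have key := hB N (v ^ 8) y (2 * v ^ 2) H w g μ' ρ S (fun T => a i * ∏ p ∈ T, p)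
    (fun T m => lam T * FT a b i T m) hN0 (by omega)
    (le_trans ((Nat.le_self_pow (by omega) _).trans (Nat.le_mul_of_pos_left _ (by omega))) hy)
    (hyN.trans (Real.rpow_le_rpow_of_exponent_le hN1' (by norm_num))) hw hw2 hg
    (fun T hT T' hT' h => by
      rw [← Nat.primeFactors_prod (hP T (mS T hT).1),
        Nat.eq_of_mul_eq_mul_left (hN.pos i) h, Nat.primeFactors_prod (hP T' (mS T' hT').1)])
    (fun T hT => by
      obtain ⟨t1, t2⟩ := mS T hT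
      have t3 := h2 T t1 t2
      refine ⟨Nat.mul_pos (hN.pos i) (prod_pos fun p hp => (hP T t1 p hp).pos), le_trans ?_ hyN,
        fun p hp hd => ?_, fun m m' h => by rw [(f2 _ T t1).1 m m' h], ?_⟩
      · exact_mod_cast (Nat.mul_le_mul (hN.le i) t3).trans hy
      · rcases hp.dvd_mul.1 hd with h | h
        · exact ((Nat.le_of_dvd (hN.pos i) h).trans (hN.le i)).trans hv8
        · obtain ⟨l, hl, h3⟩ := (Prime.dvd_finsetProd_iff hp.prime _).1 h
          rw [(Nat.prime_dvd_prime_iff_eq hp (hP T t1 l hl)).1 h3]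
          exact (mem_GP.1 (t1 hl)).1
      · have t4 : k ^ T.card ≤ v ^ 2 := by
          refine (Nat.pow_le_pow_iff_left (n := 4 * s0) (by omega)).1 ?_
          calc _ = (k ^ (4 * s0)) ^ T.card := by rw [← pow_mul, ← pow_mul, mul_comm]
            _ ≤ ∏ p ∈ T, p := pow_card_le_prod _ _ _ fun p hp => hK.trans (hN.lt_of_mem (t1 hp)).le
            _ ≤ _ := t3.trans_eq (by rw [← pow_mul, ← pow_mul]; congr 1; ring)
        have t5 := (f2 _ T t1).2
        rw [hk] at t5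
        refine le_trans (sum_le_sum fun m _ => ?_) ((mul_sum _ _ (2 : ℝ)).symm.trans_le
          (mul_le_mul_of_nonneg_left (t5.trans (by exact_mod_cast t4)) (by norm_num)))
        split_ifs
        · rw [abs_mul]; exact mul_le_mul_of_nonneg_right (h1 T) (abs_nonneg _)
        · simp)
    (by positivity) hμ fun d hd => (hρ d (hr d hd).1 (hr d hd).2).1
  refine le_trans (le_of_eq ?_) key
  congr 1
  have e1 : ∀ m, ∑ T ∈ S, lam T * FT a b i T m = FL a b i (GP a (v ^ 8)) lam m := fun m => by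
    rw [hS, sum_filter_of_ne fun T _ h => left_ne_zero_of_mul h]
    unfold FL FT lft th2
    split_ifs <;> simp
  simp only [e1, mul_sub, sum_sub_distrib]
  congr 1
  · have e2 := transfer (hN.lt i) N (fun n => th2 (GP a (v ^ 8)) lam (fun p => ev a b univ p n))
      (fun m => g m * ri y m * w m * ∑ d ∈ Icc 1 N, μ' d * (if m ≡ ρ d [MOD d] then 1 else 0))
      fun m hm => by
        have : w m = 0 := by_contra fun h => absurd (hw m h).2 (by omega)
        simp [this]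
    refine Eq.trans (sum_congr rfl fun n _ => ?_) (e2.symm.trans (sum_congr rfl fun m _ => ?_))
    · rw [mul_right_comm]
      congr 2
      simp only [mul_ite, mul_one, mul_zero]
      rw [← sum_filter, Wm]
      refine (sum_filter_ne_zero _).symm.trans (Eq.trans (sum_congr ?_ fun _ _ => rfl)
        (sum_filter_ne_zero _))
      ext d
      simp only [mem_filter, Nat.mem_divisors, mem_Icc]
      refine and_congr_left fun hd => ?_
      rw [← (hρ d (hr d hd).1 (hr d hd).2).2 n]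
      exact ⟨fun h => ⟨⟨(hr d hd).1, by exact_mod_cast ((hμ d).2 hd).1.trans (Dl_le hN1)⟩, h.1⟩,
        fun h => ⟨h.2, (form_pos hN hK2 j n).ne'⟩⟩
    · unfold FL; ring
  · rw [mul_sum]; exact sum_congr rfl fun m _ => by ring

lemma wt_nonneg {φ : ℝ → ℝ} {α β δ H : ℝ} (h : Bump φ α β δ H) (L : ℝ) (m : ℕ) : 0 ≤ wt φ L m :=
  div_nonneg (h.nn _) (Nat.cast_nonneg _)

lemma wt_le {φ : ℝ → ℝ} {α β δ H : ℝ} (h : Bump φ α β δ H) (L : ℝ) (m : ℕ) : wt φ L m ≤ 1 / m :=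
  div_le_div_of_nonneg_right (h.le _) (Nat.cast_nonneg _)

lemma rpow_le_of_log {N m : ℕ} (hN : 1 ≤ N) (hm : 1 ≤ m) {θ : ℝ} (h : θ * Real.log N ≤ Real.log m) :
    (N : ℝ) ^ θ ≤ m := by
  rw [Real.rpow_def_of_pos (by exact_mod_cast hN), mul_comm]
  exact (Real.le_log_iff_exp_le (by exact_mod_cast hm)).1 h

lemma wt_supp {φ : ℝ → ℝ} {α β δ H : ℝ} (h : Bump φ α β δ H) {N m : ℕ} (hN : 2 ≤ N)
    (hm : wt φ (Real.log N) m ≠ 0) :
    1 ≤ m ∧ α * Real.log N < Real.log m ∧ Real.log m < β * Real.log N := by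
  have hl : 0 < Real.log N := Real.log_pos (by exact_mod_cast hN)
  obtain ⟨h1, h2⟩ := h.supp _ (div_ne_zero_iff.1 hm).1
  exact ⟨Nat.pos_of_ne_zero fun h3 => (div_ne_zero_iff.1 hm).2 (by simp [h3]),
    (lt_div_iff₀ hl).1 h1, (div_lt_iff₀ hl).1 h2⟩

lemma wt_range {φ : ℝ → ℝ} {α β δ H : ℝ} (h : Bump φ α β δ H) {N : ℕ} (hN : 2 ≤ N)
    (hα : 9999 / 10000 ≤ α) (hβ : β ≤ 1) (m : ℕ) (hm : wt φ (Real.log N) m ≠ 0) :
    Nl N ≤ m ∧ m < N := by
  have hl : 0 < Real.log N := Real.log_pos (by exact_mod_cast hN)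
  obtain ⟨h1, h2, h3⟩ := wt_supp h hN hm
  refine ⟨rpow_le_of_log (by omega) h1 (by nlinarith), ?_⟩
  have : Real.log m < Real.log N := by nlinarith
  exact_mod_cast (Real.log_lt_log_iff (by exact_mod_cast h1) (by positivity)).1 this

lemma window (hN : Nrm a b K v) {φ1 φ2 : ℝ → ℝ} {α β δ H1 H2 t : ℝ} (h1 : Bump φ1 α β δ H1)
    (h2 : Bump φ2 (α - 2 * δ) (β + 2 * δ) δ H2) {N : ℕ} (hN2 : 2 ≤ N) (hα : 9999 / 10000 ≤ α)
    (hβ : β ≤ 1) (ht : 0 < t) (hs1 : Real.log (2 * v) ≤ δ * Real.log N)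
    (hs2 : v * (1 / t + 1) ≤ Nl N) (i j : ι) {n : ℕ} (hn : wt φ1 (Real.log N) (a i * n + b i) ≠ 0) :
    1 ≤ n ∧ wt φ2 (Real.log N) (a j * n + b j) ≠ 0 ∧ wt φ1 (Real.log N) (a i * n + b i) ≤
      (1 + t) * (a j / a i) * wt φ2 (Real.log N) (a j * n + b j) := by
  have hl : 0 < Real.log N := Real.log_pos (by exact_mod_cast hN2)
  obtain ⟨b1, b2, b3⟩ := wt_supp h1 hN2 hn
  have b4 := (wt_range h1 hN2 hα hβ _ hn).1
  have up : ∀ l, a l * n + b l ≤ a l * (n + 1) := fun l => by have := hN.lt l; nlinarith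
  have ai : (0 : ℝ) < a i := by exact_mod_cast hN.pos i
  have aj : (0 : ℝ) < a j := by exact_mod_cast hN.pos j
  have v0 : (0 : ℝ) < v := by exact_mod_cast (hN.pos i).trans_le (hN.le i)
  have b5 : 1 / t ≤ n := by
    have : ((a i * n + b i : ℕ) : ℝ) ≤ v * (n + 1) := by
      exact_mod_cast (up i).trans (Nat.mul_le_mul_right _ (hN.le i))
    linarith [le_of_mul_le_mul_left (hs2.trans (b4.trans this)) v0]
  have n1 : 1 ≤ n := by
    have : (0 : ℝ) < n := lt_of_lt_of_le (by positivity) b5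
    exact_mod_cast this
  have cmp : ∀ l l', Real.log (a l * n + b l : ℕ) ≤ δ * Real.log N + Real.log (a l' * n + b l' : ℕ) := by
    intro l l'
    have c1 : n ≤ a l' * n + b l' := (Nat.le_mul_of_pos_left n (hN.pos l')).trans (Nat.le_add_right _ _)
    have c2 : a l * n + b l ≤ 2 * v * (a l' * n + b l') :=
      (up l).trans ((Nat.mul_le_mul (hN.le l) (by omega : n + 1 ≤ 2 * (a l' * n + b l'))).trans_eq
        (by ring))
    have c3 : (0 : ℝ) < (a l' * n + b l' : ℕ) := by exact_mod_cast (by omega)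
    have c4 : (0 : ℝ) < (a l * n + b l : ℕ) := by
      exact_mod_cast (Nat.mul_pos (hN.pos l) n1).trans_le (Nat.le_add_right _ _)
    have c5 := Real.log_le_log c4 (show _ ≤ 2 * (v : ℝ) * (a l' * n + b l' : ℕ) by exact_mod_cast c2)
    rw [Real.log_mul (by positivity) c3.ne'] at c5
    linarith
  have j0 : (0 : ℝ) < (a j * n + b j : ℕ) := by
    exact_mod_cast (Nat.mul_pos (hN.pos j) n1).trans_le (Nat.le_add_right _ _)
  have e : wt φ2 (Real.log N) (a j * n + b j) = 1 / (a j * n + b j : ℕ) := by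
    unfold wt
    rw [h2.one _ ((le_div_iff₀ hl).2 (by linarith [cmp i j])) ((div_le_iff₀ hl).2 (by linarith [cmp j i]))]
  refine ⟨n1, by rw [e]; positivity, (wt_le h1 _ _).trans ?_⟩
  have i0 : (0 : ℝ) < (a i * n + b i : ℕ) := by exact_mod_cast b1
  rw [e, mul_one_div, div_le_div_iff₀ i0 j0, one_mul]
  have c1 : ((a j * n + b j : ℕ) : ℝ) ≤ a j * (n + 1) := by exact_mod_cast up j
  have c2 : (a i : ℝ) * n ≤ (a i * n + b i : ℕ) := by exact_mod_cast Nat.le_add_right _ _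
  rw [div_le_iff₀ ht] at b5
  calc _ ≤ a j * ((1 + t) * n) := c1.trans (by gcongr; linarith)
    _ = (1 + t) * (a j / a i) * (a i * n) := by field_simp
    _ ≤ _ := by gcongr

lemma sqi_one {y m : ℕ} (h1 : rough y m) (h2 : ¬ Squarefree m) : sqi y m = 1 := by
  rw [Nat.squarefree_iff_prime_squarefree] at h2
  push Not at h2
  obtain ⟨p, hp, hd⟩ := h2
  exact if_pos ⟨p, hp, h1 p hp ((dvd_mul_right p p).trans hd), by rwa [sq]⟩

lemma sum_bad (hN : Nrm a b K v) {φ : ℝ → ℝ} {α β δ H : ℝ} (h : Bump φ α β δ H) {N y : ℕ}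
    (hy : 1 ≤ y) (hw : ∀ m, wt φ (Real.log N) m ≠ 0 → m < N) (l : ι) :
    ∑ n ∈ range N, wt φ (Real.log N) (a l * n + b l) * sqi y (a l * n + b l) ≤
      (1 + Real.log N) / y := by
  have e := transfer (hN.lt l) N (fun _ => 1) (fun m => wt φ (Real.log N) m * sqi y m) fun m hm => by
    have : wt φ (Real.log N) m = 0 := by_contra fun h1 => absurd (hw m h1) (by omega)
    simp [this]
  simp only [mul_one] at e
  rw [← e]
  refine le_trans ?_ (sum_sqi_div_le hy N)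
  calc _ ≤ ∑ m ∈ range N, sqi y m / m := sum_le_sum fun m _ => by
        have h1 := sqi_nonneg y m
        have h2 := wt_nonneg h (Real.log N) m
        refine (mul_le_of_le_one_right (by positivity) (by unfold lft; split_ifs <;> simp)).trans ?_
        rw [div_eq_mul_one_div, mul_comm]
        exact mul_le_mul_of_nonneg_left (wt_le h _ _) h1
    _ ≤ ∑ m ∈ insert 0 (Icc 1 N), sqi y m / m :=
        sum_le_sum_of_subset_of_nonneg (fun m hm => by
          simp only [mem_range, mem_insert, mem_Icc] at hm ⊢; omega)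
          fun m _ _ => div_nonneg (sqi_nonneg y m) (Nat.cast_nonneg _)
    _ = _ := by rw [sum_insert (by simp)]; simp

lemma point (hN : Nrm a b K v) (hK2 : 2 ≤ K) {N y y0 D1 : ℕ} {κ ε : ℝ}
    (s : SieveW (GP a y0) D1 κ ε) {μ1 μ2 μ3 : ℕ → ℝ} (hC : IsChen N y0 ∅ μ1 μ3)
    (h2 : ∀ a, 1 ≤ a → Wm μ1 a ≤ Wm μ2 a ∧ 0 ≤ Wm μ2 a ∧
      ((∀ l : ℕ, l.Prime → l ∣ a → zz N < l) → 1 ≤ Wm μ2 a))
    (hS : ∀ a : ℕ, Nl N ≤ a → a ≤ N → Squarefree a → (∀ l : ℕ, l.Prime → l ∣ a → zz N < l) →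
      2 < a.primeFactorsList.length →
      1 - (((Qs N).filter (fun q => q ∣ a)).card : ℝ) / 2 ≤ bet (ck N) a / 2)
    (hck : ∀ k, 0 ≤ ck N k) (hv : v ≤ y0) (hyz : (y : ℝ) ≤ zz N) (hDl : Dl N < Nl N) (hN1 : 1 ≤ N)
    {w1 w2 r : ℝ} (p1 : 0 ≤ w1) (p2 : 0 ≤ w2) (p3 : 0 ≤ r) (i j : ι) (n : ℕ)
    (hw : w1 ≠ 0 → 1 ≤ n ∧ (Nl N ≤ (a i * n + b i : ℕ) ∧ a i * n + b i < N) ∧
      (Nl N ≤ (a j * n + b j : ℕ) ∧ a j * n + b j < N) ∧ w1 ≤ r * w2) (hg : ¬ Good a b i j v n) :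
    Λ (a i * n + b i) * ri y (a i * n + b i) * w1 *
        th2 (GP a y0) s.up (fun p => ev a b univ p n) * Wm μ1 (a j * n + b j) -
      Λ (a i * n + b i) * ri y (a i * n + b i) * w1 *
        th2 (GP a y0) (fun T => s.up T - s.lo T) (fun p => ev a b univ p n) * Wm μ2 (a j * n + b j) -
      Real.log (7 * N) / 2 * r * (bet (ck N) (a j * n + b j) * ri y (a j * n + b j) * w2 *
        th2 (GP a y0) s.up (fun p => ev a b univ p n) * Wm μ3 (a i * n + b i)) ≤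
      Real.log N * (w1 * sqi y (a i * n + b i)) +
        Real.log N * r * (w2 * sqi y (a j * n + b j)) := by
  obtain ⟨-, -, c1, c2, c3, c4⟩ := hC
  have hx : ∀ p ∈ GP a y0, 0 ≤ ev a b univ p n ∧ ev a b univ p n ≤ 1 :=
    fun p _ => ⟨ev_nonneg _ _ _, ev_le_one _ _ _⟩
  have u1 : rg a b y0 n ≤ th2 (GP a y0) s.up (fun p => ev a b univ p n) := s.le_up _ hx
  have u2 : th2 (GP a y0) s.lo (fun p => ev a b univ p n) ≤ rg a b y0 n := s.lo_le _ hx
  have e : th2 (GP a y0) (fun T => s.up T - s.lo T) (fun p => ev a b univ p n) =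
      th2 (GP a y0) s.up (fun p => ev a b univ p n) - th2 (GP a y0) s.lo (fun p => ev a b univ p n) := by
    simp only [th2, sub_mul, sum_sub_distrib]
  rw [e]
  generalize th2 (GP a y0) s.up (fun p => ev a b univ p n) = Tp at u1 ⊢
  generalize th2 (GP a y0) s.lo (fun p => ev a b univ p n) = Tm at u2 ⊢
  have hro := fun h => hN.rough_of_rg (w := y0) (n := n) h
  have r0 := rg_nonneg a b y0 n
  have j1 := form_pos hN hK2 j n
  set Li := a i * n + b i with hLi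
  set Lj := a j * n + b j with hLj
  have hN' : (1 : ℝ) ≤ N := by exact_mod_cast hN1
  have l0 := Real.log_nonneg hN'
  have l7 : Real.log N ≤ Real.log (7 * N) := Real.log_le_log (by linarith) (by linarith)
  have b0 : 0 ≤ bet (ck N) Lj :=
    sum_nonneg fun k _ => mul_nonneg (hck k) ArithmeticFunction.vonMangoldt_nonneg
  have B0 : 0 ≤ Real.log (7 * N) / 2 * r * (bet (ck N) Lj * ri y Lj * w2 * Tp * Wm μ3 Li) := by
    have := (ri_bd y Lj).1; have := c3 Li; have := r0.trans u1; have := l0.trans l7; positivity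
  have q1 : 0 ≤ Real.log N * (w1 * sqi y Li) := by have := sqi_nonneg y Li; positivity
  have q2 : 0 ≤ Real.log N * r * (w2 * sqi y Lj) := by have := sqi_nonneg y Lj; positivity
  have L0 : 0 ≤ Λ Li := ArithmeticFunction.vonMangoldt_nonneg
  have A0 : 0 ≤ Λ Li * ri y Li * w1 := by have := (ri_bd y Li).1; positivity
  obtain ⟨t1, t2, t3⟩ := h2 Lj j1
  rw [mul_assoc _ Tp, mul_assoc _ (Tp - Tm), ← mul_sub]
  set Z := Tp * Wm μ1 Lj - (Tp - Tm) * Wm μ2 Lj with hZ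
  by_cases hz : Λ Li * ri y Li * w1 * Z ≤ 0
  · linarith
  have z0 : 0 < Z := pos_of_mul_pos_right (not_le.1 hz) A0 |> fun h => h
  have z1 : Λ Li * ri y Li * w1 ≠ 0 := fun h => hz (by rw [h, zero_mul])
  obtain ⟨n1, ⟨i1, i2⟩, ⟨j2, j3⟩, hw⟩ := hw (right_ne_zero_of_mul z1)
  have z2 : rough y Li := by_contra fun h => z1 (by simp [ri, h])
  have z3 : rg a b y0 n = 1 := (rg_01 a b y0 n).resolve_left fun h => by
    rw [h] at u1 u2
    nlinarith [mul_nonneg u1 (sub_nonneg.2 t1), mul_nonneg (neg_nonneg.2 u2) t2]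
  replace hro := hro (by rw [z3]; norm_num)
  rw [z3] at u1 u2
  have z4 : 0 < Wm μ1 Lj := by
    by_contra h
    nlinarith [mul_nonneg (show 0 ≤ Tp - Tm by linarith) t2,
      mul_nonneg (show 0 ≤ Tp by linarith) (neg_nonneg.2 (not_lt.1 h))]
  have z5 : ∀ l : ℕ, l.Prime → l ∣ Lj → zz N < l := fun l hl hd => by
    by_contra h
    exact absurd (c1 _ l j1 hl hd (hro j l hl hd) (not_lt.1 h) (notMem_empty l)) z4.not_ge
  have z6 := c2 _ j1 z5
  have z7 : Wm μ1 Lj ≤ 1 := by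
    have : (0 : ℝ) ≤ ((Qs N).filter (fun q => q ∣ Lj)).card := Nat.cast_nonneg _
    linarith
  have z8 : Z ≤ Wm μ1 Lj := by
    nlinarith [mul_nonneg (sub_nonneg.2 u1) (sub_nonneg.2 t1), mul_nonneg (sub_nonneg.2 u2) t2]
  have z9 : rough y Lj := fun p hp hd => by exact_mod_cast hyz.trans_lt (z5 p hp hd)
  have A1 : Λ Li * ri y Li * w1 ≤ Real.log N * w1 := by
    refine mul_le_mul_of_nonneg_right ((mul_le_of_le_one_right L0 (ri_bd y Li).2).trans
      (ArithmeticFunction.vonMangoldt_le_log.trans (log_mono (form_pos hN hK2 i n) i2.le))) p1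
  have A2 : Λ Li * ri y Li * w1 * Z ≤ Real.log N * w1 * Wm μ1 Lj :=
    mul_le_mul A1 z8 z0.le (by positivity)
  have A3 : Real.log N * w1 * Wm μ1 Lj ≤ Real.log N * w1 :=
    mul_le_of_le_one_right (by positivity) z7
  have A4 := mul_le_mul_of_nonneg_left hw l0
  by_cases k1 : Li.Prime
  swap
  · rw [sqi_one z2 fun h => k1 (Nat.squarefree_and_prime_pow_iff_prime.1 ⟨h,
      ArithmeticFunction.vonMangoldt_ne_zero_iff.1 (left_ne_zero_of_mul (left_ne_zero_of_mul z1))⟩)]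
    linarith
  by_cases k2 : Squarefree Lj
  swap
  · rw [sqi_one z9 k2]; linarith
  have k3 := hS Lj j2 j3.le k2 z5 (not_le.1 fun h =>
    hg ⟨n1, k1, h, fun l p hp hd => hv.trans_lt (hro l p hp hd)⟩)
  have k4 := c4 Li k1 (hDl.trans_le i1)
  have k5 : Real.log N * w1 * Wm μ1 Lj ≤
      Real.log (7 * N) / 2 * r * (bet (ck N) Lj * ri y Lj * w2 * Tp * Wm μ3 Li) := by
    rw [ri, if_pos z9]
    calc _ ≤ Real.log (7 * N) * (r * w2) * (bet (ck N) Lj / 2) := by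
          gcongr
          · exact mul_nonneg (l0.trans l7) (mul_nonneg p3 p2)
          · exact l0.trans l7
          · exact z6.trans k3
      _ = Real.log (7 * N) / 2 * r * (bet (ck N) Lj * 1 * w2 * 1 * 1) := by ring
      _ ≤ _ := by have := l0.trans l7; gcongr
  linarith

end Pool.Agent.P.MP_746f10_nt.UC.RegP
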